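import Mathlib

/-!
# MP_f5471b_nt: average over primes
-/

namespace LangForms

namespace Sq

open Finset

theorem log_bound (n : ℕ) (hn : 10 ^ 8 ≤ n) : Real.log n ≤ 4 * (n : ℝ) / 10 ^ 6 ∧
    2 * Real.sqrt n * Real.log n ≤ 8 * (n : ℝ) / 100 := by
  have hn' : (10 : ℝ) ^ 8 ≤ n := by exact_mod_cast hn
  have hn0 : (0 : ℝ) < n := by linarith
  obtain ⟨z, hz⟩ : ∃ z : ℝ, z = (n : ℝ) ^ (1 / 4 : ℝ) := ⟨_, rfl⟩
  have hz0 : 0 < z := by rw [hz]; positivity
  have hz4 : z ^ 4 = n := by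
    rw [hz, ← Real.rpow_natCast, ← Real.rpow_mul hn0.le]
    norm_num
  have hz100 : 100 ≤ z := by
    have h1 : (100 : ℝ) ^ 4 ≤ z ^ 4 := by rw [hz4]; linarith
    exact le_of_pow_le_pow_left₀ (by norm_num) hz0.le h1
  have hlog : Real.log n ≤ 4 * z := by
    have h1 := Real.log_le_rpow_div hn0.le (by norm_num : (0 : ℝ) < 1 / 4)
    rw [← hz] at h1
    linarith
  have hsq : Real.sqrt n = z ^ 2 := by
    rw [← hz4, show z ^ 4 = (z ^ 2) ^ 2 by ring, Real.sqrt_sq (by positivity)]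
  constructor
  · refine hlog.trans ?_
    rw [← hz4, le_div_iff₀ (by norm_num)]
    have h1 : (100 : ℝ) ^ 3 ≤ z ^ 3 := pow_le_pow_left₀ (by norm_num) hz100 3
    calc 4 * z * 10 ^ 6 = 4 * z * 100 ^ 3 := by norm_num
      _ ≤ 4 * z * z ^ 3 := mul_le_mul_of_nonneg_left h1 (by positivity)
      _ = _ := by ring
  · rw [hsq, ← hz4, le_div_iff₀ (by norm_num)]
    calc 2 * z ^ 2 * Real.log (z ^ 4) * 100 ≤ 2 * z ^ 2 * (4 * z) * z := by
          have h2 : Real.log (z ^ 4) ≤ 4 * z := by rw [hz4]; exact hlog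
          have h3 : 0 ≤ Real.log (z ^ 4) := by
            rw [hz4]; exact Real.log_nonneg (by linarith)
          have h4 : 2 * z ^ 2 * Real.log (z ^ 4) ≤ 2 * z ^ 2 * (4 * z) :=
            mul_le_mul_of_nonneg_left h2 (by positivity)
          exact mul_le_mul h4 hz100 (by norm_num) (by positivity)
      _ = 8 * z ^ 4 := by ring

theorem theta_half (n : ℕ) (hn : 10 ^ 8 ≤ n) : (n : ℝ) / 2 ≤ Chebyshev.theta n := by
  have hn' : (10 : ℝ) ^ 8 ≤ n := by exact_mod_cast hn
  have hn0 : (0 : ℝ) < n := by linarith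
  have h1 := Chebyshev.theta_ge n
  obtain ⟨h2, h3⟩ := log_bound n hn
  have h4 : Real.log ((n : ℝ) + 1) ≤ Real.log n + 1 := by
    have e : (n : ℝ) + 1 = n * (1 + 1 / n) := by field_simp
    rw [e, Real.log_mul hn0.ne' (by positivity)]
    have h5 := Real.log_le_sub_one_of_pos (show (0 : ℝ) < 1 + 1 / n by positivity)
    have h6 : 1 / (n : ℝ) ≤ 1 := by
      rw [div_le_one hn0]; linarith
    linarith
  have h5 := Real.log_two_gt_d9
  have h6 : (n : ℝ) * 0.69 ≤ n * Real.log 2 := mul_le_mul_of_nonneg_left (by linarith) hn0.le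
  linarith

/-- The sum of `log p` over prime divisors. -/
theorem sum_log_dvd (A m : ℕ) (hm : 1 ≤ m) :
    ∑ p ∈ (Nat.primesLE A).filter (fun p => p ∣ m), Real.log p ≤ Real.log m := by
  have h1 : (Nat.primesLE A).filter (fun p => p ∣ m) ⊆ m.primeFactors := by
    intro p hp
    rw [mem_filter] at hp
    exact Nat.mem_primeFactors.2 ⟨Nat.prime_of_mem_primesLE hp.1, hp.2, by omega⟩
  have h2 : ∑ p ∈ (Nat.primesLE A).filter (fun p => p ∣ m), Real.log p ≤
      ∑ p ∈ m.primeFactors, Real.log p :=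
    sum_le_sum_of_subset_of_nonneg h1 fun p _ _ => Real.log_natCast_nonneg p
  refine h2.trans ?_
  rw [← Real.log_prod (fun p hp => by
    have := (Nat.prime_of_mem_primeFactors hp).pos
    positivity)]
  have h3 : ((∏ p ∈ m.primeFactors, p : ℕ) : ℝ) ≤ m := by
    exact_mod_cast Nat.le_of_dvd hm (Nat.prod_primeFactors_dvd m)
  push_cast at h3
  refine Real.log_le_log ?_ h3
  exact prod_pos fun p hp => by
    have := (Nat.prime_of_mem_primeFactors hp).pos
    exact_mod_cast this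

theorem prime_avg (I : ℕ → ℝ) (A N : ℕ) (hA : 10 ^ 8 ≤ A) (hN : 1 ≤ N)
    (hI : ∀ m, 1 ≤ m → 0 ≤ I m) :
    ∃ p : ℕ, 1 ≤ p ∧ p ≤ A ∧ (A : ℝ) / 2 * ∑ l ∈ range N, I (p * (l + 1)) ≤
      Real.log ((A * N : ℕ) : ℝ) * ∑ m ∈ Ico 1 (A * N + 1), I m := by
  by_contra hcon
  push Not at hcon
  obtain ⟨R, hR⟩ : ∃ R, R = Real.log ((A * N : ℕ) : ℝ) * ∑ m ∈ Ico 1 (A * N + 1), I m := ⟨_, rfl⟩
  obtain ⟨S, hS⟩ : ∃ S : ℕ → ℝ, S = fun p => ∑ l ∈ range N, I (p * (l + 1)) := ⟨_, rfl⟩
  have hA0 : (0 : ℝ) < A := by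
    have : (10 : ℝ) ^ 8 ≤ A := by exact_mod_cast hA
    linarith
  have hS0 : ∀ p, 1 ≤ p → 0 ≤ S p := fun p hp => by
    rw [hS]
    exact sum_nonneg fun l _ => hI _ (Nat.mul_pos hp (by omega))
  have h1 : ∀ p ∈ Nat.primesLE A, R < (A : ℝ) / 2 * S p := by
    intro p hp
    rw [hR, hS]
    exact hcon p (Nat.prime_of_mem_primesLE hp).one_le (Nat.le_of_mem_primesLE hp)
  have hR0 : 0 ≤ R := by
    rw [hR]
    exact mul_nonneg (Real.log_natCast_nonneg _) (sum_nonneg fun m hm => hI m (mem_Ico.1 hm).1)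
  -- lower bound
  have h2 : R < ∑ p ∈ Nat.primesLE A, Real.log p * S p := by
    have hth := theta_half A hA
    rw [Chebyshev.theta_eq_sum_primesLE_log] at hth
    have h3 : (∑ p ∈ Nat.primesLE A, Real.log p) * (R / (A / 2)) <
        ∑ p ∈ Nat.primesLE A, Real.log p * S p := by
      rw [sum_mul]
      have hmem : 2 ∈ Nat.primesLE A := by
        rw [Nat.mem_primesLE]
        exact ⟨by omega, Nat.prime_two⟩
      apply sum_lt_sum_of_nonempty ⟨2, hmem⟩
      intro p hp
      have hp2 := (Nat.prime_of_mem_primesLE hp).one_lt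
      have hlog : 0 < Real.log p := Real.log_pos (by exact_mod_cast hp2)
      refine mul_lt_mul_of_pos_left ?_ hlog
      rw [div_lt_iff₀ (by positivity)]
      have := h1 p hp
      linarith
    refine lt_of_le_of_lt ?_ h3
    calc R = (A : ℝ) / 2 * (R / (A / 2)) := by field_simp
      _ ≤ _ := mul_le_mul_of_nonneg_right hth (by positivity)
  -- upper bound
  have h3 : ∑ p ∈ Nat.primesLE A, Real.log p * S p ≤ R := by
    have h4 : ∀ p ∈ Nat.primesLE A, Real.log p * S p ≤
        ∑ m ∈ Ico 1 (A * N + 1), if p ∣ m then Real.log p * I m else 0 := by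
      intro p hp
      have hpp := (Nat.prime_of_mem_primesLE hp)
      have hpA := Nat.le_of_mem_primesLE hp
      rw [← sum_filter, ← mul_sum]
      refine mul_le_mul_of_nonneg_left ?_ (Real.log_natCast_nonneg p)
      rw [hS]
      have h5 : ∑ l ∈ range N, I (p * (l + 1)) =
          ∑ m ∈ (range N).image (fun l => p * (l + 1)), I m := by
        rw [sum_image]
        intro a _ b _ hab
        have := Nat.eq_of_mul_eq_mul_left hpp.pos hab
        omega
      simp only
      rw [h5]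
      refine sum_le_sum_of_subset_of_nonneg ?_ ?_
      · intro m hm
        rw [mem_image] at hm
        obtain ⟨l, hl, rfl⟩ := hm
        rw [mem_range] at hl
        rw [mem_filter, mem_Ico]
        refine ⟨⟨Nat.mul_pos hpp.pos (by omega), ?_⟩, Dvd.intro _ rfl⟩
        have : p * (l + 1) ≤ A * N := Nat.mul_le_mul hpA (by omega)
        omega
      · intro m hm _
        rw [mem_filter, mem_Ico] at hm
        exact hI m hm.1.1
    refine (sum_le_sum h4).trans ?_
    rw [sum_comm, hR, mul_sum]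
    refine sum_le_sum fun m hm => ?_
    rw [mem_Ico] at hm
    rw [← sum_filter, ← sum_mul]
    refine mul_le_mul_of_nonneg_right ?_ (hI m hm.1)
    refine (sum_log_dvd A m hm.1).trans ?_
    refine Real.log_le_log (by exact_mod_cast hm.1) ?_
    exact_mod_cast (by omega : m ≤ A * N)
  linarith

end Sq

end LangForms
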