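import Pool.Agent.Lib_MP_f5471b_s.Contra
import Pool.Agent.Lib_MP_f5471b_s.PAvg

/-!
# MP_f5471b_nt: the lower bound for `q`
-/

namespace LangForms

namespace Sq

open Finset

theorem abs_lower : ∃ c W₀ : ℝ, 0 < c ∧ 1 ≤ W₀ ∧
    ∀ {α : Type} (T : Finset α) (L θ : α → ℝ) (n : α → ℕ) (q E : ℝ), Upper T L θ q E →
    (∀ v ∈ T, 1 ≤ n v) → (∀ v ∈ T, (n v : ℝ) ≤ 2 * L v) →
    (∀ v ∈ T, ∃ a : ℤ, θ v * (2 * n v) = a) → W₀ ≤ ∑ v ∈ T, L v →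
    E ≤ c * Real.sqrt (∑ v ∈ T, L v) / Real.log (∑ v ∈ T, L v) →
    c / (Real.sqrt (∑ v ∈ T, L v) * Real.log (∑ v ∈ T, L v) ^ 3) ≤ q := by
  obtain ⟨c', W₀', hc', hW₀', hcontra⟩ := contra
  obtain ⟨c, hc⟩ : ∃ c : ℝ, c = min c' 1 / 10 ^ 40 := ⟨_, rfl⟩
  have hmin : 0 < min c' 1 := lt_min hc' one_pos
  have hc0 : 0 < c := by rw [hc]; positivity
  have hc1 : c ≤ 1 / 10 ^ 40 := by
    rw [hc]
    exact div_le_div_of_nonneg_right (min_le_right _ _) (by norm_num)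
  have hc2 : c * 10 ^ 40 ≤ c' := by
    rw [hc, div_mul_cancel₀ _ (by norm_num)]
    exact min_le_left _ _
  refine ⟨c, max W₀' (10 ^ 48), hc0, hW₀'.trans (le_max_left _ _), ?_⟩
  intro α T L θ n q E hU hn1 hn2 hn3 hW₀ hE
  by_contra hcon
  push Not at hcon
  have hq0 := hU.q_nonneg
  have hE0 := hU.E_nonneg
  obtain ⟨W, hW⟩ : ∃ W, W = ∑ v ∈ T, L v := ⟨_, rfl⟩
  obtain ⟨s, hs⟩ : ∃ s, s = Real.sqrt W := ⟨_, rfl⟩
  obtain ⟨ℓ, hℓ⟩ : ∃ ℓ, ℓ = Real.log W := ⟨_, rfl⟩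
  rw [← hW, ← hs, ← hℓ] at hcon hE
  rw [← hW] at hW₀
  have hW48 : (10 : ℝ) ^ 48 ≤ W := (le_max_right _ _).trans hW₀
  have hW0 : 0 < W := by linarith
  have hs2 : s ^ 2 = W := by rw [hs]; exact Real.sq_sqrt hW0.le
  have hs24 : (10 : ℝ) ^ 24 ≤ s := by
    rw [hs]
    refine Real.le_sqrt_of_sq_le ?_
    calc ((10 : ℝ) ^ 24) ^ 2 = 10 ^ 48 := by norm_num
      _ ≤ W := hW48
  have hs0 : 0 < s := by linarith
  have hℓ1 : 1 ≤ ℓ := by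
    rw [hℓ, Real.le_log_iff_exp_le hW0]
    have := Real.exp_one_lt_d9
    linarith
  have hℓ0 : 0 < ℓ := by linarith
  have hℓs : 10 ^ 11 * ℓ ≤ s := by
    obtain ⟨z, hz⟩ : ∃ z : ℝ, z = W ^ (1 / 4 : ℝ) := ⟨_, rfl⟩
    have hz0 : 0 < z := by rw [hz]; positivity
    have hz2 : z ^ 2 = s := by
      rw [hz, hs, Real.sqrt_eq_rpow, ← Real.rpow_natCast, ← Real.rpow_mul hW0.le]
      norm_num
    have hz12 : (10 : ℝ) ^ 12 ≤ z := by
      have h1 : ((10 : ℝ) ^ 12) ^ 2 ≤ z ^ 2 := by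
        rw [hz2]
        calc ((10 : ℝ) ^ 12) ^ 2 = 10 ^ 24 := by norm_num
          _ ≤ s := hs24
      exact le_of_pow_le_pow_left₀ (by norm_num) hz0.le h1
    have hlog : ℓ ≤ 4 * z := by
      have h1 := Real.log_le_rpow_div hW0.le (by norm_num : (0 : ℝ) < 1 / 4)
      rw [← hz, ← hℓ] at h1
      linarith
    rw [← hz2]
    nlinarith
  -- the parameters
  obtain ⟨N, hN⟩ : ∃ N : ℕ, N = ⌈2 * s⌉₊ := ⟨_, rfl⟩
  have hN1 : 2 * s ≤ N := by rw [hN]; exact Nat.le_ceil _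
  have hN2 : (N : ℝ) ≤ 3 * s := by
    have h1 : (N : ℝ) < 2 * s + 1 := by
      rw [hN]; exact Nat.ceil_lt_add_one (by positivity)
    linarith
  have hNn : 1 ≤ N := by exact_mod_cast (by linarith : (1 : ℝ) ≤ N)
  obtain ⟨nn, hnn⟩ : ∃ nn : ℕ, nn = 10 * N - 1 := ⟨_, rfl⟩
  have hnn1 : 1 ≤ nn := by omega
  have hnn0 : (0 : ℝ) < nn := by exact_mod_cast hnn1
  have hnn2 : (nn : ℝ) ≤ 30 * s := by
    have h1 : (nn : ℝ) ≤ 10 * N := by exact_mod_cast (by omega : nn ≤ 10 * N)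
    linarith
  obtain ⟨A, hA⟩ : ∃ A : ℕ, A = ⌈10 ^ 8 * ℓ⌉₊ := ⟨_, rfl⟩
  have hA1 : 10 ^ 8 * ℓ ≤ A := by rw [hA]; exact Nat.le_ceil _
  have hA2 : (A : ℝ) ≤ 2 * 10 ^ 8 * ℓ := by
    have h1 : (A : ℝ) < 10 ^ 8 * ℓ + 1 := by
      rw [hA]; exact Nat.ceil_lt_add_one (by positivity)
    linarith
  have hA8 : 10 ^ 8 ≤ A := by
    have : (10 : ℝ) ^ 8 ≤ A := by linarith
    exact_mod_cast this
  have hA0 : (0 : ℝ) < A := by linarith
  obtain ⟨M, hM⟩ : ∃ M : ℕ, M = A * nn := ⟨_, rfl⟩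
  have hM1 : 1 ≤ M := by rw [hM]; exact Nat.mul_pos (by omega) hnn1
  have hM0 : (0 : ℝ) < M := by exact_mod_cast hM1
  have hMle : (M : ℝ) ≤ 6 * 10 ^ 9 * (ℓ * s) := by
    rw [hM]
    push_cast
    calc (A : ℝ) * nn ≤ 2 * 10 ^ 8 * ℓ * (30 * s) := mul_le_mul hA2 hnn2 hnn0.le (by positivity)
      _ = _ := by ring
  have hMW : (M : ℝ) ≤ W := by
    refine hMle.trans ?_
    rw [← hs2]
    nlinarith
  have hlogM : Real.log M ≤ ℓ := by rw [hℓ]; exact Real.log_le_log hM0 hMW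
  -- consequences of the assumption
  have hqs : q * (s * ℓ ^ 3) ≤ c := by
    rw [lt_div_iff₀ (by positivity)] at hcon
    exact hcon.le
  have hEs : E * ℓ ≤ c * s := by
    rw [le_div_iff₀ hℓ0] at hE
    exact hE
  have hqM : 16 * q * (M : ℝ) ^ 3 ≤ W / 100 := by
    calc 16 * q * (M : ℝ) ^ 3 ≤ 16 * q * (6 * 10 ^ 9 * (ℓ * s)) ^ 3 :=
          mul_le_mul_of_nonneg_left (pow_le_pow_left₀ hM0.le hMle 3) (by positivity)
      _ = 16 * (6 * 10 ^ 9) ^ 3 * s ^ 2 * (q * (s * ℓ ^ 3)) := by ring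
      _ ≤ 16 * (6 * 10 ^ 9) ^ 3 * s ^ 2 * c := mul_le_mul_of_nonneg_left hqs (by positivity)
      _ = 16 * (6 * 10 ^ 9) ^ 3 * c * W := by rw [hs2]; ring
      _ ≤ 1 / 100 * W := by
          refine mul_le_mul_of_nonneg_right ?_ hW0.le
          calc 16 * (6 * 10 ^ 9) ^ 3 * c ≤ 16 * (6 * 10 ^ 9) ^ 3 * (1 / 10 ^ 40) :=
                mul_le_mul_of_nonneg_left hc1 (by positivity)
            _ ≤ 1 / 100 := by norm_num
      _ = _ := by ring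
  have hEM : 4 * E * M ≤ W / 100 := by
    calc 4 * E * M ≤ 4 * E * (6 * 10 ^ 9 * (ℓ * s)) :=
          mul_le_mul_of_nonneg_left hMle (by positivity)
      _ = 4 * (6 * 10 ^ 9) * s * (E * ℓ) := by ring
      _ ≤ 4 * (6 * 10 ^ 9) * s * (c * s) := mul_le_mul_of_nonneg_left hEs (by positivity)
      _ = 4 * (6 * 10 ^ 9) * c * W := by rw [← hs2]; ring
      _ ≤ 1 / 100 * W := by
          refine mul_le_mul_of_nonneg_right ?_ hW0.le
          calc 4 * (6 * 10 ^ 9) * c ≤ 4 * (6 * 10 ^ 9) * (1 / 10 ^ 40) :=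
                mul_le_mul_of_nonneg_left hc1 (by positivity)
            _ ≤ 1 / 100 := by norm_num
      _ = _ := by ring
  -- the prime
  obtain ⟨I, hI⟩ : ∃ I : ℕ → ℝ, I = fun m : ℕ => q * (m : ℝ) ^ 2 + E - Bm T L θ m := ⟨_, rfl⟩
  have hI0 : ∀ m, 1 ≤ m → 0 ≤ I m := fun m hm => by
    rw [hI]
    have := hU.le m hm
    simp only
    linarith
  have hdef := defect hU M hM1
  have hIsum : ∑ m ∈ Ico 1 (M + 1), I m ≤ W / 5 := by
    have e : ∑ m ∈ Ico 1 (M + 1), I m =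
        ∑ m ∈ Ico (1 : ℕ) (M + 1), (q * (m : ℝ) ^ 2 + E - Bm T L θ m) := by rw [hI]
    rw [e]
    rw [← hW] at hdef
    linarith
  obtain ⟨p, hp1, hpA, hp⟩ := prime_avg I A nn hA8 hnn1 hI0
  rw [← hM] at hp
  have hp0 : (0 : ℝ) < p := by exact_mod_cast hp1
  have hpA' : (p : ℝ) ≤ 2 * 10 ^ 8 * ℓ := by
    have : (p : ℝ) ≤ A := by exact_mod_cast hpA
    linarith
  have hsumI : ∑ l ∈ range nn, I (p * (l + 1)) ≤ W / 10 ^ 7 := by
    have hS0 : 0 ≤ ∑ m ∈ Ico 1 (M + 1), I m :=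
      sum_nonneg fun m hm => hI0 m (mem_Ico.1 hm).1
    have h1 : (A : ℝ) / 2 * ∑ l ∈ range nn, I (p * (l + 1)) ≤ ℓ * (W / 5) :=
      hp.trans (mul_le_mul hlogM hIsum hS0 hℓ0.le)
    have hX0 : 0 ≤ ∑ l ∈ range nn, I (p * (l + 1)) :=
      sum_nonneg fun l _ => hI0 _ (Nat.mul_pos hp1 (by omega))
    have h2 : 10 ^ 8 * ℓ / 2 * ∑ l ∈ range nn, I (p * (l + 1)) ≤ ℓ * (W / 5) :=
      (mul_le_mul_of_nonneg_right (by linarith) hX0).trans h1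
    have h3 : ℓ * (10 ^ 8 / 2 * ∑ l ∈ range nn, I (p * (l + 1))) ≤ ℓ * (W / 5) := by
      calc ℓ * (10 ^ 8 / 2 * ∑ l ∈ range nn, I (p * (l + 1))) =
          10 ^ 8 * ℓ / 2 * ∑ l ∈ range nn, I (p * (l + 1)) := by ring
        _ ≤ _ := h2
    have h4 := le_of_mul_le_mul_left h3 hℓ0
    linarith
  have hqp : q * (p : ℝ) ^ 2 * (s * ℓ) ≤ 4 * 10 ^ 16 * c := by
    calc q * (p : ℝ) ^ 2 * (s * ℓ) ≤ q * (2 * 10 ^ 8 * ℓ) ^ 2 * (s * ℓ) := by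
          gcongr
      _ = 4 * 10 ^ 16 * (q * (s * ℓ ^ 3)) := by ring
      _ ≤ _ := mul_le_mul_of_nonneg_left hqs (by norm_num)
  have hqp' : q * (p : ℝ) ^ 2 * s ≤ 4 * 10 ^ 16 * c := by
    refine le_trans ?_ hqp
    have h1 : 0 ≤ q * (p : ℝ) ^ 2 * s := by positivity
    calc q * (p : ℝ) ^ 2 * s ≤ q * (p : ℝ) ^ 2 * s * ℓ := le_mul_of_one_le_right h1 hℓ1
      _ = _ := by ring
  have hEc : E ≤ c * s := by
    refine le_trans ?_ hEs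
    exact le_mul_of_one_le_right hE0 hℓ1
  have hBsum : ∑ l ∈ range nn, |Bm T L θ (p * (l + 1))| ≤ W / 1000 := by
    have h1 : ∀ l ∈ range nn, |Bm T L θ (p * (l + 1))| ≤
        I (p * (l + 1)) + (q * (p : ℝ) ^ 2 * (nn : ℝ) ^ 2 + E) := by
      intro l hl
      rw [mem_range] at hl
      have h2 : q * ((p * (l + 1) : ℕ) : ℝ) ^ 2 ≤ q * (p : ℝ) ^ 2 * (nn : ℝ) ^ 2 := by
        push_cast
        have h3 : ((l : ℝ) + 1) ≤ nn := by exact_mod_cast hl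
        have h4 : ((l : ℝ) + 1) ^ 2 ≤ (nn : ℝ) ^ 2 := pow_le_pow_left₀ (by positivity) h3 2
        calc q * ((p : ℝ) * (l + 1)) ^ 2 = q * (p : ℝ) ^ 2 * ((l : ℝ) + 1) ^ 2 := by ring
          _ ≤ _ := mul_le_mul_of_nonneg_left h4 (by positivity)
      have h5 := hI0 (p * (l + 1)) (Nat.mul_pos hp1 (by omega))
      have h6 : I (p * (l + 1)) = q * ((p * (l + 1) : ℕ) : ℝ) ^ 2 + E -
          Bm T L θ (p * (l + 1)) := by rw [hI]
      have h7 : 0 ≤ q * ((p * (l + 1) : ℕ) : ℝ) ^ 2 := by positivity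
      rw [abs_le]
      constructor <;> linarith
    refine (sum_le_sum h1).trans ?_
    rw [sum_add_distrib, sum_const, card_range, nsmul_eq_mul]
    have h2 : (nn : ℝ) * (q * (p : ℝ) ^ 2 * (nn : ℝ) ^ 2) ≤ W / 10 ^ 5 := by
      calc (nn : ℝ) * (q * (p : ℝ) ^ 2 * (nn : ℝ) ^ 2) = q * (p : ℝ) ^ 2 * (nn : ℝ) ^ 3 := by ring
        _ ≤ q * (p : ℝ) ^ 2 * (30 * s) ^ 3 :=
            mul_le_mul_of_nonneg_left (pow_le_pow_left₀ hnn0.le hnn2 3) (by positivity)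
        _ = 27000 * s ^ 2 * (q * (p : ℝ) ^ 2 * s) := by ring
        _ ≤ 27000 * s ^ 2 * (4 * 10 ^ 16 * c) := mul_le_mul_of_nonneg_left hqp' (by positivity)
        _ = 27000 * (4 * 10 ^ 16) * c * W := by rw [hs2]; ring
        _ ≤ 1 / 10 ^ 5 * W := by
            refine mul_le_mul_of_nonneg_right ?_ hW0.le
            calc 27000 * (4 * 10 ^ 16) * c ≤ 27000 * (4 * 10 ^ 16) * (1 / 10 ^ 40) :=
                  mul_le_mul_of_nonneg_left hc1 (by positivity)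
              _ ≤ 1 / 10 ^ 5 := by norm_num
        _ = _ := by ring
    have h3 : (nn : ℝ) * E ≤ W / 10 ^ 5 := by
      calc (nn : ℝ) * E ≤ 30 * s * (c * s) := mul_le_mul hnn2 hEc hE0 (by positivity)
        _ = 30 * c * W := by rw [← hs2]; ring
        _ ≤ 1 / 10 ^ 5 * W := by
            refine mul_le_mul_of_nonneg_right ?_ hW0.le
            calc 30 * c ≤ 30 * (1 / 10 ^ 40) := mul_le_mul_of_nonneg_left hc1 (by positivity)
              _ ≤ 1 / 10 ^ 5 := by norm_num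
        _ = _ := by ring
    rw [mul_add]
    linarith
  refine hcontra T L θ n q E hU hn1 hn2 hn3 ?_ ?_ p hp1 ?_ N ?_ ?_
  · rw [← hW]; exact (le_max_left _ _).trans hW₀
  · rw [← hW, ← hs]
    refine hEc.trans (mul_le_mul_of_nonneg_right ?_ hs0.le)
    refine le_trans ?_ hc2
    exact le_mul_of_one_le_right hc0.le (by norm_num)
  · rw [← hW, ← hs, le_div_iff₀ hs0]
    refine hqp'.trans (le_trans ?_ hc2)
    have : 4 * 10 ^ 16 * c = c * (4 * 10 ^ 16) := by ring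
    rw [this]
    exact mul_le_mul_of_nonneg_left (by norm_num) hc0.le
  · rw [← hW, ← hs]; exact hN
  · rw [← hnn, ← hW]; exact hBsum

end Sq

end LangForms
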