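import Pool.Agent.Lib_MP_f5471b_s.Contra

/-!
# MP_f5471b_nt: the lower bound without logarithms, for positions on circles
-/

namespace LangForms

namespace Sq

open Finset

/-- Iteration of the doubling inequality. -/
theorem halve (J : ℕ → ℝ) (E : ℝ) (R : ℕ)
    (h : ∀ N : ℕ, 2 * N ≤ R → ∑ m ∈ Icc 1 N, J m ≤ 1 / 2 * ∑ m ∈ Icc 1 (2 * N), J m + E * N)
    (s N : ℕ) (hN : 2 ^ s * N ≤ R) :
    ∑ m ∈ Icc 1 N, J m ≤ (1 / 2) ^ s * ∑ m ∈ Icc 1 (2 ^ s * N), J m + s * (E * N) := by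
  induction s with
  | zero => simp
  | succ s ih =>
    have h1 := ih (le_trans (Nat.mul_le_mul_right _
      (Nat.pow_le_pow_right (by norm_num) (Nat.le_succ s))) hN)
    have e : 2 * (2 ^ s * N) = 2 ^ (s + 1) * N := by rw [pow_succ]; ring
    have h2 := h (2 ^ s * N) (by rw [e]; exact hN)
    rw [e] at h2
    have h3 := mul_le_mul_of_nonneg_left h2 (by positivity : (0 : ℝ) ≤ (1 / 2) ^ s)
    have e2 : (1 / 2 : ℝ) ^ s * (1 / 2 * ∑ m ∈ Icc 1 (2 ^ (s + 1) * N), J m +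
        E * ((2 ^ s * N : ℕ) : ℝ)) =
        (1 / 2) ^ (s + 1) * ∑ m ∈ Icc 1 (2 ^ (s + 1) * N), J m + E * N := by
      push_cast
      have : (1 / 2 : ℝ) ^ s * 2 ^ s = 1 := by rw [← mul_pow]; norm_num
      rw [pow_succ]
      linear_combination (E * N) * this
    rw [e2] at h3
    push_cast
    linarith

/-- The estimate on the sizes of the sums at the places, with a function `J` which measures the
negative part. -/
theorem abs_free : ∃ c W₀ : ℝ, 0 < c ∧ 1 ≤ W₀ ∧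
    ∀ {α : Type} (T : Finset α) (L θ : α → ℝ) (n : α → ℕ) (q E : ℝ), Upper T L θ q E →
    (∀ v ∈ T, 1 ≤ n v) → (∀ v ∈ T, (n v : ℝ) ≤ 2 * L v) →
    (∀ v ∈ T, ∃ a : ℤ, θ v * (2 * n v) = a) →
    (∀ R : ℕ, ∃ J : ℕ → ℝ, (∀ m, 0 ≤ J m) ∧
      (∀ m, 1 ≤ m → m ≤ R → J m ≤ q * (m : ℝ) ^ 2 + E - Bm T L θ m) ∧
      (∀ m, 1 ≤ m → m ≤ R → -Bm T L θ m ≤ J m + E) ∧
      ∀ N : ℕ, 2 * N ≤ R → ∑ m ∈ Icc 1 N, J m ≤ 1 / 2 * ∑ m ∈ Icc 1 (2 * N), J m + E * N) →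
    W₀ ≤ ∑ v ∈ T, L v → E ≤ c * Real.sqrt (∑ v ∈ T, L v) →
    c / Real.sqrt (∑ v ∈ T, L v) ≤ q := by
  obtain ⟨c', W₀', hc', hW₀', hcontra⟩ := contra
  obtain ⟨c, hc⟩ : ∃ c : ℝ, c = min c' (1 / 10 ^ 20) := ⟨_, rfl⟩
  have hc0 : 0 < c := by rw [hc]; exact lt_min hc' (by norm_num)
  have hc1 : c ≤ 1 / 10 ^ 20 := by rw [hc]; exact min_le_right _ _
  have hc2 : c ≤ c' := by rw [hc]; exact min_le_left _ _
  refine ⟨c, max W₀' (10 ^ 4), hc0, hW₀'.trans (le_max_left _ _), ?_⟩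
  intro α T L θ n q E hU hn1 hn2 hn3 hJ hW₀ hE
  by_contra hcon
  push Not at hcon
  have hq0 := hU.q_nonneg
  have hE0 := hU.E_nonneg
  obtain ⟨W, hW⟩ : ∃ W, W = ∑ v ∈ T, L v := ⟨_, rfl⟩
  obtain ⟨s, hs⟩ : ∃ s, s = Real.sqrt W := ⟨_, rfl⟩
  rw [← hW, ← hs] at hcon hE
  rw [← hW] at hW₀
  have hW4 : (10 : ℝ) ^ 4 ≤ W := (le_max_right _ _).trans hW₀
  have hW0 : 0 < W := by linarith
  have hs2 : s ^ 2 = W := by rw [hs]; exact Real.sq_sqrt hW0.le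
  have hs100 : (100 : ℝ) ≤ s := by
    rw [hs]
    refine Real.le_sqrt_of_sq_le ?_
    calc (100 : ℝ) ^ 2 = 10 ^ 4 := by norm_num
      _ ≤ W := hW4
  have hs0 : 0 < s := by linarith
  obtain ⟨N, hN⟩ : ∃ N : ℕ, N = ⌈2 * s⌉₊ := ⟨_, rfl⟩
  have hN1 : 2 * s ≤ N := by rw [hN]; exact Nat.le_ceil _
  have hN2 : (N : ℝ) ≤ 3 * s := by
    have h1 : (N : ℝ) < 2 * s + 1 := by
      rw [hN]; exact Nat.ceil_lt_add_one (by positivity)
    linarith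
  have hNn : 1 ≤ N := by exact_mod_cast (by linarith : (1 : ℝ) ≤ N)
  obtain ⟨nn, hnn⟩ : ∃ nn : ℕ, nn = 10 * N - 1 := ⟨_, rfl⟩
  have hnn1 : 1 ≤ nn := by omega
  have hnn0 : (0 : ℝ) < nn := by exact_mod_cast hnn1
  have hnn2 : (nn : ℝ) ≤ 30 * s := by
    have h1 : (nn : ℝ) ≤ 10 * N := by exact_mod_cast (by omega : nn ≤ 10 * N)
    linarith
  obtain ⟨R, hR⟩ : ∃ R : ℕ, R = 2 ^ 12 * nn := ⟨_, rfl⟩
  have hR1 : 1 ≤ R := by rw [hR]; exact Nat.mul_pos (by norm_num) hnn1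
  have hRr : (R : ℝ) = 4096 * nn := by rw [hR]; push_cast; norm_num
  have hqs : q * s ≤ c := by
    rw [lt_div_iff₀ hs0] at hcon
    exact hcon.le
  have hq3 : q * (nn : ℝ) ^ 3 ≤ 27000 * c * W := by
    calc q * (nn : ℝ) ^ 3 ≤ q * (30 * s) ^ 3 :=
          mul_le_mul_of_nonneg_left (pow_le_pow_left₀ hnn0.le hnn2 3) hq0
      _ = 27000 * s ^ 2 * (q * s) := by ring
      _ ≤ 27000 * s ^ 2 * c := mul_le_mul_of_nonneg_left hqs (by positivity)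
      _ = _ := by rw [hs2]; ring
  have hEn : E * nn ≤ 30 * c * W := by
    calc E * nn ≤ c * s * (30 * s) := mul_le_mul hE hnn2 hnn0.le (by positivity)
      _ = 30 * c * s ^ 2 := by ring
      _ = _ := by rw [hs2]
  have hcW : c * W ≤ W / 10 ^ 20 := by
    have := mul_le_mul_of_nonneg_right hc1 hW0.le
    linarith
  obtain ⟨J, hJ0, hJ1, hJ2, hJ3⟩ := hJ R
  have hdef := defect hU R hR1
  rw [← hW] at hdef
  have hJR : ∑ m ∈ Icc 1 R, J m ≤ W / 6 + 16 * q * (R : ℝ) ^ 3 + 4 * E * R := by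
    refine le_trans ?_ hdef
    have e : Ico 1 (R + 1) = Icc 1 R := by ext i; simp
    rw [e]
    refine sum_le_sum fun m hm => ?_
    rw [mem_Icc] at hm
    exact hJ1 m hm.1 hm.2
  have hJn := halve J E R hJ3 12 nn (by rw [hR])
  rw [← hR] at hJn
  have hJn' : ∑ m ∈ Icc 1 nn, J m ≤ W / 20000 := by
    have h1 : (1 / 2 : ℝ) ^ 12 * ∑ m ∈ Icc 1 R, J m ≤
        (1 / 2 : ℝ) ^ 12 * (W / 6 + 16 * q * (R : ℝ) ^ 3 + 4 * E * R) :=
      mul_le_mul_of_nonneg_left hJR (by positivity)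
    have h2 : (1 / 2 : ℝ) ^ 12 * (W / 6 + 16 * q * (R : ℝ) ^ 3 + 4 * E * R) =
        W / 24576 + 16 * 4096 ^ 2 * (q * (nn : ℝ) ^ 3) + 4 * (E * nn) := by
      rw [hRr]
      ring
    rw [h2] at h1
    push_cast at hJn
    linarith
  have hBsum : ∑ l ∈ range nn, |Bm T L θ (1 * (l + 1))| ≤ W / 1000 := by
    have h1 : ∀ l ∈ range nn, |Bm T L θ (1 * (l + 1))| ≤
        J (l + 1) + (q * (nn : ℝ) ^ 2 + 2 * E) := by
      intro l hl
      rw [mem_range] at hl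
      rw [one_mul]
      have h3 : (((l + 1 : ℕ) : ℝ)) ≤ nn := by exact_mod_cast hl
      have h4 : ((l + 1 : ℕ) : ℝ) ^ 2 ≤ (nn : ℝ) ^ 2 := pow_le_pow_left₀ (by positivity) h3 2
      have h5 := mul_le_mul_of_nonneg_left h4 hq0
      have h6 := hU.le (l + 1) (by omega)
      have h7 := hJ2 (l + 1) (by omega) (by rw [hR]; omega)
      have h8 := hJ0 (l + 1)
      have h9 : 0 ≤ q * (nn : ℝ) ^ 2 := by positivity
      rw [abs_le]
      constructor <;> linarith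
    refine (sum_le_sum h1).trans ?_
    rw [sum_add_distrib, sum_const, card_range, nsmul_eq_mul]
    have h2 : ∑ l ∈ range nn, J (l + 1) = ∑ m ∈ Icc 1 nn, J m := by
      have e : Icc 1 nn = Ico 1 (nn + 1) := by ext i; simp
      rw [e, sum_Ico_eq_sum_range]
      refine sum_congr rfl fun i _ => ?_
      rw [add_comm 1 i]
    rw [h2]
    have h3 : (nn : ℝ) * (q * (nn : ℝ) ^ 2 + 2 * E) = q * (nn : ℝ) ^ 3 + 2 * (E * nn) := by ring
    rw [h3]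
    linarith
  refine hcontra T L θ n q E hU hn1 hn2 hn3 ?_ ?_ 1 le_rfl ?_ N ?_ ?_
  · rw [← hW]; exact (le_max_left _ _).trans hW₀
  · rw [← hW, ← hs]
    exact hE.trans (mul_le_mul_of_nonneg_right hc2 hs0.le)
  · rw [← hW, ← hs, le_div_iff₀ hs0]
    norm_num
    exact hqs.trans hc2
  · rw [← hW, ← hs]; exact hN
  · rw [← hnn, ← hW]; exact hBsum

end Sq

end LangForms
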