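import Pool.Agent.Lib_MP_f5471b_j.Defs

/-!
# MP_f5471b_nt: the radical of the bad reduction
-/

namespace LangForms

open NumberField WeierstrassCurve

/-- `W` has good reduction at the finite place `v`: some change of variables over `K` leads to an
equation whose coefficients are integral at `v` and whose discriminant is a unit at `v`. -/
def GoodAt {K : Type} [Field K] [NumberField K] (W : WeierstrassCurve K) (v : FinitePlace K) :
    Prop :=
  ∃ C : VariableChange K, v (C • W).a₁ ≤ 1 ∧ v (C • W).a₂ ≤ 1 ∧ v (C • W).a₃ ≤ 1 ∧
    v (C • W).a₄ ≤ 1 ∧ v (C • W).a₆ ≤ 1 ∧ v (C • W).Δ = 1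

open Classical in
/-- The archimedean part of the height of `j` plus the logarithm of the norm of the product of the
prime ideals at which `W` has bad reduction, divided by the degree of `K`. -/
noncomputable def hB {K : Type} [Field K] [NumberField K] (W : WeierstrassCurve K)
    [W.IsElliptic] : ℝ :=
  (∑ v : InfinitePlace K, v.mult * Real.posLog (v W.j) +
    ∑ᶠ v : FinitePlace K, if GoodAt W v then 0 else Real.log (plNorm v)) / Module.finrank ℚ K

end LangForms
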