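import Pool.Agent.Lib_MP_f5471b_s.GlobOne

/-!
# MP_f5471b_nt: the canonical height and the sum of the local terms, two-sided
-/

namespace LangForms

open Height NumberField WeierstrassCurve Topology Filter IsDedekindDomain Function

namespace Sq

theorem Lt_nonneg {F : Type} [Field F] (v : AbsoluteValue F ℝ) (t : F) (h1 : v t ≤ 1) :
    0 ≤ Lt v t := by
  unfold Lt
  have := Real.log_nonpos (v.nonneg t) h1
  linarith

theorem phi_lower {F : Type} [Field F] (v : AbsoluteValue F ℝ) (t : F) (h0 : 0 < v t)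
    (h1 : v t ≤ 1) (w : Fin 2 → F) : -Lt v t ≤ phi v t w := by
  have a := Lt_nonneg v t h1
  have b := rho_le v t h0 w
  have c : 0 ≤ rho v t w ^ 2 / Lt v t := by positivity
  unfold phi
  linarith

theorem phi_upper {F : Type} [Field F] (v : AbsoluteValue F ℝ) (t : F) (h0 : 0 < v t)
    (h1 : v t < 1) (w : Fin 2 → F) : phi v t w ≤ Lt v t := by
  have a : 0 < Lt v t := by
    unfold Lt
    have := Real.log_neg h0 h1
    linarith
  have b := rho_le v t h0 w
  have b0 := rho_nonneg v t h1.le w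
  have c : rho v t w ^ 2 / Lt v t ≤ rho v t w := by
    rw [div_le_iff₀ a]
    nlinarith
  unfold phi
  linarith

theorem Jl_upper {F : Type} [Field F] (v : AbsoluteValue F ℝ) (t : F) (hκ : 1 + 1728 * t ≠ 0)
    (w : Fin 2 → F) (hw : w 1 ≠ 0) :
    Jl v t w ≤ Real.log (nrm v w) - Real.log (v (w 1)) +
      (Real.log (13 * max 1 (Sc v t)) - Real.log (Sc v t)) := by
  have hS := Sc_pos v t hκ
  have hM := M_pos v t hκ w hw
  have hn := nrm_pos v (fun h => hw (by rw [h]; rfl) : w ≠ 0)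
  have hend : NDA.M v (Sc v t) w ≤ 13 * max 1 (Sc v t) * nrm v w := by
    have n0 : v (w 0) ≤ nrm v w := le_max_left _ _
    have n1 : v (w 1) ≤ nrm v w := le_max_right _ _
    have m1 : (1 : ℝ) ≤ max 1 (Sc v t) := le_max_left _ _
    have m2 : Sc v t ≤ max 1 (Sc v t) := le_max_right _ _
    apply max_le
    · have h12 := NDA.ofNat_le v 12 (F := F)
      have := v.nonneg (w 0)
      calc v (12 * w 0 + w 1) ≤ v (12 * w 0) + v (w 1) := v.add_le _ _
        _ = v 12 * v (w 0) + v (w 1) := by rw [v.map_mul]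
        _ ≤ 12 * nrm v w + nrm v w := by gcongr
        _ = 13 * 1 * nrm v w := by ring
        _ ≤ _ := by gcongr
    · have := v.nonneg (w 1)
      calc Sc v t * v (w 1) ≤ max 1 (Sc v t) * nrm v w := by gcongr
        _ = 1 * max 1 (Sc v t) * nrm v w := by ring
        _ ≤ _ := by gcongr; norm_num
  have l1 := Real.log_le_log hM hend
  rw [Real.log_mul (by positivity) hn.ne'] at l1
  rw [Jl_eq v t hκ w hw]
  linarith

theorem Jl_upper_na {F : Type} [Field F] (v : AbsoluteValue F ℝ) (hv : IsNonarchimedean v)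
    (t : F) (hk : v (1 + 1728 * t) = 1) (hκ : 1 + 1728 * t ≠ 0)
    (w : Fin 2 → F) (hw : w 1 ≠ 0) :
    Jl v t w ≤ Real.log (nrm v w) - Real.log (v (w 1)) := by
  have hS := Sc_eq_one v t hk
  have hM := M_pos v t hκ w hw
  have hn := nrm_pos v (fun h => hw (by rw [h]; rfl) : w ≠ 0)
  have hend : NDA.M v (Sc v t) w ≤ nrm v w := by
    rw [hS]
    have n0 : v (w 0) ≤ nrm v w := le_max_left _ _
    have n1 : v (w 1) ≤ nrm v w := le_max_right _ _
    apply max_le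
    · apply NDEAux.na_le hv _ n1
      rw [map_mul]
      have h12 := na_ofNat_le v hv 12
      have := v.nonneg (w 0)
      calc v 12 * v (w 0) ≤ 1 * nrm v w := by gcongr
        _ = _ := one_mul _
    · rw [one_mul]; exact n1
  have l1 := Real.log_le_log hM hend
  have l2 : Real.log (Sc v t) = 0 := by rw [hS, Real.log_one]
  rw [Jl_eq v t hκ w hw, l2]
  linarith

variable {F : Type} [Field F] [NumberField F]

/-- The sum of the local terms is bounded below, not uniformly in the curve. -/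
theorem fQ_lower (t : F) (ht : t ≠ 0) (ε : ℝ) (hε1 : ε < 1) (Tf : Finset (FinitePlace F))
    (hTf : ∀ v, v ∈ Tf ↔ v t < 1) : ∃ A : ℝ, ∀ w : Fin 2 → F, A ≤ fQ t ε Tf w := by
  refine ⟨-∑ v ∈ Tf, Lt v.1 t - ∑ v : InfinitePlace F, (if v.1 t ≤ ε then v.mult * Lt v.1 t else 0),
    fun w => ?_⟩
  have h1 : -∑ v ∈ Tf, Lt v.1 t ≤ ∑ v ∈ Tf, phi v.1 t w := by
    rw [← Finset.sum_neg_distrib]
    apply Finset.sum_le_sum
    intro v hv
    have h2 : v.1 t < 1 := (hTf v).mp hv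
    exact phi_lower v.1 t (v.1.pos ht) h2.le w
  have h2 : -∑ v : InfinitePlace F, (if v.1 t ≤ ε then v.mult * Lt v.1 t else 0) ≤
      ∑ v : InfinitePlace F, (if v.1 t ≤ ε then v.mult * phi v.1 t w else 0) := by
    rw [← Finset.sum_neg_distrib]
    apply Finset.sum_le_sum
    intro v _
    split_ifs with h
    · have h3 := phi_lower v.1 t (v.1.pos ht) (by linarith) w
      have h4 := mul_le_mul_of_nonneg_left h3 (Nat.cast_nonneg v.mult)
      linarith
    · simp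
  have h3 : 0 ≤ ∑ v : InfinitePlace F, v.mult * Jl v.1 t w :=
    Finset.sum_nonneg fun v _ => mul_nonneg (Nat.cast_nonneg _) (Jl_nonneg _ _ _)
  have h4 : 0 ≤ ∑ᶠ v : FinitePlace F, Jl v.1 t w :=
    finsum_nonneg fun v => Jl_nonneg _ _ _
  unfold fQ
  linarith

/-- The sum of the local terms is at most the height, up to a constant depending on the curve. -/
theorem fQ_upper (t : F) (ht : t ≠ 0) (hκ : 1 + 1728 * t ≠ 0) (ε : ℝ) (hε1 : ε < 1)
    (Tf : Finset (FinitePlace F)) (hTf : ∀ v, v ∈ Tf ↔ v t < 1) :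
    ∃ A : ℝ, ∀ w : Fin 2 → F, w 1 ≠ 0 → fQ t ε Tf w ≤ logHeight w + A := by
  classical
  obtain ⟨T1, hT1⟩ := ex_supp (1 + 1728 * t) hκ
  obtain ⟨a, ha⟩ : ∃ a : AbsoluteValue F ℝ → ℝ,
      a = fun v => Real.log (13 * max 1 (Sc v t)) - Real.log (Sc v t) := ⟨_, rfl⟩
  refine ⟨∑ v ∈ Tf, Lt v.1 t + ∑ v : InfinitePlace F, (if v.1 t ≤ ε then v.mult * Lt v.1 t else 0) +
    ∑ v : InfinitePlace F, v.mult * a v.1 + ∑ v ∈ T1, a v.1, fun w hw => ?_⟩
  have hw0 : w ≠ 0 := fun h => hw (by rw [h]; rfl)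
  obtain ⟨T2, hT2⟩ := ex_supp (w 1) hw
  obtain ⟨T3, hT3⟩ := ex_supp_nrm w hw0
  obtain ⟨T, hT⟩ : ∃ T : Finset (FinitePlace F), T = T1 ∪ T2 ∪ T3 := ⟨_, rfl⟩
  have i1 : T1 ⊆ T := by
    intro v hv; rw [hT]; simp only [Finset.mem_union]; tauto
  have i2 : ∀ v : FinitePlace F, v ∉ T → v.1 (w 1) = 1 := by
    intro v hv; apply hT2; intro h; apply hv; rw [hT]; simp only [Finset.mem_union]; tauto
  have i3 : ∀ v : FinitePlace F, v ∉ T → nrm v.1 w = 1 := by
    intro v hv; apply hT3; intro h; apply hv; rw [hT]; simp only [Finset.mem_union]; tauto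
  have i4 : ∀ v : FinitePlace F, v ∉ T → Jl v.1 t w = 0 := by
    intro v hv
    refine Jl_zero v t w ?_ (i2 v hv) (i3 v hv)
    apply hT1; intro h; apply hv; rw [hT]; simp only [Finset.mem_union]; tauto
  rw [fQ_eq t ε Tf T w i4, logHeight_sum w hw0 T i3]
  have hprod := log_product (w 1) hw T i2
  have h1 : ∑ v ∈ Tf, phi v.1 t w ≤ ∑ v ∈ Tf, Lt v.1 t := by
    apply Finset.sum_le_sum
    intro v hv
    have h2 : v.1 t < 1 := (hTf v).mp hv
    exact phi_upper v.1 t (v.1.pos ht) h2 w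
  have h2 : ∑ v : InfinitePlace F, (if v.1 t ≤ ε then v.mult * phi v.1 t w else 0) ≤
      ∑ v : InfinitePlace F, (if v.1 t ≤ ε then v.mult * Lt v.1 t else 0) := by
    apply Finset.sum_le_sum
    intro v _
    split_ifs with h
    · exact mul_le_mul_of_nonneg_left (phi_upper v.1 t (v.1.pos ht) (by linarith) w)
        (Nat.cast_nonneg v.mult)
    · exact le_rfl
  have h3 : ∑ v : InfinitePlace F, v.mult * Jl v.1 t w ≤
      ∑ v : InfinitePlace F, v.mult * Real.log (nrm v.1 w) -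
      ∑ v : InfinitePlace F, v.mult * Real.log (v.1 (w 1)) +
      ∑ v : InfinitePlace F, v.mult * a v.1 := by
    rw [← Finset.sum_sub_distrib, ← Finset.sum_add_distrib]
    apply Finset.sum_le_sum
    intro v _
    have h4 := Jl_upper v.1 t hκ w hw
    have h5 := mul_le_mul_of_nonneg_left h4 (Nat.cast_nonneg v.mult)
    rw [ha]
    simp only
    linarith
  have h4 : ∑ v ∈ T, Jl v.1 t w ≤
      ∑ v ∈ T, Real.log (nrm v.1 w) - ∑ v ∈ T, Real.log (v.1 (w 1)) + ∑ v ∈ T1, a v.1 := by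
    have h5 : ∑ v ∈ T1, a v.1 = ∑ v ∈ T, (if v ∈ T1 then a v.1 else 0) := by
      rw [Finset.sum_ite_mem, Finset.inter_eq_right.mpr i1]
    rw [h5, ← Finset.sum_sub_distrib, ← Finset.sum_add_distrib]
    apply Finset.sum_le_sum
    intro v _
    split_ifs with h
    · have h6 := Jl_upper v.1 t hκ w hw
      rw [ha]
      exact h6
    · rw [add_zero]
      exact Jl_upper_na v.1 (fin_na v) t (hT1 v h) hκ w hw
  linarith

/-- The canonical height and the sum of the local terms. -/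
theorem can_two (d : ℕ) (ε c : ℝ) (hε : 0 < ε) (hε1 : ε ≤ 1 / 3456) (hc : 0 ≤ c)
    (hdup : ∀ (F : Type) [Field F] (v : AbsoluteValue F ℝ) (t : F), 0 < v t → v t ≤ ε →
      DupLow v t c ∧ DupRho v t c) :
    ∃ C : ℝ, 0 ≤ C ∧ ∀ (F : Type) [Field F] [NumberField F], Module.finrank ℚ F ≤ d →
    ∀ t : F, t ≠ 0 → 1 + 1728 * t ≠ 0 → ∀ (X : Type) [AddCommGroup X] (ξ : X → Fin 2 → F),
    XMap t ξ → ∀ Tf : Finset (FinitePlace F), (∀ v, v ∈ Tf ↔ v t < 1) →
    ∀ (Q : X) (h : ℝ), (∀ n : ℕ, 1 ≤ n → n • Q ≠ 0) →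
    Tendsto (fun n : ℕ => logHeight (ξ ((2 ^ n) • Q)) / 4 ^ n) atTop (𝓝 h) →
    fQ t ε Tf (ξ Q) ≤ h + C ∧ -C ≤ fQ t ε Tf (ξ Q) := by
  obtain ⟨C, hC0, hC⟩ := glob_step d ε c hε hε1 hc hdup
  refine ⟨C / 3, by positivity, ?_⟩
  intro F _ _ hd t ht hκ X _ ξ hξ Tf hTf Q h hQ hlim
  have hε1' : ε < 1 := by linarith
  obtain ⟨A1, hA1⟩ := fQ_lower t ht ε hε1' Tf hTf
  obtain ⟨A2, hA2⟩ := fQ_upper t ht hκ ε hε1' Tf hTf
  obtain ⟨a, ha⟩ : ∃ a : ℕ → ℝ, a = fun n => fQ t ε Tf (ξ ((2 ^ n) • Q)) := ⟨_, rfl⟩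
  have hn0 : ∀ n : ℕ, (2 ^ n) • Q ≠ 0 := fun n => hQ _ (Nat.one_le_two_pow)
  have hn1 : ∀ n : ℕ, ξ ((2 ^ n) • Q) 1 ≠ 0 := fun n h0 => hn0 n ((hξ.zero_iff _).mp h0)
  have hstep : ∀ n, |a (n + 1) - 4 * a n| ≤ C := by
    intro n
    obtain ⟨e, he, he2⟩ := hξ.double ((2 ^ n) • Q)
    have e2 : (2 ^ (n + 1)) • Q = (2 ^ n) • Q + (2 ^ n) • Q := by
      rw [pow_succ, mul_two, add_smul]
    have hF : Fm t (ξ ((2 ^ n) • Q)) 1 ≠ 0 := by
      intro h0
      apply hn1 (n + 1)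
      rw [e2, he2, Pi.smul_apply, h0, smul_zero]
    have h1 := hC F hd t ht hκ Tf hTf (ξ ((2 ^ n) • Q)) (hn1 n) hF
    have h2 : a (n + 1) = fQ t ε Tf (Fm t (ξ ((2 ^ n) • Q))) := by
      rw [ha]
      simp only
      rw [e2, he2]
      exact fQ_smul t hκ ε Tf e he _ hF
    rw [h2, ha]
    exact h1
  have ha0 : fQ t ε Tf (ξ Q) = a 0 := by
    rw [ha]
    simp
  rw [ha0]
  have hup : ∀ n, a n + C / 3 ≤ 4 ^ n * (a 0 + C / 3) := by
    intro n
    induction n with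
    | zero => simp
    | succ n ih =>
      have h1 := (abs_le.mp (hstep n)).2
      rw [pow_succ]
      linarith
  have hlo : ∀ n, 4 ^ n * (a 0 - C / 3) ≤ a n - C / 3 := by
    intro n
    induction n with
    | zero => simp
    | succ n ih =>
      have h1 := (abs_le.mp (hstep n)).1
      rw [pow_succ]
      linarith
  have hpow : Tendsto (fun n : ℕ => ((1 / 4 : ℝ)) ^ n) atTop (𝓝 0) :=
    tendsto_pow_atTop_nhds_zero_of_lt_one (by norm_num) (by norm_num)
  constructor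
  · -- upper bound by the canonical height
    have h1 : ∀ n : ℕ, a 0 ≤ logHeight (ξ ((2 ^ n) • Q)) / 4 ^ n + (|A2| + C / 3) * (1 / 4) ^ n +
        C / 3 := by
      intro n
      have h4 : (0 : ℝ) < 4 ^ n := by positivity
      have h2 := hlo n
      have h3 := hA2 (ξ ((2 ^ n) • Q)) (hn1 n)
      have h5 : a n = fQ t ε Tf (ξ ((2 ^ n) • Q)) := by rw [ha]
      have h6 := le_abs_self A2
      have h7 : 4 ^ n * (a 0 - C / 3) ≤ logHeight (ξ ((2 ^ n) • Q)) + (|A2| + C / 3) := by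
        linarith
      have h8 : a 0 - C / 3 ≤ (logHeight (ξ ((2 ^ n) • Q)) + (|A2| + C / 3)) / 4 ^ n := by
        rw [le_div_iff₀ h4]
        linarith
      have h9 : (logHeight (ξ ((2 ^ n) • Q)) + (|A2| + C / 3)) / 4 ^ n =
          logHeight (ξ ((2 ^ n) • Q)) / 4 ^ n + (|A2| + C / 3) * (1 / 4) ^ n := by
        rw [one_div, inv_pow]
        field_simp
      linarith
    have h2 : Tendsto (fun n : ℕ => logHeight (ξ ((2 ^ n) • Q)) / 4 ^ n +
        (|A2| + C / 3) * (1 / 4) ^ n + C / 3) atTop (𝓝 (h + (|A2| + C / 3) * 0 + C / 3)) :=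
      (hlim.add (hpow.const_mul _)).add_const _
    rw [mul_zero, add_zero] at h2
    exact ge_of_tendsto' h2 h1
  · -- lower bound
    have h1 : ∀ n : ℕ, -(|A1|) * (1 / 4) ^ n ≤ a 0 + C / 3 := by
      intro n
      have h4 : (0 : ℝ) < 4 ^ n := by positivity
      have h2 := hup n
      have h3 := hA1 (ξ ((2 ^ n) • Q))
      have h5 : a n = fQ t ε Tf (ξ ((2 ^ n) • Q)) := by rw [ha]
      have h6 := neg_abs_le A1
      have h7 : -(|A1|) ≤ 4 ^ n * (a 0 + C / 3) := by linarith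
      have h8 : -(|A1|) / 4 ^ n ≤ a 0 + C / 3 := by
        rw [div_le_iff₀ h4]
        linarith
      have h9 : -(|A1|) / 4 ^ n = -(|A1|) * (1 / 4) ^ n := by
        rw [one_div, inv_pow]
        rfl
      linarith
    have h2 : Tendsto (fun n : ℕ => -(|A1|) * (1 / 4 : ℝ) ^ n) atTop (𝓝 (-(|A1|) * 0)) :=
      hpow.const_mul _
    rw [mul_zero] at h2
    have h3 := le_of_tendsto' h2 h1
    linarith

end Sq

end LangForms
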