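import Pool.Agent.Lib_MP_f5471b_s.Mass

/-!
# MP_f5471b_nt: the lower bound in terms of the radical, abstract form
-/

namespace LangForms

namespace Sq

open Finset

theorem sum_inv_sqrt (K : ℕ) : ∑ k ∈ Icc 1 K, 1 / Real.sqrt k ≤ 2 * Real.sqrt K := by
  induction K with
  | zero => simp
  | succ K ih =>
    rw [sum_Icc_succ_top (by omega)]
    have h1 : 0 ≤ Real.sqrt K := Real.sqrt_nonneg _
    have h2 : 0 < Real.sqrt ((K + 1 : ℕ) : ℝ) := Real.sqrt_pos.2 (by positivity)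
    have h3 : Real.sqrt K ^ 2 = K := Real.sq_sqrt (Nat.cast_nonneg _)
    have h4 : Real.sqrt ((K + 1 : ℕ) : ℝ) ^ 2 = K + 1 := by
      rw [Real.sq_sqrt (Nat.cast_nonneg _)]; push_cast; ring
    have h5 : 1 / Real.sqrt ((K + 1 : ℕ) : ℝ) ≤
        2 * Real.sqrt ((K + 1 : ℕ) : ℝ) - 2 * Real.sqrt K := by
      rw [div_le_iff₀ h2]
      nlinarith [sq_nonneg (Real.sqrt ((K + 1 : ℕ) : ℝ) - Real.sqrt K)]
    linarith

/-- One level: the places with `n v = k`. -/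
theorem level {α : Type} (T : Finset α) (L θ w : α → ℝ) (n : α → ℕ) (q E W y : ℝ)
    (h : Upper T L θ q E) (hw : ∀ v ∈ T, 0 ≤ w v) (hL : ∀ v ∈ T, L v = n v * w v)
    (hn3 : ∀ v ∈ T, ∃ a : ℤ, θ v * (2 * n v) = a) (hW : W = ∑ v ∈ T, L v) (hy : 1 ≤ y)
    (k : ℕ) (hk : 1 ≤ k) (hk3 : (k : ℝ) ≤ 3 * y ^ 2) :
    ∑ v ∈ T.filter (fun v => n v = k), w v ≤
      3 / 100 * (W / y ^ 3) * (1 / Real.sqrt k) + 4320000 * (q * y ^ 6) +
        27 * E * (1 / Real.sqrt k) := by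
  classical
  have hk0 : (0 : ℝ) < k := by exact_mod_cast hk
  have hk1 : (1 : ℝ) ≤ k := by exact_mod_cast hk
  obtain ⟨u, hu⟩ : ∃ u, u = Real.sqrt k := ⟨_, rfl⟩
  have hu0 : 0 < u := by rw [hu]; exact Real.sqrt_pos.2 hk0
  have hu1 : 1 ≤ u := by rw [hu]; exact Real.one_le_sqrt.2 hk1
  have huk : u ^ 2 = k := by rw [hu]; exact Real.sq_sqrt hk0.le
  have hu2 : u ≤ 2 * y := by
    refine le_of_pow_le_pow_left₀ (n := 2) (by norm_num) (by linarith) ?_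
    rw [huk]
    nlinarith [sq_nonneg y]
  have hq0 := h.q_nonneg
  have hE0 := h.E_nonneg
  have hW0 : 0 ≤ W := by rw [hW]; exact sum_nonneg h.L_nonneg
  obtain ⟨N, hN⟩ : ∃ N : ℕ, N = ⌈100 * y ^ 3 / u⌉₊ := ⟨_, rfl⟩
  have hz : 1 ≤ 100 * y ^ 3 / u := by
    rw [le_div_iff₀ hu0]
    have : y ≤ y ^ 3 := by
      have : y * 1 ≤ y * y ^ 2 := mul_le_mul_of_nonneg_left (one_le_pow₀ hy) (by linarith)
      calc y = y * 1 := by ring
        _ ≤ y * y ^ 2 := this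
        _ = y ^ 3 := by ring
    linarith
  have hN1 : 100 * y ^ 3 / u ≤ N := by rw [hN]; exact Nat.le_ceil _
  have hN2 : (N : ℝ) ≤ 200 * y ^ 3 / u := by
    have h1 := (Nat.ceil_lt_add_one (by positivity : 0 ≤ 100 * y ^ 3 / u)).le
    rw [← hN] at h1
    have e : 200 * y ^ 3 / u = 2 * (100 * y ^ 3 / u) := by ring
    rw [e]
    linarith
  have hNR : (1 : ℝ) ≤ N := hz.trans hN1
  have hNnat : 1 ≤ N := by exact_mod_cast hNR
  have hm := mass h N (2 * k) hNnat (by omega)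
  have h1 : (k : ℝ) * ∑ v ∈ T.filter (fun v => n v = k), w v ≤
      Wd T L θ (1 / (10 * N)) (2 * k) := by
    rw [mul_sum, sum_filter, Wd]
    refine sum_le_sum fun v hv => ?_
    by_cases hc : n v = k
    · rw [if_pos hc]
      have h2 : ncirc (((2 * k : ℕ) : ℝ) * θ v) = 0 := by
        obtain ⟨a, ha⟩ := hn3 v hv
        have e : ((2 * k : ℕ) : ℝ) * θ v = (a : ℝ) := by
          rw [← ha, hc]; push_cast; ring
        rw [e, ncirc, round_intCast, sub_self, abs_zero]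
      rw [if_pos (by rw [h2]; positivity), hL v hv, hc]
    · rw [if_neg hc]
      split_ifs
      · exact h.L_nonneg v hv
      · exact le_rfl
  obtain ⟨S, hS⟩ : ∃ S, S = ∑ v ∈ T.filter (fun v => n v = k), w v := ⟨_, rfl⟩
  rw [← hS] at h1 ⊢
  have hS0 : 0 ≤ S := by
    rw [hS]
    exact sum_nonneg fun v hv => hw v (mem_filter.1 hv).1
  rw [← hW] at hm
  have h2 : 3 * W / N ≤ 3 / 100 * (W / y ^ 3) * u := by
    have hy3 : 0 < y ^ 3 := by positivity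
    rw [div_le_iff₀ (by linarith : (0 : ℝ) < N)]
    have h3 : 3 / 100 * (W / y ^ 3) * u * (100 * y ^ 3 / u) = 3 * W := by
      field_simp
    have h4 : 0 ≤ 3 / 100 * (W / y ^ 3) * u := by positivity
    calc 3 * W = 3 / 100 * (W / y ^ 3) * u * (100 * y ^ 3 / u) := h3.symm
      _ ≤ _ := mul_le_mul_of_nonneg_left hN1 h4
  have h3 : 27 * (q * ((2 * k : ℕ) : ℝ) ^ 2) * (N : ℝ) ^ 2 ≤ 4320000 * (q * y ^ 6) * k := by
    have h4 : (N : ℝ) ^ 2 ≤ (200 * y ^ 3 / u) ^ 2 :=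
      pow_le_pow_left₀ (by linarith) hN2 2
    have h5 : 0 ≤ 27 * (q * ((2 * k : ℕ) : ℝ) ^ 2) := by positivity
    refine (mul_le_mul_of_nonneg_left h4 h5).trans (le_of_eq ?_)
    rw [div_pow, huk]
    push_cast
    field_simp
    ring
  have h4 : (k : ℝ) * S ≤ k * (3 / 100 * (W / y ^ 3) * (1 / u) + 4320000 * (q * y ^ 6) +
      27 * E * (1 / u)) := by
    have e1 : (k : ℝ) * (3 / 100 * (W / y ^ 3) * (1 / u)) = 3 / 100 * (W / y ^ 3) * u := by
      rw [← huk]; field_simp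
    have e2 : 27 * E ≤ (k : ℝ) * (27 * E * (1 / u)) := by
      have : (k : ℝ) * (27 * E * (1 / u)) = 27 * E * u := by rw [← huk]; field_simp
      rw [this]
      nlinarith
    have e3 : (k : ℝ) * (3 / 100 * (W / y ^ 3) * (1 / u) + 4320000 * (q * y ^ 6) +
      27 * E * (1 / u)) = k * (3 / 100 * (W / y ^ 3) * (1 / u)) +
        4320000 * (q * y ^ 6) * k + k * (27 * E * (1 / u)) := by ring
    rw [e3, e1]
    linarith
  have h5 := le_of_mul_le_mul_left h4 hk0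
  rw [hu] at h5
  exact h5

/-- The bound `q ≥ c R ^ 5 / W ^ 4`. -/
theorem rad_abs {α : Type} (T : Finset α) (L θ w : α → ℝ) (n : α → ℕ) (q E W R : ℝ)
    (h : Upper T L θ q E) (hn1 : ∀ v ∈ T, 1 ≤ n v) (hw : ∀ v ∈ T, 0 ≤ w v)
    (hL : ∀ v ∈ T, L v = n v * w v) (hn3 : ∀ v ∈ T, ∃ a : ℤ, θ v * (2 * n v) = a)
    (hW : W = ∑ v ∈ T, L v) (hR : R = ∑ v ∈ T, w v)
    (hE : E ^ 2 * W ≤ 1 / 10 ^ 8 * R ^ 3) :
    1 / 10 ^ 8 * R ^ 5 ≤ q * W ^ 4 := by
  classical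
  have hq0 := h.q_nonneg
  have hE0 := h.E_nonneg
  have hR0 : 0 ≤ R := by rw [hR]; exact sum_nonneg hw
  have hRW : R ≤ W := by
    rw [hR, hW]
    refine sum_le_sum fun v hv => ?_
    rw [hL v hv]
    have : (1 : ℝ) ≤ n v := by exact_mod_cast hn1 v hv
    nlinarith [hw v hv]
  rcases hR0.lt_or_eq with hRpos | hR0'
  swap
  · rw [← hR0']
    have : 0 ≤ q * W ^ 4 := by positivity
    simpa using this
  have hWpos : 0 < W := lt_of_lt_of_le hRpos hRW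
  by_contra hcon
  push Not at hcon
  obtain ⟨y, hy⟩ : ∃ y, y = Real.sqrt (W / R) := ⟨_, rfl⟩
  have hy2 : y ^ 2 = W / R := by rw [hy]; exact Real.sq_sqrt (by positivity)
  have hy1 : 1 ≤ y := by
    rw [hy, Real.one_le_sqrt, le_div_iff₀ hRpos]
    linarith
  have hWy : W = R * y ^ 2 := by rw [hy2]; field_simp
  obtain ⟨K, hK⟩ : ∃ K : ℕ, K = ⌈2 * y ^ 2⌉₊ := ⟨_, rfl⟩
  have hy21 : 1 ≤ y ^ 2 := one_le_pow₀ hy1
  have hK1 : 2 * y ^ 2 ≤ K := by rw [hK]; exact Nat.le_ceil _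
  have hK2 : (K : ℝ) ≤ 3 * y ^ 2 := by
    have h1 := (Nat.ceil_lt_add_one (by positivity : 0 ≤ 2 * y ^ 2)).le
    rw [← hK] at h1
    linarith
  have hKpos : (0 : ℝ) < K := by linarith
  -- the large `n`
  have h1 : ∑ v ∈ T.filter (fun v => ¬ n v ≤ K), w v ≤ R / 2 := by
    have h2 : (K : ℝ) * ∑ v ∈ T.filter (fun v => ¬ n v ≤ K), w v ≤ W := by
      rw [mul_sum, hW, sum_filter]
      refine sum_le_sum fun v hv => ?_
      by_cases hc : n v ≤ K
      · rw [if_neg (not_not.2 hc)]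
        exact h.L_nonneg v hv
      · rw [if_pos hc, hL v hv]
        have : (K : ℝ) ≤ n v := by exact_mod_cast (not_le.1 hc).le
        exact mul_le_mul_of_nonneg_right this (hw v hv)
    have h3 : (K : ℝ) * ∑ v ∈ T.filter (fun v => ¬ n v ≤ K), w v ≤ K * (R / 2) := by
      refine h2.trans ?_
      rw [hWy]
      nlinarith
    exact le_of_mul_le_mul_left h3 hKpos
  have h2 : R = ∑ v ∈ T.filter (fun v => n v ≤ K), w v +
      ∑ v ∈ T.filter (fun v => ¬ n v ≤ K), w v := by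
    rw [sum_filter_add_sum_filter_not, hR]
  have h3 : ∑ v ∈ T.filter (fun v => n v ≤ K), w v =
      ∑ k ∈ Icc 1 K, ∑ v ∈ T.filter (fun v => n v = k), w v := by
    rw [← sum_fiberwise_of_maps_to (s := T.filter (fun v => n v ≤ K)) (t := Icc 1 K) (g := n)
      (fun v hv => by
        rw [mem_filter] at hv
        exact mem_Icc.2 ⟨hn1 v hv.1, hv.2⟩)]
    refine sum_congr rfl fun k hk => ?_
    rw [filter_filter]
    refine sum_congr ?_ fun _ _ => rfl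
    ext v
    rw [mem_Icc] at hk
    simp only [mem_filter]
    constructor
    · rintro ⟨a, _, b⟩; exact ⟨a, b⟩
    · rintro ⟨a, b⟩; exact ⟨a, by omega, b⟩
  have h4 : ∑ k ∈ Icc 1 K, ∑ v ∈ T.filter (fun v => n v = k), w v ≤
      ∑ k ∈ Icc 1 K, (3 / 100 * (W / y ^ 3) * (1 / Real.sqrt k) + 4320000 * (q * y ^ 6) +
        27 * E * (1 / Real.sqrt k)) := by
    refine sum_le_sum fun k hk => ?_
    rw [mem_Icc] at hk
    have hkK : (k : ℝ) ≤ K := by exact_mod_cast hk.2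
    exact level T L θ w n q E W y h hw hL hn3 hW hy1 k hk.1 (hkK.trans hK2)
  have hsq : Real.sqrt K ≤ 2 * y := by
    rw [Real.sqrt_le_left (by linarith)]
    nlinarith [sq_nonneg y]
  have h5 : ∑ k ∈ Icc 1 K, 1 / Real.sqrt k ≤ 4 * y := (sum_inv_sqrt K).trans (by linarith)
  have h6 : ∑ k ∈ Icc 1 K, (3 / 100 * (W / y ^ 3) * (1 / Real.sqrt k) +
      4320000 * (q * y ^ 6) + 27 * E * (1 / Real.sqrt k)) =
      (3 / 100 * (W / y ^ 3) + 27 * E) * ∑ k ∈ Icc 1 K, 1 / Real.sqrt k +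
      K * (4320000 * (q * y ^ 6)) := by
    simp only [sum_add_distrib, ← mul_sum, sum_const, Nat.card_Icc, nsmul_eq_mul,
      Nat.add_sub_cancel]
    ring
  have hy0 : 0 < y := by linarith
  have h7 : (3 / 100 * (W / y ^ 3) + 27 * E) * ∑ k ∈ Icc 1 K, 1 / Real.sqrt k ≤
      (3 / 100 * (W / y ^ 3) + 27 * E) * (4 * y) :=
    mul_le_mul_of_nonneg_left h5 (by positivity)
  have h8 : 3 / 100 * (W / y ^ 3) * (4 * y) = 12 / 100 * R := by
    rw [hWy]; field_simp; ring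
  have h9 : (K : ℝ) * (4320000 * (q * y ^ 6)) ≤ 12960000 * (q * y ^ 8) := by
    have : 0 ≤ 4320000 * (q * y ^ 6) := by positivity
    calc (K : ℝ) * (4320000 * (q * y ^ 6)) ≤ 3 * y ^ 2 * (4320000 * (q * y ^ 6)) :=
          mul_le_mul_of_nonneg_right hK2 this
      _ = _ := by ring
  have h10 : q * y ^ 8 ≤ 1 / 10 ^ 8 * R := by
    have e : q * W ^ 4 = (q * y ^ 8) * R ^ 4 := by rw [hWy]; ring
    rw [e] at hcon
    have e2 : 1 / 10 ^ 8 * R ^ 5 = (1 / 10 ^ 8 * R) * R ^ 4 := by ring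
    rw [e2] at hcon
    exact (lt_of_mul_lt_mul_right hcon (by positivity)).le
  have h11 : E * y ≤ 1 / 10 ^ 4 * R := by
    refine le_of_pow_le_pow_left₀ (n := 2) (by norm_num) (by positivity) ?_
    have e : E ^ 2 * W = (E * y) ^ 2 * R := by rw [hWy]; ring
    rw [e] at hE
    have e2 : 1 / 10 ^ 8 * R ^ 3 = (1 / 10 ^ 4 * R) ^ 2 * R := by ring
    rw [e2] at hE
    exact le_of_mul_le_mul_right hE hRpos
  rw [h3] at h2
  rw [h6] at h4
  nlinarith

end Sq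

end LangForms
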