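import Pool.Agent.Lib_MP_f5471b_s.SAbs
import Pool.Agent.Lib_MP_f5471b_s.CanTwo
import Pool.Agent.Lib_MP_f5471b_s.Rad

/-!
# MP_f5471b_nt: the local data of a point of infinite order
-/

namespace LangForms

open Height NumberField WeierstrassCurve Topology Filter

namespace Sq

open LangForms.Pow

/-- The data of a point: the bad finite places, the exact angles, the upper bound for the sums of
the local terms, and the bound for the case in which the infinite places carry enough. -/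
structure Data (F : Type) [Field F] [NumberField F] (t : F) (X : Type) [AddCommGroup X]
    (ξ : X → Fin 2 → F) (Q : X) (q : ℝ) (B E dε : ℝ) (Tf : Finset (FinitePlace F)) (W WI : ℝ)
    (n : FinitePlace F → ℕ) : Prop where
  mem : ∀ v, v ∈ Tf ↔ v t < 1
  W_eq : W = ∑ v ∈ Tf, Lt v.1 t
  W_nonneg : 0 ≤ W
  W_le : W ≤ logHeight₁ t
  WI_nonneg : 0 ≤ WI
  WI_le : WI ≤ logHeight₁ t
  inf_le : ∑ v : InfinitePlace F, v.mult * Real.posLog (v t)⁻¹ ≤ WI + dε
  q_nonneg : 0 ≤ q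
  arch : 0 < WI → E ≤ WI / 40 → WI ^ 3 / (1500 * B ^ 2 * logHeight₁ t ^ 2) ≤ q
  one_le : ∀ v ∈ Tf, 1 ≤ n v
  Lt_eq : ∀ v ∈ Tf, Lt v.1 t = n v * Real.log (plNorm v)
  L_nonneg : ∀ v ∈ Tf, 0 ≤ Lt v.1 t
  ang : ∀ v ∈ Tf, ∃ a : ℤ, rho v.1 t (ξ Q) / Lt v.1 t * (2 * n v) = a
  up : ∀ m : ℕ, 1 ≤ m → Bm Tf (fun v => Lt v.1 t) (fun v => rho v.1 t (ξ Q) / Lt v.1 t) m +
    ∑ᶠ v : FinitePlace F, Jl v.1 t (ξ (m • Q)) ≤ q * (m : ℝ) ^ 2 + E + WI / 12

theorem basic (d : ℕ) : ∃ B E dε : ℝ, 1 ≤ B ∧ 0 ≤ E ∧ 0 ≤ dε ∧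
    ∀ (F : Type) [Field F] [NumberField F], Module.finrank ℚ F ≤ d →
    ∀ t : F, t ≠ 0 → 1 + 1728 * t ≠ 0 →
    ∀ (X : Type) [AddCommGroup X] (ξ : X → Fin 2 → F), XMap t ξ →
    ∀ q : X → ℝ, (∀ (k : ℕ) (Q : X), q (k • Q) = (k : ℝ) ^ 2 * q Q) →
    (∀ Q : X, Tendsto (fun n : ℕ => logHeight (ξ ((2 ^ n) • Q)) / 4 ^ n) atTop (𝓝 (q Q))) →
    ∀ Q : X, (∀ k : ℕ, 1 ≤ k → k • Q ≠ 0) →
      ∃ Tf W WI n, Data F t X ξ Q (q Q) B E dε Tf W WI n := by
  classical
  obtain ⟨ε₁, c₁, hε₁, hε₁', hc₁, hdup⟩ := dup_gen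
  obtain ⟨ε₂, c₂, hε₂, hε₂', hc₂, hadd⟩ := add_gen
  obtain ⟨ε, hεdef⟩ : ∃ ε, ε = min (min ε₁ ε₂) (1 / 3456) := ⟨_, rfl⟩
  obtain ⟨c₀, hc₀def⟩ : ∃ c₀, c₀ = max c₁ c₂ := ⟨_, rfl⟩
  have hε : 0 < ε := by rw [hεdef]; exact lt_min (lt_min hε₁ hε₂) (by norm_num)
  have hεs : ε ≤ 1 / 3456 := by rw [hεdef]; exact min_le_right _ _
  have hε' : ε < 1 := by linarith
  have hc₀ : 0 ≤ c₀ := by rw [hc₀def]; exact hc₁.trans (le_max_left _ _)
  have hdup' : ∀ (F : Type) [Field F] (v : AbsoluteValue F ℝ) (t : F), 0 < v t → v t ≤ ε →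
      DupLow v t c₀ ∧ DupRho v t c₀ := by
    intro F _ v t h1 h2
    have h3 := hdup F v t h1 (h2.trans (by rw [hεdef]; exact (min_le_left _ _).trans (min_le_left _ _)))
    have h4 : c₁ ≤ c₀ := by rw [hc₀def]; exact le_max_left _ _
    exact ⟨LSAux.DupLow.mono h4 h3.1, LSAux.DupRho.mono h4 h3.2⟩
  have hadd' : ∀ (F : Type) [Field F] (v : AbsoluteValue F ℝ) (t : F), 0 < v t → v t ≤ ε →
      AddRho v t c₀ := by
    intro F _ v t h1 h2
    exact LSAux.AddRho.mono (by rw [hc₀def]; exact le_max_right _ _)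
      (hadd F v t h1 (h2.trans (by rw [hεdef]; exact (min_le_left _ _).trans (min_le_right _ _))))
  obtain ⟨C₁, hC₁, hcl⟩ := can_lower d ε c₀ hε hε' hc₀ hdup'
  obtain ⟨C₂, hC₂, hct⟩ := can_two d ε c₀ hε hεs hc₀ hdup'
  obtain ⟨E, hE⟩ : ∃ E : ℝ, E = 3 * c₀ * d + C₁ + C₂ := ⟨_, rfl⟩
  have hE0 : 0 ≤ E := by rw [hE]; positivity
  obtain ⟨dε, hdε⟩ : ∃ dε : ℝ, dε = d * -Real.log ε := ⟨_, rfl⟩
  have hlogε : 0 ≤ -Real.log ε := by
    rw [neg_nonneg]; exact Real.log_nonpos hε.le hε'.le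
  have hdε0 : 0 ≤ dε := by rw [hdε]; positivity
  obtain ⟨B, hB⟩ : ∃ B : ℝ, B = 42 ^ d := ⟨_, rfl⟩
  have hB1 : 1 ≤ B := by rw [hB]; exact one_le_pow₀ (by norm_num)
  refine ⟨B, E, dε, hB1, hE0, hdε0, ?_⟩
  intro F _ _ hFd t ht hκ X _ ξ hξ q hqk hlim Q hQ
  obtain ⟨H, hHd⟩ : ∃ H, H = logHeight₁ t := ⟨_, rfl⟩
  have hvt : ∀ v : FinitePlace F, 0 < v t := fun v => by
    rw [FinitePlace.pos_iff]; exact ht
  have hvi : ∀ v : InfinitePlace F, 0 < v t := fun v => by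
    rw [InfinitePlace.pos_iff]; exact ht
  -- the bad finite places
  obtain ⟨Tf, hTf⟩ : ∃ Tf : Finset (FinitePlace F), ∀ v, v ∈ Tf ↔ v t < 1 := by
    have hfin : {v : FinitePlace F | v t < 1}.Finite := by
      refine (FinitePlace.hasFiniteMulSupport ht).subset ?_
      intro v hv
      rw [Function.mem_mulSupport]
      exact ne_of_lt hv
    exact ⟨hfin.toFinset, fun v => by simp⟩
  have hh := logHeight₁_eq_Lt t ht Tf hTf
  rw [← hHd] at hh
  obtain ⟨W, hW⟩ : ∃ W, W = ∑ v ∈ Tf, Lt v.1 t := ⟨_, rfl⟩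
  have hCirc : ∀ v ∈ Tf, Circ (Lt v.1 t) fun Q => rho v.1 t (ξ Q) := fun v hv =>
    circ_fin hξ v (hvt v) ((hTf v).1 hv)
  have hW0 : 0 ≤ W := by
    rw [hW]; exact Finset.sum_nonneg fun v hv => (hCirc v hv).pos.le
  -- the infinite places
  obtain ⟨I, hI⟩ : ∃ I : Finset (InfinitePlace F), I = Finset.univ.filter fun v => v t ≤ ε :=
    ⟨_, rfl⟩
  have hIv : ∀ v ∈ I, v t ≤ ε := fun v hv => by
    rw [hI, Finset.mem_filter] at hv; exact hv.2
  have hLi : ∀ v ∈ I, 0 < Lt v.1 t := fun v hv =>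
    neg_pos.2 (Real.log_neg (hvi v) (lt_of_le_of_lt (hIv v hv) hε'))
  obtain ⟨WI, hWI⟩ : ∃ WI, WI = ∑ v ∈ I, (v.mult : ℝ) * Lt v.1 t := ⟨_, rfl⟩
  have hWI0 : 0 ≤ WI := by
    rw [hWI]; exact Finset.sum_nonneg fun v hv => mul_nonneg (Nat.cast_nonneg _) (hLi v hv).le
  have hmult : ∑ v ∈ I, (v.mult : ℝ) ≤ d := by
    have h1 : ∑ v ∈ I, (v.mult : ℝ) ≤ ∑ v : InfinitePlace F, (v.mult : ℝ) :=
      Finset.sum_le_univ_sum_of_nonneg fun v => Nat.cast_nonneg _
    have h2 : ∑ v : InfinitePlace F, (v.mult : ℝ) = Module.finrank ℚ F := by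
      exact_mod_cast InfinitePlace.sum_mult_eq
    have h3 : (Module.finrank ℚ F : ℝ) ≤ d := by exact_mod_cast hFd
    linarith
  have hA : ∑ v : InfinitePlace F, v.mult * Real.posLog (v t)⁻¹ ≤ WI + dε := by
    have h1 : ∀ v : InfinitePlace F, (v.mult : ℝ) * Real.posLog (v t)⁻¹ ≤
        (if v t ≤ ε then (v.mult : ℝ) * Lt v.1 t else 0) + v.mult * -Real.log ε := by
      intro v
      have hm0 : (0 : ℝ) ≤ v.mult := Nat.cast_nonneg _
      split_ifs with h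
      · have h2 : Real.posLog (v t)⁻¹ = Lt v.1 t := by
          rw [Real.posLog_eq_log]
          · rw [Real.log_inv]; rfl
          · rw [abs_of_pos (inv_pos.2 (hvi v))]
            exact (one_le_inv₀ (hvi v)).2 (h.trans hε'.le)
        rw [h2]
        have := mul_nonneg hm0 hlogε
        linarith
      · rw [zero_add]
        refine mul_le_mul_of_nonneg_left ?_ hm0
        push Not at h
        rw [Real.posLog]
        refine max_le hlogε ?_
        rw [Real.log_inv]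
        exact neg_le_neg (Real.log_le_log hε h.le)
    refine (Finset.sum_le_sum fun v _ => h1 v).trans ?_
    rw [Finset.sum_add_distrib, hWI, hI, Finset.sum_filter, ← Finset.sum_mul]
    have h2 : ∑ v : InfinitePlace F, (v.mult : ℝ) = Module.finrank ℚ F := by
      exact_mod_cast InfinitePlace.sum_mult_eq
    have h3 : (Module.finrank ℚ F : ℝ) ≤ d := by exact_mod_cast hFd
    rw [h2, hdε]
    have := mul_le_mul_of_nonneg_right h3 hlogε
    linarith
  rw [← hW] at hh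
  have hHle : H ≤ WI + dε + W := by rw [hh]; linarith
  have hWH : W ≤ H := by
    have : 0 ≤ ∑ v : InfinitePlace F, v.mult * Real.posLog (v t)⁻¹ :=
      Finset.sum_nonneg fun v _ => mul_nonneg (Nat.cast_nonneg _) Real.posLog_nonneg
    linarith
  -- the lower bound for differences
  obtain ⟨bs, hbs⟩ : ∃ bs : X → ℝ, bs = bsum Tf (fun v => Lt v.1 t)
    (fun v Q => rho v.1 t (ξ Q)) := ⟨_, rfl⟩
  have hlow : ∀ z : X, z ≠ 0 → (∀ v ∈ I, rho v.1 t (ξ z) ≤ Lt v.1 t / 20 + 3 * c₀) →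
      bs z + WI / 10 - E ≤ q z := by
    intro z hz hzI
    have h1 := hcl F hFd t ht hκ X ξ hξ Tf hTf z (q z) hz (hlim z)
    have h2 : ∑ v ∈ Tf, phi v.1 t (ξ z) = bs z := by
      rw [hbs, bsum]
      refine Finset.sum_congr rfl fun v hv => ?_
      have hL := (hCirc v hv).pos
      simp only [phi, bv, bern]
      field_simp
    have h3 : WI / 10 - 3 * c₀ * d ≤
        ∑ v : InfinitePlace F, (if v t ≤ ε then v.mult * phi v.1 t (ξ z) else 0) := by
      rw [← Finset.sum_filter, ← hI]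
      have h4 : ∀ v ∈ I, (v.mult : ℝ) * (Lt v.1 t / 10) - v.mult * (3 * c₀) ≤
          v.mult * phi v.1 t (ξ z) := by
        intro v hv
        have h5 := hzI v hv
        have h6 := hLi v hv
        have h7 : 0 ≤ rho v.1 t (ξ z) ^ 2 / Lt v.1 t := by positivity
        have h8 : Lt v.1 t / 10 - 3 * c₀ ≤ phi v.1 t (ξ z) := by
          simp only [phi]
          linarith
        have h9 := mul_le_mul_of_nonneg_left h8 (Nat.cast_nonneg (α := ℝ) v.mult)
        linarith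
      refine le_trans ?_ (Finset.sum_le_sum h4)
      rw [Finset.sum_sub_distrib, ← Finset.sum_mul]
      have h5 : ∑ v ∈ I, (v.mult : ℝ) * (Lt v.1 t / 10) = WI / 10 := by
        rw [hWI, Finset.sum_div]
        exact Finset.sum_congr rfl fun v _ => by ring
      rw [h5]
      have h6 : (∑ v ∈ I, (v.mult : ℝ)) * (3 * c₀) ≤ d * (3 * c₀) :=
        mul_le_mul_of_nonneg_right hmult (by positivity)
      linarith
    rw [h2] at h1
    rw [hE]
    linarith
  -- selection at the infinite places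
  have hsel : ∀ S : Finset X, ∃ S' ⊆ S, (S.card : ℝ) ≤ B * S'.card ∧
      ∀ x ∈ S', ∀ y ∈ S', x ≠ y → bs (x - y) + WI / 10 - E ≤ q (x - y) := by
    intro S
    obtain ⟨S', hS', hcard, h1⟩ := arch_select I (fun v => Lt v.1 t) c₀ hc₀
      (fun v Q => rho v.1 t (ξ Q)) hLi
      (fun v hv Q => rho_nonneg v.1 t ((hIv v hv).trans hε'.le) _)
      (fun v hv Q => rho_le v.1 t (hvi v) _)
      (fun v hv => ptRho_of hξ v.1 c₀ hc₀ (hvi v) (lt_of_le_of_lt (hIv v hv) hε')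
        (hdup' F v.1 t (hvi v) (hIv v hv)).2 (hadd' F v.1 t (hvi v) (hIv v hv))) S
    refine ⟨S', hS', ?_, ?_⟩
    · have h2 : I.card ≤ d := by
        refine (Finset.card_le_univ I).trans ((LSAux.card_inf_le F).trans hFd)
      have h3 : (S.card : ℝ) ≤ 42 ^ I.card * S'.card := by exact_mod_cast hcard
      refine h3.trans ?_
      rw [hB]
      exact mul_le_mul_of_nonneg_right (pow_le_pow_right₀ (by norm_num) h2) (Nat.cast_nonneg _)
    · intro x hx y hy hxy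
      exact hlow _ (sub_ne_zero.2 hxy) fun v hv => h1 v hv x hx y hy
  have hqQ : 0 ≤ q Q := by
    refine ge_of_tendsto' (hlim Q) fun n => ?_
    have : 0 ≤ logHeight (ξ ((2 ^ n) • Q)) := logHeight_nonneg _
    positivity
  have hWIH : WI ≤ H := by
    have h1 : ∑ v ∈ I, (v.mult : ℝ) * Lt v.1 t ≤
        ∑ v : InfinitePlace F, v.mult * Real.posLog (v t)⁻¹ := by
      refine (Finset.sum_le_sum (g := fun v : InfinitePlace F =>
        (v.mult : ℝ) * Real.posLog (v t)⁻¹) fun v hv => ?_).trans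
        (Finset.sum_le_univ_sum_of_nonneg fun v =>
          mul_nonneg (Nat.cast_nonneg _) Real.posLog_nonneg)
      refine mul_le_mul_of_nonneg_left ?_ (Nat.cast_nonneg _)
      rw [Real.posLog, Real.log_inv]
      exact le_max_right _ _
    rw [← hWI] at h1
    linarith
  have harch : 0 < WI → E ≤ WI / 40 → WI ^ 3 / (1500 * B ^ 2 * H ^ 2) ≤ q Q := fun hWIpos hEW =>
    case_arch Q hQ q bs hqk hqQ B WI H W E hB1 hWIpos hWIH hWH hEW
      (fun S => by rw [hbs]; exact (bsum_psd hCirc S).sum_nonneg)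
      (by rw [hbs, hW]; exact bsum_zero hCirc)
      (fun x y => by
        rw [hbs, bsum, bsum]
        refine Finset.sum_congr rfl fun v hv => ?_
        rw [bv, bv, (hCirc v hv).sub_comm]) hsel
  have hdat : ∀ v : FinitePlace F, ∃ n a : ℕ, v ∈ Tf → 1 ≤ n ∧
      Lt v.1 t = n * Real.log (plNorm v) ∧ 2 * rho v.1 t (ξ Q) = a * Real.log (plNorm v) := by
    intro v
    by_cases hv : v ∈ Tf
    · obtain ⟨n, a, h1, h2, h3⟩ := rho_fin v t ht ((hTf v).1 hv) (ξ Q) (hξ.ne_zero Q)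
      exact ⟨n, a, fun _ => ⟨h1, h2, h3⟩⟩
    · exact ⟨0, 0, fun h => absurd h hv⟩
  choose nf af hnaf using hdat
  -- the local terms of the multiples
  have hBm : ∀ m : ℕ, ∑ v ∈ Tf, phi v.1 t (ξ (m • Q)) =
      Bm Tf (fun v => Lt v.1 t) (fun v => rho v.1 t (ξ Q) / Lt v.1 t) m := by
    intro m
    rw [Bm]
    refine Finset.sum_congr rfl fun v hv => ?_
    have hC := hCirc v hv
    have hL := hC.pos
    have h3 := mult_rho (Lt v.1 t) 0 hL le_rfl (fun Q => rho v.1 t (ξ Q)) hC.zero hC.nonneg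
      hC.le hC.pt Q m
    simp only [mul_zero] at h3
    have h4 := sub_eq_zero.1 (abs_nonpos_iff.1 h3)
    simp only [phi, bern]
    rw [h4]
    field_simp
  have hΦ1 : ∀ m : ℕ, -(WI / 12) ≤ ∑ v : InfinitePlace F,
      (if v.1 t ≤ ε then v.mult * phi v.1 t (ξ (m • Q)) else 0) := by
    intro m
    have e0 : ∑ v : InfinitePlace F,
        (if v.1 t ≤ ε then (v.mult : ℝ) * phi v.1 t (ξ (m • Q)) else 0) =
        ∑ v ∈ I, (v.mult : ℝ) * phi v.1 t (ξ (m • Q)) := by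
      rw [hI, Finset.sum_filter]
      rfl
    rw [e0]
    have h4 : ∀ v ∈ I, -((v.mult : ℝ) * Lt v.1 t / 12) ≤
        v.mult * phi v.1 t (ξ (m • Q)) := by
      intro v hv
      have h6 := hLi v hv
      have h8 : -(Lt v.1 t / 12) ≤ phi v.1 t (ξ (m • Q)) := by
        simp only [phi]
        have e : Lt v.1 t / 6 - rho v.1 t (ξ (m • Q)) +
            rho v.1 t (ξ (m • Q)) ^ 2 / Lt v.1 t + Lt v.1 t / 12 =
            (rho v.1 t (ξ (m • Q)) - Lt v.1 t / 2) ^ 2 / Lt v.1 t := by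
          field_simp
          ring
        have h9 : 0 ≤ (rho v.1 t (ξ (m • Q)) - Lt v.1 t / 2) ^ 2 / Lt v.1 t := by positivity
        linarith
      have h9 := mul_le_mul_of_nonneg_left h8 (Nat.cast_nonneg (α := ℝ) v.mult)
      linarith
    refine le_trans ?_ (Finset.sum_le_sum h4)
    rw [Finset.sum_neg_distrib, ← Finset.sum_div, ← hWI]
  have hf2 : ∀ m : ℕ, 1 ≤ m → fQ t ε Tf (ξ (m • Q)) ≤ q Q * (m : ℝ) ^ 2 + C₂ := by
    intro m hm
    have h1 := hct F hFd t ht hκ X ξ hξ Tf hTf (m • Q) (q (m • Q))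
      (fun n hn => by rw [smul_smul]; exact hQ _ (Nat.mul_pos hn hm)) (hlim _)
    rw [hqk] at h1
    linarith [h1.1]
  have hJi : ∀ w : Fin 2 → F, 0 ≤ ∑ v : InfinitePlace F, v.mult * Jl v.1 t w := fun w =>
    Finset.sum_nonneg fun v _ => mul_nonneg (Nat.cast_nonneg _) (Jl_nonneg _ _ _)
  refine ⟨Tf, W, WI, nf, ⟨hTf, hW, hW0, by rw [← hHd]; exact hWH, hWI0,
    by rw [← hHd]; exact hWIH, hA, hqQ, by rw [← hHd]; exact harch,
    fun v hv => (hnaf v hv).1, fun v hv => (hnaf v hv).2.1, fun v hv => (hCirc v hv).pos.le,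
    ?_, ?_⟩⟩
  · intro v hv
    obtain ⟨h1, h2, h3⟩ := hnaf v hv
    refine ⟨(af v : ℤ), ?_⟩
    have h4 := plNorm_log_ge v
    have h5 : (0 : ℝ) < nf v := by exact_mod_cast h1
    rw [h2, Int.cast_natCast]
    have h6 : rho v.1 t (ξ Q) = af v * Real.log (plNorm v) / 2 := by linarith
    rw [h6]
    have h7 : Real.log (plNorm v) ≠ 0 := by
      have : 0 < Real.log (plNorm v) := by linarith
      exact this.ne'
    field_simp
  · intro m hm
    have h1 := hf2 m hm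
    have h3 := hJi (ξ (m • Q))
    have h4 := hΦ1 m
    rw [fQ, hBm] at h1
    have h5 : 0 ≤ 3 * c₀ * d + C₁ := by positivity
    rw [hE]
    linarith

end Sq

end LangForms
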