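import Pool.Agent.Lib_MP_f5471b_s.Core

/-!
# MP_f5471b_nt: choice of the parameters
-/

namespace LangForms

namespace Sq

open Finset

theorem tail_sum (η : ℝ) (hη : 0 < η) : ∃ J : ℕ, 1 ≤ J ∧ ∀ J₂ : ℕ,
    ∑ l ∈ Ico (J + 1) J₂, 1 / (l : ℝ) ^ 2 * (l : ℝ) ^ (2 / 3 : ℝ) ≤ η := by
  have h1 : Summable fun l : ℕ => (l : ℝ) ^ (-(4 / 3) : ℝ) :=
    Real.summable_nat_rpow.2 (by norm_num)
  obtain ⟨s, hs⟩ := (summable_iff_vanishing_norm.1 h1) η hη
  refine ⟨max 1 (s.sup id), le_max_left _ _, fun J₂ => ?_⟩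
  have hd : Disjoint (Ico (max 1 (s.sup id) + 1) J₂) s := by
    rw [Finset.disjoint_left]
    intro l hl hls
    rw [mem_Ico] at hl
    have h2 : l ≤ s.sup id := Finset.le_sup (f := id) hls
    have h3 : s.sup id ≤ max 1 (s.sup id) := le_max_right _ _
    omega
  have h2 := hs _ hd
  have h3 : ∑ l ∈ Ico (max 1 (s.sup id) + 1) J₂, 1 / (l : ℝ) ^ 2 * (l : ℝ) ^ (2 / 3 : ℝ) =
      ∑ l ∈ Ico (max 1 (s.sup id) + 1) J₂, (l : ℝ) ^ (-(4 / 3) : ℝ) := by
    refine sum_congr rfl fun l hl => ?_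
    rw [mem_Ico] at hl
    have hl0 : (0 : ℝ) < l := by exact_mod_cast (by omega : 0 < l)
    have e1 : 1 / (l : ℝ) ^ 2 = (l : ℝ) ^ (-2 : ℝ) := by
      rw [Real.rpow_neg hl0.le, one_div]
      norm_cast
    rw [e1, ← Real.rpow_add hl0]
    norm_num
  rw [h3]
  exact (le_abs_self _).trans h2.le

theorem sum_inv_sq (J : ℕ) : ∑ l ∈ Ico (1 : ℕ) (J + 1), 1 / (l : ℝ) ^ 2 ≤ 2 := by
  have key : ∀ J : ℕ, 1 ≤ J → ∑ l ∈ Ico (1 : ℕ) (J + 1), 1 / (l : ℝ) ^ 2 ≤ 2 - 1 / (J : ℝ) := by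
    intro J hJ
    induction J, hJ using Nat.le_induction with
    | base => norm_num
    | succ J hJ ih =>
      rw [sum_Ico_succ_top (by omega)]
      have hJ0 : (0 : ℝ) < J := by exact_mod_cast (by omega : 0 < J)
      have h2 : 1 / (((J + 1 : ℕ) : ℝ)) ^ 2 ≤ 1 / (J : ℝ) - 1 / ((J + 1 : ℕ) : ℝ) := by
        push_cast
        rw [div_sub_div _ _ hJ0.ne' (by positivity), div_le_div_iff₀ (by positivity) (by positivity)]
        nlinarith
      linarith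
  rcases Nat.eq_zero_or_pos J with h | h
  · subst h; norm_num
  · have := key J h
    have h2 : 0 ≤ 1 / (J : ℝ) := by positivity
    linarith

theorem contra : ∃ c W₀ : ℝ, 0 < c ∧ 1 ≤ W₀ ∧
    ∀ {α : Type} (T : Finset α) (L θ : α → ℝ) (n : α → ℕ) (q E : ℝ), Upper T L θ q E →
    (∀ v ∈ T, 1 ≤ n v) → (∀ v ∈ T, (n v : ℝ) ≤ 2 * L v) →
    (∀ v ∈ T, ∃ a : ℤ, θ v * (2 * n v) = a) → W₀ ≤ ∑ v ∈ T, L v →
    E ≤ c * Real.sqrt (∑ v ∈ T, L v) →
    ∀ k : ℕ, 1 ≤ k → q * (k : ℝ) ^ 2 ≤ c / Real.sqrt (∑ v ∈ T, L v) →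
    ∀ N : ℕ, N = ⌈2 * Real.sqrt (∑ v ∈ T, L v)⌉₊ →
    ∑ l ∈ range (10 * N - 1), |Bm T L θ (k * (l + 1))| ≤ (∑ v ∈ T, L v) / 1000 → False := by
  obtain ⟨J, hJ1, hJ⟩ := tail_sum (1 / 4000) (by norm_num)
  have hJ0 : (0 : ℝ) < J := by exact_mod_cast (by omega : 0 < J)
  have hJ1' : (1 : ℝ) ≤ J := by exact_mod_cast hJ1
  obtain ⟨c, hc⟩ : ∃ c : ℝ, c = 1 / (10 ^ 15 * (J : ℝ) ^ 2) := ⟨_, rfl⟩
  have hc0 : 0 < c := by rw [hc]; positivity
  have hcJ : c * (J : ℝ) ^ 2 = 1 / 10 ^ 15 := by rw [hc]; field_simp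
  have hcs : c ≤ 1 / 10 ^ 15 := by
    rw [← hcJ]
    exact le_mul_of_one_le_right hc0.le (one_le_pow₀ hJ1')
  refine ⟨c, max (10 ^ 16) (J : ℝ) ^ 2, hc0, ?_, ?_⟩
  · exact one_le_pow₀ ((by norm_num : (1 : ℝ) ≤ 10 ^ 16).trans (le_max_left _ _))
  intro α T L θ n q E hU hn1 hn2 hn3 hW₀ hE k hk hq N hN hA
  obtain ⟨W, hW⟩ : ∃ W, W = ∑ v ∈ T, L v := ⟨_, rfl⟩
  obtain ⟨s, hs⟩ : ∃ s, s = Real.sqrt W := ⟨_, rfl⟩
  rw [← hW] at hW₀ hE hq hN hA
  rw [← hs] at hE hq hN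
  have hWpos : 0 < W := lt_of_lt_of_le (by positivity) hW₀
  have hs2 : s ^ 2 = W := by rw [hs]; exact Real.sq_sqrt hWpos.le
  have hsbig : max (10 ^ 16) (J : ℝ) ≤ s := by
    rw [hs]
    exact Real.le_sqrt_of_sq_le hW₀
  have hs16 : (10 : ℝ) ^ 16 ≤ s := (le_max_left _ _).trans hsbig
  have hsJ : (J : ℝ) ≤ s := (le_max_right _ _).trans hsbig
  have hs1 : 1 ≤ s := (by norm_num : (1 : ℝ) ≤ 10 ^ 16).trans hs16
  have hs0 : 0 < s := by linarith
  have hN1 : 2 * s ≤ N := by rw [hN]; exact Nat.le_ceil _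
  have hN2 : (N : ℝ) ≤ 3 * s := by
    have h1 : (N : ℝ) < 2 * s + 1 := by
      rw [hN]; exact Nat.ceil_lt_add_one (by positivity)
    linarith
  have hN0 : (0 : ℝ) < N := by linarith
  have hNn : 1 ≤ N := by exact_mod_cast (by linarith : (1 : ℝ) ≤ N)
  -- the number of factors
  obtain ⟨u, hu⟩ : ∃ u : ℕ, u = Nat.sqrt N := ⟨_, rfl⟩
  have hu2 : u * u ≤ N := by rw [hu]; exact Nat.sqrt_le N
  have huJ : max J 4000 ≤ N * u := by
    have h1 : J ≤ N := by exact_mod_cast (by linarith : (J : ℝ) ≤ N)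
    have h2 : 4000 ≤ N := by exact_mod_cast (by linarith : (4000 : ℝ) ≤ N)
    have h3 : 1 ≤ u := by rw [hu]; exact Nat.sqrt_pos.2 (by omega)
    calc max J 4000 ≤ N := max_le h1 h2
      _ ≤ N * u := Nat.le_mul_of_pos_right _ h3
  have hu4 : 4000 ≤ u := by
    rw [hu, Nat.le_sqrt]
    have h1 : ((4000 * 4000 : ℕ) : ℝ) ≤ N := by
      push_cast
      linarith
    exact_mod_cast h1
  have hu4' : (4000 : ℝ) ≤ u := by exact_mod_cast hu4
  obtain ⟨J₂, hJ₂⟩ : ∃ J₂ : ℕ, J₂ = N * u := ⟨_, rfl⟩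
  have hJJ₂ : J ≤ J₂ := by rw [hJ₂]; exact (le_max_left _ _).trans huJ
  have hJ₂1 : 1 ≤ J₂ := by omega
  obtain ⟨nn, hnn⟩ : ∃ nn : ℕ, nn = 10 * N - 1 := ⟨_, rfl⟩
  have hnn1 : (nn : ℝ) + 1 = 10 * N := by
    rw [hnn, Nat.cast_sub (by omega)]
    push_cast
    ring
  have hL := hU.L_nonneg
  have hcore := core_ineq (T := T) (θ := θ) hL nn k J₂ (by omega) hJ₂1
  rw [← hW, hnn1, hnn] at hcore
  rw [← hnn] at hcore hA
  -- the unit
  obtain ⟨μ, hμ⟩ : ∃ μ, μ = W / N := ⟨_, rfl⟩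
  have hμ0 : 0 < μ := by rw [hμ]; positivity
  have hsμ : s ≤ 3 * μ := by
    rw [hμ, mul_div_assoc', le_div_iff₀ hN0, ← hs2]
    nlinarith
  have hqk : 0 ≤ q * (k : ℝ) ^ 2 := mul_nonneg hU.q_nonneg (sq_nonneg _)
  -- bound of q k² N²
  have hqN : q * (k : ℝ) ^ 2 * (N : ℝ) ^ 2 ≤ 27 * c * μ := by
    calc q * (k : ℝ) ^ 2 * (N : ℝ) ^ 2 ≤ c / s * (3 * s) ^ 2 :=
          mul_le_mul hq (pow_le_pow_left₀ hN0.le hN2 2) (by positivity) (by positivity)
      _ = 9 * c * s := by field_simp; ring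
      _ ≤ 9 * c * (3 * μ) := mul_le_mul_of_nonneg_left hsμ (by positivity)
      _ = _ := by ring
  have hEμ : E ≤ 3 * c * μ := by
    calc E ≤ c * s := hE
      _ ≤ c * (3 * μ) := mul_le_mul_of_nonneg_left hsμ hc0.le
      _ = _ := by ring
  have hWN : W / N ≤ N / 4 := by
    rw [div_le_div_iff₀ hN0 (by norm_num), ← hs2]
    nlinarith
  have hμN : μ ≤ N / 4 := by rw [hμ]; exact hWN
  -- the head
  have hhead : ∀ l ∈ Ico 1 (J + 1), 1 / (l : ℝ) ^ 2 * Wd T L θ (1 / (10 * N)) (l * k) ≤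
      1 / (l : ℝ) ^ 2 * (μ / 1000) := by
    intro l hl
    rw [mem_Ico] at hl
    refine mul_le_mul_of_nonneg_left ?_ (by positivity)
    have hlk : 1 ≤ l * k := Nat.mul_pos (by omega) hk
    have hlJ : (l : ℝ) ≤ J := by exact_mod_cast (by omega : l ≤ J)
    have hl2 : (l : ℝ) ^ 2 ≤ (J : ℝ) ^ 2 := pow_le_pow_left₀ (Nat.cast_nonneg l) hlJ 2
    have hqlk : q * ((l * k : ℕ) : ℝ) ^ 2 * (N : ℝ) ^ 2 ≤ 27 / 10 ^ 15 * μ := by
      calc q * ((l * k : ℕ) : ℝ) ^ 2 * (N : ℝ) ^ 2 =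
          (l : ℝ) ^ 2 * (q * (k : ℝ) ^ 2 * (N : ℝ) ^ 2) := by push_cast; ring
        _ ≤ (J : ℝ) ^ 2 * (27 * c * μ) := mul_le_mul hl2 hqN (by positivity) (by positivity)
        _ = 27 * (c * (J : ℝ) ^ 2) * μ := by ring
        _ = _ := by rw [hcJ]; ring
    have hE' : E ≤ 3 / 10 ^ 15 * μ := by
      refine hEμ.trans (mul_le_mul_of_nonneg_right ?_ hμ0.le)
      linarith
    have hhole := hole hU n hn1 hn2 hn3 N (l * k) hNn hlk (by
      rw [← hW]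
      have e1 : 3 * W / (N : ℝ) = 3 * μ := by rw [hμ]; ring
      have e2 : 27 * (q * ((l * k : ℕ) : ℝ) ^ 2) * (N : ℝ) ^ 2 =
          27 * (q * ((l * k : ℕ) : ℝ) ^ 2 * (N : ℝ) ^ 2) := by ring
      rw [e1, e2]
      linarith) (1 / (10 * ((6000 * N : ℕ) : ℝ))) (by positivity)
    refine hhole.trans ((mass hU (6000 * N) (l * k) (by omega) hlk).trans ?_)
    rw [← hW]
    push_cast
    have e1 : 3 * W / (6000 * (N : ℝ)) = μ / 2000 := by rw [hμ]; field_simp; norm_num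
    have e2 : 27 * (q * ((l : ℝ) * k) ^ 2) * (6000 * (N : ℝ)) ^ 2 =
        27 * 6000 ^ 2 * (q * ((l * k : ℕ) : ℝ) ^ 2 * (N : ℝ) ^ 2) := by push_cast; ring
    rw [e1, e2]
    linarith
  -- the tail
  have htail : ∀ l ∈ Ico (J + 1) (J₂ + 1), 1 / (l : ℝ) ^ 2 * Wd T L θ (1 / (10 * N)) (l * k) ≤
      1 / (l : ℝ) ^ 2 * (l : ℝ) ^ (2 / 3 : ℝ) * (4 * μ) := by
    intro l hl
    rw [mem_Ico] at hl
    have hl0 : (0 : ℝ) < l := by exact_mod_cast (by omega : 0 < l)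
    have hl1 : (1 : ℝ) ≤ l := by exact_mod_cast (by omega : 1 ≤ l)
    have hlk : 1 ≤ l * k := Nat.mul_pos (by omega) hk
    obtain ⟨r, hr⟩ : ∃ r : ℝ, r = (l : ℝ) ^ (2 / 3 : ℝ) := ⟨_, rfl⟩
    have hr1 : 1 ≤ r := by rw [hr]; exact Real.one_le_rpow hl1 (by norm_num)
    have hr0 : 0 < r := by linarith
    have hr3 : r ^ 3 = (l : ℝ) ^ 2 := by
      rw [hr, ← Real.rpow_natCast, ← Real.rpow_mul hl0.le, ← Real.rpow_natCast]
      norm_num
    have hrN : r ≤ N := by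
      have h1 : r ^ 3 ≤ (N : ℝ) ^ 3 := by
        rw [hr3]
        have h2 : (l : ℝ) ≤ N * u := by
          have : l ≤ N * u := by rw [← hJ₂]; omega
          exact_mod_cast this
        have h3 : (u : ℝ) * u ≤ N := by exact_mod_cast hu2
        calc (l : ℝ) ^ 2 ≤ (N * u) ^ 2 := pow_le_pow_left₀ hl0.le h2 2
          _ = (N : ℝ) ^ 2 * (u * u) := by ring
          _ ≤ (N : ℝ) ^ 2 * N := mul_le_mul_of_nonneg_left h3 (by positivity)
          _ = (N : ℝ) ^ 3 := by ring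
      exact le_of_pow_le_pow_left₀ (by norm_num) hN0.le h1
    rw [← hr, mul_assoc]
    refine mul_le_mul_of_nonneg_left ?_ (by positivity)
    obtain ⟨N', hN'⟩ : ∃ N' : ℕ, N' = ⌈(N : ℝ) / r⌉₊ := ⟨_, rfl⟩
    have hNr : 1 ≤ (N : ℝ) / r := by rw [le_div_iff₀ hr0]; linarith
    have hN'1 : (N : ℝ) / r ≤ N' := by rw [hN']; exact Nat.le_ceil _
    have hN'2 : (N' : ℝ) ≤ 2 * (N / r) := by
      have h1 : (N' : ℝ) < N / r + 1 := by
        rw [hN']; exact Nat.ceil_lt_add_one (by positivity)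
      linarith
    have hN'N : N' ≤ N := by
      rw [hN']
      apply Nat.ceil_le.2
      exact div_le_self hN0.le hr1
    have hN'0 : (0 : ℝ) < N' := by linarith
    have hN'n : 1 ≤ N' := by exact_mod_cast (by linarith : (1 : ℝ) ≤ N')
    have hmono : Wd T L θ (1 / (10 * N)) (l * k) ≤ Wd T L θ (1 / (10 * N')) (l * k) := by
      refine Wd_mono hL ?_ _
      have : (N' : ℝ) ≤ N := by exact_mod_cast hN'N
      exact one_div_le_one_div_of_le (by positivity) (by linarith)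
    refine hmono.trans ((mass hU N' (l * k) hN'n hlk).trans ?_)
    rw [← hW]
    have e1 : 3 * W / (N' : ℝ) ≤ 3 * μ * r := by
      rw [div_le_iff₀ hN'0, hμ]
      calc 3 * W = 3 * (W / N) * r * (N / r) := by field_simp
        _ ≤ _ := mul_le_mul_of_nonneg_left hN'1 (by positivity)
    have e2 : 27 * (q * ((l * k : ℕ) : ℝ) ^ 2) * (N' : ℝ) ^ 2 ≤ 108 * (27 * c * μ) * r := by
      have h1 : (N' : ℝ) ^ 2 ≤ (2 * (N / r)) ^ 2 := pow_le_pow_left₀ hN'0.le hN'2 2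
      calc 27 * (q * ((l * k : ℕ) : ℝ) ^ 2) * (N' : ℝ) ^ 2 ≤
          27 * (q * ((l * k : ℕ) : ℝ) ^ 2) * (2 * (N / r)) ^ 2 :=
            mul_le_mul_of_nonneg_left h1 (by have := hU.q_nonneg; positivity)
        _ = 108 * (q * (k : ℝ) ^ 2 * (N : ℝ) ^ 2) * ((l : ℝ) ^ 2 / r ^ 2) := by
            push_cast
            field_simp
            ring
        _ = 108 * (q * (k : ℝ) ^ 2 * (N : ℝ) ^ 2) * r := by
            rw [← hr3]
            congr 1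
            field_simp
        _ ≤ _ := by
            refine mul_le_mul_of_nonneg_right ?_ hr0.le
            exact mul_le_mul_of_nonneg_left hqN (by norm_num)
    have e3 : 27 * E ≤ 81 * c * μ * r := by
      have h1 : 27 * E ≤ 81 * c * μ := by linarith
      have h2 : 81 * c * μ ≤ 81 * c * μ * r := le_mul_of_one_le_right (by positivity) hr1
      linarith
    have h4 : 108 * (27 * c * μ) * r + 81 * c * μ * r ≤ μ * r := by
      have h5 : 0 ≤ μ * r := by positivity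
      have h6 : 108 * (27 * c * μ) * r + 81 * c * μ * r = 2997 * c * (μ * r) := by ring
      rw [h6]
      have h7 : 2997 * c ≤ 1 := by linarith
      nlinarith
    have h5 : r * (4 * μ) = 3 * μ * r + μ * r := by ring
    rw [h5]
    linarith
  -- the sum
  have hsum : ∑ l ∈ range (J₂ + 1), 1 / (l : ℝ) ^ 2 * Wd T L θ (1 / (10 * N)) (l * k) ≤
      2 * (μ / 1000) + 1 / 4000 * (4 * μ) := by
    rw [range_eq_Ico, ← sum_Ico_consecutive _ (Nat.zero_le 1) (by omega : 1 ≤ J₂ + 1),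
      ← sum_Ico_consecutive _ (by omega : 1 ≤ J + 1) (by omega : J + 1 ≤ J₂ + 1)]
    have h0 : ∑ l ∈ Ico (0 : ℕ) 1, 1 / (l : ℝ) ^ 2 * Wd T L θ (1 / (10 * N)) (l * k) = 0 := by
      simp
    rw [h0, zero_add]
    refine add_le_add ?_ ?_
    · refine (sum_le_sum hhead).trans ?_
      rw [← sum_mul]
      exact mul_le_mul_of_nonneg_right (sum_inv_sq J) (by positivity)
    · refine (sum_le_sum htail).trans ?_
      rw [← sum_mul]
      exact mul_le_mul_of_nonneg_right (hJ (J₂ + 1)) (by positivity)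
  have hWJ : W / (J₂ : ℝ) ≤ μ / 4000 := by
    rw [hJ₂, hμ]
    push_cast
    rw [← div_div, div_le_div_iff_of_pos_left (by positivity) (by linarith) (by norm_num)]
    exact hu4'
  -- conclusion
  have hpi1 := Real.pi_gt_d2
  have hpi2 : 9.8 < Real.pi ^ 2 := by nlinarith
  have hom : om nn = Real.pi / (10 * N) := by rw [om, hnn1]
  have hlow : 1 / 100 * μ ≤ om nn * (Real.pi / 40 * W - 14 * ∑ l ∈ range nn,
      |Bm T L θ (k * (l + 1))|) := by
    have h1 : 6 / 100 * W ≤ Real.pi / 40 * W - 14 * ∑ l ∈ range nn,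
        |Bm T L θ (k * (l + 1))| := by
      have h2 : 3.14 / 40 * W ≤ Real.pi / 40 * W :=
        mul_le_mul_of_nonneg_right (by linarith) hWpos.le
      linarith
    have h2 : 3 / (10 * (N : ℝ)) ≤ om nn := by
      rw [hom]
      exact div_le_div_of_nonneg_right (by linarith) (by positivity)
    calc 1 / 100 * μ ≤ 3 / (10 * (N : ℝ)) * (6 / 100 * W) := by
          rw [hμ]
          have : 3 / (10 * (N : ℝ)) * (6 / 100 * W) = 18 / 1000 * (W / N) := by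
            field_simp
            ring
          rw [this, ← hμ]
          linarith
      _ ≤ _ := mul_le_mul h2 h1 (by positivity) (om_pos nn).le
  have hup : 20 / Real.pi ^ 2 * (∑ l ∈ range (J₂ + 1), 1 / (l : ℝ) ^ 2 *
      Wd T L θ (1 / (10 * N)) (l * k) + W / J₂) ≤ 2.1 * (4 / 1000 * μ) := by
    refine mul_le_mul ?_ ?_ ?_ (by norm_num)
    · rw [div_le_iff₀ (by positivity)]
      linarith
    · linarith
    · refine add_nonneg (sum_nonneg fun l _ => mul_nonneg (by positivity) (Wd_nonneg hL _ _))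
        (by positivity)
  have := hlow.trans (hcore.trans hup)
  linarith

end Sq

end LangForms
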