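import Pool.Agent.Lib_MP_f5471b_s.Mass

/-!
# MP_f5471b_nt: the test applied to all angles
-/

namespace LangForms

namespace Sq

open Finset

variable {α : Type} {T : Finset α} {L θ : α → ℝ}

theorem Bm_zero : Bm T L θ 0 = (∑ v ∈ T, L v) / 6 := by
  unfold Bm
  rw [sum_div]
  refine sum_congr rfl fun v _ => ?_
  have : ncirc 0 = 0 := ncirc_of_mem le_rfl (by norm_num)
  rw [Nat.cast_zero, zero_mul, this]
  unfold bern
  ring

theorem Bm_dist (k i j : ℕ) (h : j ≤ i) :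
    ∑ v ∈ T, L v * bern (ncirc (((i : ℝ) - j) * (k * θ v))) = Bm T L θ (k * (i - j)) := by
  unfold Bm
  refine sum_congr rfl fun v _ => ?_
  rw [Nat.cast_mul, Nat.cast_sub h]
  rw [show ((i : ℝ) - j) * (k * θ v) = k * ((i : ℝ) - j) * θ v by ring]

theorem Bm_dist' (k i j : ℕ) (h : i ≤ j) :
    ∑ v ∈ T, L v * bern (ncirc (((i : ℝ) - j) * (k * θ v))) = Bm T L θ (k * (j - i)) := by
  unfold Bm
  refine sum_congr rfl fun v _ => ?_
  rw [Nat.cast_mul, Nat.cast_sub h]
  rw [show ((i : ℝ) - j) * (k * θ v) = -(k * ((j : ℝ) - i) * θ v) by ring, ncirc_neg]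

theorem sum_Qf (n k : ℕ) : ∑ v ∈ T, L v * Qf n (k * θ v) =
    ka n * ∑ i ∈ range (n + 1), ∑ j ∈ range (n + 1), sw n i * sw n j *
      ∑ v ∈ T, L v * bern (ncirc (((i : ℝ) - j) * (k * θ v))) +
    Real.sin (om n) * ∑ i ∈ range (n + 1), sw n i * Bm T L θ (k * i) := by
  simp only [Qf, mul_add, sum_add_distrib]
  congr 1
  · simp only [mul_sum]
    rw [sum_comm]
    refine sum_congr rfl fun i _ => ?_
    rw [sum_comm]
    refine sum_congr rfl fun j _ => sum_congr rfl fun v _ => ?_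
    ring
  · simp only [mul_sum, Bm]
    rw [sum_comm]
    refine sum_congr rfl fun i _ => sum_congr rfl fun v _ => ?_
    rw [show (i : ℝ) * (k * θ v) = ((k * i : ℕ) : ℝ) * θ v by push_cast; ring]
    ring

theorem row (n k i : ℕ) (hi : i ≤ n) :
    sw n i ^ 2 * ((∑ v ∈ T, L v) / 6) - 2 * ∑ l ∈ range n, |Bm T L θ (k * (l + 1))| ≤
      ∑ j ∈ range (n + 1), sw n i * sw n j *
      ∑ v ∈ T, L v * bern (ncirc (((i : ℝ) - j) * (k * θ v))) := by
  obtain ⟨F, hF⟩ : ∃ F : ℕ → ℝ, F = fun j => sw n i * sw n j *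
      ∑ v ∈ T, L v * bern (ncirc (((i : ℝ) - j) * (k * θ v))) := ⟨_, rfl⟩
  obtain ⟨g, hg⟩ : ∃ g : ℕ → ℝ, g = fun m => |Bm T L θ (k * m)| := ⟨_, rfl⟩
  have hg0 : ∀ m, 0 ≤ g m := fun m => by rw [hg]; exact abs_nonneg _
  have hss : ∀ j, j ≤ n → 0 ≤ sw n i * sw n j ∧ sw n i * sw n j ≤ 1 := by
    intro j hj
    have h1 := sw_nonneg hi
    have h2 := sw_nonneg hj
    have h3 := sw_le_one n i
    have h4 := sw_le_one n j
    constructor
    · positivity
    · nlinarith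
  have hsplit : ∑ j ∈ range (n + 1), F j =
      ∑ j ∈ range i, F j + (F i + ∑ j ∈ Ico (i + 1) (n + 1), F j) := by
    rw [← Finset.sum_range_add_sum_Ico F (by omega : i ≤ n + 1),
      Finset.sum_eq_sum_Ico_succ_bot (by omega : i < n + 1)]
  have h1 : -∑ l ∈ range n, g (l + 1) ≤ ∑ j ∈ range i, F j := by
    have h2 : -∑ j ∈ range i, g (i - j) ≤ ∑ j ∈ range i, F j := by
      rw [← sum_neg_distrib]
      refine sum_le_sum fun j hj => ?_
      rw [mem_range] at hj
      have hs := hss j (by omega)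
      have e : F j = sw n i * sw n j * Bm T L θ (k * (i - j)) := by
        rw [hF, ← Bm_dist k i j hj.le]
      rw [e, hg]
      have h3 := neg_abs_le (Bm T L θ (k * (i - j)))
      have h4 := abs_nonneg (Bm T L θ (k * (i - j)))
      nlinarith [mul_nonneg hs.1 (by linarith : 0 ≤ Bm T L θ (k * (i - j)) + |Bm T L θ (k * (i - j))|),
        mul_nonneg (sub_nonneg.2 hs.2) h4]
    have h3 : ∑ j ∈ range i, g (i - j) = ∑ j ∈ range i, g (j + 1) := by
      rw [← sum_range_reflect]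
      refine sum_congr rfl fun j hj => ?_
      rw [mem_range] at hj
      congr 1
      omega
    have h4 : ∑ j ∈ range i, g (j + 1) ≤ ∑ j ∈ range n, g (j + 1) :=
      sum_le_sum_of_subset_of_nonneg (range_subset_range.2 hi) fun j _ _ => hg0 _
    linarith
  have h2 : -∑ l ∈ range n, g (l + 1) ≤ ∑ j ∈ Ico (i + 1) (n + 1), F j := by
    have h2 : -∑ j ∈ Ico (i + 1) (n + 1), g (j - i) ≤ ∑ j ∈ Ico (i + 1) (n + 1), F j := by
      rw [← sum_neg_distrib]
      refine sum_le_sum fun j hj => ?_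
      rw [mem_Ico] at hj
      have hs := hss j (by omega)
      have e : F j = sw n i * sw n j * Bm T L θ (k * (j - i)) := by
        rw [hF, ← Bm_dist' k i j (by omega)]
      rw [e, hg]
      have h3 := neg_abs_le (Bm T L θ (k * (j - i)))
      have h4 := abs_nonneg (Bm T L θ (k * (j - i)))
      nlinarith [mul_nonneg hs.1 (by linarith : 0 ≤ Bm T L θ (k * (j - i)) + |Bm T L θ (k * (j - i))|),
        mul_nonneg (sub_nonneg.2 hs.2) h4]
    have h3 : ∑ j ∈ Ico (i + 1) (n + 1), g (j - i) = ∑ j ∈ range (n - i), g (j + 1) := by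
      rw [sum_Ico_eq_sum_range]
      have : n + 1 - (i + 1) = n - i := by omega
      rw [this]
      refine sum_congr rfl fun j hj => ?_
      congr 1
      omega
    have h4 : ∑ j ∈ range (n - i), g (j + 1) ≤ ∑ j ∈ range n, g (j + 1) :=
      sum_le_sum_of_subset_of_nonneg (range_subset_range.2 (by omega)) fun j _ _ => hg0 _
    linarith
  have h3 : F i = sw n i ^ 2 * ((∑ v ∈ T, L v) / 6) := by
    have e : F i = sw n i * sw n i * Bm T L θ (k * (i - i)) := by
      rw [hF, ← Bm_dist k i i le_rfl]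
    rw [e, Nat.sub_self, mul_zero, Bm_zero]
    ring
  have h4 : ∑ l ∈ range n, |Bm T L θ (k * (l + 1))| = ∑ l ∈ range n, g (l + 1) := by rw [hg]
  have h5 : ∑ j ∈ range (n + 1), sw n i * sw n j *
      ∑ v ∈ T, L v * bern (ncirc (((i : ℝ) - j) * (k * θ v))) = ∑ j ∈ range (n + 1), F j := by
    rw [hF]
  rw [h4, h5, hsplit, h3]
  linarith

theorem Qf_lower (n k : ℕ) (hn : 1 ≤ n) (hW : 0 ≤ ∑ v ∈ T, L v) :
    om n * (Real.pi / 40 * (∑ v ∈ T, L v) - 14 * ∑ l ∈ range n, |Bm T L θ (k * (l + 1))|) ≤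
      ∑ v ∈ T, L v * Qf n (k * θ v) := by
  rw [sum_Qf]
  obtain ⟨W, hWd⟩ : ∃ W, W = ∑ v ∈ T, L v := ⟨_, rfl⟩
  obtain ⟨A, hA⟩ : ∃ A, A = ∑ l ∈ range n, |Bm T L θ (k * (l + 1))| := ⟨_, rfl⟩
  have hA0 : 0 ≤ A := by rw [hA]; exact sum_nonneg fun _ _ => abs_nonneg _
  have h1 : ((n : ℝ) + 1) / 2 * (W / 6) - ((n : ℝ) + 1) * (2 * A) ≤
      ∑ i ∈ range (n + 1), ∑ j ∈ range (n + 1), sw n i * sw n j *
      ∑ v ∈ T, L v * bern (ncirc (((i : ℝ) - j) * (k * θ v))) := by
    have h2 : ∑ i ∈ range (n + 1), (sw n i ^ 2 * (W / 6) - 2 * A) ≤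
        ∑ i ∈ range (n + 1), ∑ j ∈ range (n + 1), sw n i * sw n j *
        ∑ v ∈ T, L v * bern (ncirc (((i : ℝ) - j) * (k * θ v))) := by
      refine sum_le_sum fun i hi => ?_
      rw [mem_range] at hi
      rw [hWd, hA]
      exact row n k i (by omega)
    refine le_trans (le_of_eq ?_) h2
    rw [sum_sub_distrib, ← sum_mul, sum_sq n hn, sum_const, card_range, nsmul_eq_mul]
    push_cast
    ring
  have h2 : -A ≤ ∑ i ∈ range (n + 1), sw n i * Bm T L θ (k * i) := by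
    rw [sum_range_succ']
    rw [sw_zero, zero_mul, add_zero, hA, ← sum_neg_distrib]
    refine sum_le_sum fun i hi => ?_
    rw [mem_range] at hi
    have hs0 := sw_nonneg (n := n) (i := i + 1) (by omega)
    have hs1 := sw_le_one n (i + 1)
    have h3 := neg_abs_le (Bm T L θ (k * (i + 1)))
    have h4 := abs_nonneg (Bm T L θ (k * (i + 1)))
    nlinarith [mul_nonneg hs0 (by linarith : 0 ≤ Bm T L θ (k * (i + 1)) + |Bm T L θ (k * (i + 1))|),
      mul_nonneg (sub_nonneg.2 hs1) h4]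
  have hk0 := ka_nonneg n hn
  have hk1 := ka_ge n hn
  have hk2 := ka_le n
  have ho := om_pos n
  have hom := om_mul n
  have hs0 : 0 ≤ Real.sin (om n) := by
    apply Real.sin_nonneg_of_nonneg_of_le_pi ho.le
    have := om_le n hn
    have := Real.pi_pos
    linarith
  have hs1 : Real.sin (om n) ≤ om n := Real.sin_le ho.le
  have h3 := mul_le_mul_of_nonneg_left h1 hk0
  have h4 := mul_le_mul_of_nonneg_left h2 hs0
  rw [← hWd, ← hA]
  rw [← hWd] at hW
  have hn1 : (0 : ℝ) ≤ (n : ℝ) + 1 := by positivity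
  have h5 : 3 / 10 * om n ^ 2 * (((n : ℝ) + 1) / 2 * (W / 6)) ≤
      ka n * (((n : ℝ) + 1) / 2 * (W / 6)) := mul_le_mul_of_nonneg_right hk1 (by positivity)
  have h6 : ka n * (((n : ℝ) + 1) * (2 * A)) ≤ 2 * om n ^ 2 * (((n : ℝ) + 1) * (2 * A)) :=
    mul_le_mul_of_nonneg_right hk2 (by positivity)
  have h7 : Real.sin (om n) * A ≤ om n * A := mul_le_mul_of_nonneg_right hs1 hA0
  have e1 : 3 / 10 * om n ^ 2 * (((n : ℝ) + 1) / 2 * (W / 6)) = om n * (Real.pi / 40 * W) := by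
    rw [← hom]; ring
  have e2 : 2 * om n ^ 2 * (((n : ℝ) + 1) * (2 * A)) = om n * (4 * Real.pi * A) := by
    rw [← hom]; ring
  rw [e1] at h5
  rw [e2] at h6
  have hpi := Real.pi_lt_d2
  have h8 : om n * (4 * Real.pi * A) + om n * A ≤ om n * (14 * A) := by
    rw [← mul_add]
    refine mul_le_mul_of_nonneg_left ?_ ho.le
    nlinarith
  nlinarith

/-- The inequality between the test and the masses near zero. -/
theorem core_ineq (hL : ∀ v ∈ T, 0 ≤ L v) (n k J : ℕ) (hn : 1 ≤ n) (hJ : 1 ≤ J) :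
    om n * (Real.pi / 40 * (∑ v ∈ T, L v) - 14 * ∑ l ∈ range n, |Bm T L θ (k * (l + 1))|) ≤
      20 / Real.pi ^ 2 * (∑ l ∈ range (J + 1), 1 / (l : ℝ) ^ 2 *
        Wd T L θ (1 / ((n : ℝ) + 1)) (l * k) + (∑ v ∈ T, L v) / J) := by
  classical
  refine (Qf_lower n k hn (sum_nonneg hL)).trans ?_
  have hpi : 0 < Real.pi ^ 2 := by have := Real.pi_pos; positivity
  have h1 : ∑ v ∈ T, L v * Qf n (k * θ v) ≤ ∑ v ∈ T, L v * (20 / Real.pi ^ 2 *
      (∑ l ∈ range (J + 1), 1 / (l : ℝ) ^ 2 *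
      (if ncirc (((l * k : ℕ) : ℝ) * θ v) ≤ 1 / ((n : ℝ) + 1) then 1 else 0) + 1 / J)) := by
    refine sum_le_sum fun v hv => ?_
    refine mul_le_mul_of_nonneg_left ?_ (hL v hv)
    refine (test n J hJ (k * θ v)).trans ?_
    refine mul_le_mul_of_nonneg_left ?_ (by positivity)
    refine add_le_add_left (sum_le_sum fun l _ => ?_) _
    refine mul_le_mul_of_nonneg_left ?_ (by positivity)
    have e : ((l * k : ℕ) : ℝ) * θ v = l * (k * θ v) := by push_cast; ring
    rw [e]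
    by_cases hc : ncirc (l * (k * θ v)) < 1 / ((n : ℝ) + 1)
    · rw [if_pos hc, if_pos hc.le]
    · rw [if_neg hc]
      split_ifs
      · exact zero_le_one
      · exact le_rfl
  refine h1.trans (le_of_eq ?_)
  simp only [Wd, mul_sum, mul_add, sum_add_distrib]
  congr 1
  · rw [sum_comm]
    refine sum_congr rfl fun l _ => sum_congr rfl fun v _ => ?_
    split_ifs
    · ring
    · ring
  · rw [sum_div, mul_sum]
    refine sum_congr rfl fun v _ => ?_
    ring

end Sq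

end LangForms
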