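import Pool.Agent.Lib_MP_f5471b_s.LocThree
import Pool.Agent.Lib_MP_f5471b_j.Places23
import Pool.Agent.Lib_MP_f5471b_j.Glob

/-!
# MP_f5471b_nt: one step of the duplication map, global two-sided estimate
-/

namespace LangForms

open Height NumberField WeierstrassCurve Topology Filter IsDedekindDomain Function

namespace Sq

variable {F : Type} [Field F] [NumberField F]

theorem fin_na (v : FinitePlace F) : IsNonarchimedean v.1 := fun x y => v.add_le x y

/-- The product formula, as a finite sum. -/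
theorem log_product (x : F) (hx : x ≠ 0) (T : Finset (FinitePlace F))
    (hT : ∀ v : FinitePlace F, v ∉ T → v.1 x = 1) :
    ∑ v : InfinitePlace F, v.mult * Real.log (v.1 x) + ∑ v ∈ T, Real.log (v.1 x) = 0 := by
  have h := prod_abs_eq_one (K := F) hx
  have hs : (Function.mulSupport fun v : FinitePlace F => v x) ⊆ (T : Set (FinitePlace F)) := by
    intro v hv
    by_contra hcon
    exact hv (hT v (fun h => hcon (Finset.mem_coe.mpr h)))
  rw [finprod_eq_prod_of_mulSupport_subset _ hs] at h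
  have hi : ∀ v : InfinitePlace F, 0 < v.1 x := fun v => v.1.pos hx
  have hf : ∀ v : FinitePlace F, 0 < v.1 x := fun v => v.1.pos hx
  have h2 := congrArg Real.log h
  have hp1 : 0 < ∏ v : InfinitePlace F, v x ^ v.mult :=
    Finset.prod_pos fun v _ => pow_pos (hi v) _
  have hp2 : 0 < ∏ v ∈ T, v x := Finset.prod_pos fun v _ => hf v
  have hf' : ∀ v ∈ T, (v x : ℝ) ≠ 0 := fun v _ => (hf v).ne'
  have hi' : ∀ v ∈ (Finset.univ : Finset (InfinitePlace F)), (v x : ℝ) ^ v.mult ≠ 0 :=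
    fun v _ => (pow_pos (hi v) _).ne'
  rw [Real.log_mul hp1.ne' hp2.ne', Real.log_one, Real.log_prod hf', Real.log_prod hi'] at h2
  simp only [Real.log_pow] at h2
  exact h2

/-- The height, as a finite sum. -/
theorem logHeight_sum (w : Fin 2 → F) (hw : w ≠ 0) (T : Finset (FinitePlace F))
    (hT : ∀ v : FinitePlace F, v ∉ T → nrm v.1 w = 1) :
    logHeight w = ∑ v : InfinitePlace F, v.mult * Real.log (nrm v.1 w) +
      ∑ v ∈ T, Real.log (nrm v.1 w) := by
  have h : mulHeight w = (∏ v : InfinitePlace F, nrm v.1 w ^ v.mult) *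
      ∏ᶠ v : FinitePlace F, nrm v.1 w := by
    rw [NumberField.mulHeight_eq hw]
    congr 1
    · exact Finset.prod_congr rfl fun v _ => by rw [GlobAux.nrm_eq]; rfl
    · exact finprod_congr fun v => by rw [GlobAux.nrm_eq]; rfl
  have hs : (Function.mulSupport fun v : FinitePlace F => nrm v.1 w) ⊆
      (T : Set (FinitePlace F)) := by
    intro v hv
    by_contra hcon
    exact hv (hT v (fun h => hcon (Finset.mem_coe.mpr h)))
  rw [finprod_eq_prod_of_mulSupport_subset _ hs] at h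
  have hi : ∀ v : InfinitePlace F, 0 < nrm v.1 w := fun v => nrm_pos v.1 hw
  have hf : ∀ v : FinitePlace F, 0 < nrm v.1 w := fun v => nrm_pos v.1 hw
  have hp1 : 0 < ∏ v : InfinitePlace F, nrm v.1 w ^ v.mult :=
    Finset.prod_pos fun v _ => pow_pos (hi v) _
  have hp2 : 0 < ∏ v ∈ T, nrm v.1 w := Finset.prod_pos fun v _ => hf v
  rw [logHeight_eq_log_mulHeight, h, Real.log_mul hp1.ne' hp2.ne',
    Real.log_prod (fun v _ => (hf v).ne'), Real.log_prod (fun v _ => (pow_pos (hi v) _).ne')]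
  simp only [Real.log_pow]

theorem ex_supp (x : F) (hx : x ≠ 0) :
    ∃ T : Finset (FinitePlace F), ∀ v : FinitePlace F, v ∉ T → v.1 x = 1 := by
  have hfin : (Function.mulSupport fun v : FinitePlace F => v x).Finite :=
    FinitePlace.hasFiniteMulSupport hx
  refine ⟨hfin.toFinset, fun v hv => ?_⟩
  rw [Set.Finite.mem_toFinset, Function.mem_mulSupport, not_not] at hv
  exact hv

theorem ex_supp_nrm (w : Fin 2 → F) (hw : w ≠ 0) :
    ∃ T : Finset (FinitePlace F), ∀ v : FinitePlace F, v ∉ T → nrm v.1 w = 1 := by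
  have hfin : (Function.mulSupport fun v : FinitePlace F => ⨆ i, v (w i)).Finite :=
    LocGlobAux.hfm hw
  refine ⟨hfin.toFinset, fun v hv => ?_⟩
  rw [Set.Finite.mem_toFinset, Function.mem_mulSupport, not_not] at hv
  rw [GlobAux.nrm_eq]
  exact hv

theorem Jl_zero (v : FinitePlace F) (t : F) (w : Fin 2 → F) (h1 : v.1 (1 + 1728 * t) = 1)
    (h2 : v.1 (w 1) = 1) (h3 : nrm v.1 w = 1) : Jl v.1 t w = 0 := by
  have hv := fin_na v
  have hM : NDA.M v.1 1 w = 1 := by
    unfold NDA.M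
    rw [h2, mul_one]
    apply max_eq_right
    apply NDEAux.na_le hv _ h2.le
    rw [map_mul]
    have h4 := na_ofNat_le v.1 hv 12
    have h5 : v.1 (w 0) ≤ 1 := by rw [← h3]; exact le_max_left _ _
    have h6 := v.1.nonneg (w 0)
    calc v.1 12 * v.1 (w 0) ≤ 1 * 1 := by gcongr
      _ = 1 := one_mul 1
  rw [Jl, Sc_eq_one v.1 t h1, hM, h2, mul_one, div_one, Real.log_one]

theorem ex_supp_J (t : F) (hκ : 1 + 1728 * t ≠ 0) (w : Fin 2 → F) (hw : w 1 ≠ 0) :
    ∃ T : Finset (FinitePlace F), ∀ v : FinitePlace F, v ∉ T → Jl v.1 t w = 0 := by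
  classical
  obtain ⟨T1, h1⟩ := ex_supp (1 + 1728 * t) hκ
  obtain ⟨T2, h2⟩ := ex_supp (w 1) hw
  obtain ⟨T3, h3⟩ := ex_supp_nrm w (fun h => hw (by rw [h]; rfl))
  refine ⟨T1 ∪ T2 ∪ T3, fun v hv => ?_⟩
  simp only [Finset.mem_union, not_or] at hv
  exact Jl_zero v t w (h1 v hv.1.1) (h2 v hv.1.2) (h3 v hv.2)

/-- The sum of the local terms. -/
noncomputable def fQ (t : F) (ε : ℝ) (Tf : Finset (FinitePlace F)) (w : Fin 2 → F) : ℝ :=
  ∑ v ∈ Tf, phi v.1 t w +
    ∑ v : InfinitePlace F, (if v.1 t ≤ ε then v.mult * phi v.1 t w else 0) +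
    ∑ v : InfinitePlace F, v.mult * Jl v.1 t w + ∑ᶠ v : FinitePlace F, Jl v.1 t w

theorem fQ_eq (t : F) (ε : ℝ) (Tf T : Finset (FinitePlace F)) (w : Fin 2 → F)
    (hT : ∀ v : FinitePlace F, v ∉ T → Jl v.1 t w = 0) :
    fQ t ε Tf w = ∑ v ∈ Tf, phi v.1 t w +
      ∑ v : InfinitePlace F, (if v.1 t ≤ ε then v.mult * phi v.1 t w else 0) +
      ∑ v : InfinitePlace F, v.mult * Jl v.1 t w + ∑ v ∈ T, Jl v.1 t w := by
  have hs : (Function.support fun v : FinitePlace F => Jl v.1 t w) ⊆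
      (T : Set (FinitePlace F)) := by
    intro v hv
    by_contra hcon
    exact hv (hT v (fun h => hcon (Finset.mem_coe.mpr h)))
  rw [fQ, finsum_eq_sum_of_support_subset _ hs]

omit [NumberField F] in
theorem Jl_smul (v : AbsoluteValue F ℝ) (t : F) (hκ : 1 + 1728 * t ≠ 0) (c : F) (hc : c ≠ 0)
    (w : Fin 2 → F) (hw : w 1 ≠ 0) : Jl v t (c • w) = Jl v t w := by
  have hc0 := v.pos hc
  have hS := Sc_pos v t hκ
  have hb := v.pos hw
  have hM : NDA.M v (Sc v t) (c • w) = v c * NDA.M v (Sc v t) w := by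
    unfold NDA.M
    rw [mul_max_of_nonneg _ _ hc0.le, Pi.smul_apply, Pi.smul_apply, smul_eq_mul, smul_eq_mul]
    have e1 : 12 * (c * w 0) + c * w 1 = c * (12 * w 0 + w 1) := by ring
    rw [e1, map_mul, map_mul]
    congr 1
    ring
  rw [Jl, Jl, hM, Pi.smul_apply, smul_eq_mul, map_mul]
  congr 1
  have e2 : Sc v t * (v c * v (w 1)) = v c * (Sc v t * v (w 1)) := by ring
  rw [e2, mul_div_mul_left _ _ hc0.ne']

theorem fQ_smul (t : F) (hκ : 1 + 1728 * t ≠ 0) (ε : ℝ) (Tf : Finset (FinitePlace F)) (c : F)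
    (hc : c ≠ 0) (w : Fin 2 → F) (hw : w 1 ≠ 0) : fQ t ε Tf (c • w) = fQ t ε Tf w := by
  have h1 : ∀ v : AbsoluteValue F ℝ, phi v t (c • w) = phi v t w := by
    intro v
    unfold phi
    rw [rho_smul v t c hc w]
  have h2 : ∀ v : AbsoluteValue F ℝ, Jl v t (c • w) = Jl v t w := fun v =>
    Jl_smul v t hκ c hc w hw
  unfold fQ
  simp only [h1, h2]

omit [NumberField F] in
theorem inf_ofNat (v : InfinitePlace F) (n : ℕ) [n.AtLeastTwo] :
    v.1 (OfNat.ofNat n : F) = (OfNat.ofNat n : ℝ) := by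
  have h3 : v.1 ((OfNat.ofNat n : ℕ) : F) = ((OfNat.ofNat n : ℕ) : ℝ) :=
    InfinitePlace.map_natCast v (OfNat.ofNat n)
  rw [Nat.cast_ofNat, Nat.cast_ofNat] at h3
  exact h3

/-- One step of the duplication map. -/
theorem glob_step (d : ℕ) (ε c : ℝ) (hε : 0 < ε) (hε1 : ε ≤ 1 / 3456) (hc : 0 ≤ c)
    (hdup : ∀ (F : Type) [Field F] (v : AbsoluteValue F ℝ) (t : F), 0 < v t → v t ≤ ε →
      DupLow v t c ∧ DupRho v t c) :
    ∃ C : ℝ, 0 ≤ C ∧ ∀ (F : Type) [Field F] [NumberField F], Module.finrank ℚ F ≤ d →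
    ∀ t : F, t ≠ 0 → 1 + 1728 * t ≠ 0 →
    ∀ Tf : Finset (FinitePlace F), (∀ v, v ∈ Tf ↔ v t < 1) →
    ∀ w : Fin 2 → F, w 1 ≠ 0 → Fm t w 1 ≠ 0 →
    |fQ t ε Tf (Fm t w) - 4 * fQ t ε Tf w| ≤ C := by
  classical
  obtain ⟨C1, hC1, hl1⟩ := step_large ((1 / 6 : ℝ) ^ d) 1 (by positivity) one_pos
  obtain ⟨C2, hC2, hl2⟩ := step_large 1 ε one_pos hε
  have hlog6 : 0 ≤ Real.log 6 := Real.log_nonneg (by norm_num)
  set C3 : ℝ := 5 * (3 * (d * Real.log 6)) with hC3
  set C4 : ℝ := 2 * (c + Real.log 1378) + 5 * Real.log 26 + 3 * Real.log 8 + Real.log 2 with hC4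
  have hC3' : 0 ≤ C3 := by positivity
  have hC4' : 0 ≤ C4 := by
    have q1 : 0 ≤ Real.log 1378 := Real.log_nonneg (by norm_num)
    have q2 : 0 ≤ Real.log 26 := Real.log_nonneg (by norm_num)
    have q3 : 0 ≤ Real.log 8 := Real.log_nonneg (by norm_num)
    have q4 : 0 ≤ Real.log 2 := Real.log_nonneg (by norm_num)
    positivity
  refine ⟨3 * d * (C1 + C3) + d * (C2 + C4), by positivity, ?_⟩
  intro F _ _ hd t ht hκ Tf hTf w hw hF
  obtain ⟨S, hS1, hS2, hS3⟩ := places23 F d hd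
  have hD : t * (1 + 1728 * t) ^ 2 ≠ 0 := mul_ne_zero ht (pow_ne_zero _ hκ)
  have hx : Fm t w 1 / w 1 ^ 4 ≠ 0 := div_ne_zero hF (pow_ne_zero _ hw)
  obtain ⟨T1, hT1⟩ := ex_supp (t * (1 + 1728 * t) ^ 2) hD
  obtain ⟨T2, hT2⟩ := ex_supp (Fm t w 1 / w 1 ^ 4) hx
  obtain ⟨T3, hT3⟩ := ex_supp_J t hκ w hw
  obtain ⟨T4, hT4⟩ := ex_supp_J t hκ (Fm t w) hF
  obtain ⟨T, hT⟩ : ∃ T : Finset (FinitePlace F), T = Tf ∪ S ∪ T1 ∪ T2 ∪ T3 ∪ T4 := ⟨_, rfl⟩
  have iTf : Tf ⊆ T := by
    intro v hv; rw [hT]; simp only [Finset.mem_union]; tauto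
  have iS : S ⊆ T := by
    intro v hv; rw [hT]; simp only [Finset.mem_union]; tauto
  have i1 : ∀ v : FinitePlace F, v ∉ T → v.1 (t * (1 + 1728 * t) ^ 2) = 1 := by
    intro v hv; apply hT1; intro h; apply hv; rw [hT]; simp only [Finset.mem_union]; tauto
  have i2 : ∀ v : FinitePlace F, v ∉ T → v.1 (Fm t w 1 / w 1 ^ 4) = 1 := by
    intro v hv; apply hT2; intro h; apply hv; rw [hT]; simp only [Finset.mem_union]; tauto
  have i3 : ∀ v : FinitePlace F, v ∉ T → Jl v.1 t w = 0 := by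
    intro v hv; apply hT3; intro h; apply hv; rw [hT]; simp only [Finset.mem_union]; tauto
  have i4 : ∀ v : FinitePlace F, v ∉ T → Jl v.1 t (Fm t w) = 0 := by
    intro v hv; apply hT4; intro h; apply hv; rw [hT]; simp only [Finset.mem_union]; tauto
  have pD := log_product _ hD T i1
  have px := log_product _ hx T i2
  have f1 := fQ_eq t ε Tf T w i3
  have f2 := fQ_eq t ε Tf T (Fm t w) i4
  -- the errors at the finite places
  have ef : ∀ v ∈ T, |Err v.1 t (v ∈ Tf) w| ≤ if v ∈ S then C1 + C3 else 0 := by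
    intro v _
    have h0 : 0 < v.1 t := v.1.pos ht
    unfold Err
    by_cases hvT : v ∈ Tf
    · have h1 : v.1 t < 1 := (hTf v).mp hvT
      have h2 := step_fin_small v.1 (fin_na v) t h0 h1 hκ w hw hF
      simp only [if_pos hvT]
      by_cases hvS : v ∈ S
      · rw [if_pos hvS]
        refine h2.trans ?_
        have h12 : (1 / 6 : ℝ) ^ (3 * d) ≤ v.1 12 := by
          have e : (12 : F) = 2 * 2 * 3 := by norm_num
          rw [e, map_mul, map_mul]
          have a1 := (hS3 v).1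
          have a2 := (hS3 v).2
          have a3 : (0 : ℝ) < (1 / 6) ^ d := by positivity
          calc (1 / 6 : ℝ) ^ (3 * d) = (1 / 6) ^ d * (1 / 6) ^ d * (1 / 6) ^ d := by
                rw [← pow_add, ← pow_add]; congr 1; ring
            _ ≤ _ := mul_le_mul (mul_le_mul a1 a1 a3.le (a3.le.trans a1)) a2 a3.le
                (mul_nonneg (v.1.nonneg _) (v.1.nonneg _))
        have h13 := Real.log_le_log (by positivity) h12
        rw [Real.log_pow, one_div, Real.log_inv] at h13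
        push_cast at h13
        rw [hC3]
        linarith
      · rw [if_neg hvS]
        refine h2.trans ?_
        have e : (12 : F) = 2 * 2 * 3 := by norm_num
        have h12 : v.1 12 = 1 := by
          rw [e, map_mul, map_mul]
          have a1 : v.1 2 = 1 := (hS2 v hvS).1
          have a2 : v.1 3 = 1 := (hS2 v hvS).2
          rw [a1, a2]; norm_num
        rw [h12, Real.log_one]
        norm_num
    · have h1 : 1 ≤ v.1 t := not_lt.mp (fun h => hvT ((hTf v).mpr h))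
      simp only [if_neg hvT, zero_add]
      by_cases hvS : v ∈ S
      · rw [if_pos hvS]
        have h4 := hl1 F v.1 t (hS3 v).1 (hS3 v).2 h1 hκ w hw hF
        linarith
      · rw [if_neg hvS]
        have h4 := step_exact v.1 (fin_na v) t (hS2 v hvS).1 (hS2 v hvS).2 h1 hκ w hw hF
        rw [h4]
        apply le_of_eq
        rw [abs_eq_zero]
        ring
  -- the errors at the infinite places
  have ei : ∀ v : InfinitePlace F, |Err v.1 t (v.1 t ≤ ε) w| ≤ C2 + C4 := by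
    intro v
    have h0 : 0 < v.1 t := v.1.pos ht
    unfold Err
    by_cases hvT : v.1 t ≤ ε
    · obtain ⟨hlow, hrho⟩ := hdup F v.1 t h0 hvT
      have h12 : (1 : ℝ) ≤ v.1 12 := by
        rw [inf_ofNat v 12]; norm_num
      have h2 := step_inf_small v.1 t h0 (hvT.trans hε1) hκ h12 c hc hlow hrho w hw hF
      simp only [if_pos hvT]
      linarith
    · simp only [if_neg hvT, zero_add]
      have h2 : (1 : ℝ) ≤ v.1 2 := by
        rw [inf_ofNat v 2]; norm_num
      have h3 : (1 : ℝ) ≤ v.1 3 := by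
        rw [inf_ofNat v 3]; norm_num
      have h4 := hl2 F v.1 t h2 h3 (not_le.mp hvT).le hκ w hw hF
      linarith
  -- the identity
  have key : fQ t ε Tf (Fm t w) - 4 * fQ t ε Tf w =
      ∑ v : InfinitePlace F, v.mult * Err v.1 t (v.1 t ≤ ε) w +
        ∑ v ∈ T, Err v.1 t (v ∈ Tf) w := by
    have e1 : ∑ v ∈ T, Err v.1 t (v ∈ Tf) w =
        (∑ v ∈ Tf, phi v.1 t (Fm t w) + ∑ v ∈ T, Jl v.1 t (Fm t w)) -
        4 * (∑ v ∈ Tf, phi v.1 t w + ∑ v ∈ T, Jl v.1 t w) -
        (∑ v ∈ T, Real.log (v.1 (t * (1 + 1728 * t) ^ 2))) / 2 +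
        ∑ v ∈ T, Real.log (v.1 (Fm t w 1 / w 1 ^ 4)) := by
      unfold Err
      have a1 : ∀ z : Fin 2 → F, ∑ v ∈ T, (if v ∈ Tf then phi v.1 t z else 0) =
          ∑ v ∈ Tf, phi v.1 t z := by
        intro z
        rw [Finset.sum_ite_mem, Finset.inter_eq_right.mpr iTf]
      rw [← a1, ← a1]
      simp only [Finset.sum_add_distrib, Finset.sum_sub_distrib, Finset.mul_sum, Finset.sum_div,
        mul_add]
    have e2 : ∑ v : InfinitePlace F, v.mult * Err v.1 t (v.1 t ≤ ε) w =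
        (∑ v : InfinitePlace F, (if v.1 t ≤ ε then v.mult * phi v.1 t (Fm t w) else 0) +
          ∑ v : InfinitePlace F, v.mult * Jl v.1 t (Fm t w)) -
        4 * (∑ v : InfinitePlace F, (if v.1 t ≤ ε then v.mult * phi v.1 t w else 0) +
          ∑ v : InfinitePlace F, v.mult * Jl v.1 t w) -
        (∑ v : InfinitePlace F, v.mult * Real.log (v.1 (t * (1 + 1728 * t) ^ 2))) / 2 +
        ∑ v : InfinitePlace F, v.mult * Real.log (v.1 (Fm t w 1 / w 1 ^ 4)) := by
      unfold Err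
      have a1 : ∀ v : InfinitePlace F, ∀ z : Fin 2 → F,
          (if v.1 t ≤ ε then (v.mult : ℝ) * phi v.1 t z else 0) =
          (v.mult : ℝ) * (if v.1 t ≤ ε then phi v.1 t z else 0) := by
        intro v z
        split_ifs
        · rfl
        · rw [mul_zero]
      simp only [a1]
      rw [← Finset.sum_add_distrib, ← Finset.sum_add_distrib, Finset.mul_sum,
        ← Finset.sum_sub_distrib, Finset.sum_div, ← Finset.sum_sub_distrib,
        ← Finset.sum_add_distrib]
      apply Finset.sum_congr rfl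
      intro v _
      ring
    rw [e1, e2, f1, f2]
    linarith
  rw [key]
  refine (abs_add_le _ _).trans ?_
  have g1 : |∑ v ∈ T, Err v.1 t (v ∈ Tf) w| ≤ 3 * d * (C1 + C3) := by
    refine (Finset.abs_sum_le_sum_abs _ _).trans ((Finset.sum_le_sum ef).trans ?_)
    rw [Finset.sum_ite_mem, Finset.inter_eq_right.mpr iS, Finset.sum_const, nsmul_eq_mul]
    apply mul_le_mul_of_nonneg_right _ (by linarith)
    exact_mod_cast hS1
  have g2 : |∑ v : InfinitePlace F, v.mult * Err v.1 t (v.1 t ≤ ε) w| ≤ d * (C2 + C4) := by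
    refine (Finset.abs_sum_le_sum_abs _ _).trans ?_
    have h3 : ∀ v ∈ (Finset.univ : Finset (InfinitePlace F)),
        |(v.mult : ℝ) * Err v.1 t (v.1 t ≤ ε) w| ≤ v.mult * (C2 + C4) := by
      intro v _
      rw [abs_mul, abs_of_nonneg (Nat.cast_nonneg _)]
      exact mul_le_mul_of_nonneg_left (ei v) (Nat.cast_nonneg _)
    refine (Finset.sum_le_sum h3).trans ?_
    rw [← Finset.sum_mul]
    apply mul_le_mul_of_nonneg_right _ (by linarith)
    rw [← Nat.cast_sum, InfinitePlace.sum_mult_eq]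
    exact_mod_cast hd
  linarith

end Sq

end LangForms
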