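import Pool.Agent.Lib_MP_f5471b_j.Fejer
import Pool.Agent.Lib_MP_f5471b_j.NCirc

/-!
# MP_f5471b_nt: a trigonometric polynomial which is negative off a small interval
-/

namespace LangForms

namespace Sq

open Finset

theorem sum_cos (ω y : ℝ) (n : ℕ) :
    2 * (Real.cos y - Real.cos ω) * ∑ i ∈ range (n + 1), Real.sin (i * ω) * Real.cos (i * y) =
      Real.sin ω + Real.sin (n * ω) * Real.cos ((n + 1) * y) -
        Real.sin ((n + 1) * ω) * Real.cos (n * y) := by
  induction n with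
  | zero => simp
  | succ n ih =>
    rw [sum_range_succ, mul_add, ih]
    push_cast
    have e1 : Real.cos (((n : ℝ) + 1 + 1) * y) =
        Real.cos (((n : ℝ) + 1) * y) * Real.cos y - Real.sin (((n : ℝ) + 1) * y) * Real.sin y := by
      rw [← Real.cos_add]; congr 1; ring
    have e2 : Real.cos ((n : ℝ) * y) =
        Real.cos (((n : ℝ) + 1) * y) * Real.cos y + Real.sin (((n : ℝ) + 1) * y) * Real.sin y := by
      rw [← Real.cos_sub]; congr 1; ring
    have e3 : Real.sin (((n : ℝ) + 1 + 1) * ω) =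
        Real.sin (((n : ℝ) + 1) * ω) * Real.cos ω + Real.cos (((n : ℝ) + 1) * ω) * Real.sin ω := by
      rw [← Real.sin_add]; congr 1; ring
    have e4 : Real.sin ((n : ℝ) * ω) =
        Real.sin (((n : ℝ) + 1) * ω) * Real.cos ω - Real.cos (((n : ℝ) + 1) * ω) * Real.sin ω := by
      rw [← Real.sin_sub]; congr 1; ring
    rw [e1, e2, e3, e4]
    ring

theorem sum_sin (ω y : ℝ) (n : ℕ) :
    2 * (Real.cos y - Real.cos ω) * ∑ i ∈ range (n + 1), Real.sin (i * ω) * Real.sin (i * y) =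
      Real.sin (n * ω) * Real.sin ((n + 1) * y) - Real.sin ((n + 1) * ω) * Real.sin (n * y) := by
  induction n with
  | zero => simp
  | succ n ih =>
    rw [sum_range_succ, mul_add, ih]
    push_cast
    have e1 : Real.sin (((n : ℝ) + 1 + 1) * y) =
        Real.sin (((n : ℝ) + 1) * y) * Real.cos y + Real.cos (((n : ℝ) + 1) * y) * Real.sin y := by
      rw [← Real.sin_add]; congr 1; ring
    have e2 : Real.sin ((n : ℝ) * y) =
        Real.sin (((n : ℝ) + 1) * y) * Real.cos y - Real.cos (((n : ℝ) + 1) * y) * Real.sin y := by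
      rw [← Real.sin_sub]; congr 1; ring
    have e3 : Real.sin (((n : ℝ) + 1 + 1) * ω) =
        Real.sin (((n : ℝ) + 1) * ω) * Real.cos ω + Real.cos (((n : ℝ) + 1) * ω) * Real.sin ω := by
      rw [← Real.sin_add]; congr 1; ring
    have e4 : Real.sin ((n : ℝ) * ω) =
        Real.sin (((n : ℝ) + 1) * ω) * Real.cos ω - Real.cos (((n : ℝ) + 1) * ω) * Real.sin ω := by
      rw [← Real.sin_sub]; congr 1; ring
    rw [e1, e2, e3, e4]
    ring

/-- The angle `π / (n + 1)`. -/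
noncomputable def om (n : ℕ) : ℝ := Real.pi / (n + 1)

theorem om_mul (n : ℕ) : ((n : ℝ) + 1) * om n = Real.pi := by
  unfold om
  field_simp

theorem om_pos (n : ℕ) : 0 < om n := by unfold om; positivity

/-- The weights. -/
noncomputable def sw (n i : ℕ) : ℝ := Real.sin (i * om n)

theorem sw_nonneg {n i : ℕ} (h : i ≤ n) : 0 ≤ sw n i := by
  unfold sw
  apply Real.sin_nonneg_of_nonneg_of_le_pi
  · have := om_pos n; positivity
  · rw [← om_mul n]
    refine mul_le_mul_of_nonneg_right ?_ (om_pos n).le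
    have : (i : ℝ) ≤ n := by exact_mod_cast h
    linarith

theorem sw_le_one (n i : ℕ) : sw n i ≤ 1 := Real.sin_le_one _

theorem sw_zero (n : ℕ) : sw n 0 = 0 := by simp [sw]

theorem sin_n (n : ℕ) : Real.sin (n * om n) = Real.sin (om n) := by
  have : (n : ℝ) * om n = Real.pi - om n := by
    have := om_mul n
    linarith
  rw [this, Real.sin_pi_sub]

theorem sin_succ (n : ℕ) : Real.sin ((n + 1) * om n) = 0 := by
  rw [om_mul, Real.sin_pi]

/-- The real part. -/
noncomputable def Cs (n : ℕ) (y : ℝ) : ℝ := ∑ i ∈ range (n + 1), sw n i * Real.cos (i * y)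

/-- The imaginary part. -/
noncomputable def Ds (n : ℕ) (y : ℝ) : ℝ := ∑ i ∈ range (n + 1), sw n i * Real.sin (i * y)

theorem refl (n : ℕ) (y : ℝ) :
    Cs n y = Real.cos ((n + 1) * y) * Cs n y + Real.sin ((n + 1) * y) * Ds n y := by
  have h1 : Real.cos ((n + 1) * y) * Cs n y + Real.sin ((n + 1) * y) * Ds n y =
      ∑ i ∈ range (n + 1), sw n i * Real.cos (((n : ℝ) + 1 - i) * y) := by
    rw [Cs, Ds, mul_sum, mul_sum, ← sum_add_distrib]
    refine sum_congr rfl fun i _ => ?_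
    rw [sub_mul, Real.cos_sub]
    ring
  rw [h1]
  -- compare with the sum over `range (n + 2)`
  have h2 : ∑ i ∈ range (n + 2), sw n i * Real.cos (((n : ℝ) + 1 - i) * y) =
      ∑ i ∈ range (n + 1), sw n i * Real.cos (((n : ℝ) + 1 - i) * y) := by
    rw [sum_range_succ _ (n + 1)]
    have : sw n (n + 1) = 0 := by
      unfold sw
      push_cast
      exact sin_succ n
    rw [this, zero_mul, add_zero]
  have h3 : ∑ i ∈ range (n + 2), sw n i * Real.cos (i * y) = Cs n y := by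
    rw [Cs, sum_range_succ _ (n + 1)]
    have : sw n (n + 1) = 0 := by
      unfold sw
      push_cast
      exact sin_succ n
    rw [this, zero_mul, add_zero]
  rw [← h2, ← h3, ← sum_range_reflect]
  refine sum_congr rfl fun i hi => ?_
  have hi' : i ≤ n + 1 := by have := mem_range.1 hi; omega
  have e1 : n + 2 - 1 - i = n + 1 - i := by omega
  rw [e1]
  have e2 : ((n + 1 - i : ℕ) : ℝ) = (n : ℝ) + 1 - i := by
    rw [Nat.cast_sub hi']
    push_cast
    ring
  rw [e2]
  have e3 : sw n (n + 1 - i) = sw n i := by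
    unfold sw
    rw [e2, sub_mul, om_mul, Real.sin_pi_sub]
  rw [e3]

theorem star (n : ℕ) (y : ℝ) :
    (Real.cos y - Real.cos (om n)) * (Cs n y ^ 2 + Ds n y ^ 2) = Real.sin (om n) * Cs n y := by
  have h1 := sum_cos (om n) y n
  have h2 := sum_sin (om n) y n
  rw [sin_n, sin_succ] at h1 h2
  have h3 := refl n y
  have h1' : 2 * (Real.cos y - Real.cos (om n)) * Cs n y =
      Real.sin (om n) + Real.sin (om n) * Real.cos ((n + 1) * y) := by
    rw [Cs]
    simp only [sw]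
    linarith
  have h2' : 2 * (Real.cos y - Real.cos (om n)) * Ds n y =
      Real.sin (om n) * Real.sin ((n + 1) * y) := by
    rw [Ds]
    simp only [sw]
    linarith
  have h4 : 2 * ((Real.cos y - Real.cos (om n)) * (Cs n y ^ 2 + Ds n y ^ 2)) =
      2 * (Real.sin (om n) * Cs n y) := by
    calc 2 * ((Real.cos y - Real.cos (om n)) * (Cs n y ^ 2 + Ds n y ^ 2)) =
        (2 * (Real.cos y - Real.cos (om n)) * Cs n y) * Cs n y +
        (2 * (Real.cos y - Real.cos (om n)) * Ds n y) * Ds n y := by ring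
      _ = Real.sin (om n) * Cs n y + Real.sin (om n) *
          (Real.cos ((n + 1) * y) * Cs n y + Real.sin ((n + 1) * y) * Ds n y) := by
          rw [h1', h2']; ring
      _ = 2 * (Real.sin (om n) * Cs n y) := by rw [← h3]; ring
  linarith

/-- The constant `κ`. -/
noncomputable def ka (n : ℕ) : ℝ := Real.cos (om n) - Real.cos (2 * om n)

/-- The polynomial. -/
noncomputable def Tp (n : ℕ) (y : ℝ) : ℝ :=
  ka n * (Cs n y ^ 2 + Ds n y ^ 2) + Real.sin (om n) * Cs n y

theorem Tp_eq (n : ℕ) (y : ℝ) :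
    Tp n y = (Real.cos y - Real.cos (2 * om n)) * (Cs n y ^ 2 + Ds n y ^ 2) := by
  rw [Tp, ← star, ka]
  ring

theorem om_le (n : ℕ) (hn : 1 ≤ n) : om n ≤ Real.pi / 2 := by
  unfold om
  have : (1 : ℝ) ≤ n := by exact_mod_cast hn
  gcongr
  linarith

theorem ka_nonneg (n : ℕ) (hn : 1 ≤ n) : 0 ≤ ka n := by
  unfold ka
  have h1 := om_pos n
  have h2 := om_le n hn
  have := Real.cos_le_cos_of_nonneg_of_le_pi (x := om n) (y := 2 * om n) h1.le (by linarith)
    (by linarith)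
  linarith

theorem ka_ge (n : ℕ) (hn : 1 ≤ n) : 3 / 10 * om n ^ 2 ≤ ka n := by
  unfold ka
  have h0 := om_pos n
  have h2 := om_le n hn
  have h1 := Real.one_sub_sq_div_two_le_cos (x := om n)
  have h3 := Real.cos_le_one_sub_mul_cos_sq (x := 2 * om n)
    (by rw [abs_of_pos (by linarith)]; linarith)
  have hpi : Real.pi ^ 2 < 9.87 := by
    have h1 := Real.pi_lt_d4
    have h2 := Real.pi_pos
    nlinarith
  have hpi0 : 0 < Real.pi ^ 2 := by positivity
  have h4 : 0.8 ≤ 2 / Real.pi ^ 2 * 4 := by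
    rw [div_mul_eq_mul_div, le_div_iff₀ hpi0]
    linarith
  have h5 : 0.8 * om n ^ 2 ≤ 2 / Real.pi ^ 2 * 4 * om n ^ 2 :=
    mul_le_mul_of_nonneg_right h4 (by positivity)
  have h6 : 2 / Real.pi ^ 2 * (2 * om n) ^ 2 = 2 / Real.pi ^ 2 * 4 * om n ^ 2 := by ring
  rw [h6] at h3
  linarith

theorem ka_le (n : ℕ) : ka n ≤ 2 * om n ^ 2 := by
  unfold ka
  have h1 := Real.cos_le_one (om n)
  have h2 := Real.one_sub_sq_div_two_le_cos (x := 2 * om n)
  nlinarith

/-- The sum of the squares of the weights. -/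
theorem sum_sq (n : ℕ) (hn : 1 ≤ n) : ∑ i ∈ range (n + 1), sw n i ^ 2 = (n + 1) / 2 := by
  have hs : 0 < Real.sin (om n) := by
    apply Real.sin_pos_of_pos_of_lt_pi (om_pos n)
    have := om_le n hn
    have := Real.pi_pos
    linarith
  have key : ∀ m : ℕ, 4 * Real.sin (om n) * ∑ i ∈ range (m + 1), Real.sin (i * om n) ^ 2 =
      (2 * m + 1) * Real.sin (om n) - Real.sin ((2 * m + 1) * om n) := by
    intro m
    induction m with
    | zero => simp
    | succ m ih =>
      rw [sum_range_succ, mul_add, ih]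
      push_cast
      have e1 : Real.sin ((2 * ((m : ℝ) + 1) + 1) * om n) =
          Real.sin (2 * (((m : ℝ) + 1) * om n)) * Real.cos (om n) +
          Real.cos (2 * (((m : ℝ) + 1) * om n)) * Real.sin (om n) := by
        rw [← Real.sin_add]; congr 1; ring
      have e2 : Real.sin ((2 * (m : ℝ) + 1) * om n) =
          Real.sin (2 * (((m : ℝ) + 1) * om n)) * Real.cos (om n) -
          Real.cos (2 * (((m : ℝ) + 1) * om n)) * Real.sin (om n) := by
        rw [← Real.sin_sub]; congr 1; ring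
      rw [e1, e2, Real.cos_two_mul]
      have h := Real.sin_sq_add_cos_sq (((m : ℝ) + 1) * om n)
      have h' : Real.cos (((m : ℝ) + 1) * om n) ^ 2 = 1 - Real.sin (((m : ℝ) + 1) * om n) ^ 2 := by
        linarith
      rw [h']
      ring
  have h1 := key n
  have h2 : Real.sin ((2 * n + 1) * om n) = -Real.sin (om n) := by
    have : (2 * (n : ℝ) + 1) * om n = 2 * Real.pi - om n := by
      have := om_mul n
      linarith
    rw [this, Real.sin_two_pi_sub]
  rw [h2] at h1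
  have h3 : 4 * Real.sin (om n) * ∑ i ∈ range (n + 1), sw n i ^ 2 =
      4 * Real.sin (om n) * (((n : ℝ) + 1) / 2) := by
    simp only [sw]
    rw [h1]
    ring
  exact mul_left_cancel₀ (by positivity) h3

theorem sq_eq (n : ℕ) (y : ℝ) : Cs n y ^ 2 + Ds n y ^ 2 =
    ∑ i ∈ range (n + 1), ∑ j ∈ range (n + 1), sw n i * sw n j * Real.cos (((i : ℝ) - j) * y) := by
  rw [sq, sq, Cs, Ds, sum_mul_sum, sum_mul_sum, ← sum_add_distrib]
  refine sum_congr rfl fun i _ => ?_
  rw [← sum_add_distrib]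
  refine sum_congr rfl fun j _ => ?_
  rw [sub_mul, Real.cos_sub]
  ring

/-- Size. -/
theorem sq_le (n : ℕ) (y : ℝ) : Cs n y ^ 2 + Ds n y ^ 2 ≤ ((n : ℝ) + 1) ^ 2 := by
  rw [sq_eq]
  calc _ ≤ ∑ i ∈ range (n + 1), ∑ j ∈ range (n + 1), (1 : ℝ) := by
        refine sum_le_sum fun i hi => sum_le_sum fun j hj => ?_
        have hi0 := sw_nonneg (n := n) (i := i) (by have := mem_range.1 hi; omega)
        have hj0 := sw_nonneg (n := n) (i := j) (by have := mem_range.1 hj; omega)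
        have hi1 := sw_le_one n i
        have hj1 := sw_le_one n j
        have hc := Real.cos_le_one (((i : ℝ) - j) * y)
        have h2 : sw n i * sw n j ≤ 1 := by nlinarith
        have h3 : 0 ≤ sw n i * sw n j := mul_nonneg hi0 hj0
        calc sw n i * sw n j * Real.cos (((i : ℝ) - j) * y) ≤ sw n i * sw n j * 1 :=
              mul_le_mul_of_nonneg_left hc h3
          _ ≤ 1 := by linarith
    _ = _ := by
      simp
      ring

theorem Tp_le (n : ℕ) (y : ℝ) : Tp n y ≤ 20 := by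
  rw [Tp_eq]
  have h1 := Real.cos_le_one y
  have h2 := Real.one_sub_sq_div_two_le_cos (x := 2 * om n)
  have h3 := sq_le n y
  have h4 : 0 ≤ Cs n y ^ 2 + Ds n y ^ 2 := by positivity
  have h5 : Real.cos y - Real.cos (2 * om n) ≤ 2 * om n ^ 2 := by nlinarith
  have hpi : Real.pi ^ 2 < 9.87 := by
    have h1 := Real.pi_lt_d4
    have h2 := Real.pi_pos
    nlinarith
  have h6 : ((n : ℝ) + 1) ^ 2 * om n ^ 2 = Real.pi ^ 2 := by rw [← mul_pow, om_mul]
  calc (Real.cos y - Real.cos (2 * om n)) * (Cs n y ^ 2 + Ds n y ^ 2) ≤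
      2 * om n ^ 2 * (Cs n y ^ 2 + Ds n y ^ 2) := mul_le_mul_of_nonneg_right h5 h4
    _ ≤ 2 * om n ^ 2 * ((n : ℝ) + 1) ^ 2 := mul_le_mul_of_nonneg_left h3 (by positivity)
    _ = 2 * Real.pi ^ 2 := by rw [← h6]; ring
    _ ≤ 20 := by linarith

theorem cos_ncirc (x : ℝ) : Real.cos (2 * Real.pi * x) = Real.cos (2 * Real.pi * ncirc x) := by
  obtain ⟨m, hm | hm⟩ := NCAux.exists_rep x
  · conv_lhs => rw [hm]
    have : 2 * Real.pi * ((m : ℝ) + ncirc x) = 2 * Real.pi * ncirc x + m * (2 * Real.pi) := by ring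
    rw [this, Real.cos_add_int_mul_two_pi]
  · conv_lhs => rw [hm]
    have : 2 * Real.pi * ((m : ℝ) - ncirc x) = m * (2 * Real.pi) - 2 * Real.pi * ncirc x := by ring
    rw [this, Real.cos_int_mul_two_pi_sub]

theorem Tp_nonpos (n : ℕ) (x : ℝ) (h : 1 / ((n : ℝ) + 1) ≤ ncirc x) :
    Tp n (2 * Real.pi * x) ≤ 0 := by
  rw [Tp_eq]
  apply mul_nonpos_of_nonpos_of_nonneg _ (by positivity)
  rw [sub_nonpos, cos_ncirc]
  have hpi := Real.pi_pos
  have h1 := ncirc_le_half x
  have h2 : 2 * om n ≤ 2 * Real.pi * ncirc x := by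
    unfold om
    calc 2 * (Real.pi / (n + 1)) = 2 * Real.pi * (1 / ((n : ℝ) + 1)) := by ring
      _ ≤ _ := mul_le_mul_of_nonneg_left h (by positivity)
  apply Real.cos_le_cos_of_nonneg_of_le_pi _ _ h2
  · have := om_pos n; positivity
  · nlinarith

/-- The quadratic functional. -/
noncomputable def Qf (n : ℕ) (x : ℝ) : ℝ :=
  ka n * ∑ i ∈ range (n + 1), ∑ j ∈ range (n + 1),
      sw n i * sw n j * bern (ncirc (((i : ℝ) - j) * x)) +
    Real.sin (om n) * ∑ i ∈ range (n + 1), sw n i * bern (ncirc (i * x))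

theorem Qf_hasSum (n : ℕ) (x : ℝ) :
    HasSum (fun l : ℕ => 1 / Real.pi ^ 2 * (1 / (l : ℝ) ^ 2 * Tp n (2 * Real.pi * (l * x))))
      (Qf n x) := by
  have h1 : HasSum (fun l : ℕ => ka n * ∑ i ∈ range (n + 1), ∑ j ∈ range (n + 1),
      sw n i * sw n j * (1 / Real.pi ^ 2 * (1 / (l : ℝ) ^ 2 *
        Real.cos (l * (2 * Real.pi * (((i : ℝ) - j) * x))))) +
      Real.sin (om n) * ∑ i ∈ range (n + 1), sw n i * (1 / Real.pi ^ 2 * (1 / (l : ℝ) ^ 2 *
        Real.cos (l * (2 * Real.pi * (i * x)))))) (Qf n x) := by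
    refine HasSum.add (HasSum.mul_left _ ?_) (HasSum.mul_left _ ?_)
    · exact hasSum_sum fun i _ => hasSum_sum fun j _ => (bern_hasSum _).mul_left _
    · exact hasSum_sum fun i _ => (bern_hasSum _).mul_left _
  have e : (fun l : ℕ => ka n * ∑ i ∈ range (n + 1), ∑ j ∈ range (n + 1),
      sw n i * sw n j * (1 / Real.pi ^ 2 * (1 / (l : ℝ) ^ 2 *
        Real.cos (l * (2 * Real.pi * (((i : ℝ) - j) * x))))) +
      Real.sin (om n) * ∑ i ∈ range (n + 1), sw n i * (1 / Real.pi ^ 2 * (1 / (l : ℝ) ^ 2 *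
        Real.cos (l * (2 * Real.pi * (i * x)))))) =
      fun l : ℕ => 1 / Real.pi ^ 2 * (1 / (l : ℝ) ^ 2 * Tp n (2 * Real.pi * (l * x))) := by
    funext l
    rw [Tp, sq_eq, Cs, mul_add, mul_add, mul_sum, mul_sum, mul_sum, mul_sum, mul_sum, mul_sum,
      mul_sum, mul_sum]
    congr 1
    · refine sum_congr rfl fun i _ => ?_
      rw [mul_sum, mul_sum, mul_sum, mul_sum]
      refine sum_congr rfl fun j _ => ?_
      have : (l : ℝ) * (2 * Real.pi * (((i : ℝ) - j) * x)) =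
          ((i : ℝ) - j) * (2 * Real.pi * (l * x)) := by ring
      rw [this]
      ring
    · refine sum_congr rfl fun i _ => ?_
      have : (l : ℝ) * (2 * Real.pi * ((i : ℝ) * x)) = (i : ℝ) * (2 * Real.pi * (l * x)) := by ring
      rw [this]
      ring
  rw [e] at h1
  exact h1

/-- The test inequality. -/
theorem test (n J : ℕ) (hJ : 1 ≤ J) (x : ℝ) :
    Qf n x ≤ 20 / Real.pi ^ 2 * (∑ l ∈ range (J + 1), 1 / (l : ℝ) ^ 2 *
      (if ncirc (l * x) < 1 / ((n : ℝ) + 1) then 1 else 0) + 1 / J) := by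
  have hpi : 0 < Real.pi ^ 2 := by have := Real.pi_pos; positivity
  obtain ⟨f, hf⟩ : ∃ f : ℕ → ℝ, f = fun l : ℕ =>
      1 / Real.pi ^ 2 * (1 / (l : ℝ) ^ 2 * Tp n (2 * Real.pi * (l * x))) := ⟨_, rfl⟩
  have hS : HasSum f (Qf n x) := by rw [hf]; exact Qf_hasSum n x
  have hf1 : ∀ l, f l ≤ 20 / Real.pi ^ 2 * (1 / (l : ℝ) ^ 2) := by
    intro l
    rw [hf]
    have h := Tp_le n (2 * Real.pi * (l * x))
    have h0 : 0 ≤ 1 / Real.pi ^ 2 * (1 / (l : ℝ) ^ 2) := by positivity
    calc 1 / Real.pi ^ 2 * (1 / (l : ℝ) ^ 2 * Tp n (2 * Real.pi * (l * x))) =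
        1 / Real.pi ^ 2 * (1 / (l : ℝ) ^ 2) * Tp n (2 * Real.pi * (l * x)) := by ring
      _ ≤ 1 / Real.pi ^ 2 * (1 / (l : ℝ) ^ 2) * 20 := mul_le_mul_of_nonneg_left h h0
      _ = _ := by ring
  have hf2 : ∀ l, f l ≤ 20 / Real.pi ^ 2 * (1 / (l : ℝ) ^ 2 *
      (if ncirc (l * x) < 1 / ((n : ℝ) + 1) then 1 else 0)) := by
    intro l
    split_ifs with h
    · rw [mul_one]; exact hf1 l
    · push Not at h
      rw [mul_zero, mul_zero, hf]
      have h2 := Tp_nonpos n (l * x) h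
      have h0 : 0 ≤ 1 / Real.pi ^ 2 * (1 / (l : ℝ) ^ 2) := by positivity
      have h3 := mul_nonpos_of_nonneg_of_nonpos h0 h2
      calc 1 / Real.pi ^ 2 * (1 / (l : ℝ) ^ 2 * Tp n (2 * Real.pi * (l * x))) =
          1 / Real.pi ^ 2 * (1 / (l : ℝ) ^ 2) * Tp n (2 * Real.pi * (l * x)) := by ring
        _ ≤ 0 := h3
  have hpart : ∀ m : ℕ, J ≤ m → ∑ l ∈ range (m + 1), f l ≤
      20 / Real.pi ^ 2 * (∑ l ∈ range (J + 1), 1 / (l : ℝ) ^ 2 *
      (if ncirc (l * x) < 1 / ((n : ℝ) + 1) then 1 else 0) + 1 / J - 1 / m) := by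
    intro m hm
    induction m, hm using Nat.le_induction with
    | base =>
      rw [add_sub_cancel_right, mul_sum]
      exact sum_le_sum fun l _ => hf2 l
    | succ m hm ih =>
      rw [sum_range_succ]
      have hm0 : (0 : ℝ) < m := by exact_mod_cast (by omega : 0 < m)
      have h1 := hf1 (m + 1)
      have h2 : 1 / (((m + 1 : ℕ) : ℝ)) ^ 2 ≤ 1 / (m : ℝ) - 1 / ((m + 1 : ℕ) : ℝ) := by
        push_cast
        rw [div_sub_div _ _ hm0.ne' (by positivity), div_le_div_iff₀ (by positivity) (by positivity)]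
        nlinarith
      have h3 : 20 / Real.pi ^ 2 * (1 / (((m + 1 : ℕ) : ℝ)) ^ 2) ≤
          20 / Real.pi ^ 2 * (1 / (m : ℝ) - 1 / ((m + 1 : ℕ) : ℝ)) :=
        mul_le_mul_of_nonneg_left h2 (by positivity)
      refine (add_le_add ih (h1.trans h3)).trans (le_of_eq ?_)
      ring
  have hlim := hS.tendsto_sum_nat
  refine le_of_tendsto hlim ?_
  filter_upwards [Filter.eventually_ge_atTop (J + 1)] with M hM
  obtain ⟨m, rfl⟩ : ∃ m, M = m + 1 := ⟨M - 1, by omega⟩
  refine (hpart m (by omega)).trans ?_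
  refine mul_le_mul_of_nonneg_left ?_ (by positivity)
  have : 0 ≤ 1 / (m : ℝ) := by positivity
  linarith

end Sq

end LangForms
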