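import Mathlib

/-!
# MP_f5471b_nt: sums of functions whose level sets are almost closed under addition
-/

namespace LangForms

namespace Sq

open Finset

/-- Twice the number of the `m ≤ N` in a level set is at most the number of the `m ≤ 2 N` in the
next level set. -/
theorem level_card (g : ℕ → ℕ) (N i : ℕ)
    (h : ∀ a b, 1 ≤ a → a ≤ N → 1 ≤ b → b ≤ N → min (g a) (g b) ≤ g (a + b) + 1) :
    2 * ((Icc 1 N).filter fun m => i ≤ g m).card ≤
      ((Icc 1 (2 * N)).filter fun m => i ≤ g m + 1).card := by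
  classical
  obtain ⟨A, hA⟩ : ∃ A, A = (Icc 1 N).filter fun m => i ≤ g m := ⟨_, rfl⟩
  rw [← hA]
  rcases A.eq_empty_or_nonempty with h0 | hne
  · rw [h0]
    simp
  obtain ⟨M, hM⟩ : ∃ M, M = A.max' hne := ⟨_, rfl⟩
  have hMA : M ∈ A := by rw [hM]; exact A.max'_mem hne
  have hle : ∀ a ∈ A, a ≤ M := fun a ha => by rw [hM]; exact A.le_max' a ha
  have hmem : ∀ a ∈ A, 1 ≤ a ∧ a ≤ N ∧ i ≤ g a := by
    intro a ha
    rw [hA, mem_filter, mem_Icc] at ha
    exact ⟨ha.1.1, ha.1.2, ha.2⟩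
  have hdis : Disjoint A (A.image fun a => M + a) := by
    rw [disjoint_left]
    intro x hx hx2
    rw [mem_image] at hx2
    obtain ⟨a, ha, hax⟩ := hx2
    have h1 := hle x hx
    have h2 := (hmem a ha).1
    omega
  have hcard : (A ∪ A.image fun a => M + a).card = 2 * A.card := by
    rw [card_union_of_disjoint hdis, card_image_of_injective _ (fun a b hab => by simpa using hab)]
    ring
  rw [← hcard]
  apply card_le_card
  intro x hx
  rw [mem_union] at hx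
  rw [mem_filter, mem_Icc]
  rcases hx with hx | hx
  · obtain ⟨h1, h2, h3⟩ := hmem x hx
    exact ⟨⟨h1, by omega⟩, by omega⟩
  · rw [mem_image] at hx
    obtain ⟨a, ha, rfl⟩ := hx
    obtain ⟨h1, h2, h3⟩ := hmem a ha
    obtain ⟨h4, h5, h6⟩ := hmem M hMA
    refine ⟨⟨by omega, by omega⟩, ?_⟩
    have h7 := h M a h4 h5 h1 h2
    have h8 : i ≤ min (g M) (g a) := le_min h6 h3
    omega

theorem sum_eq_layers (g : ℕ → ℕ) (S : Finset ℕ) (K : ℕ) (hK : ∀ m ∈ S, g m ≤ K) :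
    ∑ m ∈ S, g m = ∑ i ∈ Icc 1 K, (S.filter fun m => i ≤ g m).card := by
  classical
  have h1 : ∀ m ∈ S, g m = ∑ i ∈ Icc 1 K, if i ≤ g m then 1 else 0 := by
    intro m hm
    rw [← card_filter]
    have : (Icc 1 K).filter (fun i => i ≤ g m) = Icc 1 (g m) := by
      ext i
      rw [mem_filter, mem_Icc, mem_Icc]
      have := hK m hm
      omega
    rw [this, Nat.card_Icc]
    omega
  rw [sum_congr rfl h1, sum_comm]
  refine sum_congr rfl fun i _ => ?_
  rw [card_filter]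

theorem layer_nat (g : ℕ → ℕ) (N : ℕ)
    (h : ∀ a b, 1 ≤ a → a ≤ N → 1 ≤ b → b ≤ N → min (g a) (g b) ≤ g (a + b) + 1) :
    2 * ∑ m ∈ Icc 1 N, g m ≤ 2 * N + ∑ m ∈ Icc 1 (2 * N), g m := by
  classical
  obtain ⟨K, hK⟩ : ∃ K, ∀ m ∈ Icc 1 (2 * N), g m ≤ K :=
    ⟨(Icc 1 (2 * N)).sup g, fun m hm => le_sup hm⟩
  have hK' : ∀ m ∈ Icc 1 N, g m ≤ K + 1 := by
    intro m hm
    rw [mem_Icc] at hm
    have := hK m (by rw [mem_Icc]; omega)
    omega
  rw [sum_eq_layers g (Icc 1 N) (K + 1) hK', sum_eq_layers g (Icc 1 (2 * N)) K hK, mul_sum]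
  have h1 : ∑ i ∈ Icc 1 (K + 1), 2 * ((Icc 1 N).filter fun m => i ≤ g m).card ≤
      ∑ i ∈ Icc 1 (K + 1), ((Icc 1 (2 * N)).filter fun m => i ≤ g m + 1).card :=
    sum_le_sum fun i _ => level_card g N i h
  refine h1.trans ?_
  have h2 : ∑ i ∈ Icc 1 (K + 1), ((Icc 1 (2 * N)).filter fun m => i ≤ g m + 1).card =
      ∑ i ∈ range (K + 1), ((Icc 1 (2 * N)).filter fun m => i ≤ g m).card := by
    rw [range_eq_Ico, sum_Ico_eq_sum_range]
    have e : Icc 1 (K + 1) = Ico 1 (K + 2) := by ext i; simp; omega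
    rw [e, sum_Ico_eq_sum_range]
    refine sum_congr (by congr 1) fun i _ => ?_
    congr 1
    ext m
    rw [mem_filter, mem_filter]
    constructor
    · rintro ⟨a, b⟩; exact ⟨a, by omega⟩
    · rintro ⟨a, b⟩; exact ⟨a, by omega⟩
  rw [h2, sum_range_succ']
  have h3 : ((Icc 1 (2 * N)).filter fun m => 0 ≤ g m).card ≤ 2 * N := by
    refine (card_filter_le _ _).trans ?_
    rw [Nat.card_Icc]
    omega
  have h4 : ∑ i ∈ range K, ((Icc 1 (2 * N)).filter fun m => i + 1 ≤ g m).card =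
      ∑ i ∈ Icc 1 K, ((Icc 1 (2 * N)).filter fun m => i ≤ g m).card := by
    have e : Icc 1 K = Ico 1 (K + 1) := by ext i; simp
    rw [e, sum_Ico_eq_sum_range]
    refine sum_congr rfl fun i _ => ?_
    rw [add_comm 1 i]
  rw [h4]
  omega

theorem layer_pos (f : ℕ → ℝ) (C : ℝ) (hC : 0 < C) (hf : ∀ m, 0 ≤ f m) (N : ℕ)
    (h : ∀ a b, 1 ≤ a → a ≤ N → 1 ≤ b → b ≤ N → min (f a) (f b) ≤ f (a + b) + C) :
    ∑ m ∈ Icc 1 N, f m ≤ 1 / 2 * ∑ m ∈ Icc 1 (2 * N), f m + 2 * C * N := by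
  obtain ⟨g, hg⟩ : ∃ g : ℕ → ℕ, g = fun m => ⌊f m / C⌋₊ := ⟨_, rfl⟩
  have hg1 : ∀ m, (g m : ℝ) * C ≤ f m := by
    intro m
    rw [hg]
    have := Nat.floor_le (div_nonneg (hf m) hC.le)
    rwa [← le_div_iff₀ hC]
  have hg2 : ∀ m, f m ≤ C * (g m + 1) := by
    intro m
    rw [hg]
    have := (Nat.lt_floor_add_one (f m / C)).le
    rw [div_le_iff₀ hC] at this
    linarith
  have hgp : ∀ a b, 1 ≤ a → a ≤ N → 1 ≤ b → b ≤ N → min (g a) (g b) ≤ g (a + b) + 1 := by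
    intro a b ha1 ha2 hb1 hb2
    have h1 := h a b ha1 ha2 hb1 hb2
    have h2 : ((min (g a) (g b) : ℕ) : ℝ) ≤ f (a + b) / C + 1 := by
      rw [Nat.cast_min]
      have h3 : min (g a : ℝ) (g b) * C ≤ min (f a) (f b) := by
        apply le_min
        · exact (mul_le_mul_of_nonneg_right (min_le_left _ _) hC.le).trans (hg1 a)
        · exact (mul_le_mul_of_nonneg_right (min_le_right _ _) hC.le).trans (hg1 b)
      rw [← sub_le_iff_le_add, le_div_iff₀ hC]
      linarith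
    have h4 : ((min (g a) (g b) : ℕ) : ℝ) < g (a + b) + 2 := by
      have := Nat.lt_floor_add_one (f (a + b) / C)
      rw [hg] at h2 ⊢
      simp only at h2 ⊢
      linarith
    have h5 : min (g a) (g b) < g (a + b) + 2 := by exact_mod_cast h4
    omega
  have hmain := layer_nat g N hgp
  have hmain' : 2 * ∑ m ∈ Icc 1 N, (g m : ℝ) ≤ 2 * N + ∑ m ∈ Icc 1 (2 * N), (g m : ℝ) := by
    exact_mod_cast hmain
  have h1 : ∑ m ∈ Icc 1 N, f m ≤ C * ∑ m ∈ Icc 1 N, (g m : ℝ) + C * N := by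
    refine (sum_le_sum fun m _ => hg2 m).trans (le_of_eq ?_)
    rw [← mul_sum, sum_add_distrib, sum_const, Nat.card_Icc, nsmul_eq_mul]
    push_cast [Nat.add_sub_cancel]
    ring
  have h2 : C * ∑ m ∈ Icc 1 (2 * N), (g m : ℝ) ≤ ∑ m ∈ Icc 1 (2 * N), f m := by
    rw [mul_sum]
    refine sum_le_sum fun m _ => ?_
    have := hg1 m
    linarith
  have h3 := mul_le_mul_of_nonneg_left hmain' hC.le
  linarith

/-- The sum of the first `N` values is at most half of the sum of the first `2 N` values, up to a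
multiple of `N`. -/
theorem layer (f : ℕ → ℝ) (C : ℝ) (hC : 0 ≤ C) (hf : ∀ m, 0 ≤ f m) (N : ℕ)
    (h : ∀ a b, 1 ≤ a → a ≤ N → 1 ≤ b → b ≤ N → min (f a) (f b) ≤ f (a + b) + C) :
    ∑ m ∈ Icc 1 N, f m ≤ 1 / 2 * ∑ m ∈ Icc 1 (2 * N), f m + 2 * C * N := by
  rcases hC.lt_or_eq with hC | hC
  · exact layer_pos f C hC hf N h
  apply le_of_forall_pos_le_add
  intro ε hε
  have h1 := layer_pos f (ε / (2 * (N + 1))) (by positivity) hf N (fun a b h1 h2 h3 h4 => by
    have := h a b h1 h2 h3 h4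
    rw [← hC] at this
    have : 0 < ε / (2 * ((N : ℝ) + 1)) := by positivity
    linarith)
  refine h1.trans ?_
  rw [← hC]
  have h2 : 2 * (ε / (2 * ((N : ℝ) + 1))) * N ≤ ε := by
    have e : 2 * (ε / (2 * ((N : ℝ) + 1))) * N = ε * (N / (N + 1)) := by
      field_simp
    rw [e]
    have : (N : ℝ) / (N + 1) ≤ 1 := by
      rw [div_le_one (by positivity)]; linarith
    nlinarith
  linarith

end Sq

end LangForms
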