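import Pool.Agent.Lib_MP_f5471b_s.GlobOne

/-!
# MP_f5471b_nt: places of additive, potentially good reduction

At such a place prime to `6`, every point `6 P` lies on the component of the identity and reduces
to the singular point at infinity direction: the size of its `x`-coordinate is large.
-/

namespace LangForms

namespace Sq

variable {F : Type} [Field F]

/-- The affine coordinate on the `x`-line. -/
def xa (w : Fin 2 → F) : F := (12 * w 0 + w 1) / w 1

/-- The cubic polynomial of the short Weierstrass form. -/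
def fk (κ x : F) : F := x ^ 3 - 3 * κ * x + 2 * κ

theorem Sc_six_eq (v : AbsoluteValue F ℝ) (hv : IsNonarchimedean v) (t : F)
    (h2 : v 2 = 1) (h3 : v 3 = 1) (ht : 1 ≤ v t) :
    v t = max (v (1 + 1728 * t)) 1 ∧ Sc v t ^ 6 = v (t * (1 + 1728 * t) ^ 2) := by
  have v1728 : v (1728 : F) = 1 := by
    rw [show (1728 : F) = 2 * 2 * 2 * 2 * 2 * 2 * 3 * 3 * 3 by norm_num]; simp [h2, h3]
  have hk : v t = max (v (1 + 1728 * t)) 1 := by
    apply le_antisymm
    · have e : 1728 * t = (1 + 1728 * t) - 1 := by ring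
      have h4 : v (1728 * t) = v t := by rw [map_mul, v1728, one_mul]
      have h5 : v ((1 + 1728 * t) - 1) ≤ max (v (1 + 1728 * t)) 1 :=
        NDEAux.na_sub_le hv (le_max_left _ _) (by rw [map_one]; exact le_max_right _ _)
      rw [← e, h4] at h5
      exact h5
    · apply max_le _ ht
      apply NDEAux.na_le hv
      · rw [map_one]; exact ht
      · rw [map_mul, v1728, one_mul]
  refine ⟨hk, ?_⟩
  rw [Sc_six, map_mul, map_pow, hk, max_mul_of_nonneg _ _ (by positivity), one_mul, pow_succ']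

theorem Jl_xa (v : AbsoluteValue F ℝ) (t : F) (hκ : 1 + 1728 * t ≠ 0) (w : Fin 2 → F)
    (hw : w 1 ≠ 0) : Jl v t w = Real.log (max (v (xa w) / Sc v t) 1) := by
  have hS := Sc_pos v t hκ
  have hb := v.pos hw
  rw [Jl, NDA.M]
  congr 1
  rw [← max_div_div_right (by positivity : 0 ≤ Sc v t * v (w 1))]
  congr 1
  · rw [xa, map_div₀]
    field_simp
  · exact div_self (by positivity)

theorem Jl_pos_iff (v : AbsoluteValue F ℝ) (t : F) (hκ : 1 + 1728 * t ≠ 0) (w : Fin 2 → F)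
    (hw : w 1 ≠ 0) : 0 < Jl v t w ↔ Sc v t < v (xa w) := by
  have hS := Sc_pos v t hκ
  rw [Jl_xa v t hκ w hw]
  constructor
  · intro h
    by_contra hcon
    push Not at hcon
    rw [max_eq_right ((div_le_one hS).2 hcon), Real.log_one] at h
    exact lt_irrefl _ h
  · intro h
    have h1 : 1 < v (xa w) / Sc v t := (one_lt_div hS).2 h
    rw [max_eq_left h1.le]
    exact Real.log_pos h1

/-- The integrality of `6 J`. -/
theorem Jl_integral (v : AbsoluteValue F ℝ) (hv : IsNonarchimedean v) (t : F)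
    (h2 : v 2 = 1) (h3 : v 3 = 1) (ht : 1 ≤ v t) (hκ : 1 + 1728 * t ≠ 0) (N : ℝ) (hN : 1 < N)
    (hdisc : ∀ x : F, x ≠ 0 → ∃ k : ℤ, v x = N ^ k) (w : Fin 2 → F) (hw : w 1 ≠ 0)
    (h : 0 < Jl v t w) : Real.log N / 6 ≤ Jl v t w := by
  have hS := Sc_pos v t hκ
  have hlN := Real.log_pos hN
  have hx : Sc v t < v (xa w) := (Jl_pos_iff v t hκ w hw).1 h
  have hx0 : xa w ≠ 0 := by
    intro h0
    rw [h0, map_zero] at hx
    linarith
  have ht0 : t ≠ 0 := by
    intro h0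
    rw [h0, map_zero] at ht
    linarith
  obtain ⟨k, hk⟩ := hdisc _ hx0
  obtain ⟨D, hD⟩ := hdisc (t * (1 + 1728 * t) ^ 2) (mul_ne_zero ht0 (pow_ne_zero 2 hκ))
  have h1 : 1 < v (xa w) / Sc v t := (one_lt_div hS).2 hx
  have e1 : Jl v t w = Real.log (v (xa w)) - Real.log (Sc v t) := by
    rw [Jl_xa v t hκ w hw, max_eq_left h1.le, Real.log_div (v.pos hx0).ne' hS.ne']
  have e2 : 6 * Real.log (Sc v t) = D * Real.log N := by
    have h4 : Real.log (Sc v t ^ 6) = Real.log (N ^ D) := by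
      rw [(Sc_six_eq v hv t h2 h3 ht).2, hD]
    rw [Real.log_pow, Real.log_zpow] at h4
    push_cast at h4
    exact h4
  have e3 : Real.log (v (xa w)) = k * Real.log N := by rw [hk, Real.log_zpow]
  have e4 : 6 * Jl v t w = ((6 * k - D : ℤ) : ℝ) * Real.log N := by
    rw [e1, e3]
    push_cast
    linarith
  have h5 : (0 : ℝ) < ((6 * k - D : ℤ) : ℝ) := by
    by_contra hcon
    push Not at hcon
    have : ((6 * k - D : ℤ) : ℝ) * Real.log N ≤ 0 := mul_nonpos_of_nonpos_of_nonneg hcon hlN.le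
    linarith
  have h6 : (1 : ℝ) ≤ ((6 * k - D : ℤ) : ℝ) := by
    have h7 : 0 < 6 * k - D := by exact_mod_cast h5
    exact_mod_cast h7
  have h8 : 1 * Real.log N ≤ ((6 * k - D : ℤ) : ℝ) * Real.log N :=
    mul_le_mul_of_nonneg_right h6 hlN.le
  linarith

theorem Jl_mono {X : Type} [AddCommGroup X] {t : F} {ξ : X → Fin 2 → F} (hξ : XMap t ξ)
    (v : AbsoluteValue F ℝ) (hv : IsNonarchimedean v) (hκ : 1 + 1728 * t ≠ 0) (P : X)
    (hP : ∀ k : ℕ, 1 ≤ k → k • P ≠ 0) (k : ℕ) (hk : 1 ≤ k) :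
    Jl v t (ξ P) ≤ Jl v t (ξ (k • P)) := by
  induction k, hk using Nat.le_induction with
  | base => rw [one_smul]
  | succ n hn ih =>
    have h1 : n • P + P = (n + 1) • P := by rw [add_smul, one_smul]
    have h2 : n • P + P ≠ 0 := by
      rw [h1]; exact hP (n + 1) (by omega)
    have h3 := Jl_add_na hξ v hv hκ (n • P) P (hP n hn)
      (by simpa using hP 1 le_rfl) h2
    rw [min_eq_right ih, h1] at h3
    exact h3

/-- If `P` is close to a `2`-torsion point, then `2 P` is close to `0`. -/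
theorem double_pos {X : Type} [AddCommGroup X] {t : F} {ξ : X → Fin 2 → F} (hξ : XMap t ξ)
    (v : AbsoluteValue F ℝ) (hv : IsNonarchimedean v)
    (h2 : v 2 = 1) (h3 : v 3 = 1) (ht : 1 ≤ v t) (hκ : 1 + 1728 * t ≠ 0) (P : X)
    (hP : ∀ k : ℕ, 1 ≤ k → k • P ≠ 0)
    (hf : v (fk (1 + 1728 * t) (xa (ξ P))) < Sc v t ^ 3) : 0 < Jl v t (ξ (2 • P)) := by
  have v1728 : v (1728 : F) = 1 := by
    rw [show (1728 : F) = 2 * 2 * 2 * 2 * 2 * 2 * 3 * 3 * 3 by norm_num]; simp [h2, h3]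
  have v4 : v (4 : F) = 1 := by rw [show (4 : F) = 2 * 2 by norm_num]; simp [h2]
  have hS := Sc_pos v t hκ
  have hP1 : ξ P 1 ≠ 0 := fun h => hP 1 le_rfl (by rw [one_smul]; exact (hξ.zero_iff P).1 h)
  have h2P1 : ξ (P + P) 1 ≠ 0 := fun h => hP 2 (by omega)
    (by rw [two_smul]; exact (hξ.zero_iff _).1 h)
  obtain ⟨c, hc, he⟩ := hξ.double P
  have hF : Fm t (ξ P) 1 ≠ 0 := by
    intro h0
    apply h2P1
    rw [he, Pi.smul_apply, h0, smul_zero]
  have hst := step_exact v hv t h2 h3 ht hκ (ξ P) hP1 hF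
  have e1 : 1728 * (Fm t (ξ P) 1 / ξ P 1 ^ 4) = 4 * fk (1 + 1728 * t) (xa (ξ P)) := by
    rw [fk, xa, Fm]
    simp only [Matrix.cons_val_one]
    field_simp
    simp only [Matrix.cons_val_zero]
    ring
  have e2 : v (Fm t (ξ P) 1 / ξ P 1 ^ 4) = v (fk (1 + 1728 * t) (xa (ξ P))) := by
    have h5 := congrArg v e1
    rw [map_mul, map_mul, v1728, v4, one_mul, one_mul] at h5
    exact h5
  have hpos : 0 < v (Fm t (ξ P) 1 / ξ P 1 ^ 4) :=
    v.pos (div_ne_zero hF (pow_ne_zero 4 hP1))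
  rw [e2, ← (Sc_six_eq v hv t h2 h3 ht).2, Real.log_pow] at hst
  rw [e2] at hpos
  have h5 : Real.log (v (fk (1 + 1728 * t) (xa (ξ P)))) < 3 * Real.log (Sc v t) := by
    have h6 := Real.log_lt_log hpos hf
    rw [Real.log_pow] at h6
    push_cast at h6
    exact h6
  have h6 := Jl_nonneg v t (ξ P)
  have h7 : Jl v t (ξ (2 • P)) = Jl v t (Fm t (ξ P)) := by
    rw [two_smul, he]
    exact Jl_smul v t hκ c hc _ hF
  rw [h7]
  push_cast at hst
  linarith

/-- The value of the `x`-coordinate of `2 P` in affine coordinates. -/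
theorem xa_double {X : Type} [AddCommGroup X] {t : F} {ξ : X → Fin 2 → F} (hξ : XMap t ξ)
    (P : X) (h1728 : (1728 : F) ≠ 0) (hP1 : ξ P 1 ≠ 0) (h2P1 : ξ (P + P) 1 ≠ 0) :
    xa (ξ (P + P)) * (4 * fk (1 + 1728 * t) (xa (ξ P))) =
      xa (ξ P) ^ 4 + 6 * (1 + 1728 * t) * xa (ξ P) ^ 2 - 16 * (1 + 1728 * t) * xa (ξ P) +
        9 * (1 + 1728 * t) ^ 2 := by
  obtain ⟨c, hc, he⟩ := hξ.double P
  have hF : Fm t (ξ P) 1 ≠ 0 := by
    intro h0
    apply h2P1
    rw [he, Pi.smul_apply, h0, smul_zero]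
  have e0 : xa (ξ (P + P)) = (12 * Fm t (ξ P) 0 + Fm t (ξ P) 1) / Fm t (ξ P) 1 := by
    rw [xa, he, Pi.smul_apply, Pi.smul_apply, smul_eq_mul, smul_eq_mul]
    rw [show 12 * (c * Fm t (ξ P) 0) + c * Fm t (ξ P) 1 =
      c * (12 * Fm t (ξ P) 0 + Fm t (ξ P) 1) by ring, mul_div_mul_left _ _ hc]
  have e1 : 1728 * (Fm t (ξ P) 1 / ξ P 1 ^ 4) = 4 * fk (1 + 1728 * t) (xa (ξ P)) := by
    rw [fk, xa, Fm]
    simp only [Matrix.cons_val_one]
    field_simp
    simp only [Matrix.cons_val_zero]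
    ring
  rw [← e1, e0]
  have e2 : (12 * Fm t (ξ P) 0 + Fm t (ξ P) 1) / Fm t (ξ P) 1 *
      (1728 * (Fm t (ξ P) 1 / ξ P 1 ^ 4)) =
      1728 * (12 * Fm t (ξ P) 0 + Fm t (ξ P) 1) / ξ P 1 ^ 4 := by
    field_simp
  rw [e2, div_eq_iff (pow_ne_zero 4 hP1), xa, Fm]
  simp only [Matrix.cons_val_zero, Matrix.cons_val_one]
  field_simp
  ring

/-- If `P` and `κ` are small, then `3 P` is close to `0`. -/
theorem triple_pos {X : Type} [AddCommGroup X] {t : F} {ξ : X → Fin 2 → F} (hξ : XMap t ξ)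
    (v : AbsoluteValue F ℝ) (hv : IsNonarchimedean v)
    (h2 : v 2 = 1) (h3 : v 3 = 1) (hκ : 1 + 1728 * t ≠ 0) (P : X)
    (hP : ∀ k : ℕ, 1 ≤ k → k • P ≠ 0) (hk1 : v (1 + 1728 * t) < 1)
    (hx : v (xa (ξ P)) < Sc v t) : 0 < Jl v t (ξ (3 • P)) := by
  have v1728 : v (1728 : F) = 1 := by
    rw [show (1728 : F) = 2 * 2 * 2 * 2 * 2 * 2 * 3 * 3 * 3 by norm_num]; simp [h2, h3]
  have v4 : v (4 : F) = 1 := by rw [show (4 : F) = 2 * 2 by norm_num]; simp [h2]
  have v6 : v (6 : F) = 1 := by rw [show (6 : F) = 2 * 3 by norm_num]; simp [h2, h3]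
  have v8 : v (8 : F) = 1 := by rw [show (8 : F) = 2 * 2 * 2 by norm_num]; simp [h2]
  have v9 : v (9 : F) = 1 := by rw [show (9 : F) = 3 * 3 by norm_num]; simp [h3]
  have v16 : v (16 : F) = 1 := by rw [show (16 : F) = 2 * 2 * 2 * 2 by norm_num]; simp [h2]
  have v144 : v (144 : F) = 1 := by
    rw [show (144 : F) = 2 * 2 * 2 * 2 * 3 * 3 by norm_num]; simp [h2, h3]
  have n1728 : (1728 : F) ≠ 0 := by
    intro h0; rw [h0, map_zero] at v1728; exact zero_ne_one v1728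
  have n144 : (144 : F) ≠ 0 := by
    intro h0; rw [h0, map_zero] at v144; exact zero_ne_one v144
  have hS := Sc_pos v t hκ
  have hP0 : P ≠ 0 := by simpa using hP 1 le_rfl
  have h2P0 : P + P ≠ 0 := by rw [← two_smul ℕ]; exact hP 2 (by omega)
  have e3 : P + P + P = 3 • P := by
    rw [show (3 : ℕ) = 2 + 1 by norm_num, add_smul, two_smul, one_smul]
  have h3P0 : P + P + P ≠ 0 := by rw [e3]; exact hP 3 (by omega)
  have hP1 : ξ P 1 ≠ 0 := fun h => hP0 ((hξ.zero_iff P).1 h)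
  have h2P1 : ξ (P + P) 1 ≠ 0 := fun h => h2P0 ((hξ.zero_iff _).1 h)
  have h3P1 : ξ (P + P + P) 1 ≠ 0 := fun h => h3P0 ((hξ.zero_iff _).1 h)
  obtain ⟨κ, hκd⟩ : ∃ κ : F, κ = 1 + 1728 * t := ⟨_, rfl⟩
  obtain ⟨S, hSd⟩ : ∃ S : ℝ, S = Sc v t := ⟨_, rfl⟩
  obtain ⟨x, hxd⟩ : ∃ x : F, x = xa (ξ P) := ⟨_, rfl⟩
  obtain ⟨y, hyd⟩ : ∃ y : F, y = xa (ξ (P + P)) := ⟨_, rfl⟩
  have hdb := xa_double hξ P n1728 hP1 h2P1
  -- the scale
  have hS3 : S ^ 3 = v κ := by
    have h4 : (S ^ 3) ^ 2 = v κ ^ 2 := by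
      rw [← pow_mul, hSd, Sc_six, ← hκd]
      apply max_eq_right
      have := v.nonneg κ
      rw [← hκd] at hk1
      exact pow_le_pow_of_le_one this hk1.le (by norm_num)
    have h5 := v.nonneg κ
    rw [← hSd] at hS
    exact (pow_left_inj₀ (by positivity) h5 (by norm_num)).1 h4
  rw [← hSd] at hS hx
  rw [← hκd] at hk1 hκ hdb
  rw [← hxd] at hx hdb
  rw [← hyd] at hdb
  have hκ0 : 0 < v κ := v.pos hκ
  have hS1 : S < 1 := by
    by_contra hcon
    push Not at hcon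
    have : 1 ≤ S ^ 3 := one_le_pow₀ hcon
    linarith
  have nx := v.nonneg x
  -- the cubic
  have hf : v (fk κ x) = S ^ 3 := by
    have a1 : v (2 * κ) = S ^ 3 := by rw [map_mul, h2, one_mul, hS3]
    have a2 : v (x ^ 3 - 3 * κ * x) < S ^ 3 := by
      rw [sub_eq_add_neg]
      apply NDEAux.na_lt hv
      · rw [map_pow]; exact pow_lt_pow_left₀ hx nx (by norm_num)
      · rw [v.map_neg, map_mul, map_mul, h3, one_mul, ← hS3]
        calc S ^ 3 * v x < S ^ 3 * 1 := by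
              apply mul_lt_mul_of_pos_left (hx.trans hS1) (by positivity)
          _ = _ := mul_one _
    apply le_antisymm
    · exact NDEAux.na_le hv a2.le a1.le
    · rw [fk, add_comm]
      exact NDEAux.na_dom hv a1.ge a2
  have hy : v y < S := by
    have a1 : v (x ^ 4 + 6 * κ * x ^ 2 - 16 * κ * x + 9 * κ ^ 2) < S ^ 4 := by
      have b1 : v (x ^ 4) < S ^ 4 := by
        rw [map_pow]; exact pow_lt_pow_left₀ hx nx (by norm_num)
      have b2 : v (6 * κ * x ^ 2) < S ^ 4 := by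
        rw [map_mul, map_mul, map_pow, v6, one_mul, ← hS3]
        calc S ^ 3 * v x ^ 2 < S ^ 3 * S ^ 2 := by
              apply mul_lt_mul_of_pos_left _ (by positivity)
              exact pow_lt_pow_left₀ hx nx (by norm_num)
          _ = S ^ 5 := by ring
          _ ≤ S ^ 4 := pow_le_pow_of_le_one hS.le hS1.le (by norm_num)
      have b3 : v (16 * κ * x) < S ^ 4 := by
        rw [map_mul, map_mul, v16, one_mul, ← hS3]
        calc S ^ 3 * v x < S ^ 3 * S := mul_lt_mul_of_pos_left hx (by positivity)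
          _ = S ^ 4 := by ring
      have b4 : v (9 * κ ^ 2) < S ^ 4 := by
        rw [map_mul, map_pow, v9, one_mul, ← hS3]
        calc (S ^ 3) ^ 2 = S ^ 6 := by ring
          _ < S ^ 4 := pow_lt_pow_right_of_lt_one₀ hS hS1 (by norm_num)
      apply NDEAux.na_lt hv _ b4
      rw [sub_eq_add_neg]
      apply NDEAux.na_lt hv (NDEAux.na_lt hv b1 b2)
      rw [v.map_neg]; exact b3
    rw [← hdb, map_mul, map_mul, v4, one_mul, hf] at a1
    have a2 : v y * S ^ 3 < S * S ^ 3 := by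
      calc v y * S ^ 3 < S ^ 4 := a1
        _ = S * S ^ 3 := by ring
    exact lt_of_mul_lt_mul_right a2 (by positivity)
  -- the sum of the `x`-coordinates of `3 P` and `P`
  obtain ⟨c, hc, he⟩ := hξ.rel (P + P) P
  have e4 : P + P - P = P := add_sub_cancel_right P P
  rw [e4] at he
  obtain ⟨-, s1, s2⟩ := add_short t _ _ _ _ c he
  obtain ⟨z, hzd⟩ : ∃ z : F, z = xa (ξ (P + P + P)) := ⟨_, rfl⟩
  have hx' : 12 * ξ P 0 + ξ P 1 = x * ξ P 1 := by rw [hxd, xa]; field_simp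
  have hy' : 12 * ξ (P + P) 0 + ξ (P + P) 1 = y * ξ (P + P) 1 := by rw [hyd, xa]; field_simp
  have hz' : 12 * ξ (P + P + P) 0 + ξ (P + P + P) 1 = z * ξ (P + P + P) 1 := by
    rw [hzd, xa]; field_simp
  rw [hx', hy', hz', ← hκd] at s1
  rw [hx', hy'] at s2
  obtain ⟨A, hA⟩ : ∃ A : F, A = 144 * c * (ξ (P + P + P) 1 * ξ P 1) /
    (ξ (P + P) 1 ^ 2 * ξ P 1 ^ 2) := ⟨_, rfl⟩
  have hA0 : A ≠ 0 := by
    rw [hA]
    exact div_ne_zero (mul_ne_zero (mul_ne_zero n144 hc) (mul_ne_zero h3P1 hP1))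
      (mul_ne_zero (pow_ne_zero 2 h2P1) (pow_ne_zero 2 hP1))
  have s2' : A = (y - x) ^ 2 := by
    rw [hA, div_eq_iff (mul_ne_zero (pow_ne_zero 2 h2P1) (pow_ne_zero 2 hP1)), ← s2]
    ring
  have s1' : A * (z + x) = 2 * y * x * (y + x) - 6 * κ * (y + x) + 8 * κ := by
    rw [hA, div_mul_eq_mul_div,
      div_eq_iff (mul_ne_zero (pow_ne_zero 2 h2P1) (pow_ne_zero 2 hP1))]
    linear_combination -s1
  have ny := v.nonneg y
  have hyx : v (y + x) < S := NDEAux.na_lt hv hy hx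
  have hnum : S ^ 3 ≤ v (A * (z + x)) := by
    rw [s1', add_comm]
    apply NDEAux.na_dom hv
    · rw [map_mul, v8, one_mul, hS3]
    · rw [sub_eq_add_neg]
      apply NDEAux.na_lt hv
      · rw [map_mul, map_mul, map_mul, h2, one_mul]
        have b1 : v y * v x ≤ S * S := mul_le_mul hy.le hx.le nx hS.le
        have b2 := v.nonneg (y + x)
        calc v y * v x * v (y + x) ≤ S * S * v (y + x) := by gcongr
          _ < S * S * S := mul_lt_mul_of_pos_left hyx (by positivity)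
          _ = S ^ 3 := by ring
      · rw [v.map_neg, map_mul, map_mul, v6, one_mul, ← hS3]
        calc S ^ 3 * v (y + x) < S ^ 3 * 1 :=
              mul_lt_mul_of_pos_left (hyx.trans hS1) (by positivity)
          _ = _ := mul_one _
  have hden : v A < S ^ 2 := by
    rw [s2', map_pow]
    have b1 : v (y - x) < S := by
      rw [sub_eq_add_neg]
      exact NDEAux.na_lt hv hy (by rw [v.map_neg]; exact hx)
    exact pow_lt_pow_left₀ b1 (v.nonneg _) (by norm_num)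
  have hzx : S < v (z + x) := by
    by_contra hcon
    push Not at hcon
    rw [map_mul] at hnum
    have hA1 := v.pos hA0
    have h4 : v A * v (z + x) ≤ v A * S := mul_le_mul_of_nonneg_left hcon hA1.le
    have h5 : v A * S < S ^ 2 * S := mul_lt_mul_of_pos_right hden hS
    have h6 : S ^ 2 * S = S ^ 3 := by ring
    linarith
  have hz : S < v z := by
    by_contra hcon
    push Not at hcon
    have := NDEAux.na_le hv hcon hx.le
    linarith
  rw [← e3, Jl_pos_iff v t (by rw [← hκd]; exact hκ) _ h3P1, ← hSd, ← hzd]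
  exact hz

/-- The local theorem: at a place where the curve has bad and potentially good reduction, the
points `6 P` are close to `0`. -/
theorem add_local {X : Type} [AddCommGroup X] {t : F} {ξ : X → Fin 2 → F} (hξ : XMap t ξ)
    (v : AbsoluteValue F ℝ) (hv : IsNonarchimedean v)
    (h2 : v 2 = 1) (h3 : v 3 = 1) (ht : 1 ≤ v t) (hκ : 1 + 1728 * t ≠ 0) (N : ℝ) (hN : 1 < N)
    (hdisc : ∀ x : F, x ≠ 0 → ∃ k : ℤ, v x = N ^ k) (e : F) (he : e ≠ 0)
    (hsq : ∀ Q : X, Q ≠ 0 → ∃ s : F, v (e * fk (1 + 1728 * t) (xa (ξ Q))) = v s ^ 2)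
    (hbad : ∀ u : F, v u ^ 12 ≠ v (e ^ 6 * (t * (1 + 1728 * t) ^ 2))) (P : X)
    (hP : ∀ k : ℕ, 1 ≤ k → k • P ≠ 0) : Real.log N / 6 ≤ Jl v t (ξ (6 • P)) := by
  have hP0 : P ≠ 0 := by simpa using hP 1 le_rfl
  have hP1 : ξ P 1 ≠ 0 := fun h => hP0 ((hξ.zero_iff P).1 h)
  have h6P1 : ξ (6 • P) 1 ≠ 0 := fun h => hP 6 (by omega) ((hξ.zero_iff _).1 h)
  have hS := Sc_pos v t hκ
  have he0 := v.pos he
  apply Jl_integral v hv t h2 h3 ht hκ N hN hdisc _ h6P1
  have h6a : ∀ k : ℕ, 1 ≤ k → k • 2 • P ≠ 0 := fun k hk => by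
    rw [smul_smul]; exact hP _ (by omega)
  have h6b : ∀ k : ℕ, 1 ≤ k → k • 3 • P ≠ 0 := fun k hk => by
    rw [smul_smul]; exact hP _ (by omega)
  by_cases hc1 : v (fk (1 + 1728 * t) (xa (ξ P))) < Sc v t ^ 3
  · have h4 := double_pos hξ v hv h2 h3 ht hκ P hP hc1
    have h5 := Jl_mono hξ v hv hκ (2 • P) h6a 3 (by omega)
    rw [smul_smul] at h5
    exact h4.trans_le h5
  push Not at hc1
  by_cases hc2 : Sc v t < v (xa (ξ P))
  · have h4 := (Jl_pos_iff v t hκ (ξ P) hP1).2 hc2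
    exact h4.trans_le (Jl_mono hξ v hv hκ P hP 6 (by omega))
  push Not at hc2
  by_cases hc3 : v (1 + 1728 * t) < 1 ∧ v (xa (ξ P)) < Sc v t
  · have h4 := triple_pos hξ v hv h2 h3 hκ P hP hc3.1 hc3.2
    have h5 := Jl_mono hξ v hv hκ (3 • P) h6b 2 (by omega)
    rw [smul_smul] at h5
    exact h4.trans_le h5
  -- the remaining case is that of good reduction
  exfalso
  obtain ⟨κ, hκd⟩ : ∃ κ : F, κ = 1 + 1728 * t := ⟨_, rfl⟩
  obtain ⟨S, hSd⟩ : ∃ S : ℝ, S = Sc v t := ⟨_, rfl⟩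
  obtain ⟨x, hxd⟩ : ∃ x : F, x = xa (ξ P) := ⟨_, rfl⟩
  obtain ⟨s, hs⟩ := hsq P hP0
  have hsix := Sc_six v t
  have hsix' := (Sc_six_eq v hv t h2 h3 ht).2
  have hk2 := le_Sc_two v t
  have hk3 := le_Sc_three v t
  rw [← hκd] at hs hsix hsix' hk2 hk3 hκ hc1 hc3 hbad
  rw [← hSd] at hS hsix hsix' hk2 hk3 hc1 hc2 hc3
  rw [← hxd] at hs hc1 hc2 hc3
  have nx := v.nonneg x
  have hκ0 := v.pos hκ
  have hf : v (fk κ x) = S ^ 3 := by
    apply le_antisymm _ hc1
    rw [fk]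
    apply NDEAux.na_le hv
    · apply NDEAux.na_sub_le hv
      · rw [map_pow]; exact pow_le_pow_left₀ nx hc2 3
      · rw [map_mul, map_mul, h3, one_mul]
        calc v κ * v x ≤ S ^ 2 * S := mul_le_mul hk2 hc2 nx (by positivity)
          _ = S ^ 3 := by ring
    · rw [map_mul, h2, one_mul]; exact hk3
  rw [map_mul, hf] at hs
  -- `v e * S ^ 3 = v s ^ 2`
  have hs0 : 0 < v s := by
    have h4 : 0 < v s ^ 2 := by rw [← hs]; positivity
    have h5 := v.nonneg s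
    rcases h5.lt_or_eq with h6 | h6
    · exact h6
    · rw [← h6] at h4; norm_num at h4
  by_cases hκ1 : 1 ≤ v κ
  · -- `S ^ 6 = v κ ^ 3`
    have h6 : S ^ 6 = v κ ^ 3 := by
      rw [hsix]
      apply max_eq_left
      exact pow_le_pow_right₀ hκ1 (by norm_num)
    apply hbad (e * κ / s)
    rw [map_mul v (e ^ 6), ← hsix', map_pow, map_div₀, map_mul, h6]
    have h7 : v s ^ 4 = v e ^ 2 * v κ ^ 3 := by
      calc v s ^ 4 = (v s ^ 2) ^ 2 := by ring
        _ = (v e * S ^ 3) ^ 2 := by rw [hs]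
        _ = v e ^ 2 * S ^ 6 := by ring
        _ = _ := by rw [h6]
    rw [div_pow, div_eq_iff (by positivity)]
    have h8 : v s ^ 12 = (v e ^ 2 * v κ ^ 3) ^ 3 := by rw [← h7]; ring
    rw [h8]
    ring
  · push Not at hκ1
    have hxS : v x = S := by
      apply le_antisymm hc2
      by_contra hcon
      push Not at hcon
      exact hc3 ⟨hκ1, hcon⟩
    have h6 : S ^ 6 = v κ ^ 2 := by
      rw [hsix]
      apply max_eq_right
      exact pow_le_pow_of_le_one hκ0.le hκ1.le (by norm_num)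
    apply hbad (s / x)
    rw [map_mul v (e ^ 6), ← hsix', map_pow, map_div₀, hxS]
    rw [div_pow, div_eq_iff (by positivity)]
    calc v s ^ 12 = (v s ^ 2) ^ 6 := by ring
      _ = (v e * S ^ 3) ^ 6 := by rw [hs]
      _ = _ := by ring

end Sq

end LangForms
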