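import Pool.Agent.Lib_MP_f5471b_s.BadDefs
import Pool.Agent.Lib_MP_f5471b_s.LocAdd
import Pool.Agent.Lib_MP_f5471b_j.Xi
import Pool.Agent.Lib_MP_f5471b_j.JBase
import Pool.Agent.Lib_MP_f5471b_j.RhoFin

/-!
# MP_f5471b_nt: the places of bad, potentially good reduction
-/

namespace LangForms

open NumberField WeierstrassCurve

namespace Sq

/-- A criterion for good reduction. -/
theorem goodAt_of_pow {K : Type} [Field K] [NumberField K] (W : WeierstrassCurve K)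
    [W.IsElliptic] (v : FinitePlace K) (h2 : v.1 2 = 1) (h3 : v.1 3 = 1) (hj : v.1 W.j ≤ 1) (u : K)
    (hu : v.1 u ^ 12 = v.1 W.Δ) : GoodAt W v := by
  have hΔ : W.Δ ≠ 0 := W.isUnit_Δ.ne_zero
  have hΔ0 := v.1.pos hΔ
  have hu0 : u ≠ 0 := by
    intro h0
    rw [h0, map_zero, zero_pow (by norm_num)] at hu
    linarith
  have vu := v.1.pos hu0
  have v48 : v.1 (48 : K) = 1 := by
    rw [show (48 : K) = 2 * 2 * 2 * 2 * 3 by norm_num]; simp [h2, h3]
  have v864 : v.1 (864 : K) = 1 := by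
    rw [show (864 : K) = 2 * 2 * 2 * 2 * 2 * 3 * 3 * 3 by norm_num]; simp [h2, h3]
  have v1728 : v.1 (1728 : K) = 1 := by
    rw [show (1728 : K) = 2 * 2 * 2 * 2 * 2 * 2 * 3 * 3 * 3 by norm_num]; simp [h2, h3]
  have hv := fin_na v
  have hc4 : v.1 W.c₄ ^ 3 ≤ v.1 W.Δ := by
    have h4 := jb_j_eq W
    rw [h4, map_div₀, map_pow, div_le_one hΔ0] at hj
    exact hj
  have hc6 : v.1 W.c₆ ^ 2 ≤ v.1 W.Δ := by
    have h4 := W.c_relation
    have h5 : W.c₆ ^ 2 = W.c₄ ^ 3 - 1728 * W.Δ := by linear_combination h4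
    rw [← map_pow, h5]
    apply NDEAux.na_sub_le hv
    · rw [map_pow]; exact hc4
    · rw [map_mul, v1728, one_mul]
  refine ⟨⟨Units.mk0 u hu0, -W.b₂ / 12, -W.a₁ / 2, -(W.a₃ + (-W.b₂ / 12) * W.a₁) / 2⟩, ?_, ?_, ?_,
    ?_, ?_, ?_⟩
  · rw [variableChange_a₁]
    have e : W.a₁ + 2 * (-W.a₁ / 2) = 0 := by ring
    simp only [e, mul_zero, map_zero]
    exact zero_le_one
  · rw [variableChange_a₂]
    have e : W.a₂ - (-W.a₁ / 2) * W.a₁ + 3 * (-W.b₂ / 12) - (-W.a₁ / 2) ^ 2 = 0 := by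
      rw [WeierstrassCurve.b₂]
      ring
    simp only [e, mul_zero, map_zero]
    exact zero_le_one
  · rw [variableChange_a₃]
    have e : W.a₃ + (-W.b₂ / 12) * W.a₁ + 2 * (-(W.a₃ + (-W.b₂ / 12) * W.a₁) / 2) = 0 := by ring
    simp only [e, mul_zero, map_zero]
    exact zero_le_one
  · rw [variableChange_a₄]
    have e : (((Units.mk0 u hu0)⁻¹ : Kˣ) : K) ^ 4 * (W.a₄ - (-W.a₁ / 2) * W.a₃ +
        2 * (-W.b₂ / 12) * W.a₂ - (-(W.a₃ + (-W.b₂ / 12) * W.a₁) / 2 + (-W.b₂ / 12) *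
          (-W.a₁ / 2)) * W.a₁ + 3 * (-W.b₂ / 12) ^ 2 -
        2 * (-W.a₁ / 2) * (-(W.a₃ + (-W.b₂ / 12) * W.a₁) / 2)) = -(W.c₄ / u ^ 4) / 48 := by
      rw [Units.val_inv_eq_inv_val, Units.val_mk0, WeierstrassCurve.c₄, WeierstrassCurve.b₂,
        WeierstrassCurve.b₄]
      field_simp
      ring
    simp only [e]
    change v.1 _ ≤ 1
    rw [map_div₀, v.1.map_neg, v48, div_one, map_div₀, map_pow, div_le_one (by positivity)]
    have h5 : v.1 W.c₄ ^ 3 ≤ (v.1 u ^ 4) ^ 3 := by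
      rw [← pow_mul, hu]; exact hc4
    exact le_of_pow_le_pow_left₀ (by norm_num) (by positivity) h5
  · rw [variableChange_a₆]
    have e : (((Units.mk0 u hu0)⁻¹ : Kˣ) : K) ^ 6 * (W.a₆ + (-W.b₂ / 12) * W.a₄ +
        (-W.b₂ / 12) ^ 2 * W.a₂ + (-W.b₂ / 12) ^ 3 -
        (-(W.a₃ + (-W.b₂ / 12) * W.a₁) / 2) * W.a₃ - (-(W.a₃ + (-W.b₂ / 12) * W.a₁) / 2) ^ 2 -
        (-W.b₂ / 12) * (-(W.a₃ + (-W.b₂ / 12) * W.a₁) / 2) * W.a₁) =
        -(W.c₆ / u ^ 6) / 864 := by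
      rw [Units.val_inv_eq_inv_val, Units.val_mk0, WeierstrassCurve.c₆, WeierstrassCurve.b₂,
        WeierstrassCurve.b₄, WeierstrassCurve.b₆]
      field_simp
      ring
    simp only [e]
    change v.1 _ ≤ 1
    rw [map_div₀, v.1.map_neg, v864, div_one, map_div₀, map_pow, div_le_one (by positivity)]
    have h5 : v.1 W.c₆ ^ 2 ≤ (v.1 u ^ 6) ^ 2 := by
      rw [← pow_mul, hu]; exact hc6
    exact le_of_pow_le_pow_left₀ (by norm_num) (by positivity) h5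
  · rw [variableChange_Δ]
    change v.1 _ = 1
    rw [Units.val_inv_eq_inv_val, Units.val_mk0, map_mul, map_pow, map_inv₀, inv_pow, hu,
      inv_mul_cancel₀ hΔ0.ne']

/-- The points `6 m P` are close to `0` at the places of bad, potentially good reduction. -/
theorem bad_local {K : Type} [Field K] [NumberField K] [DecidableEq K] (W : WeierstrassCurve K)
    [W.IsElliptic] (h4 : W.c₄ ≠ 0) (h6 : W.c₆ ≠ 0) (v : FinitePlace K) (h2 : v.1 2 = 1)
    (h3 : v.1 3 = 1) (hj : v.1 W.j ≤ 1) (hbad : ¬ GoodAt W v) (P : W.toAffine.Point)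
    (hP : ∀ k : ℕ, 1 ≤ k → k • P ≠ 0) (m : ℕ) (hm : 1 ≤ m) :
    Real.log (plNorm v) / 6 ≤ Jl v.1 (W.Δ / W.c₆ ^ 2) (xiW W ((6 * m) • P).xRep) := by
  have hv := fin_na v
  have hΔ : W.Δ ≠ 0 := W.isUnit_Δ.ne_zero
  have hΔ0 := v.1.pos hΔ
  have v1728 : v.1 (1728 : K) = 1 := by
    rw [show (1728 : K) = 2 * 2 * 2 * 2 * 2 * 2 * 3 * 3 * 3 by norm_num]; simp [h2, h3]
  have hκe : 1 + 1728 * (W.Δ / W.c₆ ^ 2) = W.c₄ ^ 3 / W.c₆ ^ 2 := by
    have h5 := W.c_relation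
    field_simp
    linear_combination h5
  have hκ : 1 + 1728 * (W.Δ / W.c₆ ^ 2) ≠ 0 := by
    rw [hκe]
    exact div_ne_zero (pow_ne_zero 3 h4) (pow_ne_zero 2 h6)
  have hc4 : v.1 W.c₄ ^ 3 ≤ v.1 W.Δ := by
    have h4 := jb_j_eq W
    rw [h4, map_div₀, map_pow, div_le_one hΔ0] at hj
    exact hj
  have hc6 : v.1 W.c₆ ^ 2 ≤ v.1 W.Δ := by
    have h4 := W.c_relation
    have h5 : W.c₆ ^ 2 = W.c₄ ^ 3 - 1728 * W.Δ := by linear_combination h4
    rw [← map_pow, h5]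
    apply NDEAux.na_sub_le hv
    · rw [map_pow]; exact hc4
    · rw [map_mul, v1728, one_mul]
  have ht : 1 ≤ v.1 (W.Δ / W.c₆ ^ 2) := by
    rw [map_div₀, map_pow, one_le_div (by have := v.1.pos h6; positivity)]
    exact hc6
  have hxm := xmap_W W h4 h6
  rw [mul_smul]
  refine add_local hxm v.1 hv h2 h3 ht hκ (plNorm v) (RhoFinAux.one_lt_plNorm v)
    (fun x hx => RhoFinAux.apply_eq_zpow v x hx) (W.c₆ / W.c₄) (div_ne_zero h6 h4) ?_ ?_
    (m • P) ?_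
  · intro Q hQ
    rcases Q with _ | ⟨x, y, h⟩
    · exact absurd (Affine.Point.zero_def (W' := W.toAffine)).symm hQ
    · refine ⟨12 * (2 * y + W.a₁ * x + W.a₃) * W.c₄ / W.c₆, ?_⟩
      have e1 : W.c₆ / W.c₄ * fk (1 + 1728 * (W.Δ / W.c₆ ^ 2))
          (xa (xiW W (Affine.Point.some x y h).xRep)) =
          -(3 * (12 * (2 * y + W.a₁ * x + W.a₃) * W.c₄ / W.c₆) ^ 2) := by
        have e2 : xa (xiW W (Affine.Point.some x y h).xRep) = -(W.c₄ * (12 * x + W.b₂)) / W.c₆ := by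
          rw [xa, xiW]
          simp only [Affine.Point.xRep_some, Matrix.cons_val_zero, Matrix.cons_val_one]
          field_simp
          ring
        rw [e2, hκe, fk]
        have heq : y ^ 2 + W.a₁ * x * y + W.a₃ * y =
            x ^ 3 + W.a₂ * x ^ 2 + W.a₄ * x + W.a₆ := (Affine.equation_iff x y).1 h.1
        have e3 : (12 * x + W.b₂) ^ 3 - 3 * W.c₄ * (12 * x + W.b₂) - 2 * W.c₆ =
            432 * (2 * y + W.a₁ * x + W.a₃) ^ 2 := by
          rw [WeierstrassCurve.c₄, WeierstrassCurve.c₆, WeierstrassCurve.b₂, WeierstrassCurve.b₄,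
            WeierstrassCurve.b₆]
          linear_combination (-1728) * heq
        field_simp
        linear_combination -e3
      rw [e1, v.1.map_neg, map_mul, h3, one_mul, map_pow]
  · intro u hu
    apply hbad
    apply goodAt_of_pow W v h2 h3 hj u
    rw [hu, hκe]
    congr 1
    field_simp
  · intro k hk
    rw [smul_smul]
    exact hP _ (Nat.mul_pos (by omega) (by omega))

end Sq

end LangForms
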