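import Pool.Agent.Lib_MP_f5471b_s.QU
import Pool.Agent.Lib_MP_f5471b_j.Rho
import Pool.Agent.Lib_MP_f5471b_j.Fm

/-!
# MP_f5471b_nt: one step of the duplication map, two-sided local estimates
-/

namespace LangForms

namespace Sq

variable {F : Type} [Field F]

theorem M_pos (v : AbsoluteValue F ℝ) (t : F) (hκ : 1 + 1728 * t ≠ 0) (w : Fin 2 → F)
    (hw : w 1 ≠ 0) : 0 < NDA.M v (Sc v t) w :=
  lt_of_lt_of_le (mul_pos (Sc_pos v t hκ) (v.pos hw)) (le_max_right _ _)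

theorem Jl_eq (v : AbsoluteValue F ℝ) (t : F) (hκ : 1 + 1728 * t ≠ 0) (w : Fin 2 → F)
    (hw : w 1 ≠ 0) :
    Jl v t w = Real.log (NDA.M v (Sc v t) w) - Real.log (Sc v t) - Real.log (v (w 1)) := by
  have hS := Sc_pos v t hκ
  have hb := v.pos hw
  have hM := M_pos v t hκ w hw
  rw [Jl, Real.log_div hM.ne' (by positivity), Real.log_mul hS.ne' hb.ne']
  ring

theorem Jl_step (v : AbsoluteValue F ℝ) (t : F) (hκ : 1 + 1728 * t ≠ 0) (w : Fin 2 → F)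
    (hw : w 1 ≠ 0) (hF : Fm t w 1 ≠ 0) :
    Jl v t (Fm t w) - 4 * Jl v t w = (Real.log (NDA.M v (Sc v t) (Fm t w)) -
      4 * Real.log (NDA.M v (Sc v t) w)) + 3 * Real.log (Sc v t) -
      Real.log (v (Fm t w 1 / w 1 ^ 4)) := by
  have hb := v.pos hw
  have hb' := v.pos hF
  rw [Jl_eq v t hκ _ hF, Jl_eq v t hκ _ hw, map_div₀, map_pow,
    Real.log_div hb'.ne' (by positivity), Real.log_pow]
  push_cast
  ring

/-- The duplication map does not increase the size, arbitrary absolute value. -/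
theorem M_up (v : AbsoluteValue F ℝ) (t : F) (w : Fin 2 → F) :
    v 1728 * NDA.M v (Sc v t) (Fm t w) ≤ 32 * NDA.M v (Sc v t) w ^ 4 := by
  have h2 := le_Sc_two v t
  have h3 := le_Sc_three v t
  have hS := Sc_nonneg v t
  obtain ⟨S, hSd⟩ : ∃ S, S = Sc v t := ⟨_, rfl⟩
  rw [← hSd] at h2 h3 hS ⊢
  obtain ⟨κ, hκ⟩ : ∃ κ : F, κ = 1 + 1728 * t := ⟨_, rfl⟩
  rw [← hκ] at h2 h3
  obtain ⟨ξ, hξ⟩ : ∃ ξ : F, ξ = 12 * w 0 + w 1 := ⟨_, rfl⟩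
  obtain ⟨ζ, hζ⟩ : ∃ ζ : F, ζ = w 1 := ⟨_, rfl⟩
  have e1 : ξ ^ 4 + 6 * κ * ξ ^ 2 * ζ ^ 2 - 16 * κ * ξ * ζ ^ 3 + 9 * κ ^ 2 * ζ ^ 4 =
      1728 * (12 * Fm t w 0 + Fm t w 1) := by
    simp only [Fm, Matrix.cons_val_zero, Matrix.cons_val_one, hξ, hζ, hκ]
    ring
  have e2 : 4 * ζ * (ξ ^ 3 - 3 * κ * ξ * ζ ^ 2 + 2 * κ * ζ ^ 3) = 1728 * Fm t w 1 := by
    simp only [Fm, Matrix.cons_val_zero, Matrix.cons_val_one, hξ, hζ, hκ]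
    ring
  have hM0 : 0 ≤ NDA.M v S w := NDA.M_nonneg v S w
  have m0 : v ξ ≤ NDA.M v S w := by
    rw [hξ]; exact le_max_left _ _
  have m1 : S * v ζ ≤ NDA.M v S w := by
    rw [hζ]; exact le_max_right _ _
  obtain ⟨m, hm⟩ : ∃ m, m = NDA.M v S w := ⟨_, rfl⟩
  rw [← hm] at hM0 m0 m1 ⊢
  have n0 := v.nonneg ξ
  have n1 := v.nonneg ζ
  have nk := v.nonneg κ
  have b2 : v κ * v ζ ^ 2 ≤ m ^ 2 := by
    calc v κ * v ζ ^ 2 ≤ S ^ 2 * v ζ ^ 2 := by gcongr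
      _ = (S * v ζ) ^ 2 := by ring
      _ ≤ m ^ 2 := by gcongr
  have b3 : v κ * v ζ ^ 3 ≤ m ^ 3 := by
    calc v κ * v ζ ^ 3 ≤ S ^ 3 * v ζ ^ 3 := by gcongr
      _ = (S * v ζ) ^ 3 := by ring
      _ ≤ m ^ 3 := by gcongr
  have t1 : v (ξ ^ 4) ≤ m ^ 4 := by
    rw [map_pow]; gcongr
  have t2 : v (6 * κ * ξ ^ 2 * ζ ^ 2) ≤ 6 * m ^ 4 := by
    have h6 := NDA.ofNat_le v 6
    rw [v.map_mul, v.map_mul, v.map_mul, v.map_pow, v.map_pow]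
    calc v 6 * v κ * v ξ ^ 2 * v ζ ^ 2 = v 6 * (v κ * v ζ ^ 2) * v ξ ^ 2 := by ring
      _ ≤ 6 * m ^ 2 * m ^ 2 := by gcongr
      _ = _ := by ring
  have t3 : v (16 * κ * ξ * ζ ^ 3) ≤ 16 * m ^ 4 := by
    have h6 := NDA.ofNat_le v 16
    rw [v.map_mul, v.map_mul, v.map_mul, v.map_pow]
    calc v 16 * v κ * v ξ * v ζ ^ 3 = v 16 * (v κ * v ζ ^ 3) * v ξ := by ring
      _ ≤ 16 * m ^ 3 * m := by gcongr
      _ = _ := by ring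
  have t4 : v (9 * κ ^ 2 * ζ ^ 4) ≤ 9 * m ^ 4 := by
    have h6 := NDA.ofNat_le v 9
    rw [v.map_mul, v.map_mul, v.map_pow, v.map_pow]
    calc v 9 * v κ ^ 2 * v ζ ^ 4 = v 9 * ((v κ * v ζ ^ 2) * (v κ * v ζ ^ 2)) := by ring
      _ ≤ 9 * (m ^ 2 * m ^ 2) := by gcongr
      _ = _ := by ring
  have g1 : v 1728 * v (12 * Fm t w 0 + Fm t w 1) ≤ 32 * m ^ 4 := by
    rw [← map_mul, ← e1]
    have s1 := v.add_le (ξ ^ 4 + 6 * κ * ξ ^ 2 * ζ ^ 2 - 16 * κ * ξ * ζ ^ 3) (9 * κ ^ 2 * ζ ^ 4)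
    have s2 := v.sub_le_add (ξ ^ 4 + 6 * κ * ξ ^ 2 * ζ ^ 2) (16 * κ * ξ * ζ ^ 3)
    have s3 := v.add_le (ξ ^ 4) (6 * κ * ξ ^ 2 * ζ ^ 2)
    linarith
  have u1 : v (ξ ^ 3 - 3 * κ * ξ * ζ ^ 2 + 2 * κ * ζ ^ 3) ≤ 6 * m ^ 3 := by
    have s1 := v.add_le (ξ ^ 3 - 3 * κ * ξ * ζ ^ 2) (2 * κ * ζ ^ 3)
    have s2 := v.sub_le_add (ξ ^ 3) (3 * κ * ξ * ζ ^ 2)
    have r1 : v (ξ ^ 3) ≤ m ^ 3 := by
      rw [map_pow]; gcongr
    have r2 : v (3 * κ * ξ * ζ ^ 2) ≤ 3 * m ^ 3 := by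
      have h6 := NDA.ofNat_le v 3
      rw [v.map_mul, v.map_mul, v.map_mul, v.map_pow]
      calc v 3 * v κ * v ξ * v ζ ^ 2 = v 3 * (v κ * v ζ ^ 2) * v ξ := by ring
        _ ≤ 3 * m ^ 2 * m := by gcongr
        _ = _ := by ring
    have r3 : v (2 * κ * ζ ^ 3) ≤ 2 * m ^ 3 := by
      have h6 := NDA.ofNat_le v 2
      rw [v.map_mul, v.map_mul, v.map_pow]
      calc v 2 * v κ * v ζ ^ 3 = v 2 * (v κ * v ζ ^ 3) := by ring
        _ ≤ 2 * m ^ 3 := by gcongr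
    linarith
  have g2 : S * (v 1728 * v (Fm t w 1)) ≤ 32 * m ^ 4 := by
    rw [← map_mul, ← e2, v.map_mul, v.map_mul]
    have h6 := NDA.ofNat_le v 4
    have : 0 ≤ m ^ 4 := by positivity
    calc S * (v 4 * v ζ * v (ξ ^ 3 - 3 * κ * ξ * ζ ^ 2 + 2 * κ * ζ ^ 3)) =
          v 4 * (S * v ζ) * v (ξ ^ 3 - 3 * κ * ξ * ζ ^ 2 + 2 * κ * ζ ^ 3) := by ring
      _ ≤ 4 * m * (6 * m ^ 3) := by gcongr
      _ ≤ 32 * m ^ 4 := by nlinarith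
  unfold NDA.M
  rw [mul_max_of_nonneg _ _ (v.nonneg _)]
  apply max_le g1
  calc v 1728 * (S * v (Fm t w 1)) = S * (v 1728 * v (Fm t w 1)) := by ring
    _ ≤ _ := g2

/-- The duplication map does not increase the size, nonarchimedean absolute value. -/
theorem M_up_na (v : AbsoluteValue F ℝ) (hv : IsNonarchimedean v) (t : F) (w : Fin 2 → F) :
    v 1728 * NDA.M v (Sc v t) (Fm t w) ≤ NDA.M v (Sc v t) w ^ 4 := by
  have h2 := le_Sc_two v t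
  have h3 := le_Sc_three v t
  have hS := Sc_nonneg v t
  obtain ⟨S, hSd⟩ : ∃ S, S = Sc v t := ⟨_, rfl⟩
  rw [← hSd] at h2 h3 hS ⊢
  obtain ⟨κ, hκ⟩ : ∃ κ : F, κ = 1 + 1728 * t := ⟨_, rfl⟩
  rw [← hκ] at h2 h3
  obtain ⟨ξ, hξ⟩ : ∃ ξ : F, ξ = 12 * w 0 + w 1 := ⟨_, rfl⟩
  obtain ⟨ζ, hζ⟩ : ∃ ζ : F, ζ = w 1 := ⟨_, rfl⟩
  have e1 : ξ ^ 4 + 6 * κ * ξ ^ 2 * ζ ^ 2 - 16 * κ * ξ * ζ ^ 3 + 9 * κ ^ 2 * ζ ^ 4 =
      1728 * (12 * Fm t w 0 + Fm t w 1) := by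
    simp only [Fm, Matrix.cons_val_zero, Matrix.cons_val_one, hξ, hζ, hκ]
    ring
  have e2 : 4 * ζ * (ξ ^ 3 - 3 * κ * ξ * ζ ^ 2 + 2 * κ * ζ ^ 3) = 1728 * Fm t w 1 := by
    simp only [Fm, Matrix.cons_val_zero, Matrix.cons_val_one, hξ, hζ, hκ]
    ring
  have hM0 : 0 ≤ NDA.M v S w := NDA.M_nonneg v S w
  have m0 : v ξ ≤ NDA.M v S w := by
    rw [hξ]; exact le_max_left _ _
  have m1 : S * v ζ ≤ NDA.M v S w := by
    rw [hζ]; exact le_max_right _ _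
  obtain ⟨m, hm⟩ : ∃ m, m = NDA.M v S w := ⟨_, rfl⟩
  rw [← hm] at hM0 m0 m1 ⊢
  have n0 := v.nonneg ξ
  have n1 := v.nonneg ζ
  have nk := v.nonneg κ
  have b2 : v κ * v ζ ^ 2 ≤ m ^ 2 := by
    calc v κ * v ζ ^ 2 ≤ S ^ 2 * v ζ ^ 2 := by gcongr
      _ = (S * v ζ) ^ 2 := by ring
      _ ≤ m ^ 2 := by gcongr
  have b3 : v κ * v ζ ^ 3 ≤ m ^ 3 := by
    calc v κ * v ζ ^ 3 ≤ S ^ 3 * v ζ ^ 3 := by gcongr
      _ = (S * v ζ) ^ 3 := by ring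
      _ ≤ m ^ 3 := by gcongr
  have t1 : v (ξ ^ 4) ≤ m ^ 4 := by
    rw [map_pow]; gcongr
  have t2 : v (6 * κ * ξ ^ 2 * ζ ^ 2) ≤ m ^ 4 := by
    have h6 := na_ofNat_le v hv 6
    rw [v.map_mul, v.map_mul, v.map_mul, v.map_pow, v.map_pow]
    calc v 6 * v κ * v ξ ^ 2 * v ζ ^ 2 = v 6 * (v κ * v ζ ^ 2) * v ξ ^ 2 := by ring
      _ ≤ 1 * m ^ 2 * m ^ 2 := by gcongr
      _ = _ := by ring
  have t3 : v (16 * κ * ξ * ζ ^ 3) ≤ m ^ 4 := by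
    have h6 := na_ofNat_le v hv 16
    rw [v.map_mul, v.map_mul, v.map_mul, v.map_pow]
    calc v 16 * v κ * v ξ * v ζ ^ 3 = v 16 * (v κ * v ζ ^ 3) * v ξ := by ring
      _ ≤ 1 * m ^ 3 * m := by gcongr
      _ = _ := by ring
  have t4 : v (9 * κ ^ 2 * ζ ^ 4) ≤ m ^ 4 := by
    have h6 := na_ofNat_le v hv 9
    rw [v.map_mul, v.map_mul, v.map_pow, v.map_pow]
    calc v 9 * v κ ^ 2 * v ζ ^ 4 = v 9 * ((v κ * v ζ ^ 2) * (v κ * v ζ ^ 2)) := by ring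
      _ ≤ 1 * (m ^ 2 * m ^ 2) := by gcongr
      _ = _ := by ring
  have g1 : v 1728 * v (12 * Fm t w 0 + Fm t w 1) ≤ m ^ 4 := by
    rw [← map_mul, ← e1]
    exact NDEAux.na_le hv (NDEAux.na_sub_le hv (NDEAux.na_le hv t1 t2) t3) t4
  have u1 : v (ξ ^ 3 - 3 * κ * ξ * ζ ^ 2 + 2 * κ * ζ ^ 3) ≤ m ^ 3 := by
    have r1 : v (ξ ^ 3) ≤ m ^ 3 := by
      rw [map_pow]; gcongr
    have r2 : v (3 * κ * ξ * ζ ^ 2) ≤ m ^ 3 := by
      have h6 := na_ofNat_le v hv 3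
      rw [v.map_mul, v.map_mul, v.map_mul, v.map_pow]
      calc v 3 * v κ * v ξ * v ζ ^ 2 = v 3 * (v κ * v ζ ^ 2) * v ξ := by ring
        _ ≤ 1 * m ^ 2 * m := by gcongr
        _ = _ := by ring
    have r3 : v (2 * κ * ζ ^ 3) ≤ m ^ 3 := by
      have h6 := na_ofNat_le v hv 2
      rw [v.map_mul, v.map_mul, v.map_pow]
      calc v 2 * v κ * v ζ ^ 3 = v 2 * (v κ * v ζ ^ 3) := by ring
        _ ≤ 1 * m ^ 3 := by gcongr
        _ = _ := by ring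
    exact NDEAux.na_le hv (NDEAux.na_sub_le hv r1 r2) r3
  have g2 : S * (v 1728 * v (Fm t w 1)) ≤ m ^ 4 := by
    rw [← map_mul, ← e2, v.map_mul, v.map_mul]
    have h6 := na_ofNat_le v hv 4
    calc S * (v 4 * v ζ * v (ξ ^ 3 - 3 * κ * ξ * ζ ^ 2 + 2 * κ * ζ ^ 3)) =
          v 4 * (S * v ζ) * v (ξ ^ 3 - 3 * κ * ξ * ζ ^ 2 + 2 * κ * ζ ^ 3) := by ring
      _ ≤ 1 * m * m ^ 3 := by gcongr
      _ = m ^ 4 := by ring
  unfold NDA.M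
  rw [mul_max_of_nonneg _ _ (v.nonneg _)]
  apply max_le g1
  calc v 1728 * (S * v (Fm t w 1)) = S * (v 1728 * v (Fm t w 1)) := by ring
    _ ≤ _ := g2

/-- The local step at a finite place prime to `6` where `t` is not small. -/
theorem step_exact (v : AbsoluteValue F ℝ) (hv : IsNonarchimedean v) (t : F)
    (h2 : v 2 = 1) (h3 : v 3 = 1) (ht : 1 ≤ v t) (hκ : 1 + 1728 * t ≠ 0) (w : Fin 2 → F)
    (hw : w 1 ≠ 0) (hF : Fm t w 1 ≠ 0) :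
    Jl v t (Fm t w) - 4 * Jl v t w =
      Real.log (v (t * (1 + 1728 * t) ^ 2)) / 2 - Real.log (v (Fm t w 1 / w 1 ^ 4)) := by
  have v1728 : v (1728 : F) = 1 := by
    rw [show (1728 : F) = 2 * 2 * 2 * 2 * 2 * 2 * 3 * 3 * 3 by norm_num]; simp [h2, h3]
  have hκ0 : 0 < v (1 + 1728 * t) := v.pos hκ
  -- the scale
  have hS6 : Sc v t ^ 6 = v (t * (1 + 1728 * t) ^ 2) := by
    have hk : v t = max (v (1 + 1728 * t)) 1 := by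
      apply le_antisymm
      · have e : 1728 * t = (1 + 1728 * t) - 1 := by ring
        have h4 : v (1728 * t) = v t := by rw [map_mul, v1728, one_mul]
        have h5 : v ((1 + 1728 * t) - 1) ≤ max (v (1 + 1728 * t)) 1 :=
          NDEAux.na_sub_le hv (le_max_left _ _) (by rw [map_one]; exact le_max_right _ _)
        rw [← e, h4] at h5
        exact h5
      · apply max_le _ ht
        apply NDEAux.na_le hv
        · rw [map_one]; exact ht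
        · rw [map_mul, v1728, one_mul]
    rw [Sc_six, map_mul, map_pow, hk, max_mul_of_nonneg _ _ (by positivity), one_mul, pow_succ']
  have hS := Sc_pos v t hκ
  have hM := M_pos v t hκ w hw
  have hM' := M_pos v t hκ _ hF
  have hlow : NDA.M v (Sc v t) w ^ 4 ≤ NDA.M v (Sc v t) (Fm t w) := by
    have h := NDEAux.step v hv t h2 h3 ht (1 + 1728 * t) rfl (Sc v t) hS hS6
      (12 * w 0 + w 1) (w 1)
    have e1 : NDEAux.G1 (1 + 1728 * t) (12 * w 0 + w 1) (w 1) =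
        1728 * (12 * (Fm t w) 0 + (Fm t w) 1) := by
      unfold NDEAux.G1 Fm
      simp only [Matrix.cons_val_zero, Matrix.cons_val_one]
      ring
    have e2 : NDEAux.G2 (1 + 1728 * t) (12 * w 0 + w 1) (w 1) = 1728 * (Fm t w) 1 := by
      have hf1 : Fm t w 1 = 4 * w 0 ^ 3 * w 1 + w 0 ^ 2 * w 1 ^ 2 - 144 * t * w 0 * w 1 ^ 3 -
          4 * t * w 1 ^ 4 := rfl
      unfold NDEAux.G2
      rw [hf1]
      ring
    rw [e1, e2] at h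
    unfold NDEAux.M at h
    unfold NDA.M
    rw [map_mul, map_mul, v1728, one_mul, one_mul] at h
    exact h
  have hup := M_up_na v hv t w
  rw [v1728, one_mul] at hup
  have hMe := le_antisymm hup hlow
  rw [Jl_step v t hκ w hw hF, hMe, Real.log_pow, ← hS6, Real.log_pow]
  push_cast
  ring

end Sq

end LangForms
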