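import Pool.Agent.Lib_MP_f5471b_s.Short
import Pool.Agent.Lib_MP_f5471b_s.LocOne
import Pool.Agent.Lib_MP_f5471b_j.DupNA

/-!
# MP_f5471b_nt: the places of bad reduction of the curves with `j = 0` and `j = 1728`
-/

namespace LangForms

namespace Sq

variable {F X : Type} [Field F] [AddCommGroup X]

/-- Doubling near infinity, `j = 0`. -/
theorem big_double_zero {b : F} {ζ : X → Fin 2 → F} (h : SMap 0 b ζ) (v : AbsoluteValue F ℝ)
    (hv : IsNonarchimedean v) (h2 : v 2 = 1) (hb : b ≠ 0) (Q : X) (hQ : Q ≠ 0)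
    (h2Q : Q + Q ≠ 0) (hz : v b < v (za (ζ Q)) ^ 3) : v b < v (za (ζ (Q + Q))) ^ 3 := by
  have v4 : v (4 : F) = 1 := by rw [show (4 : F) = 2 * 2 by norm_num]; simp [h2]
  have v8 : v (8 : F) = 1 := by rw [show (8 : F) = 2 * 2 * 2 by norm_num]; simp [h2]
  have hd := h.za_double Q hQ h2Q
  obtain ⟨z, hzd⟩ : ∃ z, z = za (ζ Q) := ⟨_, rfl⟩
  obtain ⟨y, hyd⟩ : ∃ y, y = za (ζ (Q + Q)) := ⟨_, rfl⟩
  rw [← hzd] at hz hd
  rw [← hyd] at hd ⊢
  have hb0 := v.pos hb
  have hz0 : 0 < v z := by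
    by_contra hcon
    push Not at hcon
    have := v.nonneg z
    have h0 : v z = 0 := le_antisymm hcon this
    rw [h0] at hz
    norm_num at hz
    linarith
  have e1 : v (z ^ 3 + b) = v z ^ 3 := by
    rw [← map_pow]
    apply DupNA.add_eq hv
    rw [map_pow]; exact hz
  have e2 : v (z ^ 3 - 8 * b) = v z ^ 3 := by
    rw [sub_eq_add_neg, ← map_pow]
    apply DupNA.add_eq hv
    rw [v.map_neg, map_mul, v8, one_mul, map_pow]; exact hz
  have e3 : v y * v z ^ 3 = v z * v z ^ 3 := by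
    have h5 : y * (4 * (z ^ 3 + b)) = z * (z ^ 3 - 8 * b) := by linear_combination hd
    have h6 := congrArg v h5
    rw [map_mul, map_mul, map_mul, v4, one_mul, e1, e2] at h6
    exact h6
  have e4 : v y = v z := mul_right_cancel₀ (by positivity) e3
  rw [e4]
  exact hz

/-- Doubling near the points of order two, `j = 0`. -/
theorem near_double_zero {b : F} {ζ : X → Fin 2 → F} (h : SMap 0 b ζ) (v : AbsoluteValue F ℝ)
    (hv : IsNonarchimedean v) (h2 : v 2 = 1) (h3 : v 3 = 1) (hb : b ≠ 0) (Q : X) (hQ : Q ≠ 0)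
    (h2Q : Q + Q ≠ 0) (hz : v (za (ζ Q) ^ 3 + b) < v b) : v b < v (za (ζ (Q + Q))) ^ 3 := by
  have v4 : v (4 : F) = 1 := by rw [show (4 : F) = 2 * 2 by norm_num]; simp [h2]
  have v9 : v (9 : F) = 1 := by rw [show (9 : F) = 3 * 3 by norm_num]; simp [h3]
  have hd := h.za_double Q hQ h2Q
  obtain ⟨z, hzd⟩ : ∃ z, z = za (ζ Q) := ⟨_, rfl⟩
  obtain ⟨y, hyd⟩ : ∃ y, y = za (ζ (Q + Q)) := ⟨_, rfl⟩
  rw [← hzd] at hz hd
  rw [← hyd] at hd ⊢
  have hb0 := v.pos hb
  have e1 : v z ^ 3 = v b := by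
    have h5 : z ^ 3 = -b + (z ^ 3 + b) := by ring
    rw [← map_pow, h5, ← v.map_neg b]
    apply DupNA.add_eq hv
    rw [v.map_neg]; exact hz
  have e2 : v (z ^ 3 - 8 * b) = v b := by
    have h5 : z ^ 3 - 8 * b = -(9 * b) + (z ^ 3 + b) := by ring
    rw [h5]
    have h6 : v (-(9 * b)) = v b := by rw [v.map_neg, map_mul, v9, one_mul]
    rw [← h6]
    apply DupNA.add_eq hv
    rw [h6]; exact hz
  have hz0 : 0 < v z := by
    have := v.nonneg z
    rcases this.lt_or_eq with h0 | h0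
    · exact h0
    · rw [← h0] at e1
      norm_num at e1
      exact absurd e1.symm hb0.ne'
  have e3 : v y * v (z ^ 3 + b) = v z * v b := by
    have h5 : y * (4 * (z ^ 3 + b)) = z * (z ^ 3 - 8 * b) := by linear_combination hd
    have h6 := congrArg v h5
    rw [map_mul, map_mul, map_mul, v4, one_mul, e2] at h6
    exact h6
  have e4 : v z < v y := by
    by_contra hcon
    push Not at hcon
    have h7 : v y * v (z ^ 3 + b) ≤ v z * v (z ^ 3 + b) :=
      mul_le_mul_of_nonneg_right hcon (v.nonneg _)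
    have h8 : v z * v (z ^ 3 + b) < v z * v b := mul_lt_mul_of_pos_left hz hz0
    linarith
  rw [← e1]
  exact pow_lt_pow_left₀ e4 hz0.le (by norm_num)

/-- The formula for `3 Q`, `j = 0`. -/
theorem triple_zero {b : F} {ζ : X → Fin 2 → F} (h : SMap 0 b ζ) (h40 : (4 : F) ≠ 0) (Q : X)
    (hQ : Q ≠ 0) (h2Q : Q + Q ≠ 0) (h3Q : Q + Q + Q ≠ 0) :
    za (ζ (Q + Q + Q)) * (9 * za (ζ Q) ^ 2 * (za (ζ Q) ^ 3 + 4 * b) ^ 2) =
      za (ζ Q) ^ 9 - 96 * b * za (ζ Q) ^ 6 + 48 * b ^ 2 * za (ζ Q) ^ 3 + 64 * b ^ 3 := by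
  have hd := h.za_double Q hQ h2Q
  have hs := h.za_sum Q hQ h2Q h3Q
  have hn := h.za_sub_ne Q hQ h2Q h3Q
  obtain ⟨z, hzd⟩ : ∃ z, z = za (ζ Q) := ⟨_, rfl⟩
  obtain ⟨y, hyd⟩ : ∃ y, y = za (ζ (Q + Q)) := ⟨_, rfl⟩
  obtain ⟨x, hxd⟩ : ∃ x, x = za (ζ (Q + Q + Q)) := ⟨_, rfl⟩
  rw [← hzd, ← hyd] at hd hn hs
  rw [← hxd] at hs
  rw [← hzd, ← hxd]
  have hzb : z ^ 3 + b ≠ 0 := by
    have h5 := h.za_cubic_ne Q hQ h2Q
    rw [← hzd, zero_mul, add_zero] at h5
    exact h5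
  have h16 : (16 : F) ≠ 0 := by
    rw [show (16 : F) = 4 * 4 by norm_num]
    exact mul_ne_zero h40 h40
  have hy : y = z * (z ^ 3 - 8 * b) / (4 * (z ^ 3 + b)) := by
    rw [eq_div_iff (mul_ne_zero h40 hzb)]
    linear_combination hd
  have e2 : y - z = -(3 * z * (z ^ 3 + 4 * b)) / (4 * (z ^ 3 + b)) := by
    rw [hy]
    field_simp
    ring
  have e3 : (x + z) * (9 * z ^ 2 * (z ^ 3 + 4 * b) ^ 2) =
      (2 * (y + z) * (y * z) + 4 * b) * (16 * (z ^ 3 + b) ^ 2) := by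
    have h5 : (x + z) * (y - z) ^ 2 = 2 * (y + z) * (y * z) + 4 * b := by
      linear_combination hs
    rw [← h5, e2]
    field_simp
    ring
  rw [hy] at e3
  field_simp at e3
  apply mul_left_cancel₀ h16
  linear_combination e3

/-- Tripling near infinity, `j = 0`. -/
theorem big_triple_zero {b : F} {ζ : X → Fin 2 → F} (h : SMap 0 b ζ) (v : AbsoluteValue F ℝ)
    (hv : IsNonarchimedean v) (h2 : v 2 = 1) (h3 : v 3 = 1) (hb : b ≠ 0) (Q : X) (hQ : Q ≠ 0)
    (h2Q : Q + Q ≠ 0) (h3Q : Q + Q + Q ≠ 0) (hz : v b < v (za (ζ Q)) ^ 3) :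
    v b < v (za (ζ (Q + Q + Q))) ^ 3 := by
  have v4 : v (4 : F) = 1 := by rw [show (4 : F) = 2 * 2 by norm_num]; simp [h2]
  have v9 : v (9 : F) = 1 := by rw [show (9 : F) = 3 * 3 by norm_num]; simp [h3]
  have h40 : (4 : F) ≠ 0 := by
    intro h0; rw [h0, map_zero] at v4; exact zero_ne_one v4
  have ht := triple_zero h h40 Q hQ h2Q h3Q
  obtain ⟨z, hzd⟩ : ∃ z, z = za (ζ Q) := ⟨_, rfl⟩
  obtain ⟨x, hxd⟩ : ∃ x, x = za (ζ (Q + Q + Q)) := ⟨_, rfl⟩
  rw [← hzd] at hz ht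
  rw [← hxd] at ht ⊢
  have hb0 := v.pos hb
  have hz0 : 0 < v z := by
    by_contra hcon
    push Not at hcon
    have := v.nonneg z
    have h0 : v z = 0 := le_antisymm hcon this
    rw [h0] at hz
    norm_num at hz
    linarith
  have e1 : v (z ^ 3 + 4 * b) = v z ^ 3 := by
    rw [← map_pow]
    apply DupNA.add_eq hv
    rw [map_mul, v4, one_mul, map_pow]; exact hz
  have e2 : v (z ^ 9 - 96 * b * z ^ 6 + 48 * b ^ 2 * z ^ 3 + 64 * b ^ 3) = v z ^ 9 := by
    have e3 : z ^ 9 - 96 * b * z ^ 6 + 48 * b ^ 2 * z ^ 3 + 64 * b ^ 3 =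
        z ^ 9 + (-(96 * (b * z ^ 6)) + 48 * (b ^ 2 * z ^ 3) + 64 * b ^ 3) := by ring
    rw [e3, ← map_pow]
    apply DupNA.add_eq hv
    have n96 := DupNA.ofNat_le (F := F) hv 96
    have n48 := DupNA.ofNat_le (F := F) hv 48
    have n64 := DupNA.ofNat_le (F := F) hv 64
    have z6 : 0 < v z ^ 6 := by positivity
    apply NDEAux.na_lt hv
    · apply NDEAux.na_lt hv
      · rw [v.map_neg, map_mul, map_mul, map_pow, map_pow]
        calc v 96 * (v b * v z ^ 6) ≤ 1 * (v b * v z ^ 6) := by gcongr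
          _ = v b * v z ^ 6 := one_mul _
          _ < v z ^ 3 * v z ^ 6 := mul_lt_mul_of_pos_right hz z6
          _ = v z ^ 9 := by ring
      · rw [map_mul, map_mul, map_pow, map_pow, map_pow]
        calc v 48 * (v b ^ 2 * v z ^ 3) ≤ 1 * (v b ^ 2 * v z ^ 3) := by gcongr
          _ = v b ^ 2 * v z ^ 3 := one_mul _
          _ < (v z ^ 3) ^ 2 * v z ^ 3 :=
              mul_lt_mul_of_pos_right (pow_lt_pow_left₀ hz hb0.le (by norm_num)) (by positivity)
          _ = v z ^ 9 := by ring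
    · rw [map_mul, map_pow, map_pow]
      calc v 64 * v b ^ 3 ≤ 1 * v b ^ 3 := by gcongr
        _ = v b ^ 3 := one_mul _
        _ < (v z ^ 3) ^ 3 := pow_lt_pow_left₀ hz hb0.le (by norm_num)
        _ = v z ^ 9 := by ring
  have h6 := congrArg v ht
  rw [map_mul, map_mul, map_mul, map_pow, map_pow, v9, one_mul, e1, e2] at h6
  have e4 : v x = v z := by
    have h7 : v x * (v z ^ 2 * (v z ^ 3) ^ 2) = v z * (v z ^ 2 * (v z ^ 3) ^ 2) := by
      rw [h6]; ring
    exact mul_right_cancel₀ (by positivity) h7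
  rw [e4]
  exact hz

/-- Tripling near the points of order three, `j = 0`. -/
theorem small_triple_zero {b : F} {ζ : X → Fin 2 → F} (h : SMap 0 b ζ) (v : AbsoluteValue F ℝ)
    (hv : IsNonarchimedean v) (h2 : v 2 = 1) (h3 : v 3 = 1) (hb : b ≠ 0) (Q : X) (hQ : Q ≠ 0)
    (h2Q : Q + Q ≠ 0) (h3Q : Q + Q + Q ≠ 0) (hz : v (za (ζ Q)) ^ 3 < v b) :
    v b < v (za (ζ (Q + Q + Q))) ^ 3 := by
  have v4 : v (4 : F) = 1 := by rw [show (4 : F) = 2 * 2 by norm_num]; simp [h2]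
  have v9 : v (9 : F) = 1 := by rw [show (9 : F) = 3 * 3 by norm_num]; simp [h3]
  have v64 : v (64 : F) = 1 := by rw [show (64 : F) = 4 * 4 * 4 by norm_num]; simp [v4]
  have h40 : (4 : F) ≠ 0 := by
    intro h0; rw [h0, map_zero] at v4; exact zero_ne_one v4
  have ht := triple_zero h h40 Q hQ h2Q h3Q
  obtain ⟨z, hzd⟩ : ∃ z, z = za (ζ Q) := ⟨_, rfl⟩
  obtain ⟨x, hxd⟩ : ∃ x, x = za (ζ (Q + Q + Q)) := ⟨_, rfl⟩
  rw [← hzd] at hz ht
  rw [← hxd] at ht ⊢
  have hb0 := v.pos hb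
  have nz := v.nonneg z
  have e1 : v (z ^ 3 + 4 * b) = v b := by
    have h5 : v (4 * b) = v b := by rw [map_mul, v4, one_mul]
    rw [← h5]
    apply DupNA.add_eq' hv
    rw [h5, map_pow]; exact hz
  have e2 : v (z ^ 9 - 96 * b * z ^ 6 + 48 * b ^ 2 * z ^ 3 + 64 * b ^ 3) = v b ^ 3 := by
    have e3 : z ^ 9 - 96 * b * z ^ 6 + 48 * b ^ 2 * z ^ 3 + 64 * b ^ 3 =
        64 * b ^ 3 + (z ^ 9 + -(96 * (b * z ^ 6)) + 48 * (b ^ 2 * z ^ 3)) := by ring
    have e5 : v (64 * b ^ 3) = v b ^ 3 := by rw [map_mul, v64, one_mul, map_pow]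
    rw [e3, ← e5]
    apply DupNA.add_eq hv
    rw [e5]
    have n96 := DupNA.ofNat_le (F := F) hv 96
    have n48 := DupNA.ofNat_le (F := F) hv 48
    have c3 : (v z ^ 3) ^ 3 < v b ^ 3 := pow_lt_pow_left₀ hz (by positivity) (by norm_num)
    have c2 : (v z ^ 3) ^ 2 < v b ^ 2 := pow_lt_pow_left₀ hz (by positivity) (by norm_num)
    apply NDEAux.na_lt hv
    · apply NDEAux.na_lt hv
      · rw [map_pow]
        calc v z ^ 9 = (v z ^ 3) ^ 3 := by ring
          _ < _ := c3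
      · rw [v.map_neg, map_mul, map_mul, map_pow]
        calc v 96 * (v b * v z ^ 6) ≤ 1 * (v b * v z ^ 6) := by gcongr
          _ = v b * (v z ^ 3) ^ 2 := by ring
          _ < v b * v b ^ 2 := mul_lt_mul_of_pos_left c2 hb0
          _ = v b ^ 3 := by ring
    · rw [map_mul, map_mul, map_pow, map_pow]
      calc v 48 * (v b ^ 2 * v z ^ 3) ≤ 1 * (v b ^ 2 * v z ^ 3) := by gcongr
        _ = v b ^ 2 * v z ^ 3 := one_mul _
        _ < v b ^ 2 * v b := mul_lt_mul_of_pos_left hz (by positivity)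
        _ = v b ^ 3 := by ring
  have h6 := congrArg v ht
  rw [map_mul, map_mul, map_mul, map_pow, map_pow, v9, one_mul, e1, e2] at h6
  -- `v x * (v z ^ 2 * v b ^ 2) = v b ^ 3`
  have h7 : v x * v z ^ 2 = v b := by
    have h8 : v x * v z ^ 2 * v b ^ 2 = v b * v b ^ 2 := by
      rw [show v b * v b ^ 2 = v b ^ 3 by ring, ← h6]; ring
    exact mul_right_cancel₀ (by positivity) h8
  by_contra hcon
  push Not at hcon
  have h9 : v b ^ 3 = v x ^ 3 * (v z ^ 3) ^ 2 := by rw [← h7]; ring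
  have h10 : v x ^ 3 * (v z ^ 3) ^ 2 ≤ v b * (v z ^ 3) ^ 2 :=
    mul_le_mul_of_nonneg_right hcon (by positivity)
  have h11 : v b * (v z ^ 3) ^ 2 < v b * v b ^ 2 :=
    mul_lt_mul_of_pos_left (pow_lt_pow_left₀ hz (by positivity) (by norm_num)) hb0
  have h12 : v b * v b ^ 2 = v b ^ 3 := by ring
  linarith

/-- The local theorem for `j = 0`. -/
theorem loc_zero {b : F} {ζ : X → Fin 2 → F} (h : SMap 0 b ζ) (v : AbsoluteValue F ℝ)
    (hv : IsNonarchimedean v) (h2 : v 2 = 1) (h3 : v 3 = 1) (hb : b ≠ 0)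
    (hsq : ∀ Q : X, Q ≠ 0 → ∃ s : F, v (za (ζ Q) ^ 3 + b) = v s ^ 2)
    (hbad : ∀ u : F, v u ^ 6 ≠ v b) (P : X) (hP : ∀ k : ℕ, 1 ≤ k → k • P ≠ 0) :
    v b < v (za (ζ (6 • P))) ^ 3 := by
  have hb0 := v.pos hb
  have hP0 : P ≠ 0 := by simpa using hP 1 le_rfl
  have e2 : P + P = 2 • P := (two_smul ℕ P).symm
  have e3 : P + P + P = 3 • P := by
    rw [show (3 : ℕ) = 2 + 1 by norm_num, add_smul, two_smul, one_smul]
  have e4 : 2 • P + 2 • P = 4 • P := by rw [← add_smul]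
  have e6 : 2 • P + 2 • P + 2 • P = 6 • P := by rw [← add_smul, ← add_smul]
  have e6' : 3 • P + 3 • P = 6 • P := by rw [← add_smul]
  have h2P := hP 2 (by omega)
  have h3P := hP 3 (by omega)
  have h4P := hP 4 (by omega)
  have h6P := hP 6 (by omega)
  -- from `2 P` and from `3 P`
  have from2 : v b < v (za (ζ (2 • P))) ^ 3 → v b < v (za (ζ (6 • P))) ^ 3 := by
    intro h5
    rw [← e6]
    exact big_triple_zero h v hv h2 h3 hb (2 • P) h2P (by rw [e4]; exact h4P)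
      (by rw [e6]; exact h6P) h5
  have from3 : v b < v (za (ζ (3 • P))) ^ 3 → v b < v (za (ζ (6 • P))) ^ 3 := by
    intro h5
    rw [← e6']
    exact big_double_zero h v hv h2 hb (3 • P) h3P (by rw [e6']; exact h6P) h5
  rcases lt_trichotomy (v (za (ζ P)) ^ 3) (v b) with hc | hc | hc
  · apply from3
    rw [← e3]
    exact small_triple_zero h v hv h2 h3 hb P hP0 (by rw [e2]; exact h2P)
      (by rw [e3]; exact h3P) hc
  · rcases lt_or_ge (v (za (ζ P) ^ 3 + b)) (v b) with hc' | hc'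
    · apply from2
      rw [← e2]
      exact near_double_zero h v hv h2 h3 hb P hP0 (by rw [e2]; exact h2P) hc'
    · exfalso
      have h5 : v (za (ζ P) ^ 3 + b) = v b := by
        apply le_antisymm _ hc'
        apply NDEAux.na_le hv _ le_rfl
        rw [map_pow]; exact hc.le
      obtain ⟨s, hs⟩ := hsq P hP0
      rw [h5] at hs
      have hz0 : 0 < v (za (ζ P)) := by
        have := v.nonneg (za (ζ P))
        rcases this.lt_or_eq with h0 | h0
        · exact h0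
        · rw [← h0] at hc
          norm_num at hc
          exact absurd hc.symm hb0.ne'
      apply hbad (s / za (ζ P))
      rw [map_div₀, div_pow, div_eq_iff (by positivity)]
      calc v s ^ 6 = (v s ^ 2) ^ 3 := by ring
        _ = v b * v b ^ 2 := by rw [← hs]; ring
        _ = v b * (v (za (ζ P)) ^ 3) ^ 2 := by rw [hc]
        _ = _ := by ring
  · apply from2
    rw [← e2]
    exact big_double_zero h v hv h2 hb P hP0 (by rw [e2]; exact h2P) hc

/-- The local theorem for `j = 1728`. -/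
theorem loc_1728 {a : F} {ζ : X → Fin 2 → F} (h : SMap a 0 ζ) (v : AbsoluteValue F ℝ)
    (hv : IsNonarchimedean v) (h2 : v 2 = 1) (ha : a ≠ 0)
    (hsq : ∀ Q : X, Q ≠ 0 → ∃ s : F, v (za (ζ Q) ^ 3 + a * za (ζ Q)) = v s ^ 2)
    (hbad : ∀ u : F, v u ^ 4 ≠ v a) (P : X) (hP : ∀ k : ℕ, 1 ≤ k → k • P ≠ 0) :
    v a < v (za (ζ (2 • P))) ^ 2 := by
  have v4 : v (4 : F) = 1 := by rw [show (4 : F) = 2 * 2 by norm_num]; simp [h2]
  have ha0 := v.pos ha
  have hP0 : P ≠ 0 := by simpa using hP 1 le_rfl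
  have e2 : P + P = 2 • P := (two_smul ℕ P).symm
  have h2P : P + P ≠ 0 := by rw [e2]; exact hP 2 (by omega)
  have hd := h.za_double P hP0 h2P
  have hne := h.za_cubic_ne P hP0 h2P
  obtain ⟨s, hs⟩ := hsq P hP0
  rw [← e2]
  obtain ⟨z, hzd⟩ : ∃ z, z = za (ζ P) := ⟨_, rfl⟩
  obtain ⟨y, hyd⟩ : ∃ y, y = za (ζ (P + P)) := ⟨_, rfl⟩
  rw [← hzd] at hd hne hs
  rw [← hyd] at hd ⊢
  have hz0' : z ≠ 0 := by
    intro h0
    apply hne
    rw [h0]
    ring
  have hz0 := v.pos hz0'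
  have hzz : v (z ^ 2) = v z ^ 2 := map_pow _ _ _
  have hza : z ^ 2 + a ≠ 0 := by
    intro h0
    apply hne
    linear_combination z * h0
  have hza0 := v.pos hza
  have h6 : v y * (v z * v (z ^ 2 + a)) = v (z ^ 2 - a) ^ 2 := by
    have h5 : y * (4 * (z * (z ^ 2 + a))) = (z ^ 2 - a) ^ 2 := by linear_combination hd
    have h6 := congrArg v h5
    rw [map_mul, map_mul, map_mul, v4, one_mul, map_pow] at h6
    exact h6
  have hsq2 : v z * v (z ^ 2 + a) = v s ^ 2 := by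
    rw [← map_mul, ← hs]
    congr 1
    ring
  rcases lt_trichotomy (v z ^ 2) (v a) with hc | hc | hc
  · have e1 : v (z ^ 2 + a) = v a := by
      apply DupNA.add_eq' hv
      rw [hzz]; exact hc
    have e3 : v (z ^ 2 - a) = v a := by
      rw [sub_eq_add_neg, ← v.map_neg a]
      apply DupNA.add_eq' hv
      rw [hzz, v.map_neg]; exact hc
    rw [e1, e3] at h6
    have h7 : v y * v z = v a := by
      have h8 : v y * v z * v a = v a * v a := by rw [← sq, ← h6]; ring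
      exact mul_right_cancel₀ ha0.ne' h8
    by_contra hcon
    push Not at hcon
    have h9 : v a ^ 2 = v y ^ 2 * v z ^ 2 := by rw [← h7]; ring
    have h10 : v y ^ 2 * v z ^ 2 ≤ v a * v z ^ 2 :=
      mul_le_mul_of_nonneg_right hcon (by positivity)
    have h11 : v a * v z ^ 2 < v a * v a := mul_lt_mul_of_pos_left hc ha0
    have h12 : v a * v a = v a ^ 2 := by ring
    linarith
  · rcases lt_or_ge (v (z ^ 2 + a)) (v a) with hc' | hc'
    · have e3 : v (z ^ 2 - a) = v a := by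
        have h5 : z ^ 2 - a = -(2 * a) + (z ^ 2 + a) := by ring
        rw [h5]
        have h7 : v (-(2 * a)) = v a := by rw [v.map_neg, map_mul, h2, one_mul]
        rw [← h7]
        apply DupNA.add_eq hv
        rw [h7]; exact hc'
      rw [e3] at h6
      have h7 : v z < v y := by
        by_contra hcon
        push Not at hcon
        have h8 : v y * (v z * v (z ^ 2 + a)) ≤ v z * (v z * v (z ^ 2 + a)) :=
          mul_le_mul_of_nonneg_right hcon (by positivity)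
        have h9 : v z * (v z * v (z ^ 2 + a)) < v z * (v z * v a) :=
          mul_lt_mul_of_pos_left (mul_lt_mul_of_pos_left hc' hz0) hz0
        have h10 : v z * (v z * v a) = v a ^ 2 := by
          rw [← mul_assoc, ← sq, hc]; ring
        linarith
      rw [← hc]
      exact pow_lt_pow_left₀ h7 hz0.le (by norm_num)
    · exfalso
      have h5 : v (z ^ 2 + a) = v a := by
        apply le_antisymm _ hc'
        apply NDEAux.na_le hv _ le_rfl
        rw [hzz]; exact hc.le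
      rw [h5] at hsq2
      apply hbad (s / z)
      rw [map_div₀, div_pow, div_eq_iff (by positivity)]
      calc v s ^ 4 = (v s ^ 2) ^ 2 := by ring
        _ = v a * (v a * v z ^ 2) := by rw [← hsq2]; ring
        _ = v a * (v z ^ 2 * v z ^ 2) := by rw [hc]
        _ = _ := by ring
  · have e1 : v (z ^ 2 + a) = v z ^ 2 := by
      rw [← hzz]
      apply DupNA.add_eq hv
      rw [hzz]; exact hc
    have e3 : v (z ^ 2 - a) = v z ^ 2 := by
      rw [sub_eq_add_neg, ← hzz]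
      apply DupNA.add_eq hv
      rw [hzz, v.map_neg]; exact hc
    rw [e1, e3] at h6
    have h7 : v y = v z := by
      have h8 : v y * v z ^ 3 = v z * v z ^ 3 := by
        calc v y * v z ^ 3 = v y * (v z * v z ^ 2) := by ring
          _ = (v z ^ 2) ^ 2 := h6
          _ = _ := by ring
      exact mul_right_cancel₀ (by positivity) h8
    rw [h7]
    exact hc

end Sq

end LangForms
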