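import Pool.Agent.Lib_MP_f5471b_s.LocTwo

/-!
# MP_f5471b_nt: the local step of the duplication map for the four types of places
-/

namespace LangForms

namespace Sq

/-- The error in one step of the duplication map. -/
noncomputable def Err {F : Type} [Field F] (v : AbsoluteValue F ℝ) (t : F) (small : Prop)
    [Decidable small] (w : Fin 2 → F) : ℝ :=
  ((if small then phi v t (Fm t w) else 0) + Jl v t (Fm t w)) -
    4 * ((if small then phi v t w else 0) + Jl v t w) -
      Real.log (v (t * (1 + 1728 * t) ^ 2)) / 2 + Real.log (v (Fm t w 1 / w 1 ^ 4))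

theorem Sc_eq_one {F : Type} [Field F] (v : AbsoluteValue F ℝ) (t : F)
    (h : v (1 + 1728 * t) = 1) : Sc v t = 1 := by
  rw [Sc, h]
  simp

/-- A nonarchimedean place where `t` is small. -/
theorem step_fin_small {F : Type} [Field F] [CharZero F] (v : AbsoluteValue F ℝ)
    (hv : IsNonarchimedean v) (t : F) (h0 : 0 < v t) (h1 : v t < 1) (hκ : 1 + 1728 * t ≠ 0)
    (w : Fin 2 → F) (hw : w 1 ≠ 0) (hF : Fm t w 1 ≠ 0) :
    |(phi v t (Fm t w) + Jl v t (Fm t w)) - 4 * (phi v t w + Jl v t w) -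
      Real.log (v (t * (1 + 1728 * t) ^ 2)) / 2 + Real.log (v (Fm t w 1 / w 1 ^ 4))| ≤
      5 * -Real.log (v 12) := by
  have h12 : (12 : F) ≠ 0 := by norm_num
  have v12 : 0 < v 12 := v.pos h12
  have v12' := na_ofNat_le v hv 12
  have hk : v (1 + 1728 * t) = 1 := by
    have h2 : v (1728 * t) < v 1 := by
      rw [map_mul, map_one]
      have h6 := na_ofNat_le v hv 1728
      calc v 1728 * v t ≤ 1 * v t := by gcongr
        _ < 1 := by linarith
    rw [DupNA.add_eq hv h2, map_one]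
  have hS := Sc_eq_one v t hk
  have hw0 : w ≠ 0 := fun h => hw (by rw [h]; rfl)
  have hF0 : Fm t w ≠ 0 := fun h => hF (by rw [h]; rfl)
  obtain ⟨_, _, ok3, ok4⟩ := DupNA.ok_all hv h0 h1 w hw0
  have hup := dup_up v t h0 1 one_pos w hw0 hF0 (nrm_Fm_le_na v hv t h1.le w)
  rw [Real.log_one, add_zero] at hup
  have hM : ∀ z : Fin 2 → F, z 1 ≠ 0 →
      |Real.log (NDA.M v (Sc v t) z) - Real.log (nrm v z)| ≤ -Real.log (v 12) := by
    intro z hz
    have hz0 : z ≠ 0 := fun h => hz (by rw [h]; rfl)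
    have hn := nrm_pos v hz0
    have hMp := M_pos v t hκ z hz
    rw [hS] at hMp ⊢
    have u1 : NDA.M v 1 z ≤ nrm v z := by
      unfold NDA.M nrm
      apply max_le
      · apply NDEAux.na_le hv _ (le_max_right _ _)
        rw [map_mul]
        have := v.nonneg (z 0)
        calc v 12 * v (z 0) ≤ 1 * v (z 0) := by gcongr
          _ ≤ _ := by rw [one_mul]; exact le_max_left _ _
      · rw [one_mul]; exact le_max_right _ _
    have u2 : v 12 * nrm v z ≤ NDA.M v 1 z := by
      unfold NDA.M nrm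
      rw [mul_max_of_nonneg _ _ v12.le]
      apply max_le
      · rw [← map_mul]
        have h5 := NDEAux.na_sub_le hv (a := 12 * z 0 + z 1) (b := z 1)
          (M := max (v (12 * z 0 + z 1)) (1 * v (z 1))) (le_max_left _ _)
          (by rw [one_mul]; exact le_max_right _ _)
        rw [add_sub_cancel_right] at h5
        exact h5
      · have := v.nonneg (z 1)
        calc v 12 * v (z 1) ≤ 1 * v (z 1) := by gcongr
          _ ≤ _ := le_max_right _ _
    have l1 := Real.log_le_log hMp u1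
    have l2 := Real.log_le_log (by positivity) u2
    rw [Real.log_mul v12.ne' hn.ne'] at l2
    rw [abs_le]
    constructor <;> linarith
  have h := step_small v t h0 h1 hκ w hw hF 0 (-Real.log (v 12)) 0 0 (by linarith) (by linarith)
    (by rw [ok4, sub_self, abs_zero]) hM (by rw [hS, Real.log_one, abs_zero])
    (by rw [hk, Real.log_one, abs_zero])
  linarith

/-- An archimedean place where `t` is small. -/
theorem step_inf_small {F : Type} [Field F] (v : AbsoluteValue F ℝ)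
    (t : F) (h0 : 0 < v t) (h1 : v t ≤ 1 / 3456) (hκ : 1 + 1728 * t ≠ 0) (h12 : 1 ≤ v 12)
    (c : ℝ) (hc : 0 ≤ c) (hlow : DupLow v t c) (hrho : DupRho v t c)
    (w : Fin 2 → F) (hw : w 1 ≠ 0) (hF : Fm t w 1 ≠ 0) :
    |(phi v t (Fm t w) + Jl v t (Fm t w)) - 4 * (phi v t w + Jl v t w) -
      Real.log (v (t * (1 + 1728 * t) ^ 2)) / 2 + Real.log (v (Fm t w 1 / w 1 ^ 4))| ≤
      2 * (c + Real.log 1378) + 5 * Real.log 26 + 3 * Real.log 8 + Real.log 2 := by
  have h1' : v t < 1 := by linarith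
  have v12 : 0 < v 12 := by linarith
  have v12' := NDA.ofNat_le v 12
  have hw0 : w ≠ 0 := fun h => hw (by rw [h]; rfl)
  have hF0 : Fm t w ≠ 0 := fun h => hF (by rw [h]; rfl)
  have hl : (0 : ℝ) ≤ Real.log 1378 := Real.log_nonneg (by norm_num)
  have a1 := hlow w hw0
  have a2 := dup_up v t h0 1378 (by norm_num) w hw0 hF0 (nrm_Fm_le v t h1'.le w)
  have a3 := hrho w hw0
  -- the size of `κ`
  have hx : v (1728 * t) ≤ 1 / 2 := by
    rw [map_mul]
    have h6 := NDA.ofNat_le v 1728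
    calc v 1728 * v t ≤ 1728 * (1 / 3456) := by gcongr
      _ = _ := by norm_num
  have k1 : v (1 + 1728 * t) ≤ 3 / 2 := by
    have := v.add_le 1 (1728 * t)
    rw [map_one] at this
    linarith
  have k2 : 1 / 2 ≤ v (1 + 1728 * t) := by
    have h5 := v.sub_le_add (1 + 1728 * t) (1728 * t)
    have e : (1 + 1728 * t) - 1728 * t = 1 := by ring
    rw [e, map_one] at h5
    linarith
  have kpos : 0 < v (1 + 1728 * t) := by linarith
  have hk : |Real.log (v (1 + 1728 * t))| ≤ Real.log 2 := by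
    have l1 := Real.log_le_log kpos (k1.trans (by norm_num : (3 : ℝ) / 2 ≤ 2))
    have l2 := Real.log_le_log (by norm_num) k2
    rw [one_div, Real.log_inv] at l2
    rw [abs_le]
    constructor <;> linarith
  -- the scale
  have hSp := Sc_pos v t hκ
  have hS6 := Sc_six v t
  obtain ⟨S, hSd⟩ : ∃ S, S = Sc v t := ⟨_, rfl⟩
  obtain ⟨k, hkd⟩ : ∃ k, k = v (1 + 1728 * t) := ⟨_, rfl⟩
  rw [← hSd] at hSp
  rw [← hSd, ← hkd] at hS6
  rw [← hkd] at k1 k2
  have s1 : S ^ 6 ≤ 8 := by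
    rw [hS6]
    apply max_le
    · calc k ^ 3 ≤ (3 / 2) ^ 3 := by gcongr
        _ ≤ 8 := by norm_num
    · calc k ^ 2 ≤ (3 / 2) ^ 2 := by gcongr
        _ ≤ 8 := by norm_num
  have s2 : 1 / 8 ≤ S ^ 6 := by
    rw [hS6]
    refine le_trans ?_ (le_max_left _ _)
    calc (1 : ℝ) / 8 = (1 / 2) ^ 3 := by norm_num
      _ ≤ k ^ 3 := by gcongr
  have s3 : S ≤ 2 := by
    have : S ^ 6 ≤ 2 ^ 6 := by linarith
    exact le_of_pow_le_pow_left₀ (by norm_num) (by norm_num) this
  have s4 : 1 / 2 ≤ S := by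
    have : (1 / 2 : ℝ) ^ 6 ≤ S ^ 6 := by
      calc (1 / 2 : ℝ) ^ 6 ≤ 1 / 8 := by norm_num
        _ ≤ _ := s2
    exact le_of_pow_le_pow_left₀ (by norm_num) hSp.le this
  have hl8 : (0 : ℝ) ≤ Real.log 8 := Real.log_nonneg (by norm_num)
  have hS : |Real.log (Sc v t)| ≤ Real.log 8 := by
    rw [← hSd]
    have l1 := Real.log_le_log (by positivity) s1
    have l2 := Real.log_le_log (by norm_num) s2
    rw [Real.log_pow] at l1 l2
    rw [one_div, Real.log_inv] at l2
    push_cast at l1 l2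
    rw [abs_le]
    constructor <;> linarith
  have hM : ∀ z : Fin 2 → F, z 1 ≠ 0 →
      |Real.log (NDA.M v (Sc v t) z) - Real.log (nrm v z)| ≤ Real.log 26 := by
    intro z hz
    have hz0 : z ≠ 0 := fun h => hz (by rw [h]; rfl)
    have hn := nrm_pos v hz0
    have hMp := M_pos v t hκ z hz
    rw [← hSd] at hMp ⊢
    have p0 : v (z 0) ≤ nrm v z := le_max_left _ _
    have p1 : v (z 1) ≤ nrm v z := le_max_right _ _
    have n0 := v.nonneg (z 0)
    have n1 := v.nonneg (z 1)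
    have q0 : v (12 * z 0 + z 1) ≤ NDA.M v S z := le_max_left _ _
    have q1 : S * v (z 1) ≤ NDA.M v S z := le_max_right _ _
    have u1 : NDA.M v S z ≤ 26 * nrm v z := by
      unfold NDA.M
      apply max_le
      · refine (v.add_le _ _).trans ?_
        rw [map_mul]
        have : v 12 * v (z 0) ≤ 12 * nrm v z := by gcongr
        linarith
      · calc S * v (z 1) ≤ 2 * nrm v z := by gcongr
          _ ≤ _ := by linarith
    have q2 : v (z 1) ≤ 2 * NDA.M v S z := by
      have : 1 / 2 * v (z 1) ≤ S * v (z 1) := by gcongr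
      linarith
    have u2 : nrm v z ≤ 26 * NDA.M v S z := by
      have q3 : v (z 0) ≤ 3 * NDA.M v S z := by
        have h5 := v.sub_le_add (12 * z 0 + z 1) (z 1)
        have e : (12 * z 0 + z 1) - z 1 = 12 * z 0 := by ring
        rw [e, map_mul] at h5
        have : 1 * v (z 0) ≤ v 12 * v (z 0) := by gcongr
        linarith
      unfold nrm
      apply max_le <;> linarith
    have l1 := Real.log_le_log hMp u1
    have l2 := Real.log_le_log hn u2
    rw [Real.log_mul (by norm_num) hn.ne'] at l1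
    rw [Real.log_mul (by norm_num) hMp.ne'] at l2
    rw [abs_le]
    constructor <;> linarith
  exact step_small v t h0 h1' hκ w hw hF (c + Real.log 1378) (Real.log 26) (Real.log 8)
    (Real.log 2) (by linarith) (by linarith) (a3.trans (by linarith)) hM hS hk

/-- A place where `t` is not small. -/
theorem step_large (c₀ ε : ℝ) (hc₀ : 0 < c₀) (hε : 0 < ε) : ∃ C : ℝ, 0 ≤ C ∧
    ∀ (F : Type) [Field F] (v : AbsoluteValue F ℝ) (t : F), c₀ ≤ v 2 → c₀ ≤ v 3 → ε ≤ v t →
    1 + 1728 * t ≠ 0 → ∀ w : Fin 2 → F, w 1 ≠ 0 → Fm t w 1 ≠ 0 →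
    |Jl v t (Fm t w) - 4 * Jl v t w -
      Real.log (v (t * (1 + 1728 * t) ^ 2)) / 2 + Real.log (v (Fm t w 1 / w 1 ^ 4))| ≤ C := by
  -- normalise the constants
  set b : ℝ := min c₀ 1 with hb
  have hb0 : 0 < b := lt_min hc₀ one_pos
  have hb1 : b ≤ 1 := min_le_right _ _
  set e : ℝ := 1 / ε + 1728 with he
  have he1 : 1 ≤ e := by
    have : 0 ≤ 1 / ε := by positivity
    linarith
  have he0 : 0 < e := by linarith
  set c : ℝ := b ^ 14 / e with hc
  have hc0 : 0 < c := by positivity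
  have hc1 : c ≤ 1 := by
    rw [hc, div_le_one he0]
    exact (pow_le_one₀ hb0.le hb1).trans he1
  set δ : ℝ := b ^ 2 * (c ^ 2 / (160 * 4032 ^ 2)) / 10 ^ 4 / 1728 with hδ
  have hδ0 : 0 < δ := by positivity
  have hδ1 : δ ≤ 1 := by
    have i1 : b ^ 2 ≤ 1 := by nlinarith
    have i2 : c ^ 2 ≤ 1 := by nlinarith
    have i3 : c ^ 2 / (160 * 4032 ^ 2) ≤ 1 := by
      rw [div_le_one (by norm_num)]
      linarith
    have i4 : b ^ 2 * (c ^ 2 / (160 * 4032 ^ 2)) ≤ 1 := by
      calc _ ≤ (1 : ℝ) * 1 := by gcongr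
        _ = 1 := by norm_num
    rw [hδ, div_div, div_le_one (by norm_num)]
    linarith
  set A : ℝ := 2 / b ^ 9 with hA
  have hA1 : 1 ≤ A := by
    rw [hA, one_le_div (by positivity)]
    have : b ^ 9 ≤ 1 := pow_le_one₀ hb0.le hb1
    linarith
  have hlδ : Real.log δ ≤ 0 := Real.log_nonpos hδ0.le hδ1
  have hlA : 0 ≤ Real.log A := Real.log_nonneg hA1
  have hle : 0 ≤ Real.log e := Real.log_nonneg he1
  have hl32 : (0 : ℝ) ≤ Real.log 32 := Real.log_nonneg (by norm_num)
  have hlb : Real.log (b ^ 9) ≤ 0 :=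
    Real.log_nonpos (by positivity) (pow_le_one₀ hb0.le hb1)
  refine ⟨-Real.log δ + Real.log 32 - Real.log (b ^ 9) + Real.log A + Real.log e, by linarith, ?_⟩
  intro F _ v t h2 h3 ht hk w hw hF
  have h2' : b ≤ v 2 := (min_le_left _ _).trans h2
  have h3' : b ≤ v 3 := (min_le_left _ _).trans h3
  have hκ0 : 0 < v (1 + 1728 * t) := v.pos hk
  have ht0 : 0 < v t := hε.trans_le ht
  have hS0 := Sc_pos v t hk
  have hS6 := Sc_six v t
  have hS2 := le_Sc_two v t
  have hS3 := le_Sc_three v t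
  have hJ := Jl_step v t hk w hw hF
  have hM := M_pos v t hk w hw
  have hM' := M_pos v t hk _ hF
  have hup' := M_up v t w
  obtain ⟨S, hSd⟩ : ∃ S, S = Sc v t := ⟨_, rfl⟩
  rw [← hSd] at hS0 hS6 hS2 hS3 hJ hM hM' hup'
  obtain ⟨κ, hκ⟩ : ∃ κ : F, κ = 1 + 1728 * t := ⟨_, rfl⟩
  rw [← hκ] at hκ0 hS6 hS2 hS3 ⊢
  -- `S ^ 6` and the discriminant
  have hv1728 : b ^ 9 ≤ v (1728 : F) := by
    have : (1728 : F) = 2 ^ 6 * 3 ^ 3 := by norm_num
    rw [this, v.map_mul, v.map_pow, v.map_pow]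
    calc b ^ 9 = b ^ 6 * b ^ 3 := by ring
      _ ≤ _ := by gcongr
  have hv108 : b ^ 5 ≤ v (108 : F) := by
    have : (108 : F) = 2 ^ 2 * 3 ^ 3 := by norm_num
    rw [this, v.map_mul, v.map_pow, v.map_pow]
    calc b ^ 5 = b ^ 2 * b ^ 3 := by ring
      _ ≤ _ := by gcongr
  set D : ℝ := v (t * κ ^ 2) with hD
  have hD' : D = v t * v κ ^ 2 := by rw [hD, v.map_mul, v.map_pow]
  have hD0 : 0 < D := by rw [hD']; positivity
  have hone : (1 : ℝ) ≤ 1 / ε * v t := by
    rw [div_mul_eq_mul_div, one_mul, one_le_div hε]; exact ht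
  have hup : S ^ 6 ≤ e * D := by
    rw [hS6, hD']
    have k1 : v κ ≤ 1 + 1728 * v t := by
      have := v.add_le (1 : F) (1728 * t)
      rw [v.map_mul, v.map_one, ← hκ] at this
      have h17 := NDA.ofNat_le v 1728 (F := F)
      have := mul_le_mul_of_nonneg_right h17 ht0.le
      linarith
    have k2 : v κ ≤ e * v t := by rw [he]; linarith
    have k3 : 1 ≤ e * v t := by
      rw [he]
      nlinarith
    apply max_le
    · calc v κ ^ 3 = v κ * v κ ^ 2 := by ring
        _ ≤ (e * v t) * v κ ^ 2 := by gcongr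
        _ = _ := by ring
    · calc v κ ^ 2 = 1 * v κ ^ 2 := by ring
        _ ≤ (e * v t) * v κ ^ 2 := by gcongr
        _ = _ := by ring
  have hlow : D ≤ A * S ^ 6 := by
    have k1 : v (1728 : F) * v t ≤ v κ + 1 := by
      have h := v.sub_le_add κ 1
      have e0 : κ - 1 = 1728 * t := by rw [hκ]; ring
      rw [e0, v.map_mul, v.map_one] at h
      exact h
    have k2 : b ^ 9 * v t ≤ v κ + 1 := (mul_le_mul_of_nonneg_right hv1728 ht0.le).trans k1
    have k3 : v t ≤ (v κ + 1) / b ^ 9 := by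
      rw [le_div_iff₀ (by positivity)]; linarith
    have k4 : (v κ + 1) * v κ ^ 2 ≤ 2 * S ^ 6 := by
      have m1 : v κ ^ 3 ≤ S ^ 6 := by rw [hS6]; exact le_max_left _ _
      have m2 : v κ ^ 2 ≤ S ^ 6 := by rw [hS6]; exact le_max_right _ _
      nlinarith
    calc D = v t * v κ ^ 2 := hD'
      _ ≤ (v κ + 1) / b ^ 9 * v κ ^ 2 := by gcongr
      _ = ((v κ + 1) * v κ ^ 2) / b ^ 9 := by ring
      _ ≤ 2 * S ^ 6 / b ^ 9 := by gcongr
      _ = A * S ^ 6 := by rw [hA]; ring
  have hd : c * S ^ 6 ≤ v (108 * 1728 * κ ^ 2 * t) := by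
    have : (108 * 1728 * κ ^ 2 * t : F) = 108 * 1728 * (t * κ ^ 2) := by ring
    rw [this, v.map_mul, v.map_mul]
    calc c * S ^ 6 ≤ c * (e * D) := by gcongr
      _ = b ^ 5 * b ^ 9 * D := by
          rw [hc, ← mul_assoc, div_mul_cancel₀ _ he0.ne', ← pow_add]
      _ ≤ _ := by gcongr
  rw [hκ] at hS2 hS3 hd
  have hst : δ * NDA.M v S w ^ 4 ≤ NDA.M v S (Fm t w) :=
    NDA.step v t S c b hS0 hS2 hS3 hc0 hc1 hb0 hb1 h2' hd w
  have hst2 : b ^ 9 * NDA.M v S (Fm t w) ≤ 32 * NDA.M v S w ^ 4 := by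
    refine le_trans ?_ hup'
    gcongr
  have l1 := Real.log_le_log (by positivity) hst
  have l2 := Real.log_le_log (by positivity) hst2
  have l3 := Real.log_le_log (by positivity) hup
  have l4 := Real.log_le_log hD0 hlow
  rw [Real.log_mul hδ0.ne' (by positivity), Real.log_pow] at l1
  rw [Real.log_mul (by positivity) hM'.ne', Real.log_mul (by norm_num) (by positivity),
    Real.log_pow (n := 4)] at l2
  rw [Real.log_mul he0.ne' hD0.ne', Real.log_pow] at l3
  rw [Real.log_mul (by positivity) (by positivity), Real.log_pow (n := 6)] at l4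
  push_cast at l1 l2 l3 l4
  rw [hJ, abs_le]
  constructor <;> linarith

end Sq

end LangForms
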