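import Pool.Agent.Lib_MP_f5471b_s.LocOne
import Pool.Agent.Lib_MP_f5471b_j.DupNA

/-!
# MP_f5471b_nt: one step of the duplication map where `t` is small, and where it is not small
-/

namespace LangForms

namespace Sq

variable {F : Type} [Field F]

theorem g_lip (L a b : ℝ) (hL : 0 < L) (ha0 : 0 ≤ a) (ha : a ≤ L / 2) (hb0 : 0 ≤ b)
    (hb : b ≤ L / 2) : |(a ^ 2 / L - a) - (b ^ 2 / L - b)| ≤ |a - b| := by
  have e : (a ^ 2 / L - a) - (b ^ 2 / L - b) = (a - b) * ((a + b) / L - 1) := by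
    field_simp
    ring
  have h1 : 0 ≤ (a + b) / L := div_nonneg (by linarith) hL.le
  have h2 : (a + b) / L ≤ 1 := by rw [div_le_one hL]; linarith
  rw [e, abs_mul]
  have h3 : |(a + b) / L - 1| ≤ 1 := by
    rw [abs_le]
    constructor <;> linarith
  calc |a - b| * |(a + b) / L - 1| ≤ |a - b| * 1 := by gcongr
    _ = _ := mul_one _

theorem g_tent (L r : ℝ) (hL : 0 < L) :
    (min (2 * r) (L - 2 * r)) ^ 2 / L - min (2 * r) (L - 2 * r) = 4 * (r ^ 2 / L - r) + 2 * r := by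
  rcases min_choice (2 * r) (L - 2 * r) with h | h <;> rw [h] <;> field_simp <;> ring

/-- Upper estimate for the duplication map. -/
theorem dup_up (v : AbsoluteValue F ℝ) (t : F) (h0 : 0 < v t) (A : ℝ) (hA : 0 < A)
    (w : Fin 2 → F) (hw : w ≠ 0) (hF : Fm t w ≠ 0)
    (h : nrm v (Fm t w) ≤ A * max (v (w 0) ^ 2) (v t * nrm v w ^ 2) * nrm v w ^ 2) :
    Real.log (nrm v (Fm t w)) ≤ -2 * rho v t w + 4 * Real.log (nrm v w) + Real.log A := by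
  have hn := nrm_pos v hw
  have hn' := nrm_pos v hF
  obtain ⟨n, hnd⟩ : ∃ n, n = nrm v w := ⟨_, rfl⟩
  have hs : 0 < Real.sqrt (v t) := Real.sqrt_pos.2 h0
  have ha := v.nonneg (w 0)
  have hm : 0 < max (v (w 0) / nrm v w) (Real.sqrt (v t)) := lt_of_lt_of_le hs (le_max_right _ _)
  have e1 : max (v (w 0)) (Real.sqrt (v t) * nrm v w) =
      max (v (w 0) / nrm v w) (Real.sqrt (v t)) * nrm v w := by
    rw [max_mul_of_nonneg _ _ hn.le, div_mul_cancel₀ _ hn.ne']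
  have e2 : max (v (w 0) ^ 2) (v t * nrm v w ^ 2) =
      (max (v (w 0) / nrm v w) (Real.sqrt (v t)) * nrm v w) ^ 2 := by
    rw [← e1]
    have e3 : v t * nrm v w ^ 2 = (Real.sqrt (v t) * nrm v w) ^ 2 := by
      rw [mul_pow, Real.sq_sqrt h0.le]
    rw [e3]
    rcases le_total (v (w 0)) (Real.sqrt (v t) * nrm v w) with hc | hc
    · rw [max_eq_right hc, max_eq_right (pow_le_pow_left₀ ha hc 2)]
    · rw [max_eq_left hc, max_eq_left (pow_le_pow_left₀ (by positivity) hc 2)]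
  rw [e2] at h
  have h2 := Real.log_le_log hn' h
  rw [Real.log_mul (by positivity) (by positivity), Real.log_mul hA.ne' (by positivity),
    Real.log_pow, Real.log_pow, Real.log_mul hm.ne' hn.ne'] at h2
  unfold rho
  push_cast at h2
  linarith

theorem nrm_Fm_le (v : AbsoluteValue F ℝ) (t : F) (h1 : v t ≤ 1) (w : Fin 2 → F) :
    nrm v (Fm t w) ≤ 1378 * max (v (w 0) ^ 2) (v t * nrm v w ^ 2) * nrm v w ^ 2 := by
  have ha := v.nonneg (w 0)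
  have hb := v.nonneg (w 1)
  have ht := v.nonneg t
  obtain ⟨n, hnd⟩ : ∃ n, n = nrm v w := ⟨_, rfl⟩
  have han : v (w 0) ≤ n := by rw [hnd]; exact le_max_left _ _
  have hbn : v (w 1) ≤ n := by rw [hnd]; exact le_max_right _ _
  rw [← hnd]
  have hn : 0 ≤ n := ha.trans han
  obtain ⟨X, hX⟩ : ∃ X, X = max (v (w 0) ^ 2) (v t * n ^ 2) := ⟨_, rfl⟩
  rw [← hX]
  have x1 : v (w 0) ^ 2 ≤ X := by rw [hX]; exact le_max_left _ _
  have x2 : v t * n ^ 2 ≤ X := by rw [hX]; exact le_max_right _ _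
  have hX0 : 0 ≤ X := by nlinarith
  have q1 : v (w 0 ^ 4) ≤ X * n ^ 2 := by
    rw [map_pow]
    calc v (w 0) ^ 4 = v (w 0) ^ 2 * v (w 0) ^ 2 := by ring
      _ ≤ X * n ^ 2 := by gcongr
  have q2 : v (72 * t * w 0 ^ 2 * w 1 ^ 2) ≤ 72 * (X * n ^ 2) := by
    have h6 := NDA.ofNat_le v 72
    rw [map_mul, map_mul, map_mul, map_pow, map_pow]
    calc v 72 * v t * v (w 0) ^ 2 * v (w 1) ^ 2 ≤ 72 * v t * n ^ 2 * n ^ 2 := by gcongr
      _ = 72 * ((v t * n ^ 2) * n ^ 2) := by ring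
      _ ≤ _ := by gcongr
  have q3 : v (8 * t * w 0 * w 1 ^ 3) ≤ 8 * (X * n ^ 2) := by
    have h6 := NDA.ofNat_le v 8
    rw [map_mul, map_mul, map_mul, map_pow]
    calc v 8 * v t * v (w 0) * v (w 1) ^ 3 ≤ 8 * v t * n * n ^ 3 := by gcongr
      _ = 8 * ((v t * n ^ 2) * n ^ 2) := by ring
      _ ≤ _ := by gcongr
  have q4 : v ((t + 1296 * t ^ 2) * w 1 ^ 4) ≤ 1297 * (X * n ^ 2) := by
    have h6 := NDA.ofNat_le v 1296
    rw [map_mul, map_pow]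
    have h7 : v (t + 1296 * t ^ 2) ≤ 1297 * v t := by
      refine (v.add_le _ _).trans ?_
      rw [map_mul, map_pow]
      have : v 1296 * v t ^ 2 ≤ 1296 * v t := by
        calc v 1296 * v t ^ 2 = v 1296 * (v t * v t) := by ring
          _ ≤ 1296 * (v t * 1) := by gcongr
          _ = _ := by ring
      linarith
    calc v (t + 1296 * t ^ 2) * v (w 1) ^ 4 ≤ 1297 * v t * n ^ 4 := by gcongr
      _ = 1297 * ((v t * n ^ 2) * n ^ 2) := by ring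
      _ ≤ _ := by gcongr
  have r1 : v (4 * w 0 ^ 3 * w 1) ≤ 4 * (X * n ^ 2) := by
    have h6 := NDA.ofNat_le v 4
    rw [map_mul, map_mul, map_pow]
    calc v 4 * v (w 0) ^ 3 * v (w 1) = v 4 * (v (w 0) ^ 2 * (v (w 0) * v (w 1))) := by ring
      _ ≤ 4 * (X * (n * n)) := by gcongr
      _ = _ := by ring
  have r2 : v (w 0 ^ 2 * w 1 ^ 2) ≤ X * n ^ 2 := by
    rw [map_mul, map_pow, map_pow]
    gcongr
  have r3 : v (144 * t * w 0 * w 1 ^ 3) ≤ 144 * (X * n ^ 2) := by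
    have h6 := NDA.ofNat_le v 144
    rw [map_mul, map_mul, map_mul, map_pow]
    calc v 144 * v t * v (w 0) * v (w 1) ^ 3 ≤ 144 * v t * n * n ^ 3 := by gcongr
      _ = 144 * ((v t * n ^ 2) * n ^ 2) := by ring
      _ ≤ _ := by gcongr
  have r4 : v (4 * t * w 1 ^ 4) ≤ 4 * (X * n ^ 2) := by
    have h6 := NDA.ofNat_le v 4
    rw [map_mul, map_mul, map_pow]
    calc v 4 * v t * v (w 1) ^ 4 ≤ 4 * v t * n ^ 4 := by gcongr
      _ = 4 * ((v t * n ^ 2) * n ^ 2) := by ring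
      _ ≤ _ := by gcongr
  have hXn : 0 ≤ X * n ^ 2 := by positivity
  unfold nrm
  apply max_le
  · have e : Fm t w 0 = w 0 ^ 4 + 72 * t * w 0 ^ 2 * w 1 ^ 2 + 8 * t * w 0 * w 1 ^ 3 +
        (t + 1296 * t ^ 2) * w 1 ^ 4 := rfl
    rw [e]
    have s1 := v.add_le (w 0 ^ 4 + 72 * t * w 0 ^ 2 * w 1 ^ 2 + 8 * t * w 0 * w 1 ^ 3)
      ((t + 1296 * t ^ 2) * w 1 ^ 4)
    have s2 := v.add_le (w 0 ^ 4 + 72 * t * w 0 ^ 2 * w 1 ^ 2) (8 * t * w 0 * w 1 ^ 3)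
    have s3 := v.add_le (w 0 ^ 4) (72 * t * w 0 ^ 2 * w 1 ^ 2)
    linarith
  · have e : Fm t w 1 = 4 * w 0 ^ 3 * w 1 + w 0 ^ 2 * w 1 ^ 2 - 144 * t * w 0 * w 1 ^ 3 -
        4 * t * w 1 ^ 4 := rfl
    rw [e]
    have s1 := v.sub_le_add (4 * w 0 ^ 3 * w 1 + w 0 ^ 2 * w 1 ^ 2 - 144 * t * w 0 * w 1 ^ 3)
      (4 * t * w 1 ^ 4)
    have s2 := v.sub_le_add (4 * w 0 ^ 3 * w 1 + w 0 ^ 2 * w 1 ^ 2) (144 * t * w 0 * w 1 ^ 3)
    have s3 := v.add_le (4 * w 0 ^ 3 * w 1) (w 0 ^ 2 * w 1 ^ 2)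
    linarith

theorem nrm_Fm_le_na (v : AbsoluteValue F ℝ) (hv : IsNonarchimedean v) (t : F) (h1 : v t ≤ 1)
    (w : Fin 2 → F) :
    nrm v (Fm t w) ≤ 1 * max (v (w 0) ^ 2) (v t * nrm v w ^ 2) * nrm v w ^ 2 := by
  have ha := v.nonneg (w 0)
  have hb := v.nonneg (w 1)
  have ht := v.nonneg t
  obtain ⟨n, hnd⟩ : ∃ n, n = nrm v w := ⟨_, rfl⟩
  have han : v (w 0) ≤ n := by rw [hnd]; exact le_max_left _ _
  have hbn : v (w 1) ≤ n := by rw [hnd]; exact le_max_right _ _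
  rw [← hnd]
  have hn : 0 ≤ n := ha.trans han
  obtain ⟨X, hX⟩ : ∃ X, X = max (v (w 0) ^ 2) (v t * n ^ 2) := ⟨_, rfl⟩
  rw [← hX]
  have x1 : v (w 0) ^ 2 ≤ X := by rw [hX]; exact le_max_left _ _
  have x2 : v t * n ^ 2 ≤ X := by rw [hX]; exact le_max_right _ _
  have hX0 : 0 ≤ X := by nlinarith
  have q1 : v (w 0 ^ 4) ≤ 1 * X * n ^ 2 := by
    rw [map_pow]
    calc v (w 0) ^ 4 = 1 * v (w 0) ^ 2 * v (w 0) ^ 2 := by ring
      _ ≤ 1 * X * n ^ 2 := by gcongr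
  have q2 : v (72 * t * w 0 ^ 2 * w 1 ^ 2) ≤ 1 * X * n ^ 2 := by
    have h6 := na_ofNat_le v hv 72
    rw [map_mul, map_mul, map_mul, map_pow, map_pow]
    calc v 72 * v t * v (w 0) ^ 2 * v (w 1) ^ 2 ≤ 1 * v t * n ^ 2 * n ^ 2 := by gcongr
      _ = 1 * (v t * n ^ 2) * n ^ 2 := by ring
      _ ≤ _ := by gcongr
  have q3 : v (8 * t * w 0 * w 1 ^ 3) ≤ 1 * X * n ^ 2 := by
    have h6 := na_ofNat_le v hv 8
    rw [map_mul, map_mul, map_mul, map_pow]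
    calc v 8 * v t * v (w 0) * v (w 1) ^ 3 ≤ 1 * v t * n * n ^ 3 := by gcongr
      _ = 1 * (v t * n ^ 2) * n ^ 2 := by ring
      _ ≤ _ := by gcongr
  have q4 : v ((t + 1296 * t ^ 2) * w 1 ^ 4) ≤ 1 * X * n ^ 2 := by
    have h6 := na_ofNat_le v hv 1296
    rw [map_mul, map_pow]
    have h7 : v (t + 1296 * t ^ 2) ≤ v t := by
      apply NDEAux.na_le hv le_rfl
      rw [map_mul, map_pow]
      calc v 1296 * v t ^ 2 = v 1296 * (v t * v t) := by ring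
        _ ≤ 1 * (v t * 1) := by gcongr
        _ = _ := by ring
    calc v (t + 1296 * t ^ 2) * v (w 1) ^ 4 ≤ v t * n ^ 4 := by gcongr
      _ = 1 * (v t * n ^ 2) * n ^ 2 := by ring
      _ ≤ _ := by gcongr
  have r1 : v (4 * w 0 ^ 3 * w 1) ≤ 1 * X * n ^ 2 := by
    have h6 := na_ofNat_le v hv 4
    rw [map_mul, map_mul, map_pow]
    calc v 4 * v (w 0) ^ 3 * v (w 1) = v 4 * (v (w 0) ^ 2 * (v (w 0) * v (w 1))) := by ring
      _ ≤ 1 * (X * (n * n)) := by gcongr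
      _ = _ := by ring
  have r2 : v (w 0 ^ 2 * w 1 ^ 2) ≤ 1 * X * n ^ 2 := by
    rw [map_mul, map_pow, map_pow]
    calc v (w 0) ^ 2 * v (w 1) ^ 2 ≤ X * n ^ 2 := by gcongr
      _ = _ := by ring
  have r3 : v (144 * t * w 0 * w 1 ^ 3) ≤ 1 * X * n ^ 2 := by
    have h6 := na_ofNat_le v hv 144
    rw [map_mul, map_mul, map_mul, map_pow]
    calc v 144 * v t * v (w 0) * v (w 1) ^ 3 ≤ 1 * v t * n * n ^ 3 := by gcongr
      _ = 1 * (v t * n ^ 2) * n ^ 2 := by ring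
      _ ≤ _ := by gcongr
  have r4 : v (4 * t * w 1 ^ 4) ≤ 1 * X * n ^ 2 := by
    have h6 := na_ofNat_le v hv 4
    rw [map_mul, map_mul, map_pow]
    calc v 4 * v t * v (w 1) ^ 4 ≤ 1 * v t * n ^ 4 := by gcongr
      _ = 1 * (v t * n ^ 2) * n ^ 2 := by ring
      _ ≤ _ := by gcongr
  unfold nrm
  apply max_le
  · have e : Fm t w 0 = w 0 ^ 4 + 72 * t * w 0 ^ 2 * w 1 ^ 2 + 8 * t * w 0 * w 1 ^ 3 +
        (t + 1296 * t ^ 2) * w 1 ^ 4 := rfl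
    rw [e]
    exact NDEAux.na_le hv (NDEAux.na_le hv (NDEAux.na_le hv q1 q2) q3) q4
  · have e : Fm t w 1 = 4 * w 0 ^ 3 * w 1 + w 0 ^ 2 * w 1 ^ 2 - 144 * t * w 0 * w 1 ^ 3 -
        4 * t * w 1 ^ 4 := rfl
    rw [e]
    exact NDEAux.na_sub_le hv (NDEAux.na_sub_le hv (NDEAux.na_le hv r1 r2) r3) r4

/-- The local step where `t` is small. -/
theorem step_small (v : AbsoluteValue F ℝ) (t : F) (h0 : 0 < v t) (h1 : v t < 1)
    (hκ : 1 + 1728 * t ≠ 0) (w : Fin 2 → F) (hw : w 1 ≠ 0) (hF : Fm t w 1 ≠ 0)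
    (c a b e : ℝ)
    (hlow : -2 * rho v t w + 4 * Real.log (nrm v w) - c ≤ Real.log (nrm v (Fm t w)))
    (hup : Real.log (nrm v (Fm t w)) ≤ -2 * rho v t w + 4 * Real.log (nrm v w) + c)
    (hrho : |rho v t (Fm t w) - min (2 * rho v t w) (Lt v t - 2 * rho v t w)| ≤ c)
    (hM : ∀ z : Fin 2 → F, z 1 ≠ 0 → |Real.log (NDA.M v (Sc v t) z) - Real.log (nrm v z)| ≤ a)
    (hS : |Real.log (Sc v t)| ≤ b) (hk : |Real.log (v (1 + 1728 * t))| ≤ e) :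
    |(phi v t (Fm t w) + Jl v t (Fm t w)) - 4 * (phi v t w + Jl v t w) -
      Real.log (v (t * (1 + 1728 * t) ^ 2)) / 2 + Real.log (v (Fm t w 1 / w 1 ^ 4))| ≤
      2 * c + 5 * a + 3 * b + e := by
  have hL : 0 < Lt v t := by
    unfold Lt
    have := Real.log_neg h0 h1
    linarith
  have hr0 := rho_nonneg v t h1.le w
  have hr1 := rho_le v t h0 w
  have hr0' := rho_nonneg v t h1.le (Fm t w)
  have hr1' := rho_le v t h0 (Fm t w)
  have hκ0 : 0 < v (1 + 1728 * t) := v.pos hκ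
  have hJ := Jl_step v t hκ w hw hF
  have m1 := hM w hw
  have m2 := hM _ hF
  have hD : Real.log (v (t * (1 + 1728 * t) ^ 2)) = -Lt v t + 2 * Real.log (v (1 + 1728 * t)) := by
    rw [map_mul, map_pow, Real.log_mul h0.ne' (by positivity), Real.log_pow, Lt]
    push_cast
    ring
  rw [hD]
  obtain ⟨L, hLd⟩ : ∃ L, L = Lt v t := ⟨_, rfl⟩
  obtain ⟨r, hrd⟩ : ∃ r, r = rho v t w := ⟨_, rfl⟩
  obtain ⟨r', hrd'⟩ : ∃ r', r' = rho v t (Fm t w) := ⟨_, rfl⟩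
  rw [← hLd] at hL hr1 hr1' hrho ⊢
  rw [← hrd] at hr0 hr1 hrho hlow hup
  rw [← hrd'] at hr0' hr1' hrho
  have hT0 : 0 ≤ min (2 * r) (L - 2 * r) := le_min (by linarith) (by linarith)
  have hT1 : min (2 * r) (L - 2 * r) ≤ L / 2 := by
    rcases le_total (2 * r) (L / 2) with h | h
    · exact le_trans (min_le_left _ _) h
    · exact le_trans (min_le_right _ _) (by linarith)
  have hlip := g_lip L r' (min (2 * r) (L - 2 * r)) hL hr0' hr1' hT0 hT1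
  rw [g_tent L r hL] at hlip
  have hp : phi v t w = L / 6 + (r ^ 2 / L - r) := by
    rw [phi, ← hrd, ← hLd]; ring
  have hp' : phi v t (Fm t w) = L / 6 + (r' ^ 2 / L - r') := by
    rw [phi, ← hrd', ← hLd]; ring
  rw [hp, hp']
  have hlip2 := hlip.trans hrho
  rw [abs_le] at hlip2 m1 m2 hS hk ⊢
  constructor
  · linarith [hlip2.1, hlip2.2, m1.1, m1.2, m2.1, m2.2, hS.1, hS.2, hk.1, hk.2]
  · linarith [hlip2.1, hlip2.2, m1.1, m1.2, m2.1, m2.2, hS.1, hS.2, hk.1, hk.2]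

end Sq

end LangForms
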