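import Pool.Agent.Lib_MP_f5471b_s.GlobOne
import Pool.Agent.Lib_MP_f5471b_j.Final

/-!
# MP_f5471b_nt: lower bounds for the height of the image under an explicit map of degree four
-/

namespace LangForms

open Height NumberField WeierstrassCurve Topology Filter

namespace Sq

variable {F : Type} [Field F] [NumberField F]

theorem height_lower (w y : Fin 2 → F) (hw : w ≠ 0) (hy : y ≠ 0) (M : F) (hM : M ≠ 0) (S : ℝ)
    (hS : 0 < S)
    (hinf : ∀ v : InfinitePlace F, v.1 M * nrm v.1 w ^ 4 ≤ S * nrm v.1 y)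
    (hfin : ∀ v : FinitePlace F, v.1 M * nrm v.1 w ^ 4 ≤ nrm v.1 y) :
    4 * logHeight w ≤ logHeight y + Module.finrank ℚ F * Real.log S := by
  classical
  obtain ⟨T1, h1⟩ := ex_supp M hM
  obtain ⟨T2, h2⟩ := ex_supp_nrm w hw
  obtain ⟨T3, h3⟩ := ex_supp_nrm y hy
  obtain ⟨T, hT⟩ : ∃ T : Finset (FinitePlace F), T = T1 ∪ T2 ∪ T3 := ⟨_, rfl⟩
  have hT' : ∀ v, v ∉ T → v ∉ T1 ∧ v ∉ T2 ∧ v ∉ T3 := by
    intro v hv
    rw [hT] at hv
    simp only [Finset.mem_union, not_or] at hv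
    exact ⟨hv.1.1, hv.1.2, hv.2⟩
  have e1 := log_product M hM T fun v hv => h1 v (hT' v hv).1
  have e2 := logHeight_sum w hw T fun v hv => h2 v (hT' v hv).2.1
  have e3 := logHeight_sum y hy T fun v hv => h3 v (hT' v hv).2.2
  have i1 : ∀ v : InfinitePlace F, v.mult * Real.log (v.1 M) + 4 * (v.mult *
      Real.log (nrm v.1 w)) ≤ v.mult * Real.log (nrm v.1 y) + v.mult * Real.log S := by
    intro v
    have hM0 := v.1.pos hM
    have hw0 := nrm_pos v.1 hw
    have hy0 := nrm_pos v.1 hy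
    have h4 := Real.log_le_log (by positivity) (hinf v)
    rw [Real.log_mul hM0.ne' (by positivity), Real.log_pow, Real.log_mul hS.ne' hy0.ne'] at h4
    push_cast at h4
    have h5 := mul_le_mul_of_nonneg_left h4 (Nat.cast_nonneg v.mult)
    linarith
  have i2 : ∀ v ∈ T, Real.log (v.1 M) + 4 * Real.log (nrm v.1 w) ≤ Real.log (nrm v.1 y) := by
    intro v _
    have hM0 := v.1.pos hM
    have hw0 := nrm_pos v.1 hw
    have hy0 := nrm_pos v.1 hy
    have h4 := Real.log_le_log (by positivity) (hfin v)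
    rw [Real.log_mul hM0.ne' (by positivity), Real.log_pow] at h4
    push_cast at h4
    exact h4
  have s1 := Finset.sum_le_sum fun v (_ : v ∈ Finset.univ) => i1 v
  have s2 := Finset.sum_le_sum i2
  rw [Finset.sum_add_distrib, Finset.sum_add_distrib, ← Finset.mul_sum, ← Finset.sum_mul] at s1
  rw [Finset.sum_add_distrib, ← Finset.mul_sum] at s2
  have h6 : (∑ v : InfinitePlace F, (v.mult : ℝ)) = Module.finrank ℚ F := by
    exact_mod_cast InfinitePlace.sum_mult_eq (K := F)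
  rw [h6] at s1
  rw [e2, e3]
  linarith

/-- A binary cubic form with integer coefficients. -/
def cub (A : Fin 4 → ℤ) (w : Fin 2 → F) : F :=
  A 0 * w 1 ^ 3 + A 1 * (w 0 * w 1 ^ 2) + A 2 * (w 0 ^ 2 * w 1) + A 3 * w 0 ^ 3

omit [NumberField F] in
theorem inf_int (v : InfinitePlace F) (n : ℤ) : v.1 (n : F) = |(n : ℝ)| := by
  have h : v (n : F) = |(n : ℝ)| := by
    rw [← InfinitePlace.norm_embedding_eq, map_intCast]
    simp
  exact h

theorem fin_int (v : FinitePlace F) (n : ℤ) : v.1 (n : F) ≤ 1 := by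
  have hv := fin_na v
  rcases le_total 0 n with h | h
  · lift n to ℕ using h
    rw [Int.cast_natCast]
    exact IsNonarchimedean.apply_natCast_le_one hv
  · obtain ⟨m, hm⟩ : ∃ m : ℕ, n = -(m : ℤ) := ⟨n.natAbs, by omega⟩
    rw [hm, Int.cast_neg, v.1.map_neg, Int.cast_natCast]
    exact IsNonarchimedean.apply_natCast_le_one hv

/-- The sum of the absolute values of the coefficients. -/
def cubS (A : Fin 4 → ℤ) : ℝ := |(A 0 : ℝ)| + |(A 1 : ℝ)| + |(A 2 : ℝ)| + |(A 3 : ℝ)|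

theorem cub_inf (v : InfinitePlace F) (A : Fin 4 → ℤ) (w : Fin 2 → F) :
    v.1 (cub A w) ≤ cubS A * nrm v.1 w ^ 3 := by
  have a0 := v.1.nonneg (w 0)
  have a1 := v.1.nonneg (w 1)
  have b0 : v.1 (w 0) ≤ nrm v.1 w := le_max_left _ _
  have b1 : v.1 (w 1) ≤ nrm v.1 w := le_max_right _ _
  obtain ⟨N, hN⟩ : ∃ N, N = nrm v.1 w := ⟨_, rfl⟩
  rw [← hN] at b0 b1 ⊢
  have hN0 : 0 ≤ N := a0.trans b0
  have c0 : v.1 ((A 0 : F) * w 1 ^ 3) ≤ |(A 0 : ℝ)| * N ^ 3 := by
    rw [map_mul, inf_int, map_pow]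
    gcongr
  have c1 : v.1 ((A 1 : F) * (w 0 * w 1 ^ 2)) ≤ |(A 1 : ℝ)| * N ^ 3 := by
    rw [map_mul, inf_int, map_mul, map_pow]
    calc |(A 1 : ℝ)| * (v.1 (w 0) * v.1 (w 1) ^ 2) ≤ |(A 1 : ℝ)| * (N * N ^ 2) := by gcongr
      _ = _ := by ring
  have c2 : v.1 ((A 2 : F) * (w 0 ^ 2 * w 1)) ≤ |(A 2 : ℝ)| * N ^ 3 := by
    rw [map_mul, inf_int, map_mul, map_pow]
    calc |(A 2 : ℝ)| * (v.1 (w 0) ^ 2 * v.1 (w 1)) ≤ |(A 2 : ℝ)| * (N ^ 2 * N) := by gcongr
      _ = _ := by ring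
  have c3 : v.1 ((A 3 : F) * w 0 ^ 3) ≤ |(A 3 : ℝ)| * N ^ 3 := by
    rw [map_mul, inf_int, map_pow]
    gcongr
  have s1 := v.1.add_le ((A 0 : F) * w 1 ^ 3 + (A 1 : F) * (w 0 * w 1 ^ 2) +
    (A 2 : F) * (w 0 ^ 2 * w 1)) ((A 3 : F) * w 0 ^ 3)
  have s2 := v.1.add_le ((A 0 : F) * w 1 ^ 3 + (A 1 : F) * (w 0 * w 1 ^ 2))
    ((A 2 : F) * (w 0 ^ 2 * w 1))
  have s3 := v.1.add_le ((A 0 : F) * w 1 ^ 3) ((A 1 : F) * (w 0 * w 1 ^ 2))
  rw [cub, cubS]
  linarith

theorem cub_fin (v : FinitePlace F) (A : Fin 4 → ℤ) (w : Fin 2 → F) :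
    v.1 (cub A w) ≤ nrm v.1 w ^ 3 := by
  have a0 := v.1.nonneg (w 0)
  have a1 := v.1.nonneg (w 1)
  have b0 : v.1 (w 0) ≤ nrm v.1 w := le_max_left _ _
  have b1 : v.1 (w 1) ≤ nrm v.1 w := le_max_right _ _
  obtain ⟨N, hN⟩ : ∃ N, N = nrm v.1 w := ⟨_, rfl⟩
  rw [← hN] at b0 b1 ⊢
  have hN0 : 0 ≤ N := a0.trans b0
  have hv := fin_na v
  have n0 := fin_int v (A 0)
  have n1 := fin_int v (A 1)
  have n2 := fin_int v (A 2)
  have n3 := fin_int v (A 3)
  have c0 : v.1 ((A 0 : F) * w 1 ^ 3) ≤ N ^ 3 := by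
    rw [map_mul, map_pow]
    calc v.1 (A 0 : F) * v.1 (w 1) ^ 3 ≤ 1 * N ^ 3 := by gcongr
      _ = _ := one_mul _
  have c1 : v.1 ((A 1 : F) * (w 0 * w 1 ^ 2)) ≤ N ^ 3 := by
    rw [map_mul, map_mul, map_pow]
    calc v.1 (A 1 : F) * (v.1 (w 0) * v.1 (w 1) ^ 2) ≤ 1 * (N * N ^ 2) := by gcongr
      _ = _ := by ring
  have c2 : v.1 ((A 2 : F) * (w 0 ^ 2 * w 1)) ≤ N ^ 3 := by
    rw [map_mul, map_mul, map_pow]
    calc v.1 (A 2 : F) * (v.1 (w 0) ^ 2 * v.1 (w 1)) ≤ 1 * (N ^ 2 * N) := by gcongr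
      _ = _ := by ring
  have c3 : v.1 ((A 3 : F) * w 0 ^ 3) ≤ N ^ 3 := by
    rw [map_mul, map_pow]
    calc v.1 (A 3 : F) * v.1 (w 0) ^ 3 ≤ 1 * N ^ 3 := by gcongr
      _ = _ := one_mul _
  rw [cub]
  exact NDEAux.na_le hv (NDEAux.na_le hv (NDEAux.na_le hv c0 c1) c2) c3

/-- The lower bound for the height of the image, from a Bézout identity. -/
theorem height_bezout (w y : Fin 2 → F) (hw : w ≠ 0) (M : ℤ) (hM : M ≠ 0)
    (A B C D : Fin 4 → ℤ) (S : ℝ) (hS : 0 < S) (hAB : cubS A + cubS B ≤ S)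
    (hCD : cubS C + cubS D ≤ S)
    (e0 : (M : F) * w 0 ^ 7 = cub A w * y 0 + cub B w * y 1)
    (e1 : (M : F) * w 1 ^ 7 = cub C w * y 0 + cub D w * y 1) :
    4 * logHeight w ≤ logHeight y + Module.finrank ℚ F * Real.log S := by
  have hMF : (M : F) ≠ 0 := by exact_mod_cast hM
  have hy : y ≠ 0 := by
    intro h0
    apply hw
    have g0 : y 0 = 0 := by rw [h0]; rfl
    have g1 : y 1 = 0 := by rw [h0]; rfl
    rw [g0, g1, mul_zero, mul_zero, add_zero] at e0 e1
    have w0 : w 0 = 0 := by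
      rcases mul_eq_zero.1 e0 with h | h
      · exact absurd h hMF
      · exact pow_eq_zero_iff (by norm_num) |>.1 h
    have w1 : w 1 = 0 := by
      rcases mul_eq_zero.1 e1 with h | h
      · exact absurd h hMF
      · exact pow_eq_zero_iff (by norm_num) |>.1 h
    funext i
    fin_cases i
    · exact w0
    · exact w1
  apply height_lower w y hw hy M hMF S hS
  · intro v
    have hn := nrm_pos v.1 hw
    have hny := nrm_pos v.1 hy
    have y0 : v.1 (y 0) ≤ nrm v.1 y := le_max_left _ _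
    have y1 : v.1 (y 1) ≤ nrm v.1 y := le_max_right _ _
    have n0 := v.1.nonneg (y 0)
    have n1 := v.1.nonneg (y 1)
    have key : ∀ (P Q : Fin 4 → ℤ) (x : F), cubS P + cubS Q ≤ S →
        (M : F) * x ^ 7 = cub P w * y 0 + cub Q w * y 1 →
        v.1 (M : F) * v.1 x ^ 7 ≤ S * nrm v.1 y * nrm v.1 w ^ 3 := by
      intro P Q x hPQ he
      have h1 := congrArg v.1 he
      rw [map_mul, map_pow] at h1
      rw [h1]
      have h2 := v.1.add_le (cub P w * y 0) (cub Q w * y 1)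
      rw [map_mul, map_mul] at h2
      have h3 := cub_inf v P w
      have h4 := cub_inf v Q w
      have h5 := v.1.nonneg (cub P w)
      have h6 := v.1.nonneg (cub Q w)
      calc _ ≤ v.1 (cub P w) * v.1 (y 0) + v.1 (cub Q w) * v.1 (y 1) := h2
        _ ≤ (cubS P * nrm v.1 w ^ 3) * nrm v.1 y + (cubS Q * nrm v.1 w ^ 3) * nrm v.1 y :=
            add_le_add (mul_le_mul h3 y0 n0 (h5.trans h3)) (mul_le_mul h4 y1 n1 (h6.trans h4))
        _ = (cubS P + cubS Q) * (nrm v.1 y * nrm v.1 w ^ 3) := by ring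
        _ ≤ S * (nrm v.1 y * nrm v.1 w ^ 3) :=
            mul_le_mul_of_nonneg_right hPQ (by positivity)
        _ = _ := by ring
    have k0 := key A B (w 0) hAB e0
    have k1 := key C D (w 1) hCD e1
    have k2 : v.1 (M : F) * nrm v.1 w ^ 7 ≤ S * nrm v.1 y * nrm v.1 w ^ 3 := by
      rcases max_choice (v.1 (w 0)) (v.1 (w 1)) with h | h
      · have h' : nrm v.1 w = v.1 (w 0) := h
        rw [h'] at k0 ⊢
        exact k0
      · have h' : nrm v.1 w = v.1 (w 1) := h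
        rw [h'] at k1 ⊢
        exact k1
    have k3 : v.1 (M : F) * nrm v.1 w ^ 4 * nrm v.1 w ^ 3 ≤ S * nrm v.1 y * nrm v.1 w ^ 3 := by
      calc _ = v.1 (M : F) * nrm v.1 w ^ 7 := by ring
        _ ≤ _ := k2
    exact le_of_mul_le_mul_right k3 (by positivity)
  · intro v
    have hv := fin_na v
    have hn := nrm_pos v.1 hw
    have hny := nrm_pos v.1 hy
    have y0 : v.1 (y 0) ≤ nrm v.1 y := le_max_left _ _
    have y1 : v.1 (y 1) ≤ nrm v.1 y := le_max_right _ _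
    have n0 := v.1.nonneg (y 0)
    have n1 := v.1.nonneg (y 1)
    have key : ∀ (P Q : Fin 4 → ℤ) (x : F),
        (M : F) * x ^ 7 = cub P w * y 0 + cub Q w * y 1 →
        v.1 (M : F) * v.1 x ^ 7 ≤ nrm v.1 y * nrm v.1 w ^ 3 := by
      intro P Q x he
      have h1 := congrArg v.1 he
      rw [map_mul, map_pow] at h1
      rw [h1]
      have h3 := cub_fin v P w
      have h4 := cub_fin v Q w
      have h5 := v.1.nonneg (cub P w)
      have h6 := v.1.nonneg (cub Q w)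
      apply NDEAux.na_le hv
      · rw [map_mul, mul_comm (nrm v.1 y)]
        exact mul_le_mul h3 y0 n0 (h5.trans h3)
      · rw [map_mul, mul_comm (nrm v.1 y)]
        exact mul_le_mul h4 y1 n1 (h6.trans h4)
    have k0 := key A B (w 0) e0
    have k1 := key C D (w 1) e1
    have k2 : v.1 (M : F) * nrm v.1 w ^ 7 ≤ nrm v.1 y * nrm v.1 w ^ 3 := by
      rcases max_choice (v.1 (w 0)) (v.1 (w 1)) with h | h
      · have h' : nrm v.1 w = v.1 (w 0) := h
        rw [h'] at k0 ⊢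
        exact k0
      · have h' : nrm v.1 w = v.1 (w 1) := h
        rw [h'] at k1 ⊢
        exact k1
    have k3 : v.1 (M : F) * nrm v.1 w ^ 4 * nrm v.1 w ^ 3 ≤ nrm v.1 y * nrm v.1 w ^ 3 := by
      calc _ = v.1 (M : F) * nrm v.1 w ^ 7 := by ring
        _ ≤ _ := k2
    exact le_of_mul_le_mul_right k3 (by positivity)

/-- The map for `j = 0`. -/
theorem map_zero_low (X : F) : 4 * logHeight₁ X ≤
    logHeight (![X * (X - 8) ^ 3, 64 * (X + 1) ^ 3] : Fin 2 → F) +
      Module.finrank ℚ F * Real.log 24050368 := by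
  rw [logHeight₁_eq_logHeight]
  refine height_bezout ![X, 1] _ ?_ 1259712 (by norm_num)
    ![1245184, 3743744, 3756544, 1259712] ![0, 9961472, -3670016, 413696]
    ![6464, 7168, 2432, 0] ![19683, -7337, 914, -38] _ (by norm_num) ?_ ?_ ?_ ?_
  · intro h
    have := congrFun h 1
    simp at this
  · simp only [cubS, Matrix.cons_val_zero, Matrix.cons_val_one, Matrix.cons_val]
    norm_num
  · simp only [cubS, Matrix.cons_val_zero, Matrix.cons_val_one, Matrix.cons_val]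
    norm_num
  · simp only [cub, Matrix.cons_val_zero, Matrix.cons_val_one, Matrix.cons_val]
    push_cast
    ring
  · simp only [cub, Matrix.cons_val_zero, Matrix.cons_val_one, Matrix.cons_val]
    push_cast
    ring

/-- The map for `j = 1728`. -/
theorem map_1728_low (X : F) : 4 * logHeight₁ X ≤
    logHeight (![(X - 1) ^ 4, 16 * (X * (X + 1) ^ 2)] : Fin 2 → F) +
      Module.finrank ℚ F * Real.log 1080 := by
  rw [logHeight₁_eq_logHeight]
  refine height_bezout ![X, 1] _ ?_ 256 (by norm_num)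
    ![0, 208, 448, 256] ![-13, 50, -69, 36] ![256, 448, 208, 0] ![36, -69, 50, -13] _
    (by norm_num) ?_ ?_ ?_ ?_
  · intro h
    have := congrFun h 1
    simp at this
  · simp only [cubS, Matrix.cons_val_zero, Matrix.cons_val_one, Matrix.cons_val]
    norm_num
  · simp only [cubS, Matrix.cons_val_zero, Matrix.cons_val_one, Matrix.cons_val]
    norm_num
  · simp only [cub, Matrix.cons_val_zero, Matrix.cons_val_one, Matrix.cons_val]
    push_cast
    ring
  · simp only [cub, Matrix.cons_val_zero, Matrix.cons_val_one, Matrix.cons_val]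
    push_cast
    ring

end Sq

end LangForms
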