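import Pool.Agent.Lib_MP_f5471b_s.Ker

/-!
# MP_f5471b_nt: the mass near zero
-/

namespace LangForms

namespace Sq

open Finset

variable {α : Type}

/-- The sum of the Bernoulli polynomials at the multiples. -/
noncomputable def Bm (T : Finset α) (L θ : α → ℝ) (m : ℕ) : ℝ :=
  ∑ v ∈ T, L v * bern (ncirc (m * θ v))

open Classical in
/-- The mass of the angles with `k θ` near zero. -/
noncomputable def Wd (T : Finset α) (L θ : α → ℝ) (δ : ℝ) (k : ℕ) : ℝ :=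
  ∑ v ∈ T, if ncirc (k * θ v) ≤ δ then L v else 0

variable {T : Finset α} {L θ : α → ℝ}

theorem Wd_mono (hL : ∀ v ∈ T, 0 ≤ L v) {δ δ' : ℝ} (h : δ ≤ δ') (k : ℕ) :
    Wd T L θ δ k ≤ Wd T L θ δ' k := by
  classical
  refine sum_le_sum fun v hv => ?_
  by_cases h1 : ncirc (k * θ v) ≤ δ
  · rw [if_pos h1, if_pos (h1.trans h)]
  · rw [if_neg h1]
    split_ifs
    · exact hL v hv
    · exact le_rfl

theorem Wd_le (hL : ∀ v ∈ T, 0 ≤ L v) (δ : ℝ) (k : ℕ) : Wd T L θ δ k ≤ ∑ v ∈ T, L v := by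
  classical
  refine sum_le_sum fun v hv => ?_
  split_ifs
  · exact le_rfl
  · exact hL v hv

theorem Wd_nonneg (hL : ∀ v ∈ T, 0 ≤ L v) (δ : ℝ) (k : ℕ) : 0 ≤ Wd T L θ δ k := by
  classical
  refine sum_nonneg fun v hv => ?_
  split_ifs
  · exact hL v hv
  · exact le_rfl

theorem sum_wt (N : ℕ) (hN : 1 ≤ N) :
    ∑ m ∈ Ico 1 N, (1 - (m : ℝ) / N) = ((N : ℝ) - 1) / 2 := by
  have hN0 : (0 : ℝ) < N := by exact_mod_cast hN
  have key : ∀ M : ℕ, 1 ≤ M → ∑ m ∈ Ico 1 M, (m : ℝ) = M * ((M : ℝ) - 1) / 2 := by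
    intro M hM
    induction M, hM using Nat.le_induction with
    | base => simp
    | succ M hM ih =>
      rw [sum_Ico_succ_top hM, ih]
      push_cast
      ring
  rw [sum_sub_distrib, ← sum_div, key N hN, sum_const, Nat.card_Ico, nsmul_eq_mul, mul_one,
    Nat.cast_sub hN]
  push_cast
  field_simp
  ring

theorem fejer_near (N : ℕ) (hN : 1 ≤ N) (x : ℝ) (hx : ncirc x ≤ 1 / (10 * N)) :
    (N : ℝ) / 27 - 1 / 12 ≤ ∑ m ∈ Ico 1 N, (1 - (m : ℝ) / N) * bern (ncirc (m * x)) := by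
  have hN0 : (0 : ℝ) < N := by exact_mod_cast hN
  have hN1 : (1 : ℝ) ≤ N := by exact_mod_cast hN
  have h1 : ∀ m ∈ Ico 1 N, (1 - (m : ℝ) / N) * (23 / 300) ≤
      (1 - (m : ℝ) / N) * bern (ncirc (m * x)) := by
    intro m hm
    rw [mem_Ico] at hm
    have hm' : (m : ℝ) ≤ N := by exact_mod_cast hm.2.le
    have h2 : ncirc (m * x) ≤ 1 / 10 := by
      refine (ncirc_nat_mul_le m x).trans ?_
      calc (m : ℝ) * ncirc x ≤ N * (1 / (10 * N)) :=
            mul_le_mul hm' hx (ncirc_nonneg x) hN0.le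
        _ = 1 / 10 := by field_simp
    have h3 := ncirc_nonneg (m * x)
    have h4 : 0 ≤ 1 - (m : ℝ) / N := by
      rw [sub_nonneg, div_le_one hN0]; exact hm'
    refine mul_le_mul_of_nonneg_left ?_ h4
    unfold bern
    nlinarith
  refine le_trans ?_ (sum_le_sum h1)
  rw [← sum_mul, sum_wt N hN]
  linarith

/-- Exchange of sums. -/
theorem sum_Bm (N k : ℕ) :
    ∑ m ∈ Ico 1 N, (1 - (m : ℝ) / N) * Bm T L θ (k * m) =
      ∑ v ∈ T, L v * ∑ m ∈ Ico 1 N, (1 - (m : ℝ) / N) * bern (ncirc (m * (k * θ v))) := by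
  simp only [Bm, mul_sum]
  rw [sum_comm]
  refine sum_congr rfl fun v _ => sum_congr rfl fun m _ => ?_
  push_cast
  rw [show (k : ℝ) * m * θ v = m * (k * θ v) by ring]
  ring

theorem sum_quad (N : ℕ) (hN : 1 ≤ N) (a b : ℝ) (ha : 0 ≤ a) (hb : 0 ≤ b) :
    ∑ m ∈ Ico 1 N, (1 - (m : ℝ) / N) * (a * (m : ℝ) ^ 2 + b) ≤ a * (N : ℝ) ^ 3 + b * N := by
  have hN0 : (0 : ℝ) < N := by exact_mod_cast hN
  calc ∑ m ∈ Ico 1 N, (1 - (m : ℝ) / N) * (a * (m : ℝ) ^ 2 + b) ≤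
      ∑ _m ∈ Ico 1 N, (a * (N : ℝ) ^ 2 + b) := by
        refine sum_le_sum fun m hm => ?_
        rw [mem_Ico] at hm
        have hm' : (m : ℝ) ≤ N := by exact_mod_cast hm.2.le
        have h4 : 1 - (m : ℝ) / N ≤ 1 := by
          have : 0 ≤ (m : ℝ) / N := by positivity
          linarith
        have h5 : a * (m : ℝ) ^ 2 ≤ a * (N : ℝ) ^ 2 :=
          mul_le_mul_of_nonneg_left (pow_le_pow_left₀ (Nat.cast_nonneg m) hm' 2) ha
        have h6 : 0 ≤ a * (m : ℝ) ^ 2 + b := by positivity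
        calc _ ≤ 1 * (a * (m : ℝ) ^ 2 + b) := mul_le_mul_of_nonneg_right h4 h6
          _ ≤ _ := by linarith
    _ = ((N : ℝ) - 1) * (a * (N : ℝ) ^ 2 + b) := by
      rw [sum_const, Nat.card_Ico, nsmul_eq_mul, Nat.cast_sub hN]
      simp
    _ ≤ _ := by
      have : 0 ≤ a * (N : ℝ) ^ 2 + b := by positivity
      nlinarith

/-- The upper bound for the sums of the Bernoulli polynomials. -/
structure Upper (T : Finset α) (L θ : α → ℝ) (q E : ℝ) : Prop where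
  L_nonneg : ∀ v ∈ T, 0 ≤ L v
  q_nonneg : 0 ≤ q
  E_nonneg : 0 ≤ E
  le : ∀ m : ℕ, 1 ≤ m → Bm T L θ m ≤ q * (m : ℝ) ^ 2 + E

theorem fejer_up {q E : ℝ} (h : Upper T L θ q E) (N k : ℕ) (hN : 1 ≤ N) (hk : 1 ≤ k) :
    ∑ m ∈ Ico 1 N, (1 - (m : ℝ) / N) * Bm T L θ (k * m) ≤
      q * (k : ℝ) ^ 2 * (N : ℝ) ^ 3 + E * N := by
  have hN0 : (0 : ℝ) < N := by exact_mod_cast hN
  refine le_trans ?_ (sum_quad N hN (q * (k : ℝ) ^ 2) E
    (mul_nonneg h.q_nonneg (sq_nonneg _)) h.E_nonneg)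
  refine sum_le_sum fun m hm => ?_
  rw [mem_Ico] at hm
  have hm' : (m : ℝ) ≤ N := by exact_mod_cast hm.2.le
  have h4 : 0 ≤ 1 - (m : ℝ) / N := by
    rw [sub_nonneg, div_le_one hN0]; exact hm'
  refine mul_le_mul_of_nonneg_left ?_ h4
  refine (h.le (k * m) (Nat.mul_pos hk hm.1)).trans (le_of_eq ?_)
  push_cast
  ring

theorem mass {q E : ℝ} (h : Upper T L θ q E) (N k : ℕ) (hN : 1 ≤ N) (hk : 1 ≤ k) :
    Wd T L θ (1 / (10 * N)) k ≤
      3 * (∑ v ∈ T, L v) / N + 27 * (q * (k : ℝ) ^ 2) * (N : ℝ) ^ 2 + 27 * E := by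
  classical
  have hN0 : (0 : ℝ) < N := by exact_mod_cast hN
  have h1 := fejer_up h N k hN hk
  rw [sum_Bm] at h1
  have h2 : (N : ℝ) / 27 * Wd T L θ (1 / (10 * N)) k - (∑ v ∈ T, L v) / 12 ≤
      ∑ v ∈ T, L v * ∑ m ∈ Ico 1 N, (1 - (m : ℝ) / N) * bern (ncirc (m * (k * θ v))) := by
    rw [Wd, mul_sum, sum_div, ← sum_sub_distrib]
    refine sum_le_sum fun v hv => ?_
    have hLv := h.L_nonneg v hv
    split_ifs with hc
    · have h3 := fejer_near N hN (k * θ v) hc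
      have h4 := mul_le_mul_of_nonneg_left h3 hLv
      linarith
    · have h3 := fejer N hN (k * θ v)
      have h4 := mul_le_mul_of_nonneg_left h3 hLv
      linarith
  have h3 : (N : ℝ) / 27 * Wd T L θ (1 / (10 * N)) k ≤
      (∑ v ∈ T, L v) / 12 + q * (k : ℝ) ^ 2 * (N : ℝ) ^ 3 + E * N := by linarith
  have hW : 0 ≤ ∑ v ∈ T, L v := sum_nonneg h.L_nonneg
  obtain ⟨W, hWd⟩ : ∃ W, W = ∑ v ∈ T, L v := ⟨_, rfl⟩
  obtain ⟨w, hw⟩ : ∃ w, w = Wd T L θ (1 / (10 * N)) k := ⟨_, rfl⟩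
  rw [← hWd, ← hw] at h3
  rw [← hWd] at hW ⊢
  rw [← hw]
  have h4 : w = 27 / N * ((N : ℝ) / 27 * w) := by field_simp
  rw [h4]
  calc 27 / (N : ℝ) * ((N : ℝ) / 27 * w) ≤
      27 / N * (W / 12 + q * (k : ℝ) ^ 2 * (N : ℝ) ^ 3 + E * N) :=
        mul_le_mul_of_nonneg_left h3 (by positivity)
    _ = 27 / 12 * (W / N) + 27 * (q * (k : ℝ) ^ 2) * (N : ℝ) ^ 2 + 27 * E := by
      field_simp
    _ ≤ 3 * (W / N) + 27 * (q * (k : ℝ) ^ 2) * (N : ℝ) ^ 2 + 27 * E := by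
      have : 0 ≤ W / N := by positivity
      linarith
    _ = _ := by ring

/-- The sum of the defects. -/
theorem defect {q E : ℝ} (h : Upper T L θ q E) (M : ℕ) (hM : 1 ≤ M) :
    ∑ m ∈ Ico 1 (M + 1), (q * (m : ℝ) ^ 2 + E - Bm T L θ m) ≤
      (∑ v ∈ T, L v) / 6 + 16 * q * (M : ℝ) ^ 3 + 4 * E * M := by
  have hM0 : (0 : ℝ) < M := by exact_mod_cast hM
  obtain ⟨N, hN⟩ : ∃ N, N = 2 * M := ⟨_, rfl⟩
  have hN1 : 1 ≤ N := by omega
  have hN0 : (0 : ℝ) < N := by exact_mod_cast hN1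
  have hNM : (N : ℝ) = 2 * M := by rw [hN]; push_cast; ring
  have hI : ∀ m : ℕ, 1 ≤ m → 0 ≤ q * (m : ℝ) ^ 2 + E - Bm T L θ m := fun m hm => by
    have := h.le m hm
    linarith
  have h1 : ∑ m ∈ Ico 1 N, (1 - (m : ℝ) / N) * (q * (m : ℝ) ^ 2 + E - Bm T L θ m) ≤
      q * (N : ℝ) ^ 3 + E * N + (∑ v ∈ T, L v) / 12 := by
    have e : ∀ m : ℕ, (1 - (m : ℝ) / N) * (q * (m : ℝ) ^ 2 + E - Bm T L θ m) =
        (1 - (m : ℝ) / N) * (q * (m : ℝ) ^ 2 + E) - (1 - (m : ℝ) / N) * Bm T L θ (1 * m) := by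
      intro m
      rw [one_mul]
      ring
    simp only [e]
    rw [sum_sub_distrib, sum_Bm]
    have h2 := sum_quad N hN1 q E h.q_nonneg h.E_nonneg
    have h3 : -((∑ v ∈ T, L v) / 12) ≤
        ∑ v ∈ T, L v * ∑ m ∈ Ico 1 N, (1 - (m : ℝ) / N) * bern (ncirc (m * ((1 : ℕ) * θ v))) := by
      rw [sum_div, ← sum_neg_distrib]
      refine sum_le_sum fun v hv => ?_
      have h3 := fejer N hN1 ((1 : ℕ) * θ v)
      have h4 := mul_le_mul_of_nonneg_left h3 (h.L_nonneg v hv)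
      linarith
    linarith
  have h2 : ∑ m ∈ Ico 1 (M + 1), (q * (m : ℝ) ^ 2 + E - Bm T L θ m) / 2 ≤
      ∑ m ∈ Ico 1 N, (1 - (m : ℝ) / N) * (q * (m : ℝ) ^ 2 + E - Bm T L θ m) := by
    calc ∑ m ∈ Ico 1 (M + 1), (q * (m : ℝ) ^ 2 + E - Bm T L θ m) / 2 ≤
        ∑ m ∈ Ico 1 (M + 1), (1 - (m : ℝ) / N) * (q * (m : ℝ) ^ 2 + E - Bm T L θ m) := by
          refine sum_le_sum fun m hm => ?_
          rw [mem_Ico] at hm
          have hm' : (m : ℝ) ≤ M := by exact_mod_cast (by omega : m ≤ M)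
          have h4 : 1 / 2 ≤ 1 - (m : ℝ) / N := by
            have : (m : ℝ) / N ≤ 1 / 2 := by
              rw [div_le_iff₀ hN0, hNM]; linarith
            linarith
          have h5 := mul_le_mul_of_nonneg_right h4 (hI m hm.1)
          linarith
      _ ≤ _ := by
        refine sum_le_sum_of_subset_of_nonneg ?_ ?_
        · intro m hm
          rw [mem_Ico] at hm ⊢
          omega
        · intro m hm _
          rw [mem_Ico] at hm
          have hm' : (m : ℝ) ≤ N := by exact_mod_cast hm.2.le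
          have h4 : 0 ≤ 1 - (m : ℝ) / N := by
            rw [sub_nonneg, div_le_one hN0]; exact hm'
          exact mul_nonneg h4 (hI m hm.1)
  rw [← sum_div] at h2
  have h3 : q * (N : ℝ) ^ 3 = 8 * q * (M : ℝ) ^ 3 := by rw [hNM]; ring
  have h4 : E * (N : ℝ) = 2 * E * M := by rw [hNM]; ring
  linarith

/-- The hole: if the mass is small, there are no nonzero angles near zero. -/
theorem hole {q E : ℝ} (h : Upper T L θ q E) (n : α → ℕ) (hn1 : ∀ v ∈ T, 1 ≤ n v)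
    (hn2 : ∀ v ∈ T, (n v : ℝ) ≤ 2 * L v) (hn3 : ∀ v ∈ T, ∃ a : ℤ, θ v * (2 * n v) = a)
    (N k : ℕ) (hN : 1 ≤ N) (hk : 1 ≤ k)
    (hsmall : 3 * (∑ v ∈ T, L v) / N + 27 * (q * (k : ℝ) ^ 2) * (N : ℝ) ^ 2 + 27 * E <
      5 / 2 * N) (δ : ℝ) (hδ : 0 ≤ δ) :
    Wd T L θ (1 / (10 * N)) k ≤ Wd T L θ δ k := by
  classical
  have hN0 : (0 : ℝ) < N := by exact_mod_cast hN
  have hm := mass h N k hN hk
  have key : ∀ v ∈ T, ncirc (k * θ v) ≤ 1 / (10 * N) → ncirc (k * θ v) = 0 := by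
    intro v hv hc
    by_contra hne
    have hpos : 0 < ncirc (k * θ v) := lt_of_le_of_ne (ncirc_nonneg _) (Ne.symm hne)
    obtain ⟨a, ha⟩ := hn3 v hv
    have hnv : (0 : ℝ) < n v := by exact_mod_cast (hn1 v hv)
    have h1 : ncirc (k * θ v) * (2 * n v) = |((k * a - round ((k : ℝ) * θ v) * (2 * n v) : ℤ) : ℝ)| := by
      have h0 : ncirc (k * θ v) * (2 * n v) =
          |((k : ℝ) * θ v - round ((k : ℝ) * θ v)) * (2 * n v)| := by
        rw [abs_mul, abs_of_pos (show (0 : ℝ) < 2 * n v by positivity)]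
        rfl
      rw [h0]
      congr 1
      push_cast
      rw [← ha]
      ring
    have h2 : 1 ≤ ncirc (k * θ v) * (2 * n v) := by
      have h3 : 0 < ncirc (k * θ v) * (2 * n v) := by positivity
      rw [h1] at h3 ⊢
      have h4 : (k * a - round ((k : ℝ) * θ v) * (2 * n v) : ℤ) ≠ 0 := by
        intro h0
        rw [h0] at h3
        simp at h3
      have h5 := Int.one_le_abs h4
      exact_mod_cast h5
    have h3 : 5 * (N : ℝ) ≤ n v := by
      have h4 : ncirc (k * θ v) * (2 * n v) ≤ 1 / (10 * N) * (2 * n v) :=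
        mul_le_mul_of_nonneg_right hc (by positivity)
      have h5 : (1 : ℝ) ≤ 1 / (10 * N) * (2 * n v) := h2.trans h4
      rw [div_mul_eq_mul_div, le_div_iff₀ (by positivity)] at h5
      linarith
    have h4 := hn2 v hv
    have h5 : L v ≤ Wd T L θ (1 / (10 * N)) k := by
      unfold Wd
      refine le_trans ?_ (Finset.single_le_sum (f := fun v => if ncirc (k * θ v) ≤ 1 / (10 * N)
        then L v else 0) (fun w hw => ?_) hv)
      · simp only [if_pos hc]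
        exact le_rfl
      · split_ifs
        · exact h.L_nonneg w hw
        · exact le_rfl
    linarith
  refine sum_le_sum fun v hv => ?_
  by_cases hc : ncirc (k * θ v) ≤ 1 / (10 * N)
  · rw [if_pos hc, if_pos ((key v hv hc).le.trans hδ)]
  · rw [if_neg hc]
    split_ifs
    · exact h.L_nonneg v hv
    · exact le_rfl

end Sq

end LangForms
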