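import Pool.Agent.Lib_MP_f5471b_j.XiHeight
import Pool.Agent.Lib_MP_f5471b_nt.BaseCh
import Pool.Agent.Lib_MP_f5471b_nt.AddSub
import Mathlib.AlgebraicGeometry.EllipticCurve.IsomOfJ

/-!
# MP_f5471b_nt: the canonical height under extension of the field and change of variables
-/

namespace LangForms

open Height NumberField WeierstrassCurve Topology Filter

namespace Sq

/-- The duplication map on the `x`-line. -/
def dupv {F : Type} [Field F] (W : WeierstrassCurve F) (w : Fin 2 → F) : Fin 2 → F :=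
  ![w 0 ^ 4 - W.b₄ * w 0 ^ 2 * w 1 ^ 2 - 2 * W.b₆ * w 0 * w 1 ^ 3 - W.b₈ * w 1 ^ 4,
    4 * w 0 ^ 3 * w 1 + W.b₂ * w 0 ^ 2 * w 1 ^ 2 + 2 * W.b₄ * w 0 * w 1 ^ 3 + W.b₆ * w 1 ^ 4]

theorem dup_rel {F : Type} [Field F] [DecidableEq F] (W : WeierstrassCurve F) [W.IsElliptic]
    (P : W.toAffine.Point) : ∃ c : F, c ≠ 0 ∧ dupv W P.xRep = c • (2 • P).xRep := by
  obtain ⟨c, hc, h⟩ := addSub_rel W P P
  refine ⟨c, hc, ?_⟩
  have h' : (fun i => (addSubMap W i).eval ![P.xRep 0 * P.xRep 0,
      P.xRep 0 * P.xRep 1 + P.xRep 1 * P.xRep 0, P.xRep 1 * P.xRep 1]) =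
      c • ![(P + P).xRep 0 * (P - P).xRep 0, (P + P).xRep 0 * (P - P).xRep 1 +
        (P + P).xRep 1 * (P - P).xRep 0, (P + P).xRep 1 * (P - P).xRep 1] := h
  rw [AddSub.eval_addSubMap] at h'
  rw [two_nsmul]
  have h0 := congrFun h' 0
  have h1 := congrFun h' 1
  simp only [sub_self, Affine.Point.xRep_zero, Pi.smul_apply, smul_eq_mul,
    Matrix.cons_val_zero, Matrix.cons_val_one] at h0 h1
  ext i
  fin_cases i
  · simp only [dupv, Fin.zero_eta, Matrix.cons_val_zero, Pi.smul_apply, smul_eq_mul]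
    linear_combination h0
  · simp only [dupv, Fin.mk_one, Matrix.cons_val_one, Matrix.cons_val_fin_one, Pi.smul_apply,
      smul_eq_mul]
    linear_combination h1

/-- The change of variables on the `x`-line. -/
def lamv {F : Type} [Field F] (C : VariableChange F) (w : Fin 2 → F) : Fin 2 → F :=
  ![(C.u⁻¹ : Fˣ) ^ 2 * (w 0 - C.r * w 1), w 1]

theorem dupv_lamv {F : Type} [Field F] (C : VariableChange F) (W : WeierstrassCurve F)
    (w : Fin 2 → F) :
    dupv (C • W) (lamv C w) = ((C.u⁻¹ : Fˣ) : F) ^ 6 • lamv C (dupv W w) := by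
  ext i
  fin_cases i
  · simp only [dupv, lamv, Fin.zero_eta, Matrix.cons_val_zero, Matrix.cons_val_one,
      Pi.smul_apply, smul_eq_mul, variableChange_b₂, variableChange_b₄, variableChange_b₆,
      variableChange_b₈]
    ring
  · simp only [dupv, lamv, Fin.mk_one, Matrix.cons_val_zero, Matrix.cons_val_one,
      Pi.smul_apply, smul_eq_mul, variableChange_b₂, variableChange_b₄, variableChange_b₆,
      variableChange_b₈]
    ring

theorem dupv_smul {F : Type} [Field F] (W : WeierstrassCurve F) (c : F) (w : Fin 2 → F) :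
    dupv W (c • w) = c ^ 4 • dupv W w := by
  ext i
  fin_cases i
  · simp only [dupv, Fin.zero_eta, Matrix.cons_val_zero, Pi.smul_apply, smul_eq_mul]
    ring
  · simp only [dupv, Fin.mk_one, Matrix.cons_val_one, Matrix.cons_val_fin_one, Pi.smul_apply,
      smul_eq_mul]
    ring

theorem lamv_smul {F : Type} [Field F] (C : VariableChange F) (c : F) (w : Fin 2 → F) :
    lamv C (c • w) = c • lamv C w := by
  ext i
  fin_cases i
  · simp only [lamv, Fin.zero_eta, Matrix.cons_val_zero, Pi.smul_apply, smul_eq_mul]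
    ring
  · simp only [lamv, Fin.mk_one, Matrix.cons_val_one, Matrix.cons_val_fin_one, Pi.smul_apply,
      smul_eq_mul]

/-- The image of a vector in a larger field. -/
def mp (K F : Type) [Field K] [Field F] [Algebra K F] (w : Fin 2 → K) : Fin 2 → F :=
  fun i => algebraMap K F (w i)

theorem mp_smul {K F : Type} [Field K] [Field F] [Algebra K F] (c : K) (w : Fin 2 → K) :
    mp K F (c • w) = algebraMap K F c • mp K F w := by
  ext i
  simp [mp]

theorem dupv_mp {K F : Type} [Field K] [Field F] [Algebra K F] (W : WeierstrassCurve K)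
    (w : Fin 2 → K) : dupv (W.baseChange F) (mp K F w) = mp K F (dupv W w) := by
  have h2 : algebraMap K F 2 = 2 := map_ofNat _ _
  have h4 : algebraMap K F 4 = 4 := map_ofNat _ _
  ext i
  fin_cases i <;> simp [dupv, mp, WeierstrassCurve.baseChange, WeierstrassCurve.map_b₂,
    WeierstrassCurve.map_b₄, WeierstrassCurve.map_b₆, WeierstrassCurve.map_b₈, h2, h4]

theorem exists_pt {K F : Type} [Field K] [Field F] [Algebra K F] (W : WeierstrassCurve K)
    [W.IsElliptic] (W₀ : WeierstrassCurve F) [W₀.IsElliptic] (C : VariableChange F)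
    (hC : C • W.baseChange F = W₀) (P : W.toAffine.Point) :
    ∃ P' : W₀.toAffine.Point, ∃ c : F, c ≠ 0 ∧ lamv C (mp K F P.xRep) = c • P'.xRep := by
  subst hC
  rcases P with _ | ⟨x, y, h⟩
  · refine ⟨0, ((C.u⁻¹ : Fˣ) : F) ^ 2, pow_ne_zero 2 (Units.ne_zero _), ?_⟩
    rw [← Affine.Point.zero_def]
    ext i
    fin_cases i <;> simp [lamv, mp]
  · obtain ⟨X, hX⟩ : ∃ X : F, X = algebraMap K F x := ⟨_, rfl⟩
    obtain ⟨Y, hY⟩ : ∃ Y : F, Y = algebraMap K F y := ⟨_, rfl⟩
    have heq : (W.baseChange F).toAffine.Equation X Y := by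
      rw [hX, hY]
      exact (Affine.map_equation W.toAffine (algebraMap K F).injective x y).2 h.1
    obtain ⟨v, hv⟩ : ∃ v : F, v = ((C.u⁻¹ : Fˣ) : F) := ⟨_, rfl⟩
    have heq' : (C • W.baseChange F).toAffine.Equation (v ^ 2 * (X - C.r))
        (v ^ 3 * (Y - C.s * (X - C.r) - C.t)) := by
      rw [Affine.equation_iff] at heq ⊢
      rw [variableChange_a₁, variableChange_a₂, variableChange_a₃, variableChange_a₄,
        variableChange_a₆, ← hv]
      linear_combination v ^ 6 * heq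
    refine ⟨Affine.Point.some _ _ ((Affine.equation_iff_nonsingular).1 heq'), 1, one_ne_zero, ?_⟩
    ext i
    fin_cases i <;> simp [lamv, mp, hX, hv]

theorem iter_pt {K F : Type} [Field K] [DecidableEq K] [Field F] [DecidableEq F] [Algebra K F]
    (W : WeierstrassCurve K) [W.IsElliptic] (W₀ : WeierstrassCurve F) [W₀.IsElliptic]
    (C : VariableChange F) (hC : C • W.baseChange F = W₀) (P : W.toAffine.Point)
    (P' : W₀.toAffine.Point) (h : ∃ c : F, c ≠ 0 ∧ lamv C (mp K F P.xRep) = c • P'.xRep)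
    (n : ℕ) : ∃ c : F, c ≠ 0 ∧ lamv C (mp K F ((2 ^ n) • P).xRep) = c • ((2 ^ n) • P').xRep := by
  induction n with
  | zero => simpa using h
  | succ n ih =>
    obtain ⟨c, hc, ih⟩ := ih
    obtain ⟨c₁, hc₁, h1⟩ := dup_rel W ((2 ^ n) • P)
    obtain ⟨c₂, hc₂, h2⟩ := dup_rel W₀ ((2 ^ n) • P')
    rw [← mul_smul, ← pow_succ'] at h1 h2
    obtain ⟨v, hv⟩ : ∃ v : F, v = ((C.u⁻¹ : Fˣ) : F) := ⟨_, rfl⟩
    have hv0 : v ≠ 0 := by rw [hv]; exact Units.ne_zero _
    have h3 := dupv_lamv C (W.baseChange F) (mp K F ((2 ^ n) • P).xRep)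
    rw [ih, hC, dupv_smul, h2, dupv_mp, h1, mp_smul, lamv_smul, ← hv, smul_smul, smul_smul] at h3
    have h4 : v ^ 6 * algebraMap K F c₁ ≠ 0 :=
      mul_ne_zero (pow_ne_zero 6 hv0) (by simpa using hc₁)
    refine ⟨(v ^ 6 * algebraMap K F c₁)⁻¹ * (c ^ 4 * c₂),
      mul_ne_zero (inv_ne_zero h4) (mul_ne_zero (pow_ne_zero 4 hc) hc₂), ?_⟩
    rw [mul_smul, h3, inv_smul_smul₀ h4]

/-- The change of variables as a matrix. -/
def mat {F : Type} [Field F] (C : VariableChange F) : Fin 2 × Fin 2 → F :=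
  fun p => (![![(C.u⁻¹ : Fˣ) ^ 2, -((C.u⁻¹ : Fˣ) ^ 2 * C.r)], ![0, 1]] :
    Fin 2 → Fin 2 → F) p.1 p.2

/-- The inverse matrix. -/
def mat' {F : Type} [Field F] (C : VariableChange F) : Fin 2 × Fin 2 → F :=
  fun p => (![![(C.u : F) ^ 2, C.r], ![0, 1]] : Fin 2 → Fin 2 → F) p.1 p.2

theorem lamv_bound {F : Type} [Field F] [NumberField F] (C : VariableChange F) :
    ∃ B : ℝ, ∀ w : Fin 2 → F, |logHeight (lamv C w) - logHeight w| ≤ B := by
  have e1 : ∀ w : Fin 2 → F, lamv C w = fun j => ∑ i, mat C (j, i) * w i := by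
    intro w
    ext j
    rw [Fin.sum_univ_two]
    fin_cases j
    · simp [lamv, mat]
      ring
    · simp [lamv, mat]
  have e2 : ∀ w : Fin 2 → F, w = fun j => ∑ i, mat' C (j, i) * lamv C w i := by
    intro w
    ext j
    rw [Fin.sum_univ_two]
    fin_cases j
    · simp [lamv, mat']
    · simp [lamv, mat']
  refine ⟨totalWeight F * Real.log 2 +
    max (logHeight (mat C)) (logHeight (mat' C)), fun w => ?_⟩
  have h1 := logHeight_linearMap_apply_le (mat C) w
  have h2 := logHeight_linearMap_apply_le (mat' C) (lamv C w)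
  rw [← e1] at h1
  rw [← e2] at h2
  rw [Nat.card_fin] at h1 h2
  have h3 := le_max_left (logHeight (mat C)) (logHeight (mat' C))
  have h5 := le_max_right (logHeight (mat C)) (logHeight (mat' C))
  push_cast at h1 h2
  rw [abs_le]
  constructor <;> linarith

/-- The absolute canonical height does not change under extension of the field and change of
variables. -/
theorem transfer {K F : Type} [Field K] [NumberField K] [DecidableEq K] [Field F] [NumberField F]
    [DecidableEq F] [Algebra K F] (W : WeierstrassCurve K) [W.IsElliptic]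
    (W₀ : WeierstrassCurve F) [W₀.IsElliptic] (C : VariableChange F)
    (hC : C • W.baseChange F = W₀) (P : W.toAffine.Point) :
    ∃ P' : W₀.toAffine.Point, nt P' = nt P := by
  obtain ⟨P', hP'⟩ := exists_pt W W₀ C hC P
  refine ⟨P', ?_⟩
  obtain ⟨A, _, hpar⟩ := approx_par
  obtain ⟨B, hB⟩ := lamv_bound C
  have h1 := canX_tendsto (hx (W := W)) _ (fun P Q => hpar K W P Q) P
  have h1' := canX_tendsto (hx (W := W₀)) _ (fun P Q => hpar F W₀ P Q) P'
  have h2 : Tendsto (fun n : ℕ => B * (1 / 4 : ℝ) ^ n) atTop (𝓝 0) := by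
    simpa using (tendsto_pow_atTop_nhds_zero_of_lt_one (by norm_num : (0 : ℝ) ≤ 1 / 4)
      (by norm_num)).const_mul B
  have h3 : Tendsto (fun n : ℕ => hx ((2 ^ n) • P') / 4 ^ n -
      Module.finrank K F * (hx ((2 ^ n) • P) / 4 ^ n)) atTop (𝓝 0) := by
    refine squeeze_zero_norm (fun n => ?_) h2
    have h5 : (0 : ℝ) < 4 ^ n := by positivity
    obtain ⟨c, hc, h6⟩ := iter_pt W W₀ C hC P P' hP' n
    have h7 := hB (mp K F ((2 ^ n) • P).xRep)
    rw [h6, logHeight_smul_eq_logHeight _ hc] at h7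
    have h8 : logHeight (mp K F ((2 ^ n) • P).xRep) =
        Module.finrank K F * logHeight ((2 ^ n) • P).xRep := logHeight_baseChange _
    rw [h8] at h7
    rw [← mul_div_assoc, ← sub_div, Real.norm_eq_abs, abs_div, abs_of_pos h5, div_eq_mul_inv,
      one_div, inv_pow]
    exact mul_le_mul_of_nonneg_right h7 (inv_pos.2 h5).le
  have h4 : Tendsto (fun n : ℕ => hx ((2 ^ n) • P') / 4 ^ n) atTop
      (𝓝 (Module.finrank K F * canX hx P)) := by
    have := h3.add (h1.const_mul (Module.finrank K F : ℝ))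
    simpa using this
  have h5 := tendsto_nhds_unique h1' h4
  have hK : (0 : ℝ) < Module.finrank ℚ K := by exact_mod_cast Module.finrank_pos
  have hF : (0 : ℝ) < Module.finrank K F := by exact_mod_cast Module.finrank_pos
  have hm : (Module.finrank ℚ F : ℝ) = Module.finrank ℚ K * Module.finrank K F := by
    exact_mod_cast (Module.finrank_mul_finrank ℚ K F).symm
  rw [nt, nt, h5, hm]
  field_simp

/-- The coefficients of a change of variables are determined by `u`. -/
theorem vc_formulas {Ω : Type} [Field Ω] [CharZero Ω] (W W₀ : WeierstrassCurve Ω)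
    (C : VariableChange Ω) (hC : C • W = W₀) (v : Ω) (hv : v = ((C.u⁻¹ : Ωˣ) : Ω)) :
    C.s = (v⁻¹ * W₀.a₁ - W.a₁) / 2 ∧ C.r = ((v ^ 2)⁻¹ * W₀.a₂ - W.a₂ + C.s * W.a₁ + C.s ^ 2) / 3 ∧
      C.t = ((v ^ 3)⁻¹ * W₀.a₃ - W.a₃ - C.r * W.a₁) / 2 := by
  have hv0 : v ≠ 0 := by rw [hv]; exact Units.ne_zero _
  subst hC
  rw [variableChange_a₁, variableChange_a₂, variableChange_a₃, ← hv]
  refine ⟨?_, ?_, ?_⟩ <;> field_simp <;> ring

/-- Two elliptic curves with the same `j`-invariant become isomorphic over an extension of degree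
at most `12`. -/
theorem exists_field {K : Type} [Field K] [NumberField K] (W W₀ : WeierstrassCurve K)
    [W.IsElliptic] [W₀.IsElliptic] (hj : W.j = W₀.j) :
    ∃ (F : Type) (_ : Field F) (_ : NumberField F) (_ : Algebra K F),
      Module.finrank K F ≤ 12 ∧
      ∃ C : VariableChange F, C • W.baseChange F = W₀.baseChange F := by
  obtain ⟨C, hC⟩ := exists_variableChange_of_j_eq (F := AlgebraicClosure K)
    (W.baseChange (AlgebraicClosure K)) (W₀.baseChange (AlgebraicClosure K)) (by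
      have e1 : (W.baseChange (AlgebraicClosure K)).j = algebraMap K _ W.j :=
        WeierstrassCurve.map_j _ _
      have e2 : (W₀.baseChange (AlgebraicClosure K)).j = algebraMap K _ W₀.j :=
        WeierstrassCurve.map_j _ _
      rw [e1, e2, hj])
  obtain ⟨v, hv⟩ : ∃ v : AlgebraicClosure K, v = ((C.u⁻¹ : (AlgebraicClosure K)ˣ) : _) :=
    ⟨_, rfl⟩
  have hv0 : v ≠ 0 := by rw [hv]; exact Units.ne_zero _
  have hΔ : v ^ 12 = algebraMap K (AlgebraicClosure K) (W₀.Δ / W.Δ) := by
    have h1 := congrArg WeierstrassCurve.Δ hC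
    rw [variableChange_Δ, ← hv] at h1
    have e1 : (W.baseChange (AlgebraicClosure K)).Δ = algebraMap K _ W.Δ :=
      WeierstrassCurve.map_Δ _ _
    have e2 : (W₀.baseChange (AlgebraicClosure K)).Δ = algebraMap K _ W₀.Δ :=
      WeierstrassCurve.map_Δ _ _
    rw [e1, e2] at h1
    have h2 : W.Δ ≠ 0 := W.isUnit_Δ.ne_zero
    have h3 : algebraMap K (AlgebraicClosure K) W.Δ ≠ 0 := by simpa using h2
    rw [map_div₀, eq_div_iff h3]
    exact h1
  have hint : IsIntegral K v := Algebra.IsIntegral.isIntegral v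
  have hdeg : Module.finrank K (IntermediateField.adjoin K {v}) ≤ 12 := by
    rw [IntermediateField.adjoin.finrank hint]
    have h1 : (Polynomial.X ^ 12 - Polynomial.C (W₀.Δ / W.Δ) : Polynomial K) ≠ 0 :=
      Polynomial.X_pow_sub_C_ne_zero (by norm_num) _
    have h2 : minpoly K v ∣ (Polynomial.X ^ 12 - Polynomial.C (W₀.Δ / W.Δ)) := by
      apply minpoly.dvd
      simp [hΔ]
    have h3 := Polynomial.natDegree_le_of_dvd h2 h1
    rw [Polynomial.natDegree_X_pow_sub_C] at h3
    exact h3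
  have hfd : FiniteDimensional K (IntermediateField.adjoin K {v}) :=
    IntermediateField.adjoin.finiteDimensional hint
  have hfdQ : FiniteDimensional ℚ (IntermediateField.adjoin K {v}) :=
    Module.Finite.trans K _
  have hNF : NumberField (IntermediateField.adjoin K {v}) := { to_finiteDimensional := hfdQ }
  refine ⟨IntermediateField.adjoin K {v}, inferInstance, hNF, inferInstance, hdeg, ?_⟩
  obtain ⟨v', hv'⟩ : ∃ v' : IntermediateField.adjoin K {v},
      algebraMap (IntermediateField.adjoin K {v}) (AlgebraicClosure K) v' = v :=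
    ⟨⟨v, IntermediateField.mem_adjoin_simple_self K v⟩, rfl⟩
  have hv'0 : v' ≠ 0 := by
    rintro rfl
    rw [map_zero] at hv'
    exact hv0 hv'.symm
  obtain ⟨hs, hr, ht⟩ := vc_formulas _ _ C hC v hv
  obtain ⟨ι, hι⟩ : ∃ ι, ι = algebraMap (IntermediateField.adjoin K {v}) (AlgebraicClosure K) :=
    ⟨_, rfl⟩
  have hcomp : ι.comp (algebraMap K (IntermediateField.adjoin K {v})) =
      algebraMap K (AlgebraicClosure K) := by
    rw [hι]; exact (IsScalarTower.algebraMap_eq _ _ _).symm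
  have hcomp' : ∀ x : K, ι (algebraMap K (IntermediateField.adjoin K {v}) x) =
      algebraMap K (AlgebraicClosure K) x := fun x => by rw [← hcomp]; rfl
  have hW : (W.baseChange (IntermediateField.adjoin K {v})).map ι =
      W.baseChange (AlgebraicClosure K) := by
    change (W.map _).map ι = W.map _
    rw [WeierstrassCurve.map_map, hcomp]
  have hW₀ : (W₀.baseChange (IntermediateField.adjoin K {v})).map ι =
      W₀.baseChange (AlgebraicClosure K) := by
    change (W₀.map _).map ι = W₀.map _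
    rw [WeierstrassCurve.map_map, hcomp]
  rw [← hι] at hv'
  obtain ⟨F, hF⟩ : ∃ F : IntermediateField K (AlgebraicClosure K),
    F = IntermediateField.adjoin K {v} := ⟨_, rfl⟩
  obtain ⟨A, hA⟩ : ∃ A, A = W.baseChange (IntermediateField.adjoin K {v}) := ⟨_, rfl⟩
  obtain ⟨A₀, hA₀⟩ : ∃ A₀, A₀ = W₀.baseChange (IntermediateField.adjoin K {v}) := ⟨_, rfl⟩
  obtain ⟨s', hs'⟩ : ∃ s', s' = (v'⁻¹ * A₀.a₁ - A.a₁) / 2 := ⟨_, rfl⟩
  obtain ⟨r', hr'⟩ : ∃ r', r' = ((v' ^ 2)⁻¹ * A₀.a₂ - A.a₂ + s' * A.a₁ + s' ^ 2) / 3 := ⟨_, rfl⟩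
  obtain ⟨t', ht'⟩ : ∃ t', t' = ((v' ^ 3)⁻¹ * A₀.a₃ - A.a₃ - r' * A.a₁) / 2 := ⟨_, rfl⟩
  rw [← hA] at hW
  rw [← hA₀] at hW₀
  rw [← hW, ← hW₀] at hs hr ht hC
  have h2 : ι 2 = 2 := map_ofNat _ _
  have h3 : ι 3 = 3 := map_ofNat _ _
  have es : ι s' = C.s := by
    rw [hs, hs']
    simp [hv', h2]
  have er : ι r' = C.r := by
    rw [hr, hr', ← es]
    simp [hv', h3]
  have et : ι t' = C.t := by
    rw [ht, ht', ← er]
    simp [hv', h2]
  rw [← hA, ← hA₀]
  refine ⟨⟨(Units.mk0 v' hv'0)⁻¹, r', s', t'⟩, ?_⟩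
  apply WeierstrassCurve.map_injective ι.injective
  simp only
  rw [← map_variableChange]
  have e : (⟨(Units.mk0 v' hv'0)⁻¹, r', s', t'⟩ : VariableChange _).map ι = C := by
    ext
    · simp [hv', hv]
    · exact er
    · exact es
    · exact et
  rw [e]
  exact hC

end Sq

end LangForms
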