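import Pool.Agent.Lib_MP_f5471b_j.JBase
import Pool.Agent.Lib_MP_f5471b_j.Final
import Pool.Agent.Lib_MP_f5471b_j.TorsGap
import Pool.Agent.Lib_MP_f5471b_s.Twist

/-!
# MP_f5471b_nt: elliptic curves whose `j`-invariant has bounded height
-/

namespace LangForms

open Height NumberField WeierstrassCurve Topology Filter

namespace Sq

theorem hW_base {K F : Type} [Field K] [NumberField K] [Field F] [NumberField F]
    [Algebra K F] (W : WeierstrassCurve K) : hW (W.baseChange F) = hW W := by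
  have h1 : (Module.finrank ℚ F : ℝ) = Module.finrank ℚ K * Module.finrank K F := by
    exact_mod_cast (Module.finrank_mul_finrank ℚ K F).symm
  have h2 : (0 : ℝ) < Module.finrank ℚ K := by exact_mod_cast Module.finrank_pos
  have h3 : (0 : ℝ) < Module.finrank K F := by exact_mod_cast Module.finrank_pos
  rw [hW, hW, hWrel_baseChange, h1]
  field_simp

/-- Every `j`-invariant has a model of small height, with an absolute constant. -/
theorem exists_model_abs : ∃ C : ℝ, 0 < C ∧ ∀ (K : Type) [Field K] [NumberField K] (j : K),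
    ∃ (W : WeierstrassCurve K) (_ : W.IsElliptic), W.j = j ∧ hW W ≤ C * (1 + hJ W) := by
  obtain ⟨A, hA⟩ : ∃ A : ℝ, A = logHeight (![1, -36, -1, 0] : Fin 4 → ℚ) + (Real.log 2 +
    logHeight₁ (1728 : ℚ)) := ⟨_, rfl⟩
  have h3Q : Fact (IsUnit (3 : ℚ)) := ⟨by norm_num⟩
  have h2Q : Fact (IsUnit (2 : ℚ)) := ⟨by norm_num⟩
  obtain ⟨C, hC⟩ : ∃ C : ℝ, C = max 1 (max (hW (ofJ0 ℚ)) (max (hW (ofJ1728 ℚ)) A)) := ⟨_, rfl⟩
  have hC1 : 1 ≤ C := by rw [hC]; exact le_max_left _ _
  have hC0 : hW (ofJ0 ℚ) ≤ C := by rw [hC]; exact (le_max_left _ _).trans (le_max_right _ _)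
  have hC2 : hW (ofJ1728 ℚ) ≤ C := by
    rw [hC]; exact (le_max_left _ _).trans ((le_max_right _ _).trans (le_max_right _ _))
  have hC3 : A ≤ C := by
    rw [hC]; exact (le_max_right _ _).trans ((le_max_right _ _).trans (le_max_right _ _))
  refine ⟨C, by linarith, ?_⟩
  intro K _ _ j
  have hd : (0 : ℝ) < Module.finrank ℚ K := by
    exact_mod_cast Module.finrank_pos
  have : Fact (IsUnit (3 : K)) := ⟨by norm_num⟩
  have : Fact (IsUnit (2 : K)) := ⟨by norm_num⟩
  have hb0 : (ofJ0 ℚ).baseChange K = ofJ0 K := by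
    ext <;> simp [ofJ0, WeierstrassCurve.baseChange]
  have hb1 : (ofJ1728 ℚ).baseChange K = ofJ1728 K := by
    ext <;> simp [ofJ1728, WeierstrassCurve.baseChange]
  have hJ0 : ∀ (W : WeierstrassCurve K) [W.IsElliptic], 0 ≤ hJ W := fun W _ =>
    div_nonneg (zero_le_logHeight₁ _) hd.le
  by_cases hj0 : j = 0
  · refine ⟨ofJ0 K, inferInstance, ?_, ?_⟩
    · rw [hj0]; exact ofJ0_j K
    · have h1 : hW (ofJ0 K) ≤ C := by
        rw [← hb0, hW_base]; exact hC0
      nlinarith [hJ0 (ofJ0 K)]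
  by_cases hj : j = 1728
  · refine ⟨ofJ1728 K, inferInstance, ?_, ?_⟩
    · rw [hj]; exact ofJ1728_j K
    · have h1 : hW (ofJ1728 K) ≤ C := by
        rw [← hb1, hW_base]; exact hC2
      nlinarith [hJ0 (ofJ1728 K)]
  have hj' : j - 1728 ≠ 0 := sub_ne_zero.2 hj
  obtain ⟨t, ht⟩ : ∃ t : K, t = (j - 1728)⁻¹ := ⟨_, rfl⟩
  have ht0 : t ≠ 0 := by rw [ht]; exact inv_ne_zero hj'
  have hκ : 1 + 1728 * t = j * t := by
    rw [ht]
    field_simp
    ring
  have hκ0 : 1 + 1728 * t ≠ 0 := by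
    rw [hκ]
    exact mul_ne_zero hj0 ht0
  have hell : (curveT t).IsElliptic := by
    rw [isElliptic_iff, curveT_Δ]
    exact (mul_ne_zero ht0 (pow_ne_zero 2 hκ0)).isUnit
  have hjt : (curveT t).j = j := by
    rw [jb_j_eq, curveT_Δ, curveT_c₄, div_eq_iff (mul_ne_zero ht0 (pow_ne_zero 2 hκ0))]
    rw [pow_succ, mul_comm, hκ]
    ring
  refine ⟨curveT t, hell, hjt, ?_⟩
  have h1 := jb_height t
  have h2 : logHeight₁ t = logHeight₁ (j - 1728) := by rw [ht, logHeight₁_inv]
  have h3 := logHeight₁_sub_le j (1728 : K)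
  rw [NumberField.totalWeight_eq_finrank] at h3
  have h31 : logHeight (![1, -36, -1, 0] : Fin 4 → K) =
      Module.finrank ℚ K * logHeight (![1, -36, -1, 0] : Fin 4 → ℚ) := by
    rw [← logHeight_baseChange]
    congr 1
    funext i
    fin_cases i <;> simp
  have h32 : logHeight₁ (1728 : K) = Module.finrank ℚ K * logHeight₁ (1728 : ℚ) := by
    rw [← logHeight₁_base]
    congr 1
    exact (map_ofNat (algebraMap ℚ K) 1728).symm
  have h4 : hWrel (curveT t) ≤ Module.finrank ℚ K * A + logHeight₁ j := by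
    rw [hA]
    rw [h31] at h1
    rw [h32] at h3
    linarith
  have h5 : hJ (curveT t) = logHeight₁ j / Module.finrank ℚ K := by
    unfold hJ
    rw [hjt]
  have h6 : hW (curveT t) ≤ A + hJ (curveT t) := by
    rw [h5]
    unfold hW
    rw [div_le_iff₀ hd, add_mul, div_mul_cancel₀ _ hd.ne']
    linarith
  nlinarith [hJ0 (curveT t)]

/-- A lower bound for the height of the points of infinite order, for the elliptic curves over
fields of bounded degree with `j`-invariant of bounded height. -/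
theorem bdd_bound (d : ℕ) (B : ℝ) : ∃ lam : ℝ, 0 < lam ∧
    ∀ (K : Type) [Field K] [NumberField K] [DecidableEq K], Module.finrank ℚ K ≤ d →
    ∀ (W : WeierstrassCurve K) [W.IsElliptic], hJ W ≤ B → ∀ P : W.toAffine.Point,
      (∀ n : ℕ, 1 ≤ n → n • P ≠ 0) → lam ≤ nt P := by
  classical
  obtain ⟨C, hC, hmod⟩ := exists_model_abs
  obtain ⟨n₀, hn₀, lam, hlam, hgap⟩ := torsion_gap_unif (d * 12) ((d * 12) * (C * (1 + B)))
  refine ⟨lam, hlam, ?_⟩
  intro K _ _ _ hK W _ hB P hP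
  obtain ⟨W₀, hW₀, hj, hht⟩ := hmod K W.j
  obtain ⟨F, _, _, _, hF, D, hD⟩ := exists_field W W₀ hj.symm
  obtain ⟨P', hP'⟩ := transfer W (W₀.baseChange F) D hD P
  have hJe : hJ W₀ = hJ W := by rw [hJ, hJ, hj]
  have hJ0 := hJ_nonneg W
  have hB0 : 0 ≤ B := hJ0.trans hB
  have hmul : Module.finrank ℚ F = Module.finrank ℚ K * Module.finrank K F :=
    (Module.finrank_mul_finrank ℚ K F).symm
  have hFd : Module.finrank ℚ F ≤ d * 12 := by
    rw [hmul]; exact Nat.mul_le_mul hK hF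
  have hFpos : (0 : ℝ) < Module.finrank ℚ F := by exact_mod_cast Module.finrank_pos
  have hrel : hWrel (W₀.baseChange F) ≤ (d * 12) * (C * (1 + B)) := by
    have h1 : hWrel (W₀.baseChange F) = Module.finrank ℚ F * hW (W₀.baseChange F) := by
      rw [hW]; field_simp
    have h2 : (Module.finrank ℚ F : ℝ) ≤ d * 12 := by exact_mod_cast hFd
    rw [h1, hW_base]
    have h3 : hW W₀ ≤ C * (1 + B) := by
      refine hht.trans (mul_le_mul_of_nonneg_left ?_ hC.le)
      rw [hJe]; linarith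
    have h4 : 0 ≤ C * (1 + B) := by positivity
    exact (mul_le_mul_of_nonneg_left h3 hFpos.le).trans (mul_le_mul_of_nonneg_right h2 h4)
  rcases hgap F hFd (W₀.baseChange F) hrel P' with h | h
  · exfalso
    have h1 := nt_nsmul n₀ P'
    rw [h, nt_zero, hP'] at h1
    have h2 : (0 : ℝ) < (n₀ : ℝ) ^ 2 := by
      have : (0 : ℝ) < n₀ := by exact_mod_cast hn₀
      positivity
    have h3 : nt P = 0 := by
      rcases mul_eq_zero.1 h1.symm with h4 | h4
      · exact absurd h4 h2.ne'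
      · exact h4
    obtain ⟨n₁, hn₁, lam₁, hlam₁, hgap₁⟩ := torsion_gap_unif (Module.finrank ℚ K) (hWrel W)
    rcases hgap₁ K le_rfl W le_rfl P with h4 | h4
    · exact hP n₁ hn₁ h4
    · linarith
  · rw [← hP']
    exact h

end Sq

end LangForms
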