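import Pool.Agent.Lib_MP_f5471b_j.NDApprox
import Pool.Agent.Lib_MP_f5471b_j.NDExact

/-!
# MP_f5471b_nt: the size of the denominator of `x`, and the group law
-/

namespace LangForms

namespace Sq

variable {F : Type} [Field F]

/-- The scale of the curve `curveT t` at `v`. -/
noncomputable def Sc (v : AbsoluteValue F ℝ) (t : F) : ℝ :=
  (max (v (1 + 1728 * t) ^ 3) (v (1 + 1728 * t) ^ 2)) ^ (1 / 6 : ℝ)

/-- The logarithm of the scaled size of `x` (the denominator of `x`, when `x` is large). -/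
noncomputable def Jl (v : AbsoluteValue F ℝ) (t : F) (w : Fin 2 → F) : ℝ :=
  Real.log (NDA.M v (Sc v t) w / (Sc v t * v (w 1)))

theorem Sc_pos (v : AbsoluteValue F ℝ) (t : F) (hκ : 1 + 1728 * t ≠ 0) : 0 < Sc v t := by
  have h := v.pos hκ
  exact Real.rpow_pos_of_pos (lt_max_of_lt_left (by positivity)) _

theorem Sc_six (v : AbsoluteValue F ℝ) (t : F) :
    Sc v t ^ 6 = max (v (1 + 1728 * t) ^ 3) (v (1 + 1728 * t) ^ 2) := by
  have h := v.nonneg (1 + 1728 * t)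
  have h0 : 0 ≤ max (v (1 + 1728 * t) ^ 3) (v (1 + 1728 * t) ^ 2) :=
    le_max_of_le_left (by positivity)
  rw [Sc, ← Real.rpow_natCast, ← Real.rpow_mul h0]
  norm_num

theorem Sc_nonneg (v : AbsoluteValue F ℝ) (t : F) : 0 ≤ Sc v t := by
  have h := v.nonneg (1 + 1728 * t)
  exact Real.rpow_nonneg (le_max_of_le_left (by positivity)) _

theorem le_Sc_two (v : AbsoluteValue F ℝ) (t : F) : v (1 + 1728 * t) ≤ Sc v t ^ 2 := by
  have h0 := Sc_nonneg v t
  have : v (1 + 1728 * t) ^ 3 ≤ (Sc v t ^ 2) ^ 3 := by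
    rw [← pow_mul, Sc_six]; exact le_max_left _ _
  exact le_of_pow_le_pow_left₀ (by norm_num) (by positivity) this

theorem le_Sc_three (v : AbsoluteValue F ℝ) (t : F) : v (1 + 1728 * t) ≤ Sc v t ^ 3 := by
  have h0 := Sc_nonneg v t
  have : v (1 + 1728 * t) ^ 2 ≤ (Sc v t ^ 3) ^ 2 := by
    rw [← pow_mul, Sc_six]; exact le_max_right _ _
  exact le_of_pow_le_pow_left₀ (by norm_num) (by positivity) this

theorem Jl_nonneg (v : AbsoluteValue F ℝ) (t : F) (w : Fin 2 → F) : 0 ≤ Jl v t w := by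
  have hS := Sc_nonneg v t
  have hb := v.nonneg (w 1)
  rcases (mul_nonneg hS hb).lt_or_eq with h | h
  · apply Real.log_nonneg
    rw [le_div_iff₀ h, one_mul]
    exact le_max_right _ _
  · rw [Jl, ← h, div_zero, Real.log_zero]

/-- A lower bound for `Jl`. -/
theorem Jl_ge (v : AbsoluteValue F ℝ) (t : F) (hκ : 1 + 1728 * t ≠ 0) (w : Fin 2 → F)
    (hw : w 1 ≠ 0) (lam : ℝ) (hlam : 0 < lam)
    (h : Sc v t * v (w 1) ≤ lam * v (12 * w 0 + w 1)) : -Real.log lam ≤ Jl v t w := by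
  have hS := Sc_pos v t hκ
  have hb := v.pos hw
  rw [Jl, ← Real.log_inv]
  apply Real.log_le_log (by positivity)
  rw [le_div_iff₀ (by positivity), inv_mul_le_iff₀ hlam]
  refine h.trans (mul_le_mul_of_nonneg_left ?_ hlam.le)
  exact le_max_left _ _

/-- The meaning of a lower bound for `Jl`. -/
theorem of_Jl_ge (v : AbsoluteValue F ℝ) (t : F) (hκ : 1 + 1728 * t ≠ 0) (w : Fin 2 → F)
    (hw : w 1 ≠ 0) (R : ℝ) (hR : 0 < R) (h : R ≤ Jl v t w) :
    Sc v t * v (w 1) ≤ Real.exp (-R) * v (12 * w 0 + w 1) := by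
  have hS := Sc_pos v t hκ
  have hb := v.pos hw
  have hSb : 0 < Sc v t * v (w 1) := by positivity
  have hM : 0 < NDA.M v (Sc v t) w := lt_of_lt_of_le hSb (le_max_right _ _)
  have h1 : Real.exp R ≤ NDA.M v (Sc v t) w / (Sc v t * v (w 1)) := by
    rw [← Real.le_log_iff_exp_le (by positivity)]
    exact h
  rw [le_div_iff₀ hSb] at h1
  have h2 : NDA.M v (Sc v t) w = v (12 * w 0 + w 1) := by
    apply max_eq_left
    by_contra hcon
    push Not at hcon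
    have h3 : NDA.M v (Sc v t) w = Sc v t * v (w 1) := max_eq_right hcon.le
    rw [h3] at h1
    have h4 : 1 < Real.exp R := by
      have := Real.add_one_lt_exp hR.ne'
      linarith
    have := mul_lt_mul_of_pos_right h4 hSb
    linarith
  rw [h2] at h1
  rw [Real.exp_neg, le_inv_mul_iff₀ (Real.exp_pos _)]
  exact h1

/-- The addition formulas in the coordinates of the short Weierstrass form. -/
theorem add_short (t : F) (w z a b : Fin 2 → F) (c : F)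
    (h : Am t (sy w z) = c • sy a b) :
    let X := 12 * w 0 + w 1
    let Y := 12 * z 0 + z 1
    let α := 12 * a 0 + a 1
    let β := 12 * b 0 + b 1
    let κ := 1 + 1728 * t
    let u0 := X * Y
    let u1 := X * z 1 + w 1 * Y
    let u2 := w 1 * z 1
    u0 ^ 2 + (6 * κ * u0 * u2 + (9 * κ ^ 2 * u2 ^ 2 - 8 * κ * u1 * u2)) = 144 * c * (α * β) ∧
      2 * u0 * u1 - 6 * κ * u1 * u2 + 8 * κ * u2 ^ 2 = 144 * c * (α * b 1 + a 1 * β) ∧
      u1 ^ 2 - 4 * u0 * u2 = 144 * c * (a 1 * b 1) := by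
  have h0 := congrFun h 0
  have h1 := congrFun h 1
  have h2 := congrFun h 2
  simp only [Am, sy, Pi.smul_apply, smul_eq_mul, Matrix.cons_val_zero, Matrix.cons_val_one,
    Matrix.cons_val] at h0 h1 h2
  refine ⟨?_, ?_, ?_⟩
  · linear_combination 144 * 144 * h0 + 12 * 144 * h1 + 144 * h2
  · linear_combination 12 * 144 * h1 + 2 * 144 * h2
  · linear_combination 144 * h2

/-- Bounds for the roots, for an arbitrary absolute value. -/
theorem roots_bound (v : AbsoluteValue F ℝ) (S lam : ℝ) (hS : 0 < S) (hlam : 0 < lam)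
    (α β a b : F) (h0 : α * β ≠ 0) (h1 : S * v (α * b + a * β) ≤ 10 * lam * v (α * β))
    (h2 : S ^ 2 * v (a * b) ≤ 16 * lam ^ 2 * v (α * β)) : S * v a ≤ 12 * lam * v α := by
  have hα : 0 < v α := v.pos (left_ne_zero_of_mul h0)
  have hβ : 0 < v β := v.pos (right_ne_zero_of_mul h0)
  have ha := v.nonneg a
  have hb := v.nonneg b
  rw [map_mul] at h1 h2
  rw [map_mul] at h2
  by_contra hcon
  push Not at hcon
  -- `|a β| ≤ |α b| + |α b + a β|`
  have h3 : v a * v β ≤ v α * v b + v (α * b + a * β) := by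
    have e : a * β = (α * b + a * β) - α * b := by ring
    have h4 := v.sub_le_add (α * b + a * β) (α * b)
    rw [← e, map_mul, map_mul] at h4
    linarith
  have h4 : S * (v a * v β) ≤ S * (v α * v b) + 10 * lam * (v α * v β) := by
    have := mul_le_mul_of_nonneg_left h3 hS.le
    linarith
  have h5 : 12 * lam * v α * v β < S * v a * v β := mul_lt_mul_of_pos_right hcon hβ
  have h6 : 2 * lam * v β < S * v b := by
    have h7 : v α * (2 * lam * v β) < v α * (S * v b) := by nlinarith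
    exact lt_of_mul_lt_mul_left h7 hα.le
  have h7 : 12 * lam * v α * (2 * lam * v β) < S * v a * (S * v b) :=
    mul_lt_mul'' hcon h6 (by positivity) (by positivity)
  have h8 : 0 < lam ^ 2 * (v α * v β) := by positivity
  nlinarith

/-- Bounds for the roots, for a nonarchimedean absolute value. -/
theorem roots_bound_na (v : AbsoluteValue F ℝ) (hv : IsNonarchimedean v) (S lam : ℝ) (hS : 0 < S)
    (hlam : 0 < lam) (α β a b : F) (h0 : α * β ≠ 0)
    (h1 : S * v (α * b + a * β) ≤ lam * v (α * β))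
    (h2 : S ^ 2 * v (a * b) ≤ lam ^ 2 * v (α * β)) : S * v a ≤ lam * v α := by
  have hα : 0 < v α := v.pos (left_ne_zero_of_mul h0)
  have hβ : 0 < v β := v.pos (right_ne_zero_of_mul h0)
  have ha := v.nonneg a
  have hb := v.nonneg b
  rw [map_mul] at h1 h2
  rw [map_mul] at h2
  by_contra hcon
  push Not at hcon
  have h5 : lam * v α * v β < S * v a * v β := mul_lt_mul_of_pos_right hcon hβ
  have h6 : S * v b < lam * v β := by
    by_contra h7
    push Not at h7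
    have h8 : lam * v α * (lam * v β) < S * v a * (S * v b) := by
      calc lam * v α * (lam * v β) < S * v a * (lam * v β) :=
            mul_lt_mul_of_pos_right hcon (by positivity)
        _ ≤ S * v a * (S * v b) := mul_le_mul_of_nonneg_left h7 (by positivity)
    nlinarith
  have h7 : S * v (α * b) < S * v (a * β) := by
    rw [map_mul, map_mul]
    have h8 : v α * (S * v b) < v α * (lam * v β) := mul_lt_mul_of_pos_left h6 hα
    linarith
  have h8 : v (α * b) < v (a * β) := lt_of_mul_lt_mul_left h7 hS.le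
  have h9 : v (a * β) ≤ v (α * b + a * β) := by
    rw [add_comm]
    exact NDEAux.na_dom hv le_rfl h8
  have h10 : S * v (a * β) ≤ lam * (v α * v β) := by
    have := mul_le_mul_of_nonneg_left h9 hS.le
    linarith
  rw [map_mul] at h10
  linarith

/-- The images of two points close to `0` under the addition map, for an arbitrary absolute
value. -/
theorem add_close (v : AbsoluteValue F ℝ) (t : F) (hκ : 1 + 1728 * t ≠ 0) (w z a b : Fin 2 → F)
    (c : F) (h : Am t (sy w z) = c • sy a b) (lam : ℝ) (hlam : 0 < lam) (hlam1 : lam ≤ 1 / 10)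
    (hX : 12 * w 0 + w 1 ≠ 0) (hY : 12 * z 0 + z 1 ≠ 0)
    (hw : Sc v t * v (w 1) ≤ lam * v (12 * w 0 + w 1))
    (hz : Sc v t * v (z 1) ≤ lam * v (12 * z 0 + z 1)) :
    Sc v t * v (a 1) ≤ 12 * lam * v (12 * a 0 + a 1) := by
  obtain ⟨e0, e1, e2⟩ := add_short t w z a b c h
  have hS := Sc_pos v t hκ
  have hk2 := le_Sc_two v t
  have hk3 := le_Sc_three v t
  obtain ⟨S, hSd⟩ : ∃ S, S = Sc v t := ⟨_, rfl⟩
  obtain ⟨κ, hκd⟩ : ∃ κ, κ = 1 + 1728 * t := ⟨_, rfl⟩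
  obtain ⟨X, hXd⟩ : ∃ X, X = 12 * w 0 + w 1 := ⟨_, rfl⟩
  obtain ⟨Y, hYd⟩ : ∃ Y, Y = 12 * z 0 + z 1 := ⟨_, rfl⟩
  obtain ⟨α, hαd⟩ : ∃ α, α = 12 * a 0 + a 1 := ⟨_, rfl⟩
  obtain ⟨β, hβd⟩ : ∃ β, β = 12 * b 0 + b 1 := ⟨_, rfl⟩
  obtain ⟨u0, hu0⟩ : ∃ u, u = X * Y := ⟨_, rfl⟩
  obtain ⟨u1, hu1⟩ : ∃ u, u = X * z 1 + w 1 * Y := ⟨_, rfl⟩
  obtain ⟨u2, hu2⟩ : ∃ u, u = w 1 * z 1 := ⟨_, rfl⟩
  rw [← hκd, ← hXd, ← hYd, ← hαd, ← hβd, ← hu0, ← hu1, ← hu2] at e0
  rw [← hκd, ← hXd, ← hYd, ← hαd, ← hβd, ← hu0, ← hu1, ← hu2] at e1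
  rw [← hXd, ← hYd, ← hu0, ← hu1, ← hu2] at e2
  rw [← hSd] at hS hk2 hk3 hw hz ⊢
  rw [← hκd] at hk2 hk3
  rw [← hXd] at hw hX
  rw [← hYd] at hz hY
  rw [← hαd]
  have hX0 := v.pos hX
  have hY0 := v.pos hY
  have hw0 := v.nonneg (w 1)
  have hz0 := v.nonneg (z 1)
  have hk0 := v.nonneg κ
  obtain ⟨m, hm⟩ : ∃ m, m = v X * v Y := ⟨_, rfl⟩
  have hm0 : 0 < m := by rw [hm]; positivity
  have b0 : v u0 = m := by rw [hu0, map_mul, hm]
  have b1 : S * v u1 ≤ 2 * lam * m := by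
    have h1 := v.add_le (X * z 1) (w 1 * Y)
    rw [map_mul, map_mul] at h1
    rw [hu1]
    calc S * v (X * z 1 + w 1 * Y) ≤ S * (v X * v (z 1) + v (w 1) * v Y) :=
          mul_le_mul_of_nonneg_left h1 hS.le
      _ = v X * (S * v (z 1)) + S * v (w 1) * v Y := by ring
      _ ≤ v X * (lam * v Y) + lam * v X * v Y := by gcongr
      _ = 2 * lam * m := by rw [hm]; ring
  have b2 : S ^ 2 * v u2 ≤ lam ^ 2 * m := by
    rw [hu2, map_mul]
    calc S ^ 2 * (v (w 1) * v (z 1)) = S * v (w 1) * (S * v (z 1)) := by ring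
      _ ≤ lam * v X * (lam * v Y) := mul_le_mul hw hz (by positivity) (by positivity)
      _ = lam ^ 2 * m := by rw [hm]; ring
  have hu10 := v.nonneg u1
  have hu20 := v.nonneg u2
  -- powers of `lam`
  have hl2 : lam ^ 2 ≤ lam / 10 := by nlinarith
  have hl3 : lam ^ 3 ≤ lam / 100 := by nlinarith
  have hl4 : lam ^ 4 ≤ lam / 1000 := by nlinarith
  have hl2' : lam ^ 2 ≤ 1 / 100 := by nlinarith
  have hl3' : lam ^ 3 ≤ 1 / 1000 := by nlinarith
  have hl4' : lam ^ 4 ≤ 1 / 10000 := by nlinarith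
  -- the terms
  have t1 : v (6 * κ * u0 * u2) ≤ 6 * lam ^ 2 * m ^ 2 := by
    rw [map_mul, map_mul, map_mul, b0]
    have h6 := NDA.ofNat_le v 6 (F := F)
    calc v 6 * v κ * m * v u2 ≤ 6 * S ^ 2 * m * v u2 := by gcongr
      _ = 6 * m * (S ^ 2 * v u2) := by ring
      _ ≤ 6 * m * (lam ^ 2 * m) := by gcongr
      _ = _ := by ring
  have t2 : v (9 * κ ^ 2 * u2 ^ 2) ≤ 9 * lam ^ 4 * m ^ 2 := by
    rw [map_mul, map_mul, map_pow, map_pow]
    have h9 := NDA.ofNat_le v 9 (F := F)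
    calc v 9 * v κ ^ 2 * v u2 ^ 2 ≤ 9 * (S ^ 2) ^ 2 * v u2 ^ 2 := by gcongr
      _ = 9 * (S ^ 2 * v u2) ^ 2 := by ring
      _ ≤ 9 * (lam ^ 2 * m) ^ 2 := by gcongr
      _ = _ := by ring
  have t3 : v (8 * κ * u1 * u2) ≤ 16 * lam ^ 3 * m ^ 2 := by
    rw [map_mul, map_mul, map_mul]
    have h8 := NDA.ofNat_le v 8 (F := F)
    calc v 8 * v κ * v u1 * v u2 ≤ 8 * S ^ 3 * v u1 * v u2 := by gcongr
      _ = 8 * (S * v u1) * (S ^ 2 * v u2) := by ring
      _ ≤ 8 * (2 * lam * m) * (lam ^ 2 * m) := by gcongr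
      _ = _ := by ring
  have A0 : m ^ 2 / 2 ≤ v (144 * c * (α * β)) := by
    rw [← e0]
    have s1 : v (6 * κ * u0 * u2 + (9 * κ ^ 2 * u2 ^ 2 - 8 * κ * u1 * u2)) ≤
        6 * lam ^ 2 * m ^ 2 + (9 * lam ^ 4 * m ^ 2 + 16 * lam ^ 3 * m ^ 2) := by
      refine (v.add_le _ _).trans (add_le_add t1 ?_)
      exact (v.sub_le_add _ _).trans (add_le_add t2 t3)
    have s2 := v.le_sub (u0 ^ 2) (-(6 * κ * u0 * u2 + (9 * κ ^ 2 * u2 ^ 2 - 8 * κ * u1 * u2)))
    rw [sub_neg_eq_add, map_neg_eq_map, map_pow, b0] at s2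
    have hm2 : 0 ≤ m ^ 2 := by positivity
    nlinarith
  have A1 : S * v (144 * c * (α * b 1 + a 1 * β)) ≤ 5 * lam * m ^ 2 := by
    rw [← e1]
    have s1 : v (2 * u0 * u1 - 6 * κ * u1 * u2 + 8 * κ * u2 ^ 2) ≤
        v (2 * u0 * u1) + v (6 * κ * u1 * u2) + v (8 * κ * u2 ^ 2) :=
      (v.add_le _ _).trans (add_le_add_left (v.sub_le_add _ _) _)
    have r1 : S * v (2 * u0 * u1) ≤ 4 * lam * m ^ 2 := by
      rw [map_mul, map_mul, b0]
      have h2 := NDA.ofNat_le v 2 (F := F)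
      calc S * (v 2 * m * v u1) ≤ S * (2 * m * v u1) := by gcongr
        _ = 2 * m * (S * v u1) := by ring
        _ ≤ 2 * m * (2 * lam * m) := by gcongr
        _ = _ := by ring
    have r2 : S * v (6 * κ * u1 * u2) ≤ 12 * lam ^ 3 * m ^ 2 := by
      rw [map_mul, map_mul, map_mul]
      have h6 := NDA.ofNat_le v 6 (F := F)
      calc S * (v 6 * v κ * v u1 * v u2) ≤ S * (6 * S ^ 2 * v u1 * v u2) := by gcongr
        _ = 6 * (S * v u1) * (S ^ 2 * v u2) := by ring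
        _ ≤ 6 * (2 * lam * m) * (lam ^ 2 * m) := by gcongr
        _ = _ := by ring
    have r3 : S * v (8 * κ * u2 ^ 2) ≤ 8 * lam ^ 4 * m ^ 2 := by
      rw [map_mul, map_mul, map_pow]
      have h8 := NDA.ofNat_le v 8 (F := F)
      calc S * (v 8 * v κ * v u2 ^ 2) ≤ S * (8 * S ^ 3 * v u2 ^ 2) := by gcongr
        _ = 8 * (S ^ 2 * v u2) ^ 2 := by ring
        _ ≤ 8 * (lam ^ 2 * m) ^ 2 := by gcongr
        _ = _ := by ring
    have hm2 : 0 ≤ m ^ 2 := by positivity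
    have s2 := mul_le_mul_of_nonneg_left s1 hS.le
    nlinarith
  have A2 : S ^ 2 * v (144 * c * (a 1 * b 1)) ≤ 8 * lam ^ 2 * m ^ 2 := by
    rw [← e2]
    have s1 := v.sub_le_add (u1 ^ 2) (4 * u0 * u2)
    have h4 := NDA.ofNat_le v 4 (F := F)
    rw [map_pow, map_mul, map_mul, b0] at s1
    calc S ^ 2 * v (u1 ^ 2 - 4 * u0 * u2) ≤ S ^ 2 * (v u1 ^ 2 + v 4 * m * v u2) := by gcongr
      _ ≤ S ^ 2 * (v u1 ^ 2 + 4 * m * v u2) := by gcongr
      _ = (S * v u1) ^ 2 + 4 * m * (S ^ 2 * v u2) := by ring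
      _ ≤ (2 * lam * m) ^ 2 + 4 * m * (lam ^ 2 * m) := by gcongr
      _ = _ := by ring
  rw [map_mul] at A0 A1 A2
  obtain ⟨C, hC⟩ : ∃ C, C = v (144 * c) := ⟨_, rfl⟩
  rw [← hC] at A0 A1 A2
  have hC0 : 0 ≤ C := by rw [hC]; exact v.nonneg _
  have hpos : 0 < C * v (α * β) := lt_of_lt_of_le (by positivity) A0
  have hCpos : 0 < C := by
    rcases hC0.lt_or_eq with h | h
    · exact h
    · rw [← h, zero_mul] at hpos
      exact absurd hpos (lt_irrefl _)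
  have hαβ : α * β ≠ 0 := by
    intro h0
    rw [h0, map_zero, mul_zero] at hpos
    exact lt_irrefl _ hpos
  refine roots_bound v S lam hS hlam α β (a 1) (b 1) hαβ ?_ ?_
  · have h1 : C * (S * v (α * b 1 + a 1 * β)) ≤ C * (10 * lam * v (α * β)) := by
      calc C * (S * v (α * b 1 + a 1 * β)) = S * (C * v (α * b 1 + a 1 * β)) := by ring
        _ ≤ 5 * lam * m ^ 2 := A1
        _ = 10 * lam * (m ^ 2 / 2) := by ring
        _ ≤ 10 * lam * (C * v (α * β)) := by gcongr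
        _ = _ := by ring
    exact le_of_mul_le_mul_left h1 hCpos
  · have h1 : C * (S ^ 2 * v (a 1 * b 1)) ≤ C * (16 * lam ^ 2 * v (α * β)) := by
      calc C * (S ^ 2 * v (a 1 * b 1)) = S ^ 2 * (C * v (a 1 * b 1)) := by ring
        _ ≤ 8 * lam ^ 2 * m ^ 2 := A2
        _ = 16 * lam ^ 2 * (m ^ 2 / 2) := by ring
        _ ≤ 16 * lam ^ 2 * (C * v (α * β)) := by gcongr
        _ = _ := by ring
    exact le_of_mul_le_mul_left h1 hCpos

theorem na_ofNat_le (v : AbsoluteValue F ℝ) (hv : IsNonarchimedean v) (n : ℕ) [n.AtLeastTwo] :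
    v (OfNat.ofNat n : F) ≤ 1 := by
  have h := IsNonarchimedean.apply_natCast_le_one hv (n := OfNat.ofNat n)
  exact_mod_cast h

/-- The images of two points close to `0` under the addition map, for a nonarchimedean absolute
value. -/
theorem add_close_na (v : AbsoluteValue F ℝ) (hv : IsNonarchimedean v) (t : F)
    (hκ : 1 + 1728 * t ≠ 0) (w z a b : Fin 2 → F)
    (c : F) (h : Am t (sy w z) = c • sy a b) (lam : ℝ) (hlam : 0 < lam) (hlam1 : lam < 1)
    (hX : 12 * w 0 + w 1 ≠ 0) (hY : 12 * z 0 + z 1 ≠ 0)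
    (hw : Sc v t * v (w 1) ≤ lam * v (12 * w 0 + w 1))
    (hz : Sc v t * v (z 1) ≤ lam * v (12 * z 0 + z 1)) :
    Sc v t * v (a 1) ≤ lam * v (12 * a 0 + a 1) := by
  obtain ⟨e0, e1, e2⟩ := add_short t w z a b c h
  have hS := Sc_pos v t hκ
  have hk2 := le_Sc_two v t
  have hk3 := le_Sc_three v t
  obtain ⟨S, hSd⟩ : ∃ S, S = Sc v t := ⟨_, rfl⟩
  obtain ⟨κ, hκd⟩ : ∃ κ, κ = 1 + 1728 * t := ⟨_, rfl⟩
  obtain ⟨X, hXd⟩ : ∃ X, X = 12 * w 0 + w 1 := ⟨_, rfl⟩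
  obtain ⟨Y, hYd⟩ : ∃ Y, Y = 12 * z 0 + z 1 := ⟨_, rfl⟩
  obtain ⟨α, hαd⟩ : ∃ α, α = 12 * a 0 + a 1 := ⟨_, rfl⟩
  obtain ⟨β, hβd⟩ : ∃ β, β = 12 * b 0 + b 1 := ⟨_, rfl⟩
  obtain ⟨u0, hu0⟩ : ∃ u, u = X * Y := ⟨_, rfl⟩
  obtain ⟨u1, hu1⟩ : ∃ u, u = X * z 1 + w 1 * Y := ⟨_, rfl⟩
  obtain ⟨u2, hu2⟩ : ∃ u, u = w 1 * z 1 := ⟨_, rfl⟩
  rw [← hκd, ← hXd, ← hYd, ← hαd, ← hβd, ← hu0, ← hu1, ← hu2] at e0
  rw [← hκd, ← hXd, ← hYd, ← hαd, ← hβd, ← hu0, ← hu1, ← hu2] at e1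
  rw [← hXd, ← hYd, ← hu0, ← hu1, ← hu2] at e2
  rw [← hSd] at hS hk2 hk3 hw hz ⊢
  rw [← hκd] at hk2 hk3
  rw [← hXd] at hw hX
  rw [← hYd] at hz hY
  rw [← hαd]
  have hX0 := v.pos hX
  have hY0 := v.pos hY
  have hw0 := v.nonneg (w 1)
  have hz0 := v.nonneg (z 1)
  have hk0 := v.nonneg κ
  obtain ⟨m, hm⟩ : ∃ m, m = v X * v Y := ⟨_, rfl⟩
  have hm0 : 0 < m := by rw [hm]; positivity
  have b0 : v u0 = m := by rw [hu0, map_mul, hm]
  have b1 : S * v u1 ≤ lam * m := by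
    have h1 : v u1 ≤ max (v X * v (z 1)) (v (w 1) * v Y) := by
      rw [hu1, ← map_mul, ← map_mul]
      exact hv _ _
    refine (mul_le_mul_of_nonneg_left h1 hS.le).trans ?_
    rw [mul_max_of_nonneg _ _ hS.le]
    apply max_le
    · calc S * (v X * v (z 1)) = v X * (S * v (z 1)) := by ring
        _ ≤ v X * (lam * v Y) := by gcongr
        _ = lam * m := by rw [hm]; ring
    · calc S * (v (w 1) * v Y) = S * v (w 1) * v Y := by ring
        _ ≤ lam * v X * v Y := by gcongr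
        _ = lam * m := by rw [hm]; ring
  have b2 : S ^ 2 * v u2 ≤ lam ^ 2 * m := by
    rw [hu2, map_mul]
    calc S ^ 2 * (v (w 1) * v (z 1)) = S * v (w 1) * (S * v (z 1)) := by ring
      _ ≤ lam * v X * (lam * v Y) := mul_le_mul hw hz (by positivity) (by positivity)
      _ = lam ^ 2 * m := by rw [hm]; ring
  have hu10 := v.nonneg u1
  have hu20 := v.nonneg u2
  have hl2 : lam ^ 2 ≤ lam := by nlinarith
  have hl2' : lam ^ 2 < 1 := by nlinarith
  have hl3 : lam ^ 3 ≤ lam := by nlinarith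
  have hl4 : lam ^ 4 ≤ lam := by nlinarith
  have hl3' : lam ^ 3 < 1 := by linarith
  have hl4' : lam ^ 4 < 1 := by linarith
  have hm2 : 0 < m ^ 2 := by positivity
  -- the terms
  have t1 : v (6 * κ * u0 * u2) < m ^ 2 := by
    rw [map_mul, map_mul, map_mul, b0]
    have h6 := na_ofNat_le v hv 6
    calc v 6 * v κ * m * v u2 ≤ 1 * S ^ 2 * m * v u2 := by gcongr
      _ = m * (S ^ 2 * v u2) := by ring
      _ ≤ m * (lam ^ 2 * m) := by gcongr
      _ = lam ^ 2 * m ^ 2 := by ring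
      _ < _ := mul_lt_of_lt_one_left hm2 hl2'
  have t2 : v (9 * κ ^ 2 * u2 ^ 2) < m ^ 2 := by
    rw [map_mul, map_mul, map_pow, map_pow]
    have h9 := na_ofNat_le v hv 9
    calc v 9 * v κ ^ 2 * v u2 ^ 2 ≤ 1 * (S ^ 2) ^ 2 * v u2 ^ 2 := by gcongr
      _ = (S ^ 2 * v u2) ^ 2 := by ring
      _ ≤ (lam ^ 2 * m) ^ 2 := by gcongr
      _ = lam ^ 4 * m ^ 2 := by ring
      _ < _ := mul_lt_of_lt_one_left hm2 hl4'
  have t3 : v (8 * κ * u1 * u2) < m ^ 2 := by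
    rw [map_mul, map_mul, map_mul]
    have h8 := na_ofNat_le v hv 8
    calc v 8 * v κ * v u1 * v u2 ≤ 1 * S ^ 3 * v u1 * v u2 := by gcongr
      _ = (S * v u1) * (S ^ 2 * v u2) := by ring
      _ ≤ (lam * m) * (lam ^ 2 * m) := by gcongr
      _ = lam ^ 3 * m ^ 2 := by ring
      _ < _ := mul_lt_of_lt_one_left hm2 hl3'
  have A0 : m ^ 2 ≤ v (144 * c * (α * β)) := by
    rw [← e0]
    apply NDEAux.na_dom hv
    · rw [map_pow, b0]
    · apply NDEAux.na_lt hv t1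
      rw [sub_eq_add_neg]
      apply NDEAux.na_lt hv t2
      rw [map_neg_eq_map]
      exact t3
  have A1 : S * v (144 * c * (α * b 1 + a 1 * β)) ≤ lam * m ^ 2 := by
    rw [← e1]
    have r1 : S * v (2 * u0 * u1) ≤ lam * m ^ 2 := by
      rw [map_mul, map_mul, b0]
      have h2 := na_ofNat_le v hv 2
      calc S * (v 2 * m * v u1) ≤ S * (1 * m * v u1) := by gcongr
        _ = m * (S * v u1) := by ring
        _ ≤ m * (lam * m) := by gcongr
        _ = _ := by ring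
    have r2 : S * v (6 * κ * u1 * u2) ≤ lam * m ^ 2 := by
      rw [map_mul, map_mul, map_mul]
      have h6 := na_ofNat_le v hv 6
      calc S * (v 6 * v κ * v u1 * v u2) ≤ S * (1 * S ^ 2 * v u1 * v u2) := by gcongr
        _ = (S * v u1) * (S ^ 2 * v u2) := by ring
        _ ≤ (lam * m) * (lam ^ 2 * m) := by gcongr
        _ = lam ^ 3 * m ^ 2 := by ring
        _ ≤ _ := by gcongr
    have r3 : S * v (8 * κ * u2 ^ 2) ≤ lam * m ^ 2 := by
      rw [map_mul, map_mul, map_pow]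
      have h8 := na_ofNat_le v hv 8
      calc S * (v 8 * v κ * v u2 ^ 2) ≤ S * (1 * S ^ 3 * v u2 ^ 2) := by gcongr
        _ = (S ^ 2 * v u2) ^ 2 := by ring
        _ ≤ (lam ^ 2 * m) ^ 2 := by gcongr
        _ = lam ^ 4 * m ^ 2 := by ring
        _ ≤ _ := by gcongr
    have hd : ∀ x : F, S * v x ≤ lam * m ^ 2 ↔ v x ≤ lam * m ^ 2 / S := fun x => by
      rw [le_div_iff₀ hS, mul_comm]
    rw [hd] at r1 r2 r3 ⊢
    exact NDEAux.na_le hv (NDEAux.na_sub_le hv r1 r2) r3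
  have A2 : S ^ 2 * v (144 * c * (a 1 * b 1)) ≤ lam ^ 2 * m ^ 2 := by
    rw [← e2]
    have r1 : S ^ 2 * v (u1 ^ 2) ≤ lam ^ 2 * m ^ 2 := by
      rw [map_pow]
      calc S ^ 2 * v u1 ^ 2 = (S * v u1) ^ 2 := by ring
        _ ≤ (lam * m) ^ 2 := by gcongr
        _ = _ := by ring
    have r2 : S ^ 2 * v (4 * u0 * u2) ≤ lam ^ 2 * m ^ 2 := by
      rw [map_mul, map_mul, b0]
      have h4 := na_ofNat_le v hv 4
      calc S ^ 2 * (v 4 * m * v u2) ≤ S ^ 2 * (1 * m * v u2) := by gcongr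
        _ = m * (S ^ 2 * v u2) := by ring
        _ ≤ m * (lam ^ 2 * m) := by gcongr
        _ = _ := by ring
    have hS2 : 0 < S ^ 2 := by positivity
    have hd : ∀ x : F, S ^ 2 * v x ≤ lam ^ 2 * m ^ 2 ↔ v x ≤ lam ^ 2 * m ^ 2 / S ^ 2 := fun x => by
      rw [le_div_iff₀ hS2, mul_comm]
    rw [hd] at r1 r2 ⊢
    exact NDEAux.na_sub_le hv r1 r2
  rw [map_mul] at A0 A1 A2
  obtain ⟨C, hC⟩ : ∃ C, C = v (144 * c) := ⟨_, rfl⟩
  rw [← hC] at A0 A1 A2
  have hC0 : 0 ≤ C := by rw [hC]; exact v.nonneg _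
  have hpos : 0 < C * v (α * β) := lt_of_lt_of_le (by positivity) A0
  have hCpos : 0 < C := by
    rcases hC0.lt_or_eq with h | h
    · exact h
    · rw [← h, zero_mul] at hpos
      exact absurd hpos (lt_irrefl _)
  have hαβ : α * β ≠ 0 := by
    intro h0
    rw [h0, map_zero, mul_zero] at hpos
    exact lt_irrefl _ hpos
  refine roots_bound_na v hv S lam hS hlam α β (a 1) (b 1) hαβ ?_ ?_
  · have h1 : C * (S * v (α * b 1 + a 1 * β)) ≤ C * (lam * v (α * β)) := by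
      calc C * (S * v (α * b 1 + a 1 * β)) = S * (C * v (α * b 1 + a 1 * β)) := by ring
        _ ≤ lam * m ^ 2 := A1
        _ ≤ lam * (C * v (α * β)) := by gcongr
        _ = _ := by ring
    exact le_of_mul_le_mul_left h1 hCpos
  · have h1 : C * (S ^ 2 * v (a 1 * b 1)) ≤ C * (lam ^ 2 * v (α * β)) := by
      calc C * (S ^ 2 * v (a 1 * b 1)) = S ^ 2 * (C * v (a 1 * b 1)) := by ring
        _ ≤ lam ^ 2 * m ^ 2 := A2
        _ ≤ lam ^ 2 * (C * v (α * β)) := by gcongr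
        _ = _ := by ring
    exact le_of_mul_le_mul_left h1 hCpos

/-- The property of `Jl` with respect to addition. -/
theorem Jl_add {X : Type} [AddCommGroup X] {t : F} {ξ : X → Fin 2 → F} (hξ : XMap t ξ)
    (v : AbsoluteValue F ℝ) (hκ : 1 + 1728 * t ≠ 0) (P Q : X) (hP : P ≠ 0) (hQ : Q ≠ 0)
    (hPQ : P + Q ≠ 0) :
    min (Jl v t (ξ P)) (Jl v t (ξ Q)) ≤ Jl v t (ξ (P + Q)) + Real.log 12 := by
  have hS := Sc_pos v t hκ
  obtain ⟨R, hR⟩ : ∃ R, R = min (Jl v t (ξ P)) (Jl v t (ξ Q)) := ⟨_, rfl⟩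
  rw [← hR]
  have h0 := Jl_nonneg v t (ξ (P + Q))
  by_cases hcase : R ≤ Real.log 12
  · linarith
  push Not at hcase
  have hlog : 0 < Real.log 12 := Real.log_pos (by norm_num)
  have hR0 : 0 < R := hlog.trans hcase
  have hP1 : ξ P 1 ≠ 0 := fun h => hP ((hξ.zero_iff P).1 h)
  have hQ1 : ξ Q 1 ≠ 0 := fun h => hQ ((hξ.zero_iff Q).1 h)
  have hPQ1 : ξ (P + Q) 1 ≠ 0 := fun h => hPQ ((hξ.zero_iff _).1 h)
  have h1 := of_Jl_ge v t hκ (ξ P) hP1 R hR0 (by rw [hR]; exact min_le_left _ _)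
  have h2 := of_Jl_ge v t hκ (ξ Q) hQ1 R hR0 (by rw [hR]; exact min_le_right _ _)
  obtain ⟨c, hc, he⟩ := hξ.rel P Q
  have hlam : Real.exp (-R) ≤ 1 / 10 := by
    have h3 : Real.exp (-R) ≤ Real.exp (-Real.log 12) := Real.exp_le_exp.2 (by linarith)
    rw [Real.exp_neg (Real.log 12), Real.exp_log (by norm_num)] at h3
    linarith
  have hX : 12 * ξ P 0 + ξ P 1 ≠ 0 := by
    intro h
    rw [h, map_zero, mul_zero] at h1
    have := mul_pos hS (v.pos hP1)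
    linarith
  have hY : 12 * ξ Q 0 + ξ Q 1 ≠ 0 := by
    intro h
    rw [h, map_zero, mul_zero] at h2
    have := mul_pos hS (v.pos hQ1)
    linarith
  have h3 := add_close v t hκ _ _ _ _ c he _ (Real.exp_pos _) hlam hX hY h1 h2
  have h4 := Jl_ge v t hκ _ hPQ1 _ (by positivity) h3
  rw [Real.log_mul (by norm_num) (Real.exp_pos _).ne', Real.log_exp] at h4
  linarith

/-- The property of `Jl` with respect to addition, at the nonarchimedean places. -/
theorem Jl_add_na {X : Type} [AddCommGroup X] {t : F} {ξ : X → Fin 2 → F} (hξ : XMap t ξ)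
    (v : AbsoluteValue F ℝ) (hv : IsNonarchimedean v) (hκ : 1 + 1728 * t ≠ 0) (P Q : X)
    (hP : P ≠ 0) (hQ : Q ≠ 0) (hPQ : P + Q ≠ 0) :
    min (Jl v t (ξ P)) (Jl v t (ξ Q)) ≤ Jl v t (ξ (P + Q)) := by
  have hS := Sc_pos v t hκ
  obtain ⟨R, hR⟩ : ∃ R, R = min (Jl v t (ξ P)) (Jl v t (ξ Q)) := ⟨_, rfl⟩
  rw [← hR]
  have h0 := Jl_nonneg v t (ξ (P + Q))
  by_cases hcase : R ≤ 0
  · linarith
  push Not at hcase
  have hP1 : ξ P 1 ≠ 0 := fun h => hP ((hξ.zero_iff P).1 h)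
  have hQ1 : ξ Q 1 ≠ 0 := fun h => hQ ((hξ.zero_iff Q).1 h)
  have hPQ1 : ξ (P + Q) 1 ≠ 0 := fun h => hPQ ((hξ.zero_iff _).1 h)
  have h1 := of_Jl_ge v t hκ (ξ P) hP1 R hcase (by rw [hR]; exact min_le_left _ _)
  have h2 := of_Jl_ge v t hκ (ξ Q) hQ1 R hcase (by rw [hR]; exact min_le_right _ _)
  obtain ⟨c, hc, he⟩ := hξ.rel P Q
  have hlam : Real.exp (-R) < 1 := by
    rw [Real.exp_lt_one_iff]; linarith
  have hX : 12 * ξ P 0 + ξ P 1 ≠ 0 := by
    intro h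
    rw [h, map_zero, mul_zero] at h1
    have := mul_pos hS (v.pos hP1)
    linarith
  have hY : 12 * ξ Q 0 + ξ Q 1 ≠ 0 := by
    intro h
    rw [h, map_zero, mul_zero] at h2
    have := mul_pos hS (v.pos hQ1)
    linarith
  have h3 := add_close_na v hv t hκ _ _ _ _ c he _ (Real.exp_pos _) hlam hX hY h1 h2
  have h4 := Jl_ge v t hκ _ hPQ1 _ (Real.exp_pos _) h3
  rw [Real.log_exp] at h4
  linarith

end Sq

end LangForms
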