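import Pool.Agent.Lib_MP_f5471b_s.RadFree
import Pool.Agent.Lib_MP_f5471b_s.LocBad
import Pool.Agent.Lib_MP_f5471b_s.SqFree
import Pool.Agent.Lib_MP_f5471b_j.HtT

/-!
# MP_f5471b_nt: the lower bound in terms of the radical, for `j ≠ 0, 1728`
-/

namespace LangForms

open Height NumberField WeierstrassCurve Topology Filter

namespace Sq

/-- The sum over the places above `2` and `3`. -/
theorem sum_six {K : Type} [Field K] [NumberField K] (B : Finset (FinitePlace K))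
    (hB : ∀ v ∈ B, v.1 (2 : K) < 1 ∨ v.1 (3 : K) < 1) :
    ∑ v ∈ B, Real.log (plNorm v) ≤ Module.finrank ℚ K * Real.log 6 := by
  classical
  obtain ⟨T, hT⟩ := ex_supp (6 : K) (by norm_num)
  have h1 := log_product (6 : K) (by norm_num) (T ∪ B) (fun v hv => hT v fun h => hv
    (Finset.mem_union_left _ h))
  have h2 : ∑ v : InfinitePlace K, v.mult * Real.log (v.1 (6 : K)) =
      Module.finrank ℚ K * Real.log 6 := by
    have h3 : (∑ v : InfinitePlace K, (v.mult : ℝ)) = Module.finrank ℚ K := by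
      exact_mod_cast InfinitePlace.sum_mult_eq (K := K)
    rw [← h3, Finset.sum_mul]
    refine Finset.sum_congr rfl fun v _ => ?_
    rw [inf_ofNat v 6]
  rw [h2] at h1
  have h4 : ∀ v : FinitePlace K, v.1 (6 : K) ≤ 1 := fun v => na_ofNat_le v.1 (fin_na v) 6
  have h5 : ∀ v ∈ B, Real.log (plNorm v) ≤ -Real.log (v.1 (6 : K)) := by
    intro v hv
    have h6 : v.1 (6 : K) < 1 := by
      have e : (6 : K) = 2 * 3 := by norm_num
      have h21 : v.1 (2 : K) ≤ 1 := na_ofNat_le v.1 (fin_na v) 2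
      have h31 : v.1 (3 : K) ≤ 1 := na_ofNat_le v.1 (fin_na v) 3
      have h20 := v.1.nonneg (2 : K)
      have h30 := v.1.nonneg (3 : K)
      rw [e, map_mul]
      rcases hB v hv with h | h
      · calc v.1 (2 : K) * v.1 (3 : K) ≤ v.1 (2 : K) * 1 := by gcongr
          _ < 1 := by linarith
      · calc v.1 (2 : K) * v.1 (3 : K) ≤ 1 * v.1 (3 : K) := by gcongr
          _ < 1 := by linarith
    obtain ⟨k, hk⟩ := RhoFinAux.apply_eq_zpow v (6 : K) (by norm_num)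
    have hN := RhoFinAux.one_lt_plNorm v
    have hlog := log_plNorm_pos v
    have hk' : v.1 (6 : K) = plNorm v ^ k := hk
    have hkneg : k ≤ -1 := by
      rw [hk'] at h6
      by_contra hcon
      push Not at hcon
      exact absurd h6 (not_lt.mpr (one_le_zpow₀ hN.le (by omega)))
    rw [hk', Real.log_zpow]
    have h7 : (k : ℝ) ≤ -1 := by exact_mod_cast hkneg
    nlinarith
  have h8 : ∑ v ∈ B, -Real.log (v.1 (6 : K)) ≤ ∑ v ∈ T ∪ B, -Real.log (v.1 (6 : K)) := by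
    apply Finset.sum_le_sum_of_subset_of_nonneg Finset.subset_union_right
    intro v _ _
    have h9 : Real.log (v.1 (6 : K)) ≤ 0 := Real.log_nonpos (v.1.nonneg _) (h4 v)
    linarith
  have h10 := Finset.sum_le_sum h5
  rw [Finset.sum_neg_distrib] at h8
  rw [Finset.sum_neg_distrib] at h10 h8
  linarith

/-- A finite set of places which computes `hB`. -/
theorem exists_bad {K : Type} [Field K] [NumberField K] (W : WeierstrassCurve K)
    [W.IsElliptic] : ∃ B : Finset (FinitePlace K), (∀ v ∈ B, ¬ GoodAt W v) ∧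
      hB W * Module.finrank ℚ K = ∑ v : InfinitePlace K, v.mult * Real.posLog (v W.j) +
        ∑ v ∈ B, Real.log (plNorm v) := by
  classical
  have hnK : (0 : ℝ) < Module.finrank ℚ K := by exact_mod_cast Module.finrank_pos
  obtain ⟨f, hf⟩ : ∃ f : FinitePlace K → ℝ, f = fun v =>
    if GoodAt W v then 0 else Real.log (plNorm v) := ⟨_, rfl⟩
  have hval : hB W * Module.finrank ℚ K =
      ∑ v : InfinitePlace K, v.mult * Real.posLog (v W.j) + ∑ᶠ v, f v := by
    rw [hB, div_mul_cancel₀ _ hnK.ne', hf]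
  by_cases hfin : (Function.support f).Finite
  · refine ⟨hfin.toFinset, ?_, ?_⟩
    · intro v hv hgood
      rw [Set.Finite.mem_toFinset, Function.mem_support] at hv
      apply hv
      rw [hf]
      simp [hgood]
    · rw [hval, finsum_eq_sum f hfin]
      congr 1
      refine Finset.sum_congr rfl fun v hv => ?_
      rw [Set.Finite.mem_toFinset, Function.mem_support] at hv
      have hgood : ¬ GoodAt W v := by
        intro hgood
        apply hv
        rw [hf]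
        simp [hgood]
      rw [hf]
      simp [hgood]
  · refine ⟨∅, by simp, ?_⟩
    rw [hval, finsum_of_infinite_support hfin, Finset.sum_empty]

theorem hB_nonneg {K : Type} [Field K] [NumberField K] (W : WeierstrassCurve K)
    [W.IsElliptic] : 0 ≤ hB W := by
  obtain ⟨B, -, h⟩ := exists_bad W
  have hnK : (0 : ℝ) < Module.finrank ℚ K := by exact_mod_cast Module.finrank_pos
  have h1 : 0 ≤ ∑ v : InfinitePlace K, v.mult * Real.posLog (v W.j) :=
    Finset.sum_nonneg fun v _ => mul_nonneg (Nat.cast_nonneg _) Real.posLog_nonneg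
  have h2 : 0 ≤ ∑ v ∈ B, Real.log (plNorm v) :=
    Finset.sum_nonneg fun v _ => (log_plNorm_pos v).le
  by_contra hcon
  push Not at hcon
  have := mul_neg_of_neg_of_pos hcon hnK
  linarith

/-- The elementary combination of the estimates. -/
theorem combine_small (h R A₀ c₀ c : ℝ) (hh : 0 ≤ h) (hR : 0 ≤ R) (hRA : R ≤ A₀)
    (hA : 0 < A₀) (hc : 0 ≤ c) (hcc : c * A₀ ^ 2 ≤ c₀) :
    c * (R ^ 5 / (1 + h + R) ^ 4) ≤ c₀ / Real.sqrt (1 + h) := by
  have hD : 0 < 1 + h + R := by linarith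
  have h1 : R ^ 5 / (1 + h + R) ^ 4 ≤ R ^ 2 / (1 + h + R) := by
    rw [div_le_div_iff₀ (by positivity) hD]
    have h2 : R ^ 3 ≤ (1 + h + R) ^ 3 := pow_le_pow_left₀ hR (by linarith) 3
    calc R ^ 5 * (1 + h + R) = R ^ 2 * (1 + h + R) * R ^ 3 := by ring
      _ ≤ R ^ 2 * (1 + h + R) * (1 + h + R) ^ 3 :=
          mul_le_mul_of_nonneg_left h2 (by positivity)
      _ = _ := by ring
  have hs : 0 < Real.sqrt (1 + h) := Real.sqrt_pos.2 (by linarith)
  have h2 : R ^ 2 / (1 + h + R) ≤ A₀ ^ 2 / Real.sqrt (1 + h) := by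
    apply div_le_div₀ (by positivity) (pow_le_pow_left₀ hR hRA 2) hs
    have h3 : Real.sqrt (1 + h) ≤ 1 + h := by
      rw [Real.sqrt_le_left (by linarith)]
      nlinarith
    linarith
  calc c * (R ^ 5 / (1 + h + R) ^ 4) ≤ c * (A₀ ^ 2 / Real.sqrt (1 + h)) :=
        mul_le_mul_of_nonneg_left (h1.trans h2) hc
    _ = c * A₀ ^ 2 / Real.sqrt (1 + h) := by ring
    _ ≤ _ := div_le_div_of_nonneg_right hcc hs.le

theorem rad_bound_ne (d : ℕ) : ∃ c : ℝ, 0 < c ∧
    ∀ (K : Type) [Field K] [NumberField K] [DecidableEq K], Module.finrank ℚ K ≤ d →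
    ∀ (W : WeierstrassCurve K) [W.IsElliptic], W.j ≠ 0 → W.j ≠ 1728 →
    ∀ (P : W.toAffine.Point), (∀ n : ℕ, 1 ≤ n → n • P ≠ 0) →
      c * (hB W ^ 5 / (1 + hJ W + hB W) ^ 4) ≤ nt P := by
  classical
  obtain ⟨C₃, hC₃, hcomp⟩ := logHeight₁_t_comp
  obtain ⟨c₀, hc₀, hsq⟩ := sq_bound_free d
  obtain ⟨c₁, H₀, hc₁, hH₀, hrad⟩ := rad_free d
  obtain ⟨c₂, C₂, hc₂, hC₂, hadd⟩ := add_free d
  have hd0 : (0 : ℝ) ≤ d := Nat.cast_nonneg _
  obtain ⟨D, hD⟩ : ∃ D : ℝ, D = d + 1 := ⟨_, rfl⟩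
  have hD1 : 1 ≤ D := by rw [hD]; linarith
  obtain ⟨A, hA⟩ : ∃ A : ℝ, A = D * (1 + C₃) := ⟨_, rfl⟩
  have hAD : D ≤ A := by rw [hA]; nlinarith
  have hA1 : 1 ≤ A := hD1.trans hAD
  obtain ⟨L, hL⟩ : ∃ L : ℝ, L = Real.log 6 + (Real.log 2 + Real.log 1728) := ⟨_, rfl⟩
  have hL0 : 0 ≤ L := by
    rw [hL]
    have := Real.log_pos (show (1 : ℝ) < 2 by norm_num)
    have := Real.log_pos (show (1 : ℝ) < 6 by norm_num)
    have := Real.log_pos (show (1 : ℝ) < 1728 by norm_num)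
    linarith
  obtain ⟨A₀, hA₀⟩ : ∃ A₀ : ℝ, A₀ = max (3 * D * L) (max (3 * H₀) (3 * C₂)) := ⟨_, rfl⟩
  have hA₀1 : 3 * D * L ≤ A₀ := by rw [hA₀]; exact le_max_left _ _
  have hA₀2 : 3 * H₀ ≤ A₀ := by rw [hA₀]; exact (le_max_left _ _).trans (le_max_right _ _)
  have hA₀3 : 3 * C₂ ≤ A₀ := by rw [hA₀]; exact (le_max_right _ _).trans (le_max_right _ _)
  have hA₀pos : 0 < A₀ := by linarith
  obtain ⟨c, hc⟩ : ∃ c : ℝ, c = min (c₀ / A₀ ^ 2)
      (min (c₁ / (486 * D * A ^ 4)) (c₂ / (54 * D * A ^ 2))) := ⟨_, rfl⟩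
  have hDpos : 0 < D := by linarith
  have hApos : 0 < A := by linarith
  have hc1 : c ≤ c₀ / A₀ ^ 2 := by rw [hc]; exact min_le_left _ _
  have hc2 : c ≤ c₁ / (486 * D * A ^ 4) := by
    rw [hc]; exact (min_le_right _ _).trans (min_le_left _ _)
  have hc3 : c ≤ c₂ / (54 * D * A ^ 2) := by
    rw [hc]; exact (min_le_right _ _).trans (min_le_right _ _)
  have hcpos : 0 < c := by
    rw [hc]; exact lt_min (by positivity) (lt_min (by positivity) (by positivity))
  refine ⟨c, hcpos, ?_⟩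
  intro K _ _ _ hK W _ hj0 hj1 P hP
  have hnK : (0 : ℝ) < Module.finrank ℚ K := by exact_mod_cast Module.finrank_pos
  have hK1 : (1 : ℝ) ≤ Module.finrank ℚ K := by
    exact_mod_cast Nat.succ_le_of_lt Module.finrank_pos
  have hKd : (Module.finrank ℚ K : ℝ) ≤ d := by exact_mod_cast hK
  have hJ0 := hJ_nonneg W
  have hB0 := hB_nonneg W
  have hnt := nt_nonneg P
  have hsq' := hsq K hK W P hP
  obtain ⟨h4, h6, ht, ht0, hκ⟩ := t_eq W hj0 hj1
  have hxm := xmap_W W h4 h6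
  have hbl := fun v : FinitePlace K => bad_local W h4 h6 v
  obtain ⟨t, htd⟩ : ∃ t : K, t = W.Δ / W.c₆ ^ 2 := ⟨_, rfl⟩
  rw [← htd] at ht ht0 hκ hxm hbl
  have hcmp := hcomp K _ hj1
  rw [← ht] at hcmp
  have hhJ : hJ W * Module.finrank ℚ K = logHeight₁ W.j := by
    rw [hJ]
    field_simp
  rw [← hhJ] at hcmp
  -- the places
  have hfin : {v : FinitePlace K | v t < 1}.Finite := by
    refine (FinitePlace.hasFiniteMulSupport ht0).subset ?_
    intro v hv
    exact ne_of_lt hv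
  obtain ⟨Tf, hTfd⟩ : ∃ Tf : Finset (FinitePlace K), Tf = hfin.toFinset := ⟨_, rfl⟩
  have hTf : ∀ v, v ∈ Tf ↔ v t < 1 := by
    intro v
    rw [hTfd, Set.Finite.mem_toFinset]
    rfl
  obtain ⟨Bd, hBd, hBsum⟩ := exists_bad W
  obtain ⟨B6, hB6⟩ : ∃ B6 : Finset (FinitePlace K),
    B6 = Bd.filter fun v => v.1 (2 : K) < 1 ∨ v.1 (3 : K) < 1 := ⟨_, rfl⟩
  obtain ⟨Bm, hBm⟩ : ∃ Bm : Finset (FinitePlace K),
    Bm = (Bd.filter fun v => ¬ (v.1 (2 : K) < 1 ∨ v.1 (3 : K) < 1)).filter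
      fun v => 1 < v.1 W.j := ⟨_, rfl⟩
  obtain ⟨Ba, hBa⟩ : ∃ Ba : Finset (FinitePlace K),
    Ba = (Bd.filter fun v => ¬ (v.1 (2 : K) < 1 ∨ v.1 (3 : K) < 1)).filter
      fun v => ¬ 1 < v.1 W.j := ⟨_, rfl⟩
  have hsplit : ∑ v ∈ Bd, Real.log (plNorm v) = ∑ v ∈ B6, Real.log (plNorm v) +
      (∑ v ∈ Bm, Real.log (plNorm v) + ∑ v ∈ Ba, Real.log (plNorm v)) := by
    rw [hB6, hBm, hBa, Finset.sum_filter_add_sum_filter_not, Finset.sum_filter_add_sum_filter_not]
  have hs6 := sum_six B6 (fun v hv => by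
    rw [hB6, Finset.mem_filter] at hv
    exact hv.2)
  have hBmT : Bm ⊆ Tf := by
    intro v hv
    rw [hBm, Finset.mem_filter] at hv
    rw [hTf, ht, one_div, map_inv₀]
    have h7 := TCondAux.fin_eq v W.j hv.2
    rw [h7]
    exact inv_lt_one_of_one_lt₀ hv.2
  have hsm : ∑ v ∈ Bm, Real.log (plNorm v) ≤ ∑ v ∈ Tf, Real.log (plNorm v) :=
    Finset.sum_le_sum_of_subset_of_nonneg hBmT fun v _ _ => (log_plNorm_pos v).le
  -- the archimedean part
  have hinf := TCondAux.inf_sum W.j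
  have hinv : ∀ v : InfinitePlace K, (v t)⁻¹ = v (W.j - 1728) := by
    intro v
    rw [ht, one_div, map_inv₀, inv_inv]
  obtain ⟨R₁, hR₁⟩ : ∃ R₁ : ℝ, R₁ = ∑ v : InfinitePlace K, v.mult * Real.posLog (v t)⁻¹ +
    ∑ v ∈ Tf, Real.log (plNorm v) := ⟨_, rfl⟩
  obtain ⟨Ra, hRa⟩ : ∃ Ra : ℝ, Ra = ∑ v ∈ Ba, Real.log (plNorm v) := ⟨_, rfl⟩
  have hR₁0 : 0 ≤ R₁ := by
    rw [hR₁]
    exact add_nonneg (Finset.sum_nonneg fun v _ => mul_nonneg (Nat.cast_nonneg _)
      Real.posLog_nonneg) (Finset.sum_nonneg fun v _ => (log_plNorm_pos v).le)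
  have hRH : R₁ ≤ logHeight₁ t := by
    rw [logHeight₁_eq_Lt t ht0 Tf hTf, hR₁]
    have h7 : ∀ v ∈ Tf, Real.log (plNorm v) ≤ Lt v.1 t := by
      intro v hv
      have h8 : v.1 t < 1 := (hTf v).1 hv
      obtain ⟨k, hk⟩ := RhoFinAux.apply_eq_zpow v t ht0
      have hk' : v.1 t = plNorm v ^ k := hk
      have hN := RhoFinAux.one_lt_plNorm v
      have hlog := log_plNorm_pos v
      have hkneg : k ≤ -1 := by
        rw [hk'] at h8
        by_contra hcon
        push Not at hcon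
        exact absurd h8 (not_lt.mpr (one_le_zpow₀ hN.le (by omega)))
      rw [Lt, hk', Real.log_zpow]
      have h9 : (k : ℝ) ≤ -1 := by exact_mod_cast hkneg
      have h10 := mul_le_mul_of_nonneg_right h9 hlog.le
      linarith
    have h8 := Finset.sum_le_sum h7
    linarith
  have hRa0 : 0 ≤ Ra := by
    rw [hRa]
    exact Finset.sum_nonneg fun v _ => (log_plNorm_pos v).le
  obtain ⟨f, hf⟩ : ∃ f : ℝ, f = Module.finrank ℚ K := ⟨_, rfl⟩
  obtain ⟨h, hh⟩ : ∃ h : ℝ, h = hJ W := ⟨_, rfl⟩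
  obtain ⟨R, hR⟩ : ∃ R : ℝ, R = hB W := ⟨_, rfl⟩
  obtain ⟨H, hH⟩ : ∃ H : ℝ, H = logHeight₁ t := ⟨_, rfl⟩
  have hinf' : ∑ v : InfinitePlace K, v.mult * Real.posLog (v W.j) ≤
      ∑ v : InfinitePlace K, v.mult * Real.posLog (v t)⁻¹ +
        f * (Real.log 2 + Real.log 1728) := by
    simp only [hinv]
    rw [hf]
    exact hinf
  have hinf0 : 0 ≤ ∑ v : InfinitePlace K, v.mult * Real.posLog (v W.j) :=
    Finset.sum_nonneg fun v _ => mul_nonneg (Nat.cast_nonneg _) Real.posLog_nonneg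
  have hB60 : 0 ≤ ∑ v ∈ B6, Real.log (plNorm v) :=
    Finset.sum_nonneg fun v _ => (log_plNorm_pos v).le
  have hBm0 : 0 ≤ ∑ v ∈ Bm, Real.log (plNorm v) :=
    Finset.sum_nonneg fun v _ => (log_plNorm_pos v).le
  have hnt' := canX_eq_nt P
  rw [← hf] at hnK hK1 hKd hBsum hs6 hcmp hnt'
  rw [← hR] at hBsum hB0 ⊢
  rw [← hh] at hcmp hJ0 hsq' ⊢
  rw [← hH] at hRH hcmp
  have hfD : f ≤ D := by rw [hD]; linarith
  have htot : R * f ≤ R₁ + Ra + f * L := by
    rw [hBsum, hsplit, hR₁, hRa, hL]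
    linarith
  have hRaR : Ra ≤ R * f := by
    rw [hBsum, hsplit, hRa]
    linarith
  by_cases hcase : R * f ≤ A₀
  · have hRA : R ≤ A₀ := by
      calc R = R * 1 := (mul_one R).symm
        _ ≤ R * f := mul_le_mul_of_nonneg_left hK1 hB0
        _ ≤ A₀ := hcase
    refine (combine_small h R A₀ c₀ c hJ0 hB0 hRA hA₀pos hcpos.le ?_).trans hsq'
    rw [le_div_iff₀ (by positivity)] at hc1
    exact hc1
  push Not at hcase
  have hfL : f * L ≤ R * f / 3 := by
    have : f * L ≤ D * L := mul_le_mul_of_nonneg_right hfD hL0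
    linarith
  have hHup : H ≤ A * (1 + h) := by
    have h2 := (abs_le.1 hcmp).2
    have h3 : f * (h + C₃) ≤ D * (h + C₃) :=
      mul_le_mul_of_nonneg_right hfD (by linarith)
    have h4 : h + C₃ ≤ (1 + C₃) * (1 + h) := by
      have e : (1 + C₃) * (1 + h) = 1 + h + C₃ + C₃ * h := by ring
      have := mul_nonneg hC₃.le hJ0
      rw [e]
      linarith
    have h5 : D * (h + C₃) ≤ D * ((1 + C₃) * (1 + h)) :=
      mul_le_mul_of_nonneg_left h4 (by linarith)
    rw [hA]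
    linarith
  have hH0 : 0 ≤ H := hR₁0.trans hRH
  have hRf : R ≤ R * f := by
    calc R = R * 1 := (mul_one R).symm
      _ ≤ R * f := mul_le_mul_of_nonneg_left hK1 hB0
  have hden : 0 < 1 + h + R := by linarith
  rcases le_total Ra R₁ with hmax | hmax
  · -- the multiplicative places
    have hR₁' : R * f / 3 ≤ R₁ := by linarith
    have hHH : H₀ ≤ H := by linarith
    have hmain := hrad K hK t ht0 hκ (by rw [← hH]; exact hHH) _ _ hxm (canX hx)
      canX_hx_nsmul (tendsto_xi W h4 h6) P hP Tf hTf R₁ hR₁0 hR₁.le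
    rw [← hH, hnt'] at hmain
    have h7 : R / 3 ≤ R₁ := by linarith
    have h8 : (R / 3) ^ 5 ≤ R₁ ^ 5 := pow_le_pow_left₀ (by positivity) h7 5
    have h9 : H ^ 4 ≤ (A * (1 + h + R)) ^ 4 := by
      apply pow_le_pow_left₀ hH0
      refine hHup.trans (mul_le_mul_of_nonneg_left (by linarith) hApos.le)
    have h10 : 2 * f * nt P ≤ 2 * D * nt P :=
      mul_le_mul_of_nonneg_right (by linarith) hnt
    have h11 : c₁ * (R / 3) ^ 5 ≤ 2 * D * nt P * (A * (1 + h + R)) ^ 4 := by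
      calc c₁ * (R / 3) ^ 5 ≤ c₁ * R₁ ^ 5 := mul_le_mul_of_nonneg_left h8 hc₁.le
        _ ≤ 2 * f * nt P * H ^ 4 := hmain
        _ ≤ 2 * D * nt P * (A * (1 + h + R)) ^ 4 :=
            mul_le_mul h10 h9 (by positivity) (by positivity)
    calc c * (R ^ 5 / (1 + h + R) ^ 4) ≤
          c₁ / (486 * D * A ^ 4) * (R ^ 5 / (1 + h + R) ^ 4) :=
            mul_le_mul_of_nonneg_right hc2 (by positivity)
      _ = c₁ * (R / 3) ^ 5 / (2 * D * (A * (1 + h + R)) ^ 4) := by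
            field_simp
            ring
      _ ≤ 2 * D * nt P * (A * (1 + h + R)) ^ 4 / (2 * D * (A * (1 + h + R)) ^ 4) :=
            div_le_div_of_nonneg_right h11 (by positivity)
      _ = nt P := by field_simp
  · -- the additive places
    have hRa' : R * f / 3 ≤ Ra := by linarith
    have hBa' : ∀ v ∈ Ba, ∀ m : ℕ, 1 ≤ m →
        Real.log (plNorm v) / 6 ≤ Jl v.1 t (xiW W ((6 * m) • P).xRep) := by
      intro v hv m hm
      rw [hBa, Finset.mem_filter, Finset.mem_filter] at hv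
      have h7 := hv.1.2
      push Not at h7
      have h21 : v.1 (2 : K) ≤ 1 := na_ofNat_le v.1 (fin_na v) 2
      have h31 : v.1 (3 : K) ≤ 1 := na_ofNat_le v.1 (fin_na v) 3
      exact hbl v (le_antisymm h21 h7.1) (le_antisymm h31 h7.2) (not_lt.1 hv.2)
        (hBd v hv.1.1) P hP m hm
    have hmain := hadd K hK t ht0 hκ _ _ hxm (canX hx)
      canX_hx_nsmul (tendsto_xi W h4 h6) P hP Ba hBa' Ra hRa
      (by linarith)
    rw [← hH, hnt'] at hmain
    have h7 : R / 3 ≤ Ra := by linarith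
    have h8 : (R / 3) ^ 3 ≤ Ra ^ 3 := pow_le_pow_left₀ (by positivity) h7 3
    have h9 : (H + Ra) ^ 2 ≤ (A * (1 + h + R)) ^ 2 := by
      apply pow_le_pow_left₀ (by linarith)
      have h10 : R * f ≤ R * A := mul_le_mul_of_nonneg_left (hfD.trans hAD) hB0
      have e : A * (1 + h + R) = A * (1 + h) + R * A := by ring
      rw [e]
      linarith
    have h10 : 2 * f * nt P ≤ 2 * D * nt P :=
      mul_le_mul_of_nonneg_right (by linarith) hnt
    have h11 : c₂ * (R / 3) ^ 3 ≤ 2 * D * nt P * (A * (1 + h + R)) ^ 2 := by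
      calc c₂ * (R / 3) ^ 3 ≤ c₂ * Ra ^ 3 := mul_le_mul_of_nonneg_left h8 hc₂.le
        _ ≤ 2 * f * nt P * (H + Ra) ^ 2 := hmain
        _ ≤ 2 * D * nt P * (A * (1 + h + R)) ^ 2 :=
            mul_le_mul h10 h9 (by positivity) (by positivity)
    have h12 : R ^ 5 / (1 + h + R) ^ 4 ≤ R ^ 3 / (1 + h + R) ^ 2 := by
      rw [div_le_div_iff₀ (by positivity) (by positivity)]
      have h13 : R ^ 2 ≤ (1 + h + R) ^ 2 := pow_le_pow_left₀ hB0 (by linarith) 2
      calc R ^ 5 * (1 + h + R) ^ 2 = R ^ 3 * (1 + h + R) ^ 2 * R ^ 2 := by ring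
        _ ≤ R ^ 3 * (1 + h + R) ^ 2 * (1 + h + R) ^ 2 :=
            mul_le_mul_of_nonneg_left h13 (by positivity)
        _ = _ := by ring
    calc c * (R ^ 5 / (1 + h + R) ^ 4) ≤ c * (R ^ 3 / (1 + h + R) ^ 2) :=
          mul_le_mul_of_nonneg_left h12 hcpos.le
      _ ≤ c₂ / (54 * D * A ^ 2) * (R ^ 3 / (1 + h + R) ^ 2) :=
            mul_le_mul_of_nonneg_right hc3 (by positivity)
      _ = c₂ * (R / 3) ^ 3 / (2 * D * (A * (1 + h + R)) ^ 2) := by
            field_simp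
            ring
      _ ≤ 2 * D * nt P * (A * (1 + h + R)) ^ 2 / (2 * D * (A * (1 + h + R)) ^ 2) :=
            div_le_div_of_nonneg_right h11 (by positivity)
      _ = nt P := by field_simp

end Sq

end LangForms
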