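import Pool.Agent.Lib_MP_f5471b_s.MapLow
import Pool.Agent.Lib_MP_f5471b_s.LocCM
import Pool.Agent.Lib_MP_f5471b_s.RadW

/-!
# MP_f5471b_nt: the lower bound in terms of the radical, for `j = 0` and `j = 1728`
-/

namespace LangForms

open Height NumberField WeierstrassCurve Topology Filter

namespace Sq

/-- The canonical height is bounded below by a height which is almost multiplied by `4`. -/
theorem limit_lower {K : Type} [Field K] [NumberField K] [DecidableEq K] (W : WeierstrassCurve K)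
    [W.IsElliptic] (ω : W.toAffine.Point → K) (k L : ℝ) (Q : W.toAffine.Point)
    (hQ : ∀ m : ℕ, 1 ≤ m → m • Q ≠ 0)
    (hstep : ∀ m : ℕ, 1 ≤ m → 4 * logHeight₁ (ω (m • Q)) ≤
      logHeight₁ (ω (m • Q + m • Q)) + L)
    (hup : ∃ C : ℝ, ∀ P : W.toAffine.Point, P ≠ 0 → logHeight₁ (ω P) ≤ k * hx P + C) :
    logHeight₁ (ω Q) - L / 3 ≤ k * canX hx Q := by
  obtain ⟨C, hC⟩ := hup
  have h1 : ∀ n : ℕ, (4 : ℝ) ^ n * (logHeight₁ (ω Q) - L / 3) ≤
      logHeight₁ (ω ((2 ^ n) • Q)) - L / 3 := by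
    intro n
    induction n with
    | zero => simp
    | succ n ih =>
      have h2 := hstep (2 ^ n) Nat.one_le_two_pow
      have h3 : 2 ^ n • Q + 2 ^ n • Q = 2 ^ (n + 1) • Q := by
        rw [← add_smul]
        congr 1
        ring
      rw [h3] at h2
      calc (4 : ℝ) ^ (n + 1) * (logHeight₁ (ω Q) - L / 3) =
            4 * (4 ^ n * (logHeight₁ (ω Q) - L / 3)) := by ring
        _ ≤ 4 * (logHeight₁ (ω ((2 ^ n) • Q)) - L / 3) :=
            mul_le_mul_of_nonneg_left ih (by norm_num)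
        _ ≤ _ := by linarith
  obtain ⟨C₀, _, hpar⟩ := approx_par
  have h2 := canX_tendsto (hx (W := W)) _ (fun P Q => hpar K W P Q) Q
  have h3 : Tendsto (fun n : ℕ => k * (hx ((2 ^ n) • Q) / 4 ^ n) +
      (C - L / 3) * (1 / 4 : ℝ) ^ n) atTop (𝓝 (k * canX hx Q + (C - L / 3) * 0)) := by
    apply Tendsto.add (h2.const_mul k)
    exact (tendsto_pow_atTop_nhds_zero_of_lt_one (by norm_num : (0 : ℝ) ≤ 1 / 4)
      (by norm_num)).const_mul _
  rw [mul_zero, add_zero] at h3
  refine ge_of_tendsto' h3 fun n => ?_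
  have h4 := h1 n
  have h5 := hC ((2 ^ n) • Q) (hQ (2 ^ n) Nat.one_le_two_pow)
  have h6 : (0 : ℝ) < 4 ^ n := by positivity
  have h7 : (4 : ℝ) ^ n * (logHeight₁ (ω Q) - L / 3) ≤ k * hx ((2 ^ n) • Q) + C - L / 3 := by
    linarith
  have h8 : k * (hx ((2 ^ n) • Q) / 4 ^ n) + (C - L / 3) * (1 / 4 : ℝ) ^ n =
      (k * hx ((2 ^ n) • Q) + C - L / 3) / 4 ^ n := by
    rw [one_div, inv_pow]
    field_simp
    ring
  rw [h8, le_div_iff₀ h6, mul_comm]
  exact h7

/-- The height is at least the sum over the places at which the element is large. -/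
theorem sum_le_height {K : Type} [Field K] [NumberField K] (x : K) (hx0 : x ≠ 0)
    (B : Finset (FinitePlace K)) (hB : ∀ v ∈ B, 1 < v.1 x) :
    ∑ v ∈ B, Real.log (plNorm v) ≤ logHeight₁ x := by
  classical
  rw [NumberField.logHeight₁_eq]
  obtain ⟨T, hT⟩ := ex_supp x hx0
  have hs : (Function.support fun v : FinitePlace K => Real.posLog (v x)) ⊆
      ((T ∪ B : Finset (FinitePlace K)) : Set (FinitePlace K)) := by
    intro v hv
    by_contra hcon
    apply hv
    have h1 : v x = 1 := hT v fun h => hcon (by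
      rw [Finset.mem_coe, Finset.mem_union]; exact Or.inl h)
    change Real.posLog (v x) = 0
    rw [h1]
    simp [Real.posLog]
  rw [finsum_eq_sum_of_support_subset _ hs]
  have h0 : 0 ≤ ∑ v : InfinitePlace K, v.mult * Real.posLog (v x) :=
    Finset.sum_nonneg fun v _ => mul_nonneg (Nat.cast_nonneg _) Real.posLog_nonneg
  have h1 : ∀ v ∈ B, Real.log (plNorm v) ≤ Real.posLog (v x) := by
    intro v hv
    have h2 := hB v hv
    obtain ⟨k, hk⟩ := RhoFinAux.apply_eq_zpow v x hx0
    have hk' : v.1 x = plNorm v ^ k := hk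
    have hN := RhoFinAux.one_lt_plNorm v
    have hlog := log_plNorm_pos v
    have hk1 : 1 ≤ k := by
      rw [hk'] at h2
      by_contra hcon
      push Not at hcon
      exact absurd h2 (not_lt.mpr (zpow_le_one_of_nonpos₀ hN.le (by omega)))
    have h3 : Real.posLog (v x) = Real.log (v.1 x) := by
      rw [Real.posLog_eq_log]
      · rfl
      · rw [abs_of_nonneg (apply_nonneg v x)]
        exact h2.le
    rw [h3, hk', Real.log_zpow]
    have h4 : (1 : ℝ) ≤ k := by exact_mod_cast hk1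
    nlinarith
  have h2 := Finset.sum_le_sum h1
  have h3 : ∑ v ∈ B, Real.posLog (v x) ≤ ∑ v ∈ T ∪ B, Real.posLog (v x) :=
    Finset.sum_le_sum_of_subset_of_nonneg Finset.subset_union_right
      fun v _ _ => Real.posLog_nonneg
  linarith

/-- The comparison of the height of a monomial in the `x`-coordinate with the height of `x`. -/
theorem height_mono {K : Type} [Field K] [NumberField K] [DecidableEq K]
    (W : WeierstrassCurve K) [W.IsElliptic] (k : ℕ) (b : K) : ∃ C : ℝ,
    ∀ P : W.toAffine.Point, P ≠ 0 →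
      logHeight₁ (za (zW W P.xRep) ^ k / b) ≤ k * hx P + C := by
  refine ⟨k * (totalWeight K * Real.log 2 + logHeight₁ (12 : K) + logHeight₁ W.b₂) +
    logHeight₁ b, fun P hP => ?_⟩
  rcases P with _ | ⟨x, y, h⟩
  · exact absurd (Affine.Point.zero_def (W' := W.toAffine)).symm hP
  · have h1 : za (zW W (Affine.Point.some x y h).xRep) = 12 * x + W.b₂ := by
      simp [za, zW]
    have h2 : hx (Affine.Point.some x y h) = logHeight₁ x := by
      rw [logHeight₁_eq_logHeight]
      rfl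
    rw [h1, h2, div_eq_mul_inv]
    have h3 := logHeight₁_mul_le ((12 * x + W.b₂) ^ k) b⁻¹
    rw [logHeight₁_inv, logHeight₁_pow] at h3
    have h4 := logHeight₁_add_le (12 * x) W.b₂
    have h5 := logHeight₁_mul_le 12 x
    have h6 : logHeight₁ (12 * x + W.b₂) ≤ logHeight₁ x +
        (totalWeight K * Real.log 2 + logHeight₁ (12 : K) + logHeight₁ W.b₂) := by linarith
    have h7 := mul_le_mul_of_nonneg_left h6 (Nat.cast_nonneg (α := ℝ) k)
    linarith

/-- The conclusion for the curves with `j = 0` or `j = 1728`, from the bound for large `hB`. -/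
theorem cm_large {K : Type} [Field K] [NumberField K] [DecidableEq K] (W : WeierstrassCurve K)
    [W.IsElliptic] (hj : W.j = 0 ∨ W.j = 1728) :
    ∃ Ba : Finset (FinitePlace K), (∀ v ∈ Ba, ¬ GoodAt W v ∧ v.1 (2 : K) = 1 ∧ v.1 (3 : K) = 1) ∧
      hB W * Module.finrank ℚ K ≤ ∑ v ∈ Ba, Real.log (plNorm v) +
        Module.finrank ℚ K * (Real.log 6 + Real.log 1728) := by
  classical
  obtain ⟨Bd, hBd, hsum⟩ := exists_bad W
  refine ⟨Bd.filter fun v => ¬ (v.1 (2 : K) < 1 ∨ v.1 (3 : K) < 1), ?_, ?_⟩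
  · intro v hv
    rw [Finset.mem_filter] at hv
    have h7 := hv.2
    push Not at h7
    have h21 : v.1 (2 : K) ≤ 1 := na_ofNat_le v.1 (fin_na v) 2
    have h31 : v.1 (3 : K) ≤ 1 := na_ofNat_le v.1 (fin_na v) 3
    exact ⟨hBd v hv.1, le_antisymm h21 h7.1, le_antisymm h31 h7.2⟩
  · have h1 : ∑ v ∈ Bd, Real.log (plNorm v) =
        ∑ v ∈ Bd.filter (fun v => v.1 (2 : K) < 1 ∨ v.1 (3 : K) < 1), Real.log (plNorm v) +
        ∑ v ∈ Bd.filter (fun v => ¬ (v.1 (2 : K) < 1 ∨ v.1 (3 : K) < 1)),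
          Real.log (plNorm v) := by
      rw [Finset.sum_filter_add_sum_filter_not]
    have h2 := sum_six (Bd.filter (fun v => v.1 (2 : K) < 1 ∨ v.1 (3 : K) < 1)) (fun v hv => by
      rw [Finset.mem_filter] at hv
      exact hv.2)
    have h3 : ∑ v : InfinitePlace K, v.mult * Real.posLog (v W.j) ≤
        Module.finrank ℚ K * Real.log 1728 := by
      have h4 : (∑ v : InfinitePlace K, (v.mult : ℝ)) = Module.finrank ℚ K := by
        exact_mod_cast InfinitePlace.sum_mult_eq (K := K)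
      rw [← h4, Finset.sum_mul]
      refine Finset.sum_le_sum fun v _ => mul_le_mul_of_nonneg_left ?_ (Nat.cast_nonneg _)
      have h5 : 0 ≤ Real.log 1728 := Real.log_nonneg (by norm_num)
      rcases hj with hj | hj
      · rw [hj, map_zero, Real.posLog_zero]
        exact h5
      · rw [hj, TCondAux.inf_1728, Real.posLog_eq_log (by norm_num)]
    rw [hsum, h1]
    linarith

/-- The places of bad reduction, `j = 0`. -/
theorem cm_zero {K : Type} [Field K] [NumberField K] [DecidableEq K] (W : WeierstrassCurve K)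
    [W.IsElliptic] (hj : W.j = 0) (P : W.toAffine.Point) (hP : ∀ m : ℕ, 1 ≤ m → m • P ≠ 0)
    (Ba : Finset (FinitePlace K))
    (hBa : ∀ v ∈ Ba, ¬ GoodAt W v ∧ v.1 (2 : K) = 1 ∧ v.1 (3 : K) = 1) :
    ∑ v ∈ Ba, Real.log (plNorm v) ≤
      216 * Module.finrank ℚ K * nt P + Module.finrank ℚ K * Real.log 24050368 := by
  have hΔ : W.Δ ≠ 0 := W.isUnit_Δ.ne_zero
  have h4 : W.c₄ = 0 := by
    have h5 := jb_j_eq W
    rw [hj, eq_comm, div_eq_zero_iff] at h5
    rcases h5 with h5 | h5
    · exact pow_eq_zero_iff (by norm_num) |>.1 h5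
    · exact absurd h5 hΔ
  have hrel := W.c_relation
  have h6 : W.c₆ ≠ 0 := by
    intro h0
    rw [h4, h0] at hrel
    apply hΔ
    have : (1728 : K) * W.Δ = 0 := by rw [hrel]; ring
    rcases mul_eq_zero.1 this with h | h
    · norm_num at h
    · exact h
  have hsm := smap_W W
  rw [h4, mul_zero] at hsm
  obtain ⟨b, hb⟩ : ∃ b : K, b = -2 * W.c₆ := ⟨_, rfl⟩
  rw [← hb] at hsm
  have hb0 : b ≠ 0 := by
    rw [hb]
    exact mul_ne_zero (by norm_num) h6
  obtain ⟨ω, hω⟩ : ∃ ω : W.toAffine.Point → K, ω = fun Q => za (zW W Q.xRep) ^ 3 / b := ⟨_, rfl⟩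
  have hfin : (0 : ℝ) < Module.finrank ℚ K := by exact_mod_cast Module.finrank_pos
  -- the step
  have hstep : ∀ Q : W.toAffine.Point, Q ≠ 0 → Q + Q ≠ 0 → 4 * logHeight₁ (ω Q) ≤
      logHeight₁ (ω (Q + Q)) + Module.finrank ℚ K * Real.log 24050368 := by
    intro Q hQ h2Q
    have h7 := map_zero_low (ω Q)
    have hd := hsm.za_double Q hQ h2Q
    have hne := hsm.za_cubic_ne Q hQ h2Q
    obtain ⟨z, hz⟩ : ∃ z, z = za (zW W Q.xRep) := ⟨_, rfl⟩
    obtain ⟨y, hy⟩ : ∃ y, y = za (zW W (Q + Q).xRep) := ⟨_, rfl⟩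
    rw [← hz, ← hy] at hd
    rw [← hz] at hne
    have hne' : z ^ 3 + b ≠ 0 := by
      intro h0; apply hne; linear_combination h0
    have hy' : y = z * (z ^ 3 - 8 * b) / (4 * (z ^ 3 + b)) := by
      rw [eq_div_iff (mul_ne_zero (by norm_num) hne')]
      linear_combination hd
    have e1 : ω (Q + Q) = ω Q * (ω Q - 8) ^ 3 / (64 * (ω Q + 1) ^ 3) := by
      rw [hω]
      simp only
      rw [← hz, ← hy, hy']
      have h8 : z ^ 3 / b - 8 = (z ^ 3 - 8 * b) / b := by field_simp
      have h9 : z ^ 3 / b + 1 = (z ^ 3 + b) / b := by field_simp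
      rw [h8, h9]
      field_simp
      ring
    rw [e1, logHeight₁_div_eq_logHeight]
    exact h7
  have hlow := limit_lower W ω 3 (Module.finrank ℚ K * Real.log 24050368) (6 • P)
    (fun m hm => by rw [smul_smul]; exact hP _ (by omega))
    (fun m hm => by
      apply hstep
      · rw [smul_smul]; exact hP _ (by omega)
      · rw [← add_smul, smul_smul]; exact hP _ (by omega))
    (by
      obtain ⟨C, hC⟩ := height_mono W 3 b
      refine ⟨C, fun Q hQ => ?_⟩
      rw [hω]
      have := hC Q hQ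
      push_cast at this
      exact this)
  have hloc : ∀ v ∈ Ba, 1 < v.1 (ω (6 • P)) := by
    intro v hv
    obtain ⟨hbad, h2, h3⟩ := hBa v hv
    have hv' := fin_na v
    have v1728 : v.1 (1728 : K) = 1 := by
      rw [show (1728 : K) = 2 * 2 * 2 * 2 * 2 * 2 * 3 * 3 * 3 by norm_num]; simp [h2, h3]
    have v432 : v.1 (432 : K) = 1 := by
      rw [show (432 : K) = 2 * 2 * 2 * 2 * 3 * 3 * 3 by norm_num]; simp [h2, h3]
    have hΔb : v.1 W.Δ = v.1 b ^ 2 := by
      have h8 : 1728 * W.Δ = -W.c₆ ^ 2 := by rw [hrel, h4]; ring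
      have h9 := congrArg v.1 h8
      rw [map_mul, v1728, one_mul, v.1.map_neg, map_pow] at h9
      rw [h9, hb, map_mul, v.1.map_neg, h2, one_mul]
    have h7 := loc_zero hsm v.1 hv' h2 h3 hb0 (fun Q hQ => by
      rcases Q with _ | ⟨x, y, h⟩
      · exact absurd (Affine.Point.zero_def (W' := W.toAffine)).symm hQ
      · refine ⟨2 * y + W.a₁ * x + W.a₃, ?_⟩
        have e2 : za (zW W (Affine.Point.some x y h).xRep) = 12 * x + W.b₂ := by
          simp [za, zW]
        have heq : y ^ 2 + W.a₁ * x * y + W.a₃ * y =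
            x ^ 3 + W.a₂ * x ^ 2 + W.a₄ * x + W.a₆ := (Affine.equation_iff x y).1 h.1
        have e3 : (12 * x + W.b₂) ^ 3 + b = 432 * (2 * y + W.a₁ * x + W.a₃) ^ 2 := by
          have e4 : (12 * x + W.b₂) ^ 3 - 3 * W.c₄ * (12 * x + W.b₂) - 2 * W.c₆ =
              432 * (2 * y + W.a₁ * x + W.a₃) ^ 2 := by
            rw [WeierstrassCurve.c₄, WeierstrassCurve.c₆, WeierstrassCurve.b₂,
              WeierstrassCurve.b₄, WeierstrassCurve.b₆]
            linear_combination (-1728) * heq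
          rw [h4] at e4
          rw [hb]
          linear_combination e4
        rw [e2, e3, map_mul, v432, one_mul, map_pow]) (fun u hu => by
      apply hbad
      apply goodAt_of_pow W v h2 h3 (by rw [hj, map_zero]; exact zero_le_one) u
      rw [hΔb, ← hu]
      ring) P hP
    have hb1 := v.1.pos hb0
    rw [hω]
    simp only
    rw [map_div₀, map_pow, one_lt_div hb1]
    exact h7
  have hω0 : ω (6 • P) ≠ 0 ∨ Ba = ∅ := by
    by_cases hB : Ba = ∅
    · exact Or.inr hB
    · left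
      obtain ⟨v, hv⟩ := Finset.nonempty_iff_ne_empty.2 hB
      intro h0
      have := hloc v hv
      rw [h0, map_zero] at this
      linarith
  have hq : canX hx (6 • P) = 36 * (2 * Module.finrank ℚ K * nt P) := by
    rw [canX_hx_nsmul, canX_eq_nt]
    norm_num
  rw [hq] at hlow
  have hnt := nt_nonneg P
  have hlogpos : 0 < Real.log 24050368 := Real.log_pos (by norm_num)
  have hfl : 0 < Module.finrank ℚ K * Real.log 24050368 := mul_pos hfin hlogpos
  rcases hω0 with h0 | h0
  · have h8 := sum_le_height (ω (6 • P)) h0 Ba hloc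
    linarith
  · rw [h0, Finset.sum_empty]
    positivity

/-- The places of bad reduction, `j = 1728`. -/
theorem cm_1728 {K : Type} [Field K] [NumberField K] [DecidableEq K] (W : WeierstrassCurve K)
    [W.IsElliptic] (hj : W.j = 1728) (P : W.toAffine.Point) (hP : ∀ m : ℕ, 1 ≤ m → m • P ≠ 0)
    (Ba : Finset (FinitePlace K))
    (hBa : ∀ v ∈ Ba, ¬ GoodAt W v ∧ v.1 (2 : K) = 1 ∧ v.1 (3 : K) = 1) :
    ∑ v ∈ Ba, Real.log (plNorm v) ≤
      216 * Module.finrank ℚ K * nt P + Module.finrank ℚ K * Real.log 24050368 := by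
  have hΔ : W.Δ ≠ 0 := W.isUnit_Δ.ne_zero
  have hrel := W.c_relation
  have h6 : W.c₆ = 0 := by
    have h5 := jb_j_eq W
    rw [hj, eq_div_iff hΔ] at h5
    have h7 : W.c₆ ^ 2 = 0 := by linear_combination hrel - h5
    exact pow_eq_zero_iff (by norm_num) |>.1 h7
  have h4 : W.c₄ ≠ 0 := by
    intro h0
    rw [h0, h6] at hrel
    apply hΔ
    have : (1728 : K) * W.Δ = 0 := by rw [hrel]; ring
    rcases mul_eq_zero.1 this with h | h
    · norm_num at h
    · exact h
  have hsm := smap_W W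
  rw [h6, mul_zero] at hsm
  obtain ⟨a, ha⟩ : ∃ a : K, a = -3 * W.c₄ := ⟨_, rfl⟩
  rw [← ha] at hsm
  have ha0 : a ≠ 0 := by
    rw [ha]
    exact mul_ne_zero (by norm_num) h4
  obtain ⟨ω, hω⟩ : ∃ ω : W.toAffine.Point → K, ω = fun Q => za (zW W Q.xRep) ^ 2 / a := ⟨_, rfl⟩
  have hfin : (0 : ℝ) < Module.finrank ℚ K := by exact_mod_cast Module.finrank_pos
  have hstep : ∀ Q : W.toAffine.Point, Q ≠ 0 → Q + Q ≠ 0 → 4 * logHeight₁ (ω Q) ≤
      logHeight₁ (ω (Q + Q)) + Module.finrank ℚ K * Real.log 1080 := by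
    intro Q hQ h2Q
    have h7 := map_1728_low (ω Q)
    have hd := hsm.za_double Q hQ h2Q
    have hne := hsm.za_cubic_ne Q hQ h2Q
    obtain ⟨z, hz⟩ : ∃ z, z = za (zW W Q.xRep) := ⟨_, rfl⟩
    obtain ⟨y, hy⟩ : ∃ y, y = za (zW W (Q + Q).xRep) := ⟨_, rfl⟩
    rw [← hz, ← hy] at hd
    rw [← hz] at hne
    have hz0 : z ≠ 0 := by
      intro h0; apply hne; rw [h0]; ring
    have hne' : z ^ 2 + a ≠ 0 := by
      intro h0; apply hne; linear_combination z * h0
    have hy' : y = (z ^ 2 - a) ^ 2 / (4 * (z * (z ^ 2 + a))) := by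
      rw [eq_div_iff (mul_ne_zero (by norm_num) (mul_ne_zero hz0 hne'))]
      linear_combination hd
    have e1 : ω (Q + Q) = (ω Q - 1) ^ 4 / (16 * (ω Q * (ω Q + 1) ^ 2)) := by
      rw [hω]
      simp only
      rw [← hz, ← hy, hy']
      have h8 : z ^ 2 / a - 1 = (z ^ 2 - a) / a := by field_simp
      have h9 : z ^ 2 / a + 1 = (z ^ 2 + a) / a := by field_simp
      rw [h8, h9]
      field_simp
      ring
    rw [e1, logHeight₁_div_eq_logHeight]
    exact h7
  have hlow := limit_lower W ω 2 (Module.finrank ℚ K * Real.log 1080) (2 • P)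
    (fun m hm => by rw [smul_smul]; exact hP _ (by omega))
    (fun m hm => by
      apply hstep
      · rw [smul_smul]; exact hP _ (by omega)
      · rw [← add_smul, smul_smul]; exact hP _ (by omega))
    (by
      obtain ⟨C, hC⟩ := height_mono W 2 a
      refine ⟨C, fun Q hQ => ?_⟩
      rw [hω]
      have := hC Q hQ
      push_cast at this
      exact this)
  have hloc : ∀ v ∈ Ba, 1 < v.1 (ω (2 • P)) := by
    intro v hv
    obtain ⟨hbad, h2, h3⟩ := hBa v hv
    have hv' := fin_na v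
    have v1728 : v.1 (1728 : K) = 1 := by
      rw [show (1728 : K) = 2 * 2 * 2 * 2 * 2 * 2 * 3 * 3 * 3 by norm_num]; simp [h2, h3]
    have v432 : v.1 (432 : K) = 1 := by
      rw [show (432 : K) = 2 * 2 * 2 * 2 * 3 * 3 * 3 by norm_num]; simp [h2, h3]
    have hΔa : v.1 W.Δ = v.1 a ^ 3 := by
      have h8 : 1728 * W.Δ = W.c₄ ^ 3 := by rw [hrel, h6]; ring
      have h9 := congrArg v.1 h8
      rw [map_mul, v1728, one_mul, map_pow] at h9
      rw [h9, ha, map_mul, v.1.map_neg, h3, one_mul]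
    have h7 := loc_1728 hsm v.1 hv' h2 ha0 (fun Q hQ => by
      rcases Q with _ | ⟨x, y, h⟩
      · exact absurd (Affine.Point.zero_def (W' := W.toAffine)).symm hQ
      · refine ⟨2 * y + W.a₁ * x + W.a₃, ?_⟩
        have e2 : za (zW W (Affine.Point.some x y h).xRep) = 12 * x + W.b₂ := by
          simp [za, zW]
        have heq : y ^ 2 + W.a₁ * x * y + W.a₃ * y =
            x ^ 3 + W.a₂ * x ^ 2 + W.a₄ * x + W.a₆ := (Affine.equation_iff x y).1 h.1
        have e3 : (12 * x + W.b₂) ^ 3 + a * (12 * x + W.b₂) =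
            432 * (2 * y + W.a₁ * x + W.a₃) ^ 2 := by
          have e4 : (12 * x + W.b₂) ^ 3 - 3 * W.c₄ * (12 * x + W.b₂) - 2 * W.c₆ =
              432 * (2 * y + W.a₁ * x + W.a₃) ^ 2 := by
            rw [WeierstrassCurve.c₄, WeierstrassCurve.c₆, WeierstrassCurve.b₂,
              WeierstrassCurve.b₄, WeierstrassCurve.b₆]
            linear_combination (-1728) * heq
          rw [h6] at e4
          rw [ha]
          linear_combination e4
        rw [e2, e3, map_mul, v432, one_mul, map_pow]) (fun u hu => by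
      apply hbad
      apply goodAt_of_pow W v h2 h3 (by rw [hj, v1728]) u
      rw [hΔa, ← hu]
      ring) P hP
    have ha1 := v.1.pos ha0
    rw [hω]
    simp only
    rw [map_div₀, map_pow, one_lt_div ha1]
    exact h7
  have hω0 : ω (2 • P) ≠ 0 ∨ Ba = ∅ := by
    by_cases hB : Ba = ∅
    · exact Or.inr hB
    · left
      obtain ⟨v, hv⟩ := Finset.nonempty_iff_ne_empty.2 hB
      intro h0
      have := hloc v hv
      rw [h0, map_zero] at this
      linarith
  have hq : canX hx (2 • P) = 4 * (2 * Module.finrank ℚ K * nt P) := by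
    rw [canX_hx_nsmul, canX_eq_nt]
    norm_num
  rw [hq] at hlow
  have hnt := nt_nonneg P
  have hlog1 : Real.log 1080 ≤ Real.log 24050368 :=
    Real.log_le_log (by norm_num) (by norm_num)
  have hlogpos : 0 < Real.log 24050368 := Real.log_pos (by norm_num)
  have hfl : 0 < Module.finrank ℚ K * Real.log 24050368 := mul_pos hfin hlogpos
  have hfl' : Module.finrank ℚ K * Real.log 1080 ≤ Module.finrank ℚ K * Real.log 24050368 :=
    mul_le_mul_of_nonneg_left hlog1 hfin.le
  have hfn : 0 ≤ Module.finrank ℚ K * nt P := mul_nonneg hfin.le hnt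
  rcases hω0 with h0 | h0
  · have h8 := sum_le_height (ω (2 • P)) h0 Ba hloc
    linarith
  · rw [h0, Finset.sum_empty]
    positivity

/-- The lower bound in terms of the radical. -/
theorem rad_bound (d : ℕ) : ∃ c : ℝ, 0 < c ∧
    ∀ (K : Type) [Field K] [NumberField K] [DecidableEq K], Module.finrank ℚ K ≤ d →
    ∀ (W : WeierstrassCurve K) [W.IsElliptic] (P : W.toAffine.Point),
      (∀ n : ℕ, 1 ≤ n → n • P ≠ 0) →
      c * max (1 / Real.sqrt (1 + hJ W)) (hB W ^ 5 / (1 + hJ W + hB W) ^ 4) ≤ nt P := by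
  classical
  obtain ⟨c₀, hc₀, hsq⟩ := sq_bound_free d
  obtain ⟨c₁, hc₁, hne⟩ := rad_bound_ne d
  obtain ⟨L, hL⟩ : ∃ L : ℝ, L = Real.log 6 + Real.log 1728 + Real.log 24050368 := ⟨_, rfl⟩
  have hLpos : 0 < L := by
    rw [hL]
    have := Real.log_pos (show (1 : ℝ) < 6 by norm_num)
    have := Real.log_pos (show (1 : ℝ) < 1728 by norm_num)
    have := Real.log_pos (show (1 : ℝ) < 24050368 by norm_num)
    linarith
  obtain ⟨c, hc⟩ : ∃ c : ℝ, c = min (min c₀ c₁) (min (c₀ / (2 * L) ^ 2) (1 / 432)) := ⟨_, rfl⟩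
  have hcpos : 0 < c := by
    rw [hc]
    exact lt_min (lt_min hc₀ hc₁) (lt_min (by positivity) (by norm_num))
  have hc1 : c ≤ c₀ := by rw [hc]; exact (min_le_left _ _).trans (min_le_left _ _)
  have hc2 : c ≤ c₁ := by rw [hc]; exact (min_le_left _ _).trans (min_le_right _ _)
  have hc3 : c ≤ c₀ / (2 * L) ^ 2 := by
    rw [hc]; exact (min_le_right _ _).trans (min_le_left _ _)
  have hc4 : c ≤ 1 / 432 := by rw [hc]; exact (min_le_right _ _).trans (min_le_right _ _)
  refine ⟨c, hcpos, ?_⟩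
  intro K _ _ _ hK W _ P hP
  have hsq' := hsq K hK W P hP
  have hJ0 := hJ_nonneg W
  have hB0 := hB_nonneg W
  have hs : 0 < Real.sqrt (1 + hJ W) := Real.sqrt_pos.2 (by linarith)
  have hden : 0 < 1 + hJ W + hB W := by linarith
  rw [mul_max_of_nonneg _ _ hcpos.le]
  apply max_le
  · calc c * (1 / Real.sqrt (1 + hJ W)) = c / Real.sqrt (1 + hJ W) := by ring
      _ ≤ c₀ / Real.sqrt (1 + hJ W) := div_le_div_of_nonneg_right hc1 hs.le
      _ ≤ _ := hsq'
  · by_cases hj : W.j = 0 ∨ W.j = 1728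
    · have hfin : (0 : ℝ) < Module.finrank ℚ K := by exact_mod_cast Module.finrank_pos
      have hbd : hB W ≤ 216 * nt P + L := by
        obtain ⟨Ba, hBa, hsum⟩ := cm_large W hj
        have h1 : ∑ v ∈ Ba, Real.log (plNorm v) ≤
            216 * Module.finrank ℚ K * nt P + Module.finrank ℚ K * Real.log 24050368 := by
          rcases hj with hj | hj
          · exact cm_zero W hj P hP Ba hBa
          · exact cm_1728 W hj P hP Ba hBa
        have h2 : hB W * Module.finrank ℚ K ≤ (216 * nt P + L) * Module.finrank ℚ K := by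
          rw [hL]
          linarith
        exact le_of_mul_le_mul_right h2 hfin
      by_cases hcase : hB W ≤ 2 * L
      · refine (combine_small (hJ W) (hB W) (2 * L) c₀ c hJ0 hB0 hcase (by positivity) hcpos.le
          ?_).trans hsq'
        rw [le_div_iff₀ (by positivity)] at hc3
        exact hc3
      · push Not at hcase
        have h3 : hB W / 432 ≤ nt P := by linarith
        have h4 : hB W ^ 5 / (1 + hJ W + hB W) ^ 4 ≤ hB W := by
          rw [div_le_iff₀ (by positivity)]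
          have h5 : hB W ^ 4 ≤ (1 + hJ W + hB W) ^ 4 :=
            pow_le_pow_left₀ hB0 (by linarith) 4
          calc hB W ^ 5 = hB W * hB W ^ 4 := by ring
            _ ≤ _ := mul_le_mul_of_nonneg_left h5 hB0
        calc c * (hB W ^ 5 / (1 + hJ W + hB W) ^ 4) ≤ 1 / 432 * hB W :=
              mul_le_mul hc4 h4 (by positivity) (by norm_num)
          _ = hB W / 432 := by ring
          _ ≤ nt P := h3
    · push Not at hj
      refine le_trans ?_ (hne K hK W hj.1 hj.2 P hP)
      exact mul_le_mul_of_nonneg_right hc2 (by positivity)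

end Sq

end LangForms
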