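import Pool.Agent.Lib_MP_f5471b_s.SAbs
import Pool.Agent.Lib_MP_f5471b_s.AbsF
import Pool.Agent.Lib_MP_f5471b_s.Layer
import Pool.Agent.Lib_MP_f5471b_s.CanTwo

/-!
# MP_f5471b_nt: the lower bound for the canonical height of a point of infinite order, without
logarithms
-/

namespace LangForms

open Height NumberField WeierstrassCurve Topology Filter

namespace Sq

open LangForms.Pow

/-- The sums of the local terms over the multiples of a point. -/
theorem layer_J {F : Type} [Field F] [NumberField F] (d : ℕ) (hd : Module.finrank ℚ F ≤ d)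
    (t : F) (hκ : 1 + 1728 * t ≠ 0) {X : Type} [AddCommGroup X] (ξ : X → Fin 2 → F)
    (hξ : XMap t ξ) (Q : X) (hQ : ∀ k : ℕ, 1 ≤ k → k • Q ≠ 0) (T : Finset (FinitePlace F))
    (N : ℕ) :
    ∑ m ∈ Finset.Icc 1 N, (∑ v : InfinitePlace F, v.mult * Jl v.1 t (ξ (m • Q)) +
      ∑ v ∈ T, Jl v.1 t (ξ (m • Q))) ≤
    1 / 2 * ∑ m ∈ Finset.Icc 1 (2 * N), (∑ v : InfinitePlace F, v.mult * Jl v.1 t (ξ (m • Q)) +
      ∑ v ∈ T, Jl v.1 t (ξ (m • Q))) + 2 * (d * Real.log 12) * N := by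
  have hl : 0 ≤ Real.log 12 := Real.log_nonneg (by norm_num)
  have hi : ∀ v : InfinitePlace F, ∑ m ∈ Finset.Icc 1 N, Jl v.1 t (ξ (m • Q)) ≤
      1 / 2 * ∑ m ∈ Finset.Icc 1 (2 * N), Jl v.1 t (ξ (m • Q)) + 2 * Real.log 12 * N := by
    intro v
    refine layer (fun m => Jl v.1 t (ξ (m • Q))) (Real.log 12) hl
      (fun m => Jl_nonneg _ _ _) N fun a b ha _ hb _ => ?_
    have h := Jl_add hξ v.1 hκ (a • Q) (b • Q) (hQ a ha) (hQ b hb)
      (by rw [← add_nsmul]; exact hQ _ (by omega))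
    rw [← add_nsmul] at h
    exact h
  have hf : ∀ v : FinitePlace F, ∑ m ∈ Finset.Icc 1 N, Jl v.1 t (ξ (m • Q)) ≤
      1 / 2 * ∑ m ∈ Finset.Icc 1 (2 * N), Jl v.1 t (ξ (m • Q)) := by
    intro v
    have h := layer (fun m => Jl v.1 t (ξ (m • Q))) 0 le_rfl
      (fun m => Jl_nonneg _ _ _) N fun a b ha _ hb _ => by
        have h := Jl_add_na hξ v.1 (fin_na v) hκ (a • Q) (b • Q) (hQ a ha) (hQ b hb)
          (by rw [← add_nsmul]; exact hQ _ (by omega))
        rw [← add_nsmul] at h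
        rw [add_zero]
        exact h
    rw [mul_zero, zero_mul, add_zero] at h
    exact h
  have e : ∀ M : ℕ, ∑ m ∈ Finset.Icc 1 M, (∑ v : InfinitePlace F, v.mult * Jl v.1 t (ξ (m • Q)) +
      ∑ v ∈ T, Jl v.1 t (ξ (m • Q))) =
      ∑ v : InfinitePlace F, v.mult * ∑ m ∈ Finset.Icc 1 M, Jl v.1 t (ξ (m • Q)) +
      ∑ v ∈ T, ∑ m ∈ Finset.Icc 1 M, Jl v.1 t (ξ (m • Q)) := by
    intro M
    rw [Finset.sum_add_distrib, Finset.sum_comm, Finset.sum_comm (s := Finset.Icc 1 M) (t := T)]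
    congr 1
    exact Finset.sum_congr rfl fun v _ => by rw [Finset.mul_sum]
  rw [e, e]
  have h1 : ∑ v : InfinitePlace F, v.mult * ∑ m ∈ Finset.Icc 1 N, Jl v.1 t (ξ (m • Q)) ≤
      ∑ v : InfinitePlace F, v.mult * (1 / 2 * ∑ m ∈ Finset.Icc 1 (2 * N), Jl v.1 t (ξ (m • Q)) +
        2 * Real.log 12 * N) :=
    Finset.sum_le_sum fun v _ => mul_le_mul_of_nonneg_left (hi v) (Nat.cast_nonneg _)
  have h2 : ∑ v ∈ T, ∑ m ∈ Finset.Icc 1 N, Jl v.1 t (ξ (m • Q)) ≤
      ∑ v ∈ T, 1 / 2 * ∑ m ∈ Finset.Icc 1 (2 * N), Jl v.1 t (ξ (m • Q)) :=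
    Finset.sum_le_sum fun v _ => hf v
  have h3 : ∑ v : InfinitePlace F, v.mult * (1 / 2 *
        ∑ m ∈ Finset.Icc 1 (2 * N), Jl v.1 t (ξ (m • Q)) + 2 * Real.log 12 * N) =
      1 / 2 * ∑ v : InfinitePlace F, v.mult * ∑ m ∈ Finset.Icc 1 (2 * N), Jl v.1 t (ξ (m • Q)) +
        (∑ v : InfinitePlace F, (v.mult : ℝ)) * (2 * Real.log 12 * N) := by
    rw [Finset.mul_sum, Finset.sum_mul, ← Finset.sum_add_distrib]
    exact Finset.sum_congr rfl fun v _ => by ring
  have h4 : (∑ v : InfinitePlace F, (v.mult : ℝ)) * (2 * Real.log 12 * N) ≤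
      d * (2 * Real.log 12 * N) := by
    apply mul_le_mul_of_nonneg_right _ (by positivity)
    rw [← Nat.cast_sum, InfinitePlace.sum_mult_eq]
    exact_mod_cast hd
  rw [← Finset.mul_sum] at h2
  rw [h3] at h1
  linarith

theorem sq_free (d : ℕ) : ∃ c H₀ : ℝ, 0 < c ∧ 3 ≤ H₀ ∧
    ∀ (F : Type) [Field F] [NumberField F], Module.finrank ℚ F ≤ d →
    ∀ t : F, t ≠ 0 → 1 + 1728 * t ≠ 0 → H₀ ≤ logHeight₁ t →
    ∀ (X : Type) [AddCommGroup X] (ξ : X → Fin 2 → F), XMap t ξ →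
    ∀ q : X → ℝ, (∀ (k : ℕ) (Q : X), q (k • Q) = (k : ℝ) ^ 2 * q Q) →
    (∀ Q : X, Tendsto (fun n : ℕ => logHeight (ξ ((2 ^ n) • Q)) / 4 ^ n) atTop (𝓝 (q Q))) →
    ∀ Q : X, (∀ k : ℕ, 1 ≤ k → k • Q ≠ 0) →
      c / Real.sqrt (logHeight₁ t) ≤ q Q := by
  classical
  obtain ⟨ε₁, c₁, hε₁, hε₁', hc₁, hdup⟩ := dup_gen
  obtain ⟨ε₂, c₂, hε₂, hε₂', hc₂, hadd⟩ := add_gen
  obtain ⟨ε, hεdef⟩ : ∃ ε, ε = min (min ε₁ ε₂) (1 / 3456) := ⟨_, rfl⟩
  obtain ⟨c₀, hc₀def⟩ : ∃ c₀, c₀ = max c₁ c₂ := ⟨_, rfl⟩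
  have hε : 0 < ε := by rw [hεdef]; exact lt_min (lt_min hε₁ hε₂) (by norm_num)
  have hεs : ε ≤ 1 / 3456 := by rw [hεdef]; exact min_le_right _ _
  have hε' : ε < 1 := by linarith
  have hc₀ : 0 ≤ c₀ := by rw [hc₀def]; exact hc₁.trans (le_max_left _ _)
  have hdup' : ∀ (F : Type) [Field F] (v : AbsoluteValue F ℝ) (t : F), 0 < v t → v t ≤ ε →
      DupLow v t c₀ ∧ DupRho v t c₀ := by
    intro F _ v t h1 h2
    have h3 := hdup F v t h1 (h2.trans (by rw [hεdef]; exact (min_le_left _ _).trans (min_le_left _ _)))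
    have h4 : c₁ ≤ c₀ := by rw [hc₀def]; exact le_max_left _ _
    exact ⟨LSAux.DupLow.mono h4 h3.1, LSAux.DupRho.mono h4 h3.2⟩
  have hadd' : ∀ (F : Type) [Field F] (v : AbsoluteValue F ℝ) (t : F), 0 < v t → v t ≤ ε →
      AddRho v t c₀ := by
    intro F _ v t h1 h2
    exact LSAux.AddRho.mono (by rw [hc₀def]; exact le_max_right _ _)
      (hadd F v t h1 (h2.trans (by rw [hεdef]; exact (min_le_left _ _).trans (min_le_right _ _))))
  obtain ⟨C₁, hC₁, hcl⟩ := can_lower d ε c₀ hε hε' hc₀ hdup'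
  obtain ⟨C₂, hC₂, hct⟩ := can_two d ε c₀ hε hεs hc₀ hdup'
  obtain ⟨E, hE⟩ : ∃ E : ℝ, E = 3 * c₀ * d + C₁ + C₂ + 2 * (d * Real.log 12) := ⟨_, rfl⟩
  have hl12 : 0 ≤ Real.log 12 := Real.log_nonneg (by norm_num)
  have hE0 : 0 ≤ E := by rw [hE]; positivity
  obtain ⟨dε, hdε⟩ : ∃ dε : ℝ, dε = d * -Real.log ε := ⟨_, rfl⟩
  have hlogε : 0 ≤ -Real.log ε := by
    rw [neg_nonneg]; exact Real.log_nonpos hε.le hε'.le
  have hdε0 : 0 ≤ dε := by rw [hdε]; positivity
  obtain ⟨B, hB⟩ : ∃ B : ℝ, B = 42 ^ d := ⟨_, rfl⟩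
  have hB1 : 1 ≤ B := by rw [hB]; exact one_le_pow₀ (by norm_num)
  obtain ⟨c', W₀, hc', hW₀, habs⟩ := abs_free
  obtain ⟨a, ha⟩ : ∃ a, a = min c' 1 := ⟨_, rfl⟩
  have ha0 : 0 < a := by rw [ha]; exact lt_min hc' one_pos
  have hac : a ≤ c' := by rw [ha]; exact min_le_left _ _
  have ha1 : a ≤ 1 := by rw [ha]; exact min_le_right _ _
  refine ⟨min c' (a ^ 3 / (2000 * B ^ 2)),
    max (max 3 (4 * dε)) (max ((40 * E / a) ^ 2) (max (4 * W₀) (16 * E + 16))),
    lt_min hc' (by positivity), (le_max_left _ _).trans (le_max_left _ _), ?_⟩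
  intro F _ _ hFd t ht hκ hH X _ ξ hξ q hqk hlim Q hQ
  obtain ⟨H, hHd⟩ : ∃ H, H = logHeight₁ t := ⟨_, rfl⟩
  rw [← hHd] at hH ⊢
  have hH3 : 3 ≤ H := ((le_max_left _ _).trans (le_max_left _ _)).trans hH
  have hHdε : 4 * dε ≤ H := ((le_max_right _ _).trans (le_max_left _ _)).trans hH
  have hHK : (40 * E / a) ^ 2 ≤ H := ((le_max_left _ _).trans (le_max_right _ _)).trans hH
  have hHW₀ : 4 * W₀ ≤ H :=
    ((le_max_left _ _).trans ((le_max_right _ _).trans (le_max_right _ _))).trans hH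
  have hHE : 16 * E + 16 ≤ H :=
    ((le_max_right _ _).trans ((le_max_right _ _).trans (le_max_right _ _))).trans hH
  have hvt : ∀ v : FinitePlace F, 0 < v t := fun v => by
    rw [FinitePlace.pos_iff]; exact ht
  have hvi : ∀ v : InfinitePlace F, 0 < v t := fun v => by
    rw [InfinitePlace.pos_iff]; exact ht
  -- the bad finite places
  obtain ⟨Tf, hTf⟩ : ∃ Tf : Finset (FinitePlace F), ∀ v, v ∈ Tf ↔ v t < 1 := by
    have hfin : {v : FinitePlace F | v t < 1}.Finite := by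
      refine (FinitePlace.hasFiniteMulSupport ht).subset ?_
      intro v hv
      rw [Function.mem_mulSupport]
      exact ne_of_lt hv
    exact ⟨hfin.toFinset, fun v => by simp⟩
  have hh := logHeight₁_eq_Lt t ht Tf hTf
  rw [← hHd] at hh
  obtain ⟨W, hW⟩ : ∃ W, W = ∑ v ∈ Tf, Lt v.1 t := ⟨_, rfl⟩
  have hCirc : ∀ v ∈ Tf, Circ (Lt v.1 t) fun Q => rho v.1 t (ξ Q) := fun v hv =>
    circ_fin hξ v (hvt v) ((hTf v).1 hv)
  have hW0 : 0 ≤ W := by
    rw [hW]; exact Finset.sum_nonneg fun v hv => (hCirc v hv).pos.le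
  -- the infinite places
  obtain ⟨I, hI⟩ : ∃ I : Finset (InfinitePlace F), I = Finset.univ.filter fun v => v t ≤ ε :=
    ⟨_, rfl⟩
  have hIv : ∀ v ∈ I, v t ≤ ε := fun v hv => by
    rw [hI, Finset.mem_filter] at hv; exact hv.2
  have hLi : ∀ v ∈ I, 0 < Lt v.1 t := fun v hv =>
    neg_pos.2 (Real.log_neg (hvi v) (lt_of_le_of_lt (hIv v hv) hε'))
  obtain ⟨WI, hWI⟩ : ∃ WI, WI = ∑ v ∈ I, (v.mult : ℝ) * Lt v.1 t := ⟨_, rfl⟩
  have hWI0 : 0 ≤ WI := by
    rw [hWI]; exact Finset.sum_nonneg fun v hv => mul_nonneg (Nat.cast_nonneg _) (hLi v hv).le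
  have hmult : ∑ v ∈ I, (v.mult : ℝ) ≤ d := by
    have h1 : ∑ v ∈ I, (v.mult : ℝ) ≤ ∑ v : InfinitePlace F, (v.mult : ℝ) :=
      Finset.sum_le_univ_sum_of_nonneg fun v => Nat.cast_nonneg _
    have h2 : ∑ v : InfinitePlace F, (v.mult : ℝ) = Module.finrank ℚ F := by
      exact_mod_cast InfinitePlace.sum_mult_eq
    have h3 : (Module.finrank ℚ F : ℝ) ≤ d := by exact_mod_cast hFd
    linarith
  have hA : ∑ v : InfinitePlace F, v.mult * Real.posLog (v t)⁻¹ ≤ WI + dε := by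
    have h1 : ∀ v : InfinitePlace F, (v.mult : ℝ) * Real.posLog (v t)⁻¹ ≤
        (if v t ≤ ε then (v.mult : ℝ) * Lt v.1 t else 0) + v.mult * -Real.log ε := by
      intro v
      have hm0 : (0 : ℝ) ≤ v.mult := Nat.cast_nonneg _
      split_ifs with h
      · have h2 : Real.posLog (v t)⁻¹ = Lt v.1 t := by
          rw [Real.posLog_eq_log]
          · rw [Real.log_inv]; rfl
          · rw [abs_of_pos (inv_pos.2 (hvi v))]
            exact (one_le_inv₀ (hvi v)).2 (h.trans hε'.le)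
        rw [h2]
        have := mul_nonneg hm0 hlogε
        linarith
      · rw [zero_add]
        refine mul_le_mul_of_nonneg_left ?_ hm0
        push Not at h
        rw [Real.posLog]
        refine max_le hlogε ?_
        rw [Real.log_inv]
        exact neg_le_neg (Real.log_le_log hε h.le)
    refine (Finset.sum_le_sum fun v _ => h1 v).trans ?_
    rw [Finset.sum_add_distrib, hWI, hI, Finset.sum_filter, ← Finset.sum_mul]
    have h2 : ∑ v : InfinitePlace F, (v.mult : ℝ) = Module.finrank ℚ F := by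
      exact_mod_cast InfinitePlace.sum_mult_eq
    have h3 : (Module.finrank ℚ F : ℝ) ≤ d := by exact_mod_cast hFd
    rw [h2, hdε]
    have := mul_le_mul_of_nonneg_right h3 hlogε
    linarith
  rw [← hW] at hh
  have hHle : H ≤ WI + dε + W := by rw [hh]; linarith
  have hWH : W ≤ H := by
    have : 0 ≤ ∑ v : InfinitePlace F, v.mult * Real.posLog (v t)⁻¹ :=
      Finset.sum_nonneg fun v _ => mul_nonneg (Nat.cast_nonneg _) Real.posLog_nonneg
    linarith
  -- the lower bound for differences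
  obtain ⟨bs, hbs⟩ : ∃ bs : X → ℝ, bs = bsum Tf (fun v => Lt v.1 t)
    (fun v Q => rho v.1 t (ξ Q)) := ⟨_, rfl⟩
  have hlow : ∀ z : X, z ≠ 0 → (∀ v ∈ I, rho v.1 t (ξ z) ≤ Lt v.1 t / 20 + 3 * c₀) →
      bs z + WI / 10 - E ≤ q z := by
    intro z hz hzI
    have h1 := hcl F hFd t ht hκ X ξ hξ Tf hTf z (q z) hz (hlim z)
    have h2 : ∑ v ∈ Tf, phi v.1 t (ξ z) = bs z := by
      rw [hbs, bsum]
      refine Finset.sum_congr rfl fun v hv => ?_
      have hL := (hCirc v hv).pos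
      simp only [phi, bv, bern]
      field_simp
    have h3 : WI / 10 - 3 * c₀ * d ≤
        ∑ v : InfinitePlace F, (if v t ≤ ε then v.mult * phi v.1 t (ξ z) else 0) := by
      rw [← Finset.sum_filter, ← hI]
      have h4 : ∀ v ∈ I, (v.mult : ℝ) * (Lt v.1 t / 10) - v.mult * (3 * c₀) ≤
          v.mult * phi v.1 t (ξ z) := by
        intro v hv
        have h5 := hzI v hv
        have h6 := hLi v hv
        have h7 : 0 ≤ rho v.1 t (ξ z) ^ 2 / Lt v.1 t := by positivity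
        have h8 : Lt v.1 t / 10 - 3 * c₀ ≤ phi v.1 t (ξ z) := by
          simp only [phi]
          linarith
        have h9 := mul_le_mul_of_nonneg_left h8 (Nat.cast_nonneg (α := ℝ) v.mult)
        linarith
      refine le_trans ?_ (Finset.sum_le_sum h4)
      rw [Finset.sum_sub_distrib, ← Finset.sum_mul]
      have h5 : ∑ v ∈ I, (v.mult : ℝ) * (Lt v.1 t / 10) = WI / 10 := by
        rw [hWI, Finset.sum_div]
        exact Finset.sum_congr rfl fun v _ => by ring
      rw [h5]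
      have h6 : (∑ v ∈ I, (v.mult : ℝ)) * (3 * c₀) ≤ d * (3 * c₀) :=
        mul_le_mul_of_nonneg_right hmult (by positivity)
      linarith
    rw [h2] at h1
    rw [hE]
    have hd12 : 0 ≤ (d : ℝ) * Real.log 12 := by positivity
    linarith
  -- selection at the infinite places
  have hsel : ∀ S : Finset X, ∃ S' ⊆ S, (S.card : ℝ) ≤ B * S'.card ∧
      ∀ x ∈ S', ∀ y ∈ S', x ≠ y → bs (x - y) + WI / 10 - E ≤ q (x - y) := by
    intro S
    obtain ⟨S', hS', hcard, h1⟩ := arch_select I (fun v => Lt v.1 t) c₀ hc₀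
      (fun v Q => rho v.1 t (ξ Q)) hLi
      (fun v hv Q => rho_nonneg v.1 t ((hIv v hv).trans hε'.le) _)
      (fun v hv Q => rho_le v.1 t (hvi v) _)
      (fun v hv => ptRho_of hξ v.1 c₀ hc₀ (hvi v) (lt_of_le_of_lt (hIv v hv) hε')
        (hdup' F v.1 t (hvi v) (hIv v hv)).2 (hadd' F v.1 t (hvi v) (hIv v hv))) S
    refine ⟨S', hS', ?_, ?_⟩
    · have h2 : I.card ≤ d := by
        refine (Finset.card_le_univ I).trans ((LSAux.card_inf_le F).trans hFd)
      have h3 : (S.card : ℝ) ≤ 42 ^ I.card * S'.card := by exact_mod_cast hcard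
      refine h3.trans ?_
      rw [hB]
      exact mul_le_mul_of_nonneg_right (pow_le_pow_right₀ (by norm_num) h2) (Nat.cast_nonneg _)
    · intro x hx y hy hxy
      exact hlow _ (sub_ne_zero.2 hxy) fun v hv => h1 v hv x hx y hy
  have hH0 : 0 < H := by linarith
  have hsq0 : 0 < Real.sqrt H := Real.sqrt_pos.2 hH0
  have hsqsq : Real.sqrt H * Real.sqrt H = H := Real.mul_self_sqrt hH0.le
  have hEs : E ≤ a * Real.sqrt H / 40 := by
    have h1 : 40 * E / a ≤ Real.sqrt H := Real.le_sqrt_of_sq_le hHK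
    rw [div_le_iff₀ ha0] at h1
    linarith
  have hqQ : 0 ≤ q Q := by
    refine ge_of_tendsto' (hlim Q) fun n => ?_
    have : 0 ≤ logHeight (ξ ((2 ^ n) • Q)) := logHeight_nonneg _
    positivity
  have hWIH : WI ≤ H := by
    have h1 : ∑ v ∈ I, (v.mult : ℝ) * Lt v.1 t ≤
        ∑ v : InfinitePlace F, v.mult * Real.posLog (v t)⁻¹ := by
      refine (Finset.sum_le_sum (g := fun v : InfinitePlace F =>
        (v.mult : ℝ) * Real.posLog (v t)⁻¹) fun v hv => ?_).trans
        (Finset.sum_le_univ_sum_of_nonneg fun v =>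
          mul_nonneg (Nat.cast_nonneg _) Real.posLog_nonneg)
      refine mul_le_mul_of_nonneg_left ?_ (Nat.cast_nonneg _)
      rw [Real.posLog, Real.log_inv]
      exact le_max_right _ _
    rw [← hWI] at h1
    linarith
  rcases le_or_gt (a * Real.sqrt H) WI with hcase | hcase
  · -- the places at infinity carry enough
    have hWIpos : 0 < WI := lt_of_lt_of_le (by positivity) hcase
    have h1 := case_arch Q hQ q bs hqk hqQ B WI H W E hB1 hWIpos hWIH hWH (by linarith)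
      (fun S => by rw [hbs]; exact (bsum_psd hCirc S).sum_nonneg)
      (by rw [hbs, hW]; exact bsum_zero hCirc)
      (fun x y => by
        rw [hbs, bsum, bsum]
        refine Finset.sum_congr rfl fun v hv => ?_
        rw [bv, bv, (hCirc v hv).sub_comm]) hsel
    refine le_trans ?_ h1
    have h2 : (a * Real.sqrt H) ^ 3 ≤ WI ^ 3 :=
      pow_le_pow_left₀ (by positivity) hcase 3
    have h3 : a ^ 3 / (2000 * B ^ 2) / Real.sqrt H ≤
        (a * Real.sqrt H) ^ 3 / (1500 * B ^ 2 * H ^ 2) := by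
      rw [div_div, div_le_div_iff₀ (by positivity) (by positivity)]
      have e : H ^ 2 = Real.sqrt H ^ 4 := by
        calc H ^ 2 = (Real.sqrt H * Real.sqrt H) ^ 2 := by rw [hsqsq]
          _ = _ := by ring
      rw [e]
      have h4 : 0 ≤ a ^ 3 * B ^ 2 * Real.sqrt H ^ 4 := by positivity
      nlinarith
    refine le_trans ?_ (h3.trans (div_le_div_of_nonneg_right h2 (by positivity)))
    exact div_le_div_of_nonneg_right (min_le_right _ _) (by positivity)
  · -- the finite places carry almost everything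
    have hsqH : Real.sqrt H ≤ H / 4 := by
      rw [Real.sqrt_le_left (by positivity)]
      nlinarith
    have h16 : 16 ≤ H := by linarith
    have hWI4 : WI ≤ H / 4 := by
      have h1 : a * Real.sqrt H ≤ 1 * Real.sqrt H := mul_le_mul_of_nonneg_right ha1 hsq0.le
      linarith
    have hWhalf : H / 2 ≤ W := by linarith
    have hW8 : 8 ≤ W := by linarith
    have hW0' : 0 < W := by linarith
    have hsqW0 : 0 < Real.sqrt W := Real.sqrt_pos.2 hW0'
    have hsqW : Real.sqrt W ≤ Real.sqrt H := Real.sqrt_le_sqrt hWH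
    have hsqW' : Real.sqrt H / 2 ≤ Real.sqrt W := by
      rw [Real.le_sqrt' (by positivity)]
      have : (Real.sqrt H / 2) ^ 2 = H / 4 := by
        rw [div_pow, Real.sq_sqrt hH0.le]; norm_num
      rw [this]
      linarith
    have hdat : ∀ v : FinitePlace F, ∃ n a : ℕ, v ∈ Tf → 1 ≤ n ∧
        Lt v.1 t = n * Real.log (plNorm v) ∧ 2 * rho v.1 t (ξ Q) = a * Real.log (plNorm v) := by
      intro v
      by_cases hv : v ∈ Tf
      · obtain ⟨n, a, h1, h2, h3⟩ := rho_fin v t ht ((hTf v).1 hv) (ξ Q) (hξ.ne_zero Q)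
        exact ⟨n, a, fun _ => ⟨h1, h2, h3⟩⟩
      · exact ⟨0, 0, fun h => absurd h hv⟩
    choose nf af hnaf using hdat
    -- the local terms of the multiples
    have hBm : ∀ m : ℕ, ∑ v ∈ Tf, phi v.1 t (ξ (m • Q)) =
        Bm Tf (fun v => Lt v.1 t) (fun v => rho v.1 t (ξ Q) / Lt v.1 t) m := by
      intro m
      rw [Bm]
      refine Finset.sum_congr rfl fun v hv => ?_
      have hC := hCirc v hv
      have hL := hC.pos
      have h3 := mult_rho (Lt v.1 t) 0 hL le_rfl (fun Q => rho v.1 t (ξ Q)) hC.zero hC.nonneg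
        hC.le hC.pt Q m
      simp only [mul_zero] at h3
      have h4 := sub_eq_zero.1 (abs_nonpos_iff.1 h3)
      simp only [phi, bern]
      rw [h4]
      field_simp
    have hΦ1 : ∀ m : ℕ, -(WI / 12) ≤ ∑ v : InfinitePlace F,
        (if v.1 t ≤ ε then v.mult * phi v.1 t (ξ (m • Q)) else 0) := by
      intro m
      have e0 : ∑ v : InfinitePlace F,
          (if v.1 t ≤ ε then (v.mult : ℝ) * phi v.1 t (ξ (m • Q)) else 0) =
          ∑ v ∈ I, (v.mult : ℝ) * phi v.1 t (ξ (m • Q)) := by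
        rw [hI, Finset.sum_filter]
        rfl
      rw [e0]
      have h4 : ∀ v ∈ I, -((v.mult : ℝ) * Lt v.1 t / 12) ≤
          v.mult * phi v.1 t (ξ (m • Q)) := by
        intro v hv
        have h6 := hLi v hv
        have h8 : -(Lt v.1 t / 12) ≤ phi v.1 t (ξ (m • Q)) := by
          simp only [phi]
          have e : Lt v.1 t / 6 - rho v.1 t (ξ (m • Q)) +
              rho v.1 t (ξ (m • Q)) ^ 2 / Lt v.1 t + Lt v.1 t / 12 =
              (rho v.1 t (ξ (m • Q)) - Lt v.1 t / 2) ^ 2 / Lt v.1 t := by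
            field_simp
            ring
          have h9 : 0 ≤ (rho v.1 t (ξ (m • Q)) - Lt v.1 t / 2) ^ 2 / Lt v.1 t := by positivity
          linarith
        have h9 := mul_le_mul_of_nonneg_left h8 (Nat.cast_nonneg (α := ℝ) v.mult)
        linarith
      refine le_trans ?_ (Finset.sum_le_sum h4)
      rw [Finset.sum_neg_distrib, ← Finset.sum_div, ← hWI]
    have hΦ2 : ∀ m : ℕ, ∑ v : InfinitePlace F,
        (if v.1 t ≤ ε then v.mult * phi v.1 t (ξ (m • Q)) else 0) ≤ WI / 6 := by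
      intro m
      have e0 : ∑ v : InfinitePlace F,
          (if v.1 t ≤ ε then (v.mult : ℝ) * phi v.1 t (ξ (m • Q)) else 0) =
          ∑ v ∈ I, (v.mult : ℝ) * phi v.1 t (ξ (m • Q)) := by
        rw [hI, Finset.sum_filter]
        rfl
      rw [e0]
      have h4 : ∀ v ∈ I, v.mult * phi v.1 t (ξ (m • Q)) ≤ (v.mult : ℝ) * Lt v.1 t / 6 := by
        intro v hv
        have h6 := hLi v hv
        have h8 : phi v.1 t (ξ (m • Q)) ≤ Lt v.1 t / 6 := by
          simp only [phi]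
          have b := rho_le v.1 t (hvi v) (ξ (m • Q))
          have b0 := rho_nonneg v.1 t ((hIv v hv).trans hε'.le) (ξ (m • Q))
          have c : rho v.1 t (ξ (m • Q)) ^ 2 / Lt v.1 t ≤ rho v.1 t (ξ (m • Q)) := by
            rw [div_le_iff₀ h6]
            nlinarith
          linarith
        have h9 := mul_le_mul_of_nonneg_left h8 (Nat.cast_nonneg (α := ℝ) v.mult)
        linarith
      refine (Finset.sum_le_sum h4).trans ?_
      rw [← Finset.sum_div, ← hWI]
    have hf2 : ∀ m : ℕ, 1 ≤ m → fQ t ε Tf (ξ (m • Q)) ≤ q Q * (m : ℝ) ^ 2 + C₂ ∧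
        -C₂ ≤ fQ t ε Tf (ξ (m • Q)) := by
      intro m hm
      have h1 := hct F hFd t ht hκ X ξ hξ Tf hTf (m • Q) (q (m • Q))
        (fun n hn => by rw [smul_smul]; exact hQ _ (Nat.mul_pos hn hm)) (hlim _)
      rw [hqk] at h1
      refine ⟨?_, h1.2⟩
      linarith [h1.1]
    obtain ⟨E', hE'⟩ : ∃ E', E' = C₂ + WI / 6 + 2 * (d * Real.log 12) := ⟨_, rfl⟩
    have hd12 : 0 ≤ (d : ℝ) * Real.log 12 := by positivity
    have hJf : ∀ w : Fin 2 → F, 0 ≤ ∑ᶠ v : FinitePlace F, Jl v.1 t w := fun w =>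
      finsum_nonneg fun v => Jl_nonneg _ _ _
    have hJi : ∀ w : Fin 2 → F, 0 ≤ ∑ v : InfinitePlace F, v.mult * Jl v.1 t w := fun w =>
      Finset.sum_nonneg fun v _ => mul_nonneg (Nat.cast_nonneg _) (Jl_nonneg _ _ _)
    have hres := habs Tf (fun v => Lt v.1 t) (fun v => rho v.1 t (ξ Q) / Lt v.1 t) nf (q Q)
      E' ?_ (fun v hv => (hnaf v hv).1) ?_ ?_ ?_ ?_ ?_
    · rw [← hW] at hres
      refine le_trans ?_ hres
      refine (div_le_div_of_nonneg_right (min_le_left _ _) (by positivity)).trans ?_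
      exact div_le_div_of_nonneg_left hc'.le hsqW0 hsqW
    · refine ⟨fun v hv => (hCirc v hv).pos.le, hqQ, by rw [hE']; positivity, fun m hm => ?_⟩
      have h1 := (hf2 m hm).1
      have h2 := hJf (ξ (m • Q))
      have h3 := hJi (ξ (m • Q))
      have h4 := hΦ1 m
      rw [fQ, hBm] at h1
      rw [hE']
      linarith
    · intro v hv
      obtain ⟨h1, h2, -⟩ := hnaf v hv
      have h3 := plNorm_log_ge v
      rw [h2]
      have : (0 : ℝ) ≤ nf v := Nat.cast_nonneg _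
      nlinarith
    · intro v hv
      obtain ⟨h1, h2, h3⟩ := hnaf v hv
      refine ⟨(af v : ℤ), ?_⟩
      have h4 := plNorm_log_ge v
      have h5 : (0 : ℝ) < nf v := by exact_mod_cast h1
      rw [h2, Int.cast_natCast]
      have h6 : rho v.1 t (ξ Q) = af v * Real.log (plNorm v) / 2 := by linarith
      rw [h6]
      have h7 : Real.log (plNorm v) ≠ 0 := by
        have : 0 < Real.log (plNorm v) := by linarith
        exact this.ne'
      field_simp
    · -- the terms at the places where the multiples are close to zero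
      intro R
      have hex : ∀ m : ℕ, ∃ T : Finset (FinitePlace F), 1 ≤ m → ∀ v : FinitePlace F, v ∉ T →
          Jl v.1 t (ξ (m • Q)) = 0 := by
        intro m
        by_cases hm : 1 ≤ m
        · have h1 : ξ (m • Q) 1 ≠ 0 := fun h => hQ m hm ((hξ.zero_iff _).1 h)
          obtain ⟨T, hT⟩ := ex_supp_J t hκ (ξ (m • Q)) h1
          exact ⟨T, fun _ => hT⟩
        · exact ⟨∅, fun h => absurd h hm⟩
      choose Tm hTm using hex
      obtain ⟨T, hT⟩ : ∃ T : Finset (FinitePlace F), T = (Finset.Icc 1 R).biUnion Tm := ⟨_, rfl⟩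
      have hT0 : ∀ m : ℕ, 1 ≤ m → m ≤ R → ∀ v : FinitePlace F, v ∉ T →
          Jl v.1 t (ξ (m • Q)) = 0 := by
        intro m h1 h2 v hv
        apply hTm m h1
        intro h3
        apply hv
        rw [hT, Finset.mem_biUnion]
        exact ⟨m, Finset.mem_Icc.2 ⟨h1, h2⟩, h3⟩
      refine ⟨fun m => ∑ v : InfinitePlace F, v.mult * Jl v.1 t (ξ (m • Q)) +
        ∑ v ∈ T, Jl v.1 t (ξ (m • Q)), ?_, ?_, ?_, ?_⟩
      · intro m
        exact add_nonneg (hJi _) (Finset.sum_nonneg fun v _ => Jl_nonneg _ _ _)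
      · intro m h1 h2
        have h3 := (hf2 m h1).1
        rw [fQ_eq t ε Tf T _ (hT0 m h1 h2), hBm] at h3
        have h4 := hΦ1 m
        rw [hE']
        linarith
      · intro m h1 h2
        have h3 := (hf2 m h1).2
        rw [fQ_eq t ε Tf T _ (hT0 m h1 h2), hBm] at h3
        have h4 := hΦ2 m
        rw [hE']
        linarith
      · intro N hN
        have h1 := layer_J d hFd t hκ ξ hξ Q hQ T N
        have h2 : 2 * ((d : ℝ) * Real.log 12) * N ≤ E' * N := by
          apply mul_le_mul_of_nonneg_right _ (Nat.cast_nonneg _)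
          rw [hE']
          linarith
        linarith
    · rw [← hW]; linarith
    · rw [← hW]
      have hCE : C₂ + 2 * (d * Real.log 12) ≤ E := by
        rw [hE]
        have : 0 ≤ 3 * c₀ * d := by positivity
        linarith
      have h1 : E' ≤ a * Real.sqrt H / 4 := by
        rw [hE']
        have h0 : 0 ≤ a * Real.sqrt H := by positivity
        linarith
      have h4 : a * Real.sqrt H ≤ c' * Real.sqrt H := mul_le_mul_of_nonneg_right hac hsq0.le
      have h5 : c' * (Real.sqrt H / 2) ≤ c' * Real.sqrt W :=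
        mul_le_mul_of_nonneg_left hsqW' hc'.le
      have h6 : 0 < c' * Real.sqrt H := by positivity
      linarith

end Sq

end LangForms
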