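import Pool.Agent.Lib_MP_f5471b_s.Basic
import Pool.Agent.Lib_MP_f5471b_s.SFree

/-!
# MP_f5471b_nt: the lower bounds in terms of the radical, relative to the parameter `t`
-/

namespace LangForms

open Height NumberField WeierstrassCurve Topology Filter

namespace Sq

/-- The lower bound in terms of the places with `v t < 1`. -/
theorem rad_free (d : ℕ) : ∃ c H₀ : ℝ, 0 < c ∧ 3 ≤ H₀ ∧
    ∀ (F : Type) [Field F] [NumberField F], Module.finrank ℚ F ≤ d →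
    ∀ t : F, t ≠ 0 → 1 + 1728 * t ≠ 0 → H₀ ≤ logHeight₁ t →
    ∀ (X : Type) [AddCommGroup X] (ξ : X → Fin 2 → F), XMap t ξ →
    ∀ q : X → ℝ, (∀ (k : ℕ) (Q : X), q (k • Q) = (k : ℝ) ^ 2 * q Q) →
    (∀ Q : X, Tendsto (fun n : ℕ => logHeight (ξ ((2 ^ n) • Q)) / 4 ^ n) atTop (𝓝 (q Q))) →
    ∀ Q : X, (∀ k : ℕ, 1 ≤ k → k • Q ≠ 0) →
    ∀ Tf : Finset (FinitePlace F), (∀ v, v ∈ Tf ↔ v t < 1) →
    ∀ R : ℝ, 0 ≤ R → R ≤ ∑ v : InfinitePlace F, v.mult * Real.posLog (v t)⁻¹ +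
      ∑ v ∈ Tf, Real.log (plNorm v) →
      c * R ^ 5 ≤ q Q * logHeight₁ t ^ 4 := by
  classical
  obtain ⟨c₀, H₀, hc₀, hH₀, hsq⟩ := sq_free d
  obtain ⟨B, E, dε, hB, hE, hdε, hbas⟩ := basic d
  obtain ⟨k, hk⟩ : ∃ k : ℝ, k = 2 + dε := ⟨_, rfl⟩
  have hk2 : 2 ≤ k := by rw [hk]; linarith
  obtain ⟨C, hC⟩ : ∃ C : ℝ, C = (4 * dε + 80 * E) ^ 3 + 10 ^ 12 * (1 + E) ^ 2 := ⟨_, rfl⟩
  have hC1 : (4 * dε + 80 * E) ^ 3 ≤ C := by
    rw [hC]
    have : 0 ≤ 10 ^ 12 * (1 + E) ^ 2 := by positivity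
    linarith
  have hC2 : 10 ^ 12 * (1 + E) ^ 2 ≤ C := by
    rw [hC]
    have : 0 ≤ (4 * dε + 80 * E) ^ 3 := by positivity
    linarith
  have hC0 : 0 < C := lt_of_lt_of_le (by positivity) hC2
  obtain ⟨c, hc⟩ : ∃ c : ℝ, c = min (min (c₀ / (C * k ^ 2)) (1 / 10 ^ 12))
      (min (1 / (12000 * B ^ 2 * k ^ 2)) (1 / 10 ^ 12 / (1500 * B ^ 2 * k))) := ⟨_, rfl⟩
  have hc1 : c ≤ c₀ / (C * k ^ 2) := by
    rw [hc]; exact (min_le_left _ _).trans (min_le_left _ _)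
  have hc2 : c ≤ 1 / 10 ^ 12 := by
    rw [hc]; exact (min_le_left _ _).trans (min_le_right _ _)
  have hc3 : c ≤ 1 / (12000 * B ^ 2 * k ^ 2) := by
    rw [hc]; exact (min_le_right _ _).trans (min_le_left _ _)
  have hc4 : c ≤ 1 / 10 ^ 12 / (1500 * B ^ 2 * k) := by
    rw [hc]; exact (min_le_right _ _).trans (min_le_right _ _)
  have hcpos : 0 < c := by
    rw [hc]
    exact lt_min (lt_min (by positivity) (by positivity)) (lt_min (by positivity) (by positivity))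
  refine ⟨c, H₀, hcpos, hH₀, ?_⟩
  intro F _ _ hFd t ht hκ hH X _ ξ hξ q hqk hlim Q hQ Tf hTf R hR hRle
  have h0 := hsq F hFd t ht hκ hH X ξ hξ q hqk hlim Q hQ
  obtain ⟨Tf', W, WI, n, hD⟩ := hbas F hFd t ht hκ X ξ hξ q hqk hlim Q hQ
  have hT : Tf' = Tf := by
    ext v
    rw [hD.mem, hTf]
  subst hT
  obtain ⟨H, hHd⟩ : ∃ H, H = logHeight₁ t := ⟨_, rfl⟩
  have hWH := hD.W_le
  have hWIH := hD.WI_le
  have hinf := hD.inf_le
  have harch := hD.arch
  rw [← hHd] at hH h0 hWH hWIH harch ⊢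
  have hH1 : 1 ≤ H := by linarith
  have hH0 : 0 < H := by linarith
  have hq0 := hD.q_nonneg
  have hW0 := hD.W_nonneg
  have hWI0 := hD.WI_nonneg
  obtain ⟨RF, hRF⟩ : ∃ RF, RF = ∑ v ∈ Tf', Real.log (plNorm v) := ⟨_, rfl⟩
  rw [← hRF] at hRle
  have hlog : ∀ v : FinitePlace F, 0 ≤ Real.log (plNorm v) := fun v => (log_plNorm_pos v).le
  have hRFW : RF ≤ W := by
    rw [hRF, hD.W_eq]
    refine Finset.sum_le_sum fun v hv => ?_
    rw [hD.Lt_eq v hv]
    have h1 : (1 : ℝ) ≤ n v := by exact_mod_cast hD.one_le v hv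
    nlinarith [hlog v]
  have hRF0 : 0 ≤ RF := by rw [hRF]; exact Finset.sum_nonneg fun v _ => hlog v
  have hRk : R ≤ k * H := by
    rw [hk]
    nlinarith
  have hkH : 0 < k * H := by positivity
  rcases le_or_gt (R ^ 3) (C * H) with hcase | hcase
  · -- small `R`
    have hsq0 : 0 < Real.sqrt H := Real.sqrt_pos.2 hH0
    have hsH : Real.sqrt H ≤ H := by
      rw [Real.sqrt_le_left hH0.le]
      nlinarith
    have h1 : c₀ ≤ q Q * H := by
      rw [div_le_iff₀ hsq0] at h0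
      exact h0.trans (mul_le_mul_of_nonneg_left hsH hq0)
    have h2 : R ^ 5 ≤ C * H * (k * H) ^ 2 := by
      have h3 : R ^ 2 ≤ (k * H) ^ 2 := pow_le_pow_left₀ hR hRk 2
      calc R ^ 5 = R ^ 3 * R ^ 2 := by ring
        _ ≤ C * H * (k * H) ^ 2 := mul_le_mul hcase h3 (by positivity) (by positivity)
    calc c * R ^ 5 ≤ c₀ / (C * k ^ 2) * (C * H * (k * H) ^ 2) :=
          mul_le_mul hc1 h2 (by positivity) (by positivity)
      _ = c₀ * H ^ 3 := by field_simp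
      _ ≤ q Q * H * H ^ 3 := mul_le_mul_of_nonneg_right h1 (by positivity)
      _ = _ := by ring
  have hRbig : 4 * dε + 80 * E < R := by
    by_contra hcon
    push Not at hcon
    have h1 : R ^ 3 ≤ (4 * dε + 80 * E) ^ 3 := pow_le_pow_left₀ hR hcon 3
    have h2 : C * 1 ≤ C * H := mul_le_mul_of_nonneg_left hH1 hC0.le
    linarith
  have hR0 : 0 < R := by
    have : 0 ≤ 4 * dε + 80 * E := by positivity
    linarith
  rcases lt_or_ge RF (R / 4) with hcase2 | hcase2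
  · -- the infinite places carry a part of `R`
    have h1 : R / 2 ≤ WI := by linarith
    have hWIpos : 0 < WI := by linarith
    have h2 := harch hWIpos (by linarith)
    have h3 : R ^ 3 / 8 ≤ WI ^ 3 := by
      calc R ^ 3 / 8 = (R / 2) ^ 3 := by ring
        _ ≤ WI ^ 3 := pow_le_pow_left₀ (by positivity) h1 3
    have h4 : R ^ 3 / 8 / (1500 * B ^ 2 * H ^ 2) ≤ q Q :=
      (div_le_div_of_nonneg_right h3 (by positivity)).trans h2
    have h5 : R ^ 5 ≤ R ^ 3 * (k * H) ^ 2 := by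
      have h3 : R ^ 2 ≤ (k * H) ^ 2 := pow_le_pow_left₀ hR hRk 2
      calc R ^ 5 = R ^ 3 * R ^ 2 := by ring
        _ ≤ R ^ 3 * (k * H) ^ 2 := mul_le_mul_of_nonneg_left h3 (by positivity)
    calc c * R ^ 5 ≤ 1 / (12000 * B ^ 2 * k ^ 2) * (R ^ 3 * (k * H) ^ 2) :=
          mul_le_mul hc3 h5 (by positivity) (by positivity)
      _ = R ^ 3 / 8 / (1500 * B ^ 2 * H ^ 2) * H ^ 4 := by field_simp; ring
      _ ≤ _ := mul_le_mul_of_nonneg_right h4 (by positivity)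
  obtain ⟨E', hE'⟩ : ∃ E', E' = E + WI / 12 := ⟨_, rfl⟩
  have hE'0 : 0 ≤ E' := by rw [hE']; positivity
  rcases le_or_gt (E' ^ 2 * W) (1 / 10 ^ 8 * RF ^ 3) with hcase3 | hcase3
  · -- the finite places
    have hJf : ∀ w : Fin 2 → F, 0 ≤ ∑ᶠ v : FinitePlace F, Jl v.1 t w := fun w =>
      finsum_nonneg fun v => Jl_nonneg _ _ _
    have h1 := rad_abs Tf' (fun v => Lt v.1 t) (fun v => rho v.1 t (ξ Q) / Lt v.1 t)
      (fun v => Real.log (plNorm v)) n (q Q) E' W RF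
      ⟨hD.L_nonneg, hq0, hE'0, fun m hm => by
        have h2 := hD.up m hm
        have h3 := hJf (ξ (m • Q))
        rw [hE']
        linarith⟩
      hD.one_le (fun v _ => hlog v) hD.Lt_eq hD.ang hD.W_eq hRF hcase3
    have h2 : (R / 4) ^ 5 ≤ RF ^ 5 := pow_le_pow_left₀ (by positivity) hcase2 5
    have h3 : q Q * W ^ 4 ≤ q Q * H ^ 4 :=
      mul_le_mul_of_nonneg_left (pow_le_pow_left₀ hW0 hWH 4) hq0
    have h4 : c * R ^ 5 ≤ 1 / 10 ^ 12 * R ^ 5 := mul_le_mul_of_nonneg_right hc2 (by positivity)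
    have h5 : (R / 4) ^ 5 = R ^ 5 / 1024 := by ring
    rw [h5] at h2
    have h6 : 0 ≤ R ^ 5 := by positivity
    linarith
  · -- the infinite places carry a part
    have h1 : R ^ 3 / 64 ≤ RF ^ 3 := by
      calc R ^ 3 / 64 = (R / 4) ^ 3 := by ring
        _ ≤ _ := pow_le_pow_left₀ (by positivity) hcase2 3
    have h2 : E' ^ 2 * W ≤ E' ^ 2 * H := mul_le_mul_of_nonneg_left hWH (by positivity)
    have h3 : 10 ^ 12 * (1 + E) ^ 2 * H < R ^ 3 :=
      (mul_le_mul_of_nonneg_right hC2 hH0.le).trans_lt hcase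
    have h4 : (12 * (1 + E)) ^ 2 * H < E' ^ 2 * H := by
      have e : (12 * (1 + E)) ^ 2 * H = 144 * ((1 + E) ^ 2 * H) := by ring
      have e2 : 10 ^ 12 * (1 + E) ^ 2 * H = 10 ^ 12 * ((1 + E) ^ 2 * H) := by ring
      rw [e2] at h3
      rw [e]
      have : 0 ≤ (1 + E) ^ 2 * H := by positivity
      linarith
    have h5 : (12 * (1 + E)) ^ 2 < E' ^ 2 := lt_of_mul_lt_mul_right h4 hH0.le
    have h6 : 12 * (1 + E) < E' := lt_of_pow_lt_pow_left₀ 2 hE'0 h5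
    have h7 : 10 * E' ≤ WI := by linarith
    have hWIpos : 0 < WI := by linarith
    have h8 := harch hWIpos (by linarith)
    have h9 : 1 / 10 ^ 8 * R ^ 3 ≤ WI ^ 2 * H := by
      have e : (10 * E') ^ 2 * H ≤ WI ^ 2 * H :=
        mul_le_mul_of_nonneg_right (pow_le_pow_left₀ (by positivity) h7 2) hH0.le
      have e2 : (10 * E') ^ 2 * H = 100 * (E' ^ 2 * H) := by ring
      rw [e2] at e
      have : 0 ≤ R ^ 3 := by positivity
      linarith
    have h10 : (1 / 10 ^ 8 * R ^ 3) ^ 3 ≤ (WI ^ 2 * H) ^ 3 :=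
      pow_le_pow_left₀ (by positivity) h9 3
    have h11 : WI ^ 3 ≤ q Q * (1500 * B ^ 2 * H ^ 2) := by
      rw [div_le_iff₀ (by positivity)] at h8
      exact h8
    have h12 : (WI ^ 3) ^ 2 ≤ (q Q * (1500 * B ^ 2 * H ^ 2)) ^ 2 :=
      pow_le_pow_left₀ (by positivity) h11 2
    have h13 : 1 / 10 ^ 12 * R ^ 5 ≤ q Q * (1500 * B ^ 2 * H ^ 4) * k := by
      refine le_of_pow_le_pow_left₀ (n := 2) (by norm_num) (by positivity) ?_
      have e1 : (1 / 10 ^ 12 * R ^ 5) ^ 2 = (1 / 10 ^ 8 * R ^ 3) ^ 3 * R := by ring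
      have e2 : (WI ^ 2 * H) ^ 3 = (WI ^ 3) ^ 2 * H ^ 3 := by ring
      have e3 : (q Q * (1500 * B ^ 2 * H ^ 4) * k) ^ 2 =
          (q Q * (1500 * B ^ 2 * H ^ 2)) ^ 2 * H ^ 3 * (k ^ 2 * H) := by ring
      rw [e1, e3]
      rw [e2] at h10
      have h14 : R ≤ k ^ 2 * H := by
        have : k * H ≤ k ^ 2 * H := by
          apply mul_le_mul_of_nonneg_right _ hH0.le
          nlinarith
        linarith
      have h15 : (1 / 10 ^ 8 * R ^ 3) ^ 3 ≤ (q Q * (1500 * B ^ 2 * H ^ 2)) ^ 2 * H ^ 3 :=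
        h10.trans (mul_le_mul_of_nonneg_right h12 (by positivity))
      exact mul_le_mul h15 h14 hR (by positivity)
    have hBk : 0 < 1500 * B ^ 2 * k := by positivity
    calc c * R ^ 5 ≤ 1 / 10 ^ 12 / (1500 * B ^ 2 * k) * R ^ 5 :=
          mul_le_mul_of_nonneg_right hc4 (by positivity)
      _ = 1 / 10 ^ 12 * R ^ 5 / (1500 * B ^ 2 * k) := by ring
      _ ≤ q Q * (1500 * B ^ 2 * H ^ 4) * k / (1500 * B ^ 2 * k) :=
          div_le_div_of_nonneg_right h13 hBk.le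
      _ = _ := by field_simp

/-- The lower bound in terms of places at which all the points `6 m Q` are close to zero. -/
theorem add_free (d : ℕ) : ∃ c C : ℝ, 0 < c ∧ 0 ≤ C ∧
    ∀ (F : Type) [Field F] [NumberField F], Module.finrank ℚ F ≤ d →
    ∀ t : F, t ≠ 0 → 1 + 1728 * t ≠ 0 →
    ∀ (X : Type) [AddCommGroup X] (ξ : X → Fin 2 → F), XMap t ξ →
    ∀ q : X → ℝ, (∀ (k : ℕ) (Q : X), q (k • Q) = (k : ℝ) ^ 2 * q Q) →
    (∀ Q : X, Tendsto (fun n : ℕ => logHeight (ξ ((2 ^ n) • Q)) / 4 ^ n) atTop (𝓝 (q Q))) →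
    ∀ Q : X, (∀ k : ℕ, 1 ≤ k → k • Q ≠ 0) →
    ∀ Ta : Finset (FinitePlace F), (∀ v ∈ Ta, ∀ m : ℕ, 1 ≤ m →
      Real.log (plNorm v) / 6 ≤ Jl v.1 t (ξ ((6 * m) • Q))) →
    ∀ R : ℝ, R = ∑ v ∈ Ta, Real.log (plNorm v) → C < R →
      c * R ^ 3 ≤ q Q * (logHeight₁ t + R) ^ 2 := by
  classical
  obtain ⟨B, E, dε, hB, hE, hdε, hbas⟩ := basic d
  obtain ⟨c, hc⟩ : ∃ c : ℝ, c = min (1 / 55296) (1 / (12000 * B ^ 2)) := ⟨_, rfl⟩
  have hc1 : c ≤ 1 / 55296 := by rw [hc]; exact min_le_left _ _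
  have hc2 : c ≤ 1 / (12000 * B ^ 2) := by rw [hc]; exact min_le_right _ _
  have hcpos : 0 < c := by rw [hc]; exact lt_min (by norm_num) (by positivity)
  refine ⟨c, 80 * E, hcpos, by positivity, ?_⟩
  intro F _ _ hFd t ht hκ X _ ξ hξ q hqk hlim Q hQ Ta hTa R hRd hR
  obtain ⟨Tf, W, WI, n, hD⟩ := hbas F hFd t ht hκ X ξ hξ q hqk hlim Q hQ
  obtain ⟨H, hHd⟩ : ∃ H, H = logHeight₁ t := ⟨_, rfl⟩
  have hWH := hD.W_le
  have hWIH := hD.WI_le
  have harch := hD.arch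
  rw [← hHd] at hWH hWIH harch ⊢
  have hq0 := hD.q_nonneg
  have hW0 := hD.W_nonneg
  have hWI0 := hD.WI_nonneg
  have hH0 : 0 ≤ H := hW0.trans hWH
  have hR0 : 0 < R := by linarith
  rcases lt_or_ge (R / 12) (E + WI / 12) with hcase | hcase
  · have h1 : R / 2 ≤ WI := by linarith
    have hWIpos : 0 < WI := by linarith
    have hHpos : 0 < H := by linarith
    have h2 := harch hWIpos (by linarith)
    have h3 : R ^ 3 / 8 ≤ WI ^ 3 := by
      calc R ^ 3 / 8 = (R / 2) ^ 3 := by ring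
        _ ≤ WI ^ 3 := pow_le_pow_left₀ (by positivity) h1 3
    have h4 : R ^ 3 / 8 ≤ q Q * (1500 * B ^ 2 * H ^ 2) := by
      rw [div_le_iff₀ (by positivity)] at h2
      exact h3.trans h2
    have h5 : H ^ 2 ≤ (H + R) ^ 2 := pow_le_pow_left₀ hH0 (by linarith) 2
    have h6 : q Q * (1500 * B ^ 2 * H ^ 2) ≤ q Q * (1500 * B ^ 2 * (H + R) ^ 2) :=
      mul_le_mul_of_nonneg_left (mul_le_mul_of_nonneg_left h5 (by positivity)) hq0
    calc c * R ^ 3 ≤ 1 / (12000 * B ^ 2) * R ^ 3 :=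
          mul_le_mul_of_nonneg_right hc2 (by positivity)
      _ = 1 / (1500 * B ^ 2) * (R ^ 3 / 8) := by field_simp; ring
      _ ≤ 1 / (1500 * B ^ 2) * (q Q * (1500 * B ^ 2 * (H + R) ^ 2)) :=
          mul_le_mul_of_nonneg_left (h4.trans h6) (by positivity)
      _ = _ := by field_simp
  · -- the Fejér sum
    have hup : ∀ m : ℕ, 1 ≤ m → Bm Tf (fun v => Lt v.1 t)
        (fun v => rho v.1 t (ξ Q) / Lt v.1 t) (6 * m) ≤ 36 * q Q * (m : ℝ) ^ 2 - R / 12 := by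
      intro m hm
      have h1 := hD.up (6 * m) (by omega)
      have h2 : R / 6 ≤ ∑ᶠ v : FinitePlace F, Jl v.1 t (ξ ((6 * m) • Q)) := by
        have h3 : ξ ((6 * m) • Q) 1 ≠ 0 := fun h =>
          hQ (6 * m) (by omega) ((hξ.zero_iff _).1 h)
        obtain ⟨T, hT⟩ := ex_supp_J t hκ (ξ ((6 * m) • Q)) h3
        have hs : (Function.support fun v : FinitePlace F => Jl v.1 t (ξ ((6 * m) • Q))) ⊆
            ((T ∪ Ta : Finset (FinitePlace F)) : Set (FinitePlace F)) := by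
          intro v hv
          by_contra hcon
          refine hv (hT v fun h => hcon ?_)
          rw [Finset.mem_coe, Finset.mem_union]
          exact Or.inl h
        rw [finsum_eq_sum_of_support_subset _ hs, hRd, Finset.sum_div]
        refine (Finset.sum_le_sum fun v hv => hTa v hv m hm).trans ?_
        exact Finset.sum_le_sum_of_subset_of_nonneg Finset.subset_union_right
          fun v _ _ => Jl_nonneg _ _ _
      have e : ((6 * m : ℕ) : ℝ) ^ 2 = 36 * (m : ℝ) ^ 2 := by push_cast; ring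
      rw [e] at h1
      linarith
    obtain ⟨N, hN⟩ : ∃ N : ℕ, N = ⌈4 * W / R⌉₊ + 2 := ⟨_, rfl⟩
    have hN1 : 1 ≤ N := by omega
    have hN2 : (2 : ℝ) ≤ N := by exact_mod_cast (by omega : 2 ≤ N)
    have hN3 : 4 * W / R ≤ N - 1 := by
      have h1 := Nat.le_ceil (4 * W / R)
      rw [hN]
      push_cast
      linarith
    have hN4 : (N : ℝ) ≤ 4 * W / R + 3 := by
      have h1 := (Nat.ceil_lt_add_one (by positivity : 0 ≤ 4 * W / R)).le
      rw [hN]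
      push_cast
      linarith
    have hNpos : (0 : ℝ) < N := by linarith
    have h1 : -(W / 12) ≤ ∑ m ∈ Finset.Ico 1 N, (1 - (m : ℝ) / N) *
        Bm Tf (fun v => Lt v.1 t) (fun v => rho v.1 t (ξ Q) / Lt v.1 t) (6 * m) := by
      rw [sum_Bm, hD.W_eq, Finset.sum_div, ← Finset.sum_neg_distrib]
      refine Finset.sum_le_sum fun v hv => ?_
      have h3 := fejer N hN1 ((6 : ℕ) * (rho v.1 t (ξ Q) / Lt v.1 t))
      have h4 := mul_le_mul_of_nonneg_left h3 (hD.L_nonneg v hv)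
      linarith
    have h2 : ∑ m ∈ Finset.Ico 1 N, (1 - (m : ℝ) / N) *
        Bm Tf (fun v => Lt v.1 t) (fun v => rho v.1 t (ξ Q) / Lt v.1 t) (6 * m) ≤
        36 * q Q * (N : ℝ) ^ 3 - ((N : ℝ) - 1) / 2 * (R / 12) := by
      have h3 : ∀ m ∈ Finset.Ico 1 N, (1 - (m : ℝ) / N) *
          Bm Tf (fun v => Lt v.1 t) (fun v => rho v.1 t (ξ Q) / Lt v.1 t) (6 * m) ≤
          (1 - (m : ℝ) / N) * (36 * q Q * (m : ℝ) ^ 2 + 0) - (1 - (m : ℝ) / N) * (R / 12) := by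
        intro m hm
        rw [Finset.mem_Ico] at hm
        have hm' : (m : ℝ) ≤ N := by exact_mod_cast hm.2.le
        have h4 : 0 ≤ 1 - (m : ℝ) / N := by
          rw [sub_nonneg, div_le_one hNpos]; exact hm'
        rw [← mul_sub, add_zero]
        exact mul_le_mul_of_nonneg_left (hup m hm.1) h4
      refine (Finset.sum_le_sum h3).trans ?_
      rw [Finset.sum_sub_distrib, ← Finset.sum_mul, sum_wt N hN1]
      have h4 := sum_quad N hN1 (36 * q Q) 0 (by positivity) le_rfl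
      linarith
    have h3 : 4 * W ≤ (N - 1) * R := by
      rw [div_le_iff₀ hR0] at hN3
      exact hN3
    have h4 : (N : ℝ) * R / 96 ≤ 36 * q Q * (N : ℝ) ^ 3 := by
      have h5 : (N : ℝ) / 2 * R ≤ (N - 1) * R := mul_le_mul_of_nonneg_right (by linarith) hR0.le
      linarith
    have h5 : R / 3456 ≤ q Q * (N : ℝ) ^ 2 := by
      have e : 36 * q Q * (N : ℝ) ^ 3 = (N : ℝ) * (36 * (q Q * (N : ℝ) ^ 2)) := by ring
      have e2 : (N : ℝ) * R / 96 = N * (R / 96) := by ring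
      rw [e, e2] at h4
      have := le_of_mul_le_mul_left h4 hNpos
      linarith
    have h6 : (N : ℝ) * R ≤ 4 * (H + R) := by
      have h7 : (N : ℝ) * R ≤ (4 * W / R + 3) * R := mul_le_mul_of_nonneg_right hN4 hR0.le
      have e : (4 * W / R + 3) * R = 4 * W + 3 * R := by field_simp
      rw [e] at h7
      linarith
    have h7 : ((N : ℝ) * R) ^ 2 ≤ (4 * (H + R)) ^ 2 := pow_le_pow_left₀ (by positivity) h6 2
    have h8 : R ^ 3 / 3456 ≤ q Q * (4 * (H + R)) ^ 2 := by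
      calc R ^ 3 / 3456 = R / 3456 * R ^ 2 := by ring
        _ ≤ q Q * (N : ℝ) ^ 2 * R ^ 2 := mul_le_mul_of_nonneg_right h5 (by positivity)
        _ = q Q * ((N : ℝ) * R) ^ 2 := by ring
        _ ≤ _ := mul_le_mul_of_nonneg_left h7 hq0
    calc c * R ^ 3 ≤ 1 / 55296 * R ^ 3 := mul_le_mul_of_nonneg_right hc1 (by positivity)
      _ = 1 / 16 * (R ^ 3 / 3456) := by ring
      _ ≤ 1 / 16 * (q Q * (4 * (H + R)) ^ 2) := mul_le_mul_of_nonneg_left h8 (by norm_num)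
      _ = _ := by ring

end Sq

end LangForms
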