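import Pool.Agent.Lib_MP_f5471b_s.Abs
import Pool.Agent.Lib_MP_f5471b_q.SepAbs

/-!
# MP_f5471b_nt: the lower bound for the canonical height of a point of infinite order
-/

namespace LangForms

open Height NumberField WeierstrassCurve Topology Filter

namespace Sq

open Pow

/-- `log H` is small compared to `√H`. -/
theorem log_small (K H : ℝ) (hK : 1 ≤ K) (hH : (4 * K) ^ 4 ≤ H) :
    K * Real.log H ≤ Real.sqrt H := by
  have hH0 : 0 < H := lt_of_lt_of_le (by positivity) hH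
  obtain ⟨z, hz⟩ : ∃ z : ℝ, z = H ^ (1 / 4 : ℝ) := ⟨_, rfl⟩
  have hz0 : 0 < z := by rw [hz]; positivity
  have hz4 : z ^ 4 = H := by
    rw [hz, ← Real.rpow_natCast, ← Real.rpow_mul hH0.le]
    norm_num
  have hzK : 4 * K ≤ z := by
    have h1 : (4 * K) ^ 4 ≤ z ^ 4 := by rw [hz4]; exact hH
    exact le_of_pow_le_pow_left₀ (by norm_num) hz0.le h1
  have hlog : Real.log H ≤ 4 * z := by
    have h1 := Real.log_le_rpow_div hH0.le (by norm_num : (0 : ℝ) < 1 / 4)
    rw [← hz] at h1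
    linarith
  have hs : Real.sqrt H = z ^ 2 := by
    rw [← hz4, show z ^ 4 = (z ^ 2) ^ 2 by ring, Real.sqrt_sq (by positivity)]
  rw [hs]
  calc K * Real.log H ≤ K * (4 * z) := mul_le_mul_of_nonneg_left hlog (by linarith)
    _ = 4 * K * z := by ring
    _ ≤ z * z := mul_le_mul_of_nonneg_right hzK hz0.le
    _ = z ^ 2 := by ring

/-- The case in which the places at infinity carry enough of the height. -/
theorem case_arch {X : Type} [AddCommGroup X] (Q : X) (hQ : ∀ k : ℕ, 1 ≤ k → k • Q ≠ 0)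
    (q bs : X → ℝ) (hqk : ∀ (k : ℕ) (Q : X), q (k • Q) = (k : ℝ) ^ 2 * q Q) (hqQ : 0 ≤ q Q)
    (B WI H W E : ℝ) (hB1 : 1 ≤ B) (hWI : 0 < WI) (hWIH : WI ≤ H) (hW : W ≤ H)
    (hE : E ≤ WI / 40) (hpsd : ∀ S : Finset X, 0 ≤ ∑ x ∈ S, ∑ y ∈ S, bs (x - y))
    (hbs0 : bs 0 = W / 6) (hsymm : ∀ x y, bs (x - y) = bs (y - x))
    (hsel : ∀ S : Finset X, ∃ S' ⊆ S, (S.card : ℝ) ≤ B * S'.card ∧
      ∀ x ∈ S', ∀ y ∈ S', x ≠ y → bs (x - y) + WI / 10 - E ≤ q (x - y)) :
    WI ^ 3 / (1500 * B ^ 2 * H ^ 2) ≤ q Q := by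
  classical
  have hH : 0 < H := lt_of_lt_of_le hWI hWIH
  have hB0 : 0 < B := by linarith
  obtain ⟨M, hM⟩ : ∃ M : ℕ, M = ⌈B * (2 + 4 * H / WI)⌉₊ := ⟨_, rfl⟩
  have hM1 : B * (2 + 4 * H / WI) ≤ M := by rw [hM]; exact Nat.le_ceil _
  have hM2 : (M : ℝ) ≤ 7 * B * H / WI := by
    have h1 : (M : ℝ) < B * (2 + 4 * H / WI) + 1 := by
      rw [hM]; exact Nat.ceil_lt_add_one (by positivity)
    have h2 : 1 ≤ H / WI := (one_le_div hWI).2 hWIH
    have h3 : B * (2 + 4 * H / WI) + 1 ≤ 7 * B * H / WI := by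
      have e1 : 4 * H / WI = 4 * (H / WI) := by ring
      have e2 : 7 * B * H / WI = B * (7 * (H / WI)) := by ring
      rw [e1, e2]
      have h4 : B * 1 ≤ B * (H / WI) := mul_le_mul_of_nonneg_left h2 hB0.le
      nlinarith
    linarith
  have hinj : ∀ i j : ℕ, i • Q = j • Q → i = j := by
    have key : ∀ i j : ℕ, i < j → i • Q ≠ j • Q := by
      intro i j hij h
      refine hQ (j - i) (by omega) ?_
      have h2 : (j - i) • Q + i • Q = j • Q := by rw [← add_nsmul, Nat.sub_add_cancel hij.le]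
      rw [h] at h2
      exact add_eq_right.1 h2
    intro i j h
    rcases lt_trichotomy i j with h1 | h1 | h1
    · exact absurd h (key i j h1)
    · exact h1
    · exact absurd h.symm (key j i h1)
  obtain ⟨S, hS⟩ : ∃ S : Finset X, S = (Finset.range M).image fun m => m • Q := ⟨_, rfl⟩
  have hScard : S.card = M := by
    rw [hS, Finset.card_image_of_injective _ (fun i j h => hinj i j h), Finset.card_range]
  obtain ⟨S', hS', hcard, hlow⟩ := hsel S
  obtain ⟨n, hn⟩ : ∃ n : ℝ, n = S'.card := ⟨_, rfl⟩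
  have hn1 : 2 + 4 * H / WI ≤ n := by
    rw [hScard, ← hn] at hcard
    exact le_of_mul_le_mul_left (hM1.trans hcard) hB0
  have hHW : 1 ≤ H / WI := (one_le_div hWI).2 hWIH
  have hn1' : 2 + 4 * (H / WI) ≤ n := by
    have e1 : 4 * H / WI = 4 * (H / WI) := by ring
    rw [← e1]; exact hn1
  have hn2 : 2 ≤ S'.card := by
    have : (2 : ℝ) ≤ S'.card := by rw [← hn]; linarith
    exact_mod_cast this
  obtain ⟨x, hx, y, hy, hxy, h⟩ := avg_pair S' (fun x y => bs (x - y)) (W / 6) 0 hn2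
    (fun x => by simp only [sub_self]; exact hbs0) (hpsd S')
  rw [← hn] at h
  have hb : -(WI / 24) ≤ bs (x - y) := by
    by_contra hlt
    push Not at hlt
    have hpos : 0 < n ^ 2 - n := by nlinarith
    have h1 : (n ^ 2 - n) * bs (x - y) < (n ^ 2 - n) * (-(WI / 24)) :=
      mul_lt_mul_of_pos_left hlt hpos
    have h2 : 0 - n * (W / 6) < (n ^ 2 - n) * (-(WI / 24)) := lt_of_le_of_lt h h1
    have h3 : n * (W / 6) ≤ n * (H / 6) := mul_le_mul_of_nonneg_left (by linarith) (by linarith)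
    have h4 : (n - 1) * (WI / 24) < H / 6 := by
      have h5 : n * ((n - 1) * (WI / 24)) < n * (H / 6) := by nlinarith
      exact lt_of_mul_lt_mul_left h5 (by linarith)
    have h6 : 4 * (H / WI) * (WI / 24) ≤ (n - 1) * (WI / 24) :=
      mul_le_mul_of_nonneg_right (by linarith) (by positivity)
    have h7 : 4 * (H / WI) * (WI / 24) = H / 6 := by
      field_simp
      ring
    linarith
  have hx2 := hS' hx
  have hy2 := hS' hy
  rw [hS, Finset.mem_image] at hx2 hy2
  obtain ⟨i, hi, hix⟩ := hx2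
  obtain ⟨j, hj, hjy⟩ := hy2
  rw [Finset.mem_range] at hi hj
  have key : ∃ k : ℕ, k ≤ M ∧ 1 ≤ k ∧ WI / 30 ≤ q (k • Q) := by
    rcases lt_trichotomy i j with h1 | h1 | h1
    · refine ⟨j - i, by omega, by omega, ?_⟩
      have e : (j - i) • Q = y - x := by
        rw [← hix, ← hjy, sub_nsmul _ h1.le, sub_eq_add_neg]
      rw [e]
      have h2 := hlow y hy x hx (Ne.symm hxy)
      rw [hsymm y x] at h2
      linarith
    · exact absurd (by rw [← hix, ← hjy, h1]) hxy
    · refine ⟨i - j, by omega, by omega, ?_⟩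
      have e : (i - j) • Q = x - y := by
        rw [← hix, ← hjy, sub_nsmul _ h1.le, sub_eq_add_neg]
      rw [e]
      have h2 := hlow x hx y hy hxy
      linarith
  obtain ⟨k, hkM, hk1, hk⟩ := key
  rw [hqk] at hk
  have hkM' : (k : ℝ) ≤ M := by exact_mod_cast hkM
  have hk2 : (k : ℝ) ^ 2 ≤ (7 * B * H / WI) ^ 2 :=
    pow_le_pow_left₀ (Nat.cast_nonneg _) (hkM'.trans hM2) 2
  have h3 : WI / 30 ≤ (7 * B * H / WI) ^ 2 * q Q := hk.trans (mul_le_mul_of_nonneg_right hk2 hqQ)
  have h4 : (7 * B * H / WI) ^ 2 * q Q = 49 * B ^ 2 * H ^ 2 / WI ^ 2 * q Q := by ring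
  rw [h4] at h3
  rw [div_le_iff₀ (by positivity)]
  have h5 : WI / 30 * WI ^ 2 ≤ 49 * B ^ 2 * H ^ 2 / WI ^ 2 * q Q * WI ^ 2 :=
    mul_le_mul_of_nonneg_right h3 (by positivity)
  have h6 : 49 * B ^ 2 * H ^ 2 / WI ^ 2 * q Q * WI ^ 2 = 49 * B ^ 2 * H ^ 2 * q Q := by
    field_simp
  rw [h6] at h5
  have h7 : 0 ≤ B ^ 2 * H ^ 2 * q Q := by positivity
  nlinarith

theorem sq_abs (d : ℕ) : ∃ c H₀ : ℝ, 0 < c ∧ 3 ≤ H₀ ∧
    ∀ (F : Type) [Field F] [NumberField F], Module.finrank ℚ F ≤ d →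
    ∀ t : F, t ≠ 0 → 1 + 1728 * t ≠ 0 → H₀ ≤ logHeight₁ t →
    ∀ (X : Type) [AddCommGroup X] (ξ : X → Fin 2 → F), XMap t ξ →
    ∀ q : X → ℝ, (∀ (k : ℕ) (Q : X), q (k • Q) = (k : ℝ) ^ 2 * q Q) →
    (∀ Q : X, Tendsto (fun n : ℕ => logHeight (ξ ((2 ^ n) • Q)) / 4 ^ n) atTop (𝓝 (q Q))) →
    ∀ Q : X, (∀ k : ℕ, 1 ≤ k → k • Q ≠ 0) →
      c / (Real.sqrt (logHeight₁ t) * Real.log (logHeight₁ t) ^ 3) ≤ q Q := by
  classical
  obtain ⟨ε₁, c₁, hε₁, hε₁', hc₁, hdup⟩ := dup_gen
  obtain ⟨ε₂, c₂, hε₂, hε₂', hc₂, hadd⟩ := add_gen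
  obtain ⟨ε, hεdef⟩ : ∃ ε, ε = min ε₁ ε₂ := ⟨_, rfl⟩
  obtain ⟨c₀, hc₀def⟩ : ∃ c₀, c₀ = max c₁ c₂ := ⟨_, rfl⟩
  have hε : 0 < ε := by rw [hεdef]; exact lt_min hε₁ hε₂
  have hε' : ε < 1 := by rw [hεdef]; exact lt_of_le_of_lt (min_le_left _ _) hε₁'
  have hc₀ : 0 ≤ c₀ := by rw [hc₀def]; exact hc₁.trans (le_max_left _ _)
  have hdup' : ∀ (F : Type) [Field F] (v : AbsoluteValue F ℝ) (t : F), 0 < v t → v t ≤ ε →
      DupLow v t c₀ ∧ DupRho v t c₀ := by
    intro F _ v t h1 h2
    have h3 := hdup F v t h1 (h2.trans (by rw [hεdef]; exact min_le_left _ _))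
    have h4 : c₁ ≤ c₀ := by rw [hc₀def]; exact le_max_left _ _
    exact ⟨LSAux.DupLow.mono h4 h3.1, LSAux.DupRho.mono h4 h3.2⟩
  have hadd' : ∀ (F : Type) [Field F] (v : AbsoluteValue F ℝ) (t : F), 0 < v t → v t ≤ ε →
      AddRho v t c₀ := by
    intro F _ v t h1 h2
    exact LSAux.AddRho.mono (by rw [hc₀def]; exact le_max_right _ _)
      (hadd F v t h1 (h2.trans (by rw [hεdef]; exact min_le_right _ _)))
  obtain ⟨C₁, hC₁, hcl⟩ := can_lower d ε c₀ hε hε' hc₀ hdup'
  obtain ⟨E, hE⟩ : ∃ E : ℝ, E = 3 * c₀ * d + C₁ := ⟨_, rfl⟩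
  have hE0 : 0 ≤ E := by rw [hE]; positivity
  obtain ⟨dε, hdε⟩ : ∃ dε : ℝ, dε = d * -Real.log ε := ⟨_, rfl⟩
  have hlogε : 0 ≤ -Real.log ε := by
    rw [neg_nonneg]; exact Real.log_nonpos hε.le hε'.le
  have hdε0 : 0 ≤ dε := by rw [hdε]; positivity
  obtain ⟨B, hB⟩ : ∃ B : ℝ, B = 42 ^ d := ⟨_, rfl⟩
  have hB1 : 1 ≤ B := by rw [hB]; exact one_le_pow₀ (by norm_num)
  obtain ⟨c', W₀, hc', hW₀, habs⟩ := abs_lower
  obtain ⟨a, ha⟩ : ∃ a, a = min c' 1 := ⟨_, rfl⟩
  have ha0 : 0 < a := by rw [ha]; exact lt_min hc' one_pos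
  have hac : a ≤ c' := by rw [ha]; exact min_le_left _ _
  have ha1 : a ≤ 1 := by rw [ha]; exact min_le_right _ _
  obtain ⟨K, hK⟩ : ∃ K : ℝ, K = max 1 (40 * E / a) + 4 / c' := ⟨_, rfl⟩
  refine ⟨min c' (a ^ 3 / (2000 * B ^ 2)),
    max (max 3 (4 * dε)) (max ((4 * K) ^ 4) (max (4 * W₀) (16 * E + 16))),
    lt_min hc' (by positivity), (le_max_left _ _).trans (le_max_left _ _), ?_⟩
  intro F _ _ hFd t ht hκ hH X _ ξ hξ q hqk hlim Q hQ
  obtain ⟨H, hHd⟩ : ∃ H, H = logHeight₁ t := ⟨_, rfl⟩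
  rw [← hHd] at hH ⊢
  have hH3 : 3 ≤ H := ((le_max_left _ _).trans (le_max_left _ _)).trans hH
  have hHdε : 4 * dε ≤ H := ((le_max_right _ _).trans (le_max_left _ _)).trans hH
  have hHK : (4 * K) ^ 4 ≤ H := ((le_max_left _ _).trans (le_max_right _ _)).trans hH
  have hHW₀ : 4 * W₀ ≤ H :=
    ((le_max_left _ _).trans ((le_max_right _ _).trans (le_max_right _ _))).trans hH
  have hHE : 16 * E + 16 ≤ H :=
    ((le_max_right _ _).trans ((le_max_right _ _).trans (le_max_right _ _))).trans hH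
  have hvt : ∀ v : FinitePlace F, 0 < v t := fun v => by
    rw [FinitePlace.pos_iff]; exact ht
  have hvi : ∀ v : InfinitePlace F, 0 < v t := fun v => by
    rw [InfinitePlace.pos_iff]; exact ht
  -- the bad finite places
  obtain ⟨Tf, hTf⟩ : ∃ Tf : Finset (FinitePlace F), ∀ v, v ∈ Tf ↔ v t < 1 := by
    have hfin : {v : FinitePlace F | v t < 1}.Finite := by
      refine (FinitePlace.hasFiniteMulSupport ht).subset ?_
      intro v hv
      rw [Function.mem_mulSupport]
      exact ne_of_lt hv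
    exact ⟨hfin.toFinset, fun v => by simp⟩
  have hh := logHeight₁_eq_Lt t ht Tf hTf
  rw [← hHd] at hh
  obtain ⟨W, hW⟩ : ∃ W, W = ∑ v ∈ Tf, Lt v.1 t := ⟨_, rfl⟩
  have hCirc : ∀ v ∈ Tf, Circ (Lt v.1 t) fun Q => rho v.1 t (ξ Q) := fun v hv =>
    circ_fin hξ v (hvt v) ((hTf v).1 hv)
  have hW0 : 0 ≤ W := by
    rw [hW]; exact Finset.sum_nonneg fun v hv => (hCirc v hv).pos.le
  -- the infinite places
  obtain ⟨I, hI⟩ : ∃ I : Finset (InfinitePlace F), I = Finset.univ.filter fun v => v t ≤ ε :=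
    ⟨_, rfl⟩
  have hIv : ∀ v ∈ I, v t ≤ ε := fun v hv => by
    rw [hI, Finset.mem_filter] at hv; exact hv.2
  have hLi : ∀ v ∈ I, 0 < Lt v.1 t := fun v hv =>
    neg_pos.2 (Real.log_neg (hvi v) (lt_of_le_of_lt (hIv v hv) hε'))
  obtain ⟨WI, hWI⟩ : ∃ WI, WI = ∑ v ∈ I, (v.mult : ℝ) * Lt v.1 t := ⟨_, rfl⟩
  have hWI0 : 0 ≤ WI := by
    rw [hWI]; exact Finset.sum_nonneg fun v hv => mul_nonneg (Nat.cast_nonneg _) (hLi v hv).le
  have hmult : ∑ v ∈ I, (v.mult : ℝ) ≤ d := by
    have h1 : ∑ v ∈ I, (v.mult : ℝ) ≤ ∑ v : InfinitePlace F, (v.mult : ℝ) :=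
      Finset.sum_le_univ_sum_of_nonneg fun v => Nat.cast_nonneg _
    have h2 : ∑ v : InfinitePlace F, (v.mult : ℝ) = Module.finrank ℚ F := by
      exact_mod_cast InfinitePlace.sum_mult_eq
    have h3 : (Module.finrank ℚ F : ℝ) ≤ d := by exact_mod_cast hFd
    linarith
  have hA : ∑ v : InfinitePlace F, v.mult * Real.posLog (v t)⁻¹ ≤ WI + dε := by
    have h1 : ∀ v : InfinitePlace F, (v.mult : ℝ) * Real.posLog (v t)⁻¹ ≤
        (if v t ≤ ε then (v.mult : ℝ) * Lt v.1 t else 0) + v.mult * -Real.log ε := by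
      intro v
      have hm0 : (0 : ℝ) ≤ v.mult := Nat.cast_nonneg _
      split_ifs with h
      · have h2 : Real.posLog (v t)⁻¹ = Lt v.1 t := by
          rw [Real.posLog_eq_log]
          · rw [Real.log_inv]; rfl
          · rw [abs_of_pos (inv_pos.2 (hvi v))]
            exact (one_le_inv₀ (hvi v)).2 (h.trans hε'.le)
        rw [h2]
        have := mul_nonneg hm0 hlogε
        linarith
      · rw [zero_add]
        refine mul_le_mul_of_nonneg_left ?_ hm0
        push Not at h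
        rw [Real.posLog]
        refine max_le hlogε ?_
        rw [Real.log_inv]
        exact neg_le_neg (Real.log_le_log hε h.le)
    refine (Finset.sum_le_sum fun v _ => h1 v).trans ?_
    rw [Finset.sum_add_distrib, hWI, hI, Finset.sum_filter, ← Finset.sum_mul]
    have h2 : ∑ v : InfinitePlace F, (v.mult : ℝ) = Module.finrank ℚ F := by
      exact_mod_cast InfinitePlace.sum_mult_eq
    have h3 : (Module.finrank ℚ F : ℝ) ≤ d := by exact_mod_cast hFd
    rw [h2, hdε]
    have := mul_le_mul_of_nonneg_right h3 hlogε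
    linarith
  rw [← hW] at hh
  have hHle : H ≤ WI + dε + W := by rw [hh]; linarith
  have hWH : W ≤ H := by
    have : 0 ≤ ∑ v : InfinitePlace F, v.mult * Real.posLog (v t)⁻¹ :=
      Finset.sum_nonneg fun v _ => mul_nonneg (Nat.cast_nonneg _) Real.posLog_nonneg
    linarith
  -- the lower bound for differences
  obtain ⟨bs, hbs⟩ : ∃ bs : X → ℝ, bs = bsum Tf (fun v => Lt v.1 t)
    (fun v Q => rho v.1 t (ξ Q)) := ⟨_, rfl⟩
  have hlow : ∀ z : X, z ≠ 0 → (∀ v ∈ I, rho v.1 t (ξ z) ≤ Lt v.1 t / 20 + 3 * c₀) →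
      bs z + WI / 10 - E ≤ q z := by
    intro z hz hzI
    have h1 := hcl F hFd t ht hκ X ξ hξ Tf hTf z (q z) hz (hlim z)
    have h2 : ∑ v ∈ Tf, phi v.1 t (ξ z) = bs z := by
      rw [hbs, bsum]
      refine Finset.sum_congr rfl fun v hv => ?_
      have hL := (hCirc v hv).pos
      simp only [phi, bv, bern]
      field_simp
    have h3 : WI / 10 - 3 * c₀ * d ≤
        ∑ v : InfinitePlace F, (if v t ≤ ε then v.mult * phi v.1 t (ξ z) else 0) := by
      rw [← Finset.sum_filter, ← hI]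
      have h4 : ∀ v ∈ I, (v.mult : ℝ) * (Lt v.1 t / 10) - v.mult * (3 * c₀) ≤
          v.mult * phi v.1 t (ξ z) := by
        intro v hv
        have h5 := hzI v hv
        have h6 := hLi v hv
        have h7 : 0 ≤ rho v.1 t (ξ z) ^ 2 / Lt v.1 t := by positivity
        have h8 : Lt v.1 t / 10 - 3 * c₀ ≤ phi v.1 t (ξ z) := by
          simp only [phi]
          linarith
        have h9 := mul_le_mul_of_nonneg_left h8 (Nat.cast_nonneg (α := ℝ) v.mult)
        linarith
      refine le_trans ?_ (Finset.sum_le_sum h4)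
      rw [Finset.sum_sub_distrib, ← Finset.sum_mul]
      have h5 : ∑ v ∈ I, (v.mult : ℝ) * (Lt v.1 t / 10) = WI / 10 := by
        rw [hWI, Finset.sum_div]
        exact Finset.sum_congr rfl fun v _ => by ring
      rw [h5]
      have h6 : (∑ v ∈ I, (v.mult : ℝ)) * (3 * c₀) ≤ d * (3 * c₀) :=
        mul_le_mul_of_nonneg_right hmult (by positivity)
      linarith
    rw [h2] at h1
    rw [hE]
    linarith
  -- selection at the infinite places
  have hsel : ∀ S : Finset X, ∃ S' ⊆ S, (S.card : ℝ) ≤ B * S'.card ∧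
      ∀ x ∈ S', ∀ y ∈ S', x ≠ y → bs (x - y) + WI / 10 - E ≤ q (x - y) := by
    intro S
    obtain ⟨S', hS', hcard, h1⟩ := arch_select I (fun v => Lt v.1 t) c₀ hc₀
      (fun v Q => rho v.1 t (ξ Q)) hLi
      (fun v hv Q => rho_nonneg v.1 t ((hIv v hv).trans hε'.le) _)
      (fun v hv Q => rho_le v.1 t (hvi v) _)
      (fun v hv => ptRho_of hξ v.1 c₀ hc₀ (hvi v) (lt_of_le_of_lt (hIv v hv) hε')
        (hdup' F v.1 t (hvi v) (hIv v hv)).2 (hadd' F v.1 t (hvi v) (hIv v hv))) S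
    refine ⟨S', hS', ?_, ?_⟩
    · have h2 : I.card ≤ d := by
        refine (Finset.card_le_univ I).trans ((LSAux.card_inf_le F).trans hFd)
      have h3 : (S.card : ℝ) ≤ 42 ^ I.card * S'.card := by exact_mod_cast hcard
      refine h3.trans ?_
      rw [hB]
      exact mul_le_mul_of_nonneg_right (pow_le_pow_right₀ (by norm_num) h2) (Nat.cast_nonneg _)
    · intro x hx y hy hxy
      exact hlow _ (sub_ne_zero.2 hxy) fun v hv => h1 v hv x hx y hy
  have hlog1 : 1 ≤ Real.log H := by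
    rw [Real.le_log_iff_exp_le (by linarith)]
    have := Real.exp_one_lt_d9
    linarith
  have hlog0 : 0 < Real.log H := by linarith
  have hH0 : 0 < H := by linarith
  have hsq0 : 0 < Real.sqrt H := Real.sqrt_pos.2 hH0
  have hsqsq : Real.sqrt H * Real.sqrt H = H := Real.mul_self_sqrt hH0.le
  have hK1 : 1 ≤ K := by
    rw [hK]
    have := le_max_left 1 (40 * E / a)
    have : 0 < 4 / c' := by positivity
    linarith
  have hKs := log_small K H hK1 hHK
  have hEs : E ≤ a * Real.sqrt H / Real.log H / 40 := by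
    have h1 : 40 * E / a ≤ K := by
      rw [hK]
      have := le_max_right 1 (40 * E / a)
      have : 0 < 4 / c' := by positivity
      linarith
    have h2 : 40 * E / a * Real.log H ≤ Real.sqrt H :=
      (mul_le_mul_of_nonneg_right h1 hlog0.le).trans hKs
    have h3 : 40 * E * Real.log H ≤ a * Real.sqrt H := by
      have h4 := mul_le_mul_of_nonneg_left h2 ha0.le
      have e : a * (40 * E / a * Real.log H) = 40 * E * Real.log H := by
        field_simp
      rw [e] at h4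
      exact h4
    rw [div_div, le_div_iff₀ (by positivity)]
    linarith
  have hqQ : 0 ≤ q Q := by
    refine ge_of_tendsto' (hlim Q) fun n => ?_
    have : 0 ≤ logHeight (ξ ((2 ^ n) • Q)) := logHeight_nonneg _
    positivity
  have hWIH : WI ≤ H := by
    have h1 : ∑ v ∈ I, (v.mult : ℝ) * Lt v.1 t ≤
        ∑ v : InfinitePlace F, v.mult * Real.posLog (v t)⁻¹ := by
      refine (Finset.sum_le_sum (g := fun v : InfinitePlace F =>
        (v.mult : ℝ) * Real.posLog (v t)⁻¹) fun v hv => ?_).trans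
        (Finset.sum_le_univ_sum_of_nonneg fun v =>
          mul_nonneg (Nat.cast_nonneg _) Real.posLog_nonneg)
      refine mul_le_mul_of_nonneg_left ?_ (Nat.cast_nonneg _)
      rw [Real.posLog, Real.log_inv]
      exact le_max_right _ _
    rw [← hWI] at h1
    linarith
  rcases le_or_gt (a * Real.sqrt H / Real.log H) WI with hcase | hcase
  · -- the places at infinity carry enough
    have hWIpos : 0 < WI := lt_of_lt_of_le (by positivity) hcase
    have h1 := case_arch Q hQ q bs hqk hqQ B WI H W E hB1 hWIpos hWIH hWH (by linarith)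
      (fun S => by rw [hbs]; exact (bsum_psd hCirc S).sum_nonneg)
      (by rw [hbs, hW]; exact bsum_zero hCirc)
      (fun x y => by
        rw [hbs, bsum, bsum]
        refine Finset.sum_congr rfl fun v hv => ?_
        rw [bv, bv, (hCirc v hv).sub_comm]) hsel
    refine le_trans ?_ h1
    have h2 : (a * Real.sqrt H / Real.log H) ^ 3 ≤ WI ^ 3 :=
      pow_le_pow_left₀ (by positivity) hcase 3
    have h3 : a ^ 3 / (2000 * B ^ 2) / (Real.sqrt H * Real.log H ^ 3) ≤
        (a * Real.sqrt H / Real.log H) ^ 3 / (1500 * B ^ 2 * H ^ 2) := by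
      rw [div_div, div_pow, div_div, div_le_div_iff₀ (by positivity) (by positivity)]
      have e : H ^ 2 = Real.sqrt H ^ 4 := by
        calc H ^ 2 = (Real.sqrt H * Real.sqrt H) ^ 2 := by rw [hsqsq]
          _ = _ := by ring
      rw [e]
      have h4 : 0 ≤ a ^ 3 * B ^ 2 * Real.sqrt H ^ 4 * Real.log H ^ 3 := by positivity
      nlinarith
    refine le_trans ?_ (h3.trans (div_le_div_of_nonneg_right h2 (by positivity)))
    exact div_le_div_of_nonneg_right (min_le_right _ _) (by positivity)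
  · -- the finite places carry almost everything
    have hsqH : Real.sqrt H ≤ H / 4 := by
      rw [Real.sqrt_le_left (by positivity)]
      nlinarith
    have h16 : 16 ≤ H := by linarith
    have hWI4 : WI ≤ H / 4 := by
      have h1 : a * Real.sqrt H / Real.log H ≤ Real.sqrt H := by
        rw [div_le_iff₀ hlog0]
        nlinarith
      linarith
    have hWhalf : H / 2 ≤ W := by linarith
    have hW8 : 8 ≤ W := by linarith
    have hW0' : 0 < W := by linarith
    have hlogW : Real.log W ≤ Real.log H := Real.log_le_log hW0' hWH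
    have hlogW0 : 0 < Real.log W := Real.log_pos (by linarith)
    have hsqW : Real.sqrt W ≤ Real.sqrt H := Real.sqrt_le_sqrt hWH
    have hsqW' : Real.sqrt H / 2 ≤ Real.sqrt W := by
      rw [Real.le_sqrt' (by positivity)]
      have : (Real.sqrt H / 2) ^ 2 = H / 4 := by
        rw [div_pow, Real.sq_sqrt hH0.le]; norm_num
      rw [this]
      linarith
    have hdat : ∀ v : FinitePlace F, ∃ n a : ℕ, v ∈ Tf → 1 ≤ n ∧
        Lt v.1 t = n * Real.log (plNorm v) ∧ 2 * rho v.1 t (ξ Q) = a * Real.log (plNorm v) := by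
      intro v
      by_cases hv : v ∈ Tf
      · obtain ⟨n, a, h1, h2, h3⟩ := rho_fin v t ht ((hTf v).1 hv) (ξ Q) (hξ.ne_zero Q)
        exact ⟨n, a, fun _ => ⟨h1, h2, h3⟩⟩
      · exact ⟨0, 0, fun h => absurd h hv⟩
    choose nf af hnaf using hdat
    have hres := habs Tf (fun v => Lt v.1 t) (fun v => rho v.1 t (ξ Q) / Lt v.1 t) nf (q Q)
      (C₁ + WI / 12) ?_ (fun v hv => (hnaf v hv).1) ?_ ?_ ?_ ?_
    · rw [← hW] at hres
      refine le_trans ?_ hres
      refine (div_le_div_of_nonneg_right (min_le_left _ _) (by positivity)).trans ?_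
      refine div_le_div_of_nonneg_left hc'.le (by positivity) ?_
      exact mul_le_mul hsqW (pow_le_pow_left₀ hlogW0.le hlogW 3) (by positivity) (by positivity)
    · refine ⟨fun v hv => (hCirc v hv).pos.le, hqQ, by positivity, fun m hm => ?_⟩
      have h1 := hcl F hFd t ht hκ X ξ hξ Tf hTf (m • Q) (q (m • Q)) (hQ m hm) (hlim _)
      have h2 : ∑ v ∈ Tf, phi v.1 t (ξ (m • Q)) =
          Bm Tf (fun v => Lt v.1 t) (fun v => rho v.1 t (ξ Q) / Lt v.1 t) m := by
        rw [Bm]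
        refine Finset.sum_congr rfl fun v hv => ?_
        have hC := hCirc v hv
        have hL := hC.pos
        have h3 := mult_rho (Lt v.1 t) 0 hL le_rfl (fun Q => rho v.1 t (ξ Q)) hC.zero hC.nonneg
          hC.le hC.pt Q m
        simp only [mul_zero] at h3
        have h4 := sub_eq_zero.1 (abs_nonpos_iff.1 h3)
        simp only [phi, bern]
        rw [h4]
        field_simp
      have h3 : -(WI / 12) ≤ ∑ v : InfinitePlace F,
          (if v t ≤ ε then v.mult * phi v.1 t (ξ (m • Q)) else 0) := by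
        rw [← Finset.sum_filter, ← hI]
        have h4 : ∀ v ∈ I, -((v.mult : ℝ) * Lt v.1 t / 12) ≤
            v.mult * phi v.1 t (ξ (m • Q)) := by
          intro v hv
          have h6 := hLi v hv
          have h8 : -(Lt v.1 t / 12) ≤ phi v.1 t (ξ (m • Q)) := by
            simp only [phi]
            have e : Lt v.1 t / 6 - rho v.1 t (ξ (m • Q)) +
                rho v.1 t (ξ (m • Q)) ^ 2 / Lt v.1 t + Lt v.1 t / 12 =
                (rho v.1 t (ξ (m • Q)) - Lt v.1 t / 2) ^ 2 / Lt v.1 t := by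
              field_simp
              ring
            have h9 : 0 ≤ (rho v.1 t (ξ (m • Q)) - Lt v.1 t / 2) ^ 2 / Lt v.1 t := by positivity
            linarith
          have h9 := mul_le_mul_of_nonneg_left h8 (Nat.cast_nonneg (α := ℝ) v.mult)
          linarith
        refine le_trans ?_ (Finset.sum_le_sum h4)
        rw [Finset.sum_neg_distrib, ← Finset.sum_div, ← hWI]
      rw [h2, hqk] at h1
      linarith
    · intro v hv
      obtain ⟨h1, h2, -⟩ := hnaf v hv
      have h3 := plNorm_log_ge v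
      rw [h2]
      have : (0 : ℝ) ≤ nf v := Nat.cast_nonneg _
      nlinarith
    · intro v hv
      obtain ⟨h1, h2, h3⟩ := hnaf v hv
      refine ⟨(af v : ℤ), ?_⟩
      have h4 := plNorm_log_ge v
      have h5 : (0 : ℝ) < nf v := by exact_mod_cast h1
      rw [h2, Int.cast_natCast]
      have h6 : rho v.1 t (ξ Q) = af v * Real.log (plNorm v) / 2 := by linarith
      rw [h6]
      have h7 : Real.log (plNorm v) ≠ 0 := by
        have : 0 < Real.log (plNorm v) := by linarith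
        exact this.ne'
      field_simp
    · rw [← hW]; linarith
    · rw [← hW, le_div_iff₀ hlogW0]
      have hC₁E : C₁ ≤ E := by
        rw [hE]
        have : 0 ≤ 3 * c₀ * d := by positivity
        linarith
      have h1 : C₁ + WI / 12 ≤ a * Real.sqrt H / Real.log H / 4 := by
        have h0 : 0 ≤ a * Real.sqrt H / Real.log H := by positivity
        linarith
      have h2 : (C₁ + WI / 12) * Real.log W ≤ a * Real.sqrt H / Real.log H / 4 * Real.log H :=
        mul_le_mul h1 hlogW hlogW0.le (by positivity)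
      have h3 : a * Real.sqrt H / Real.log H / 4 * Real.log H = a * Real.sqrt H / 4 := by
        field_simp
      rw [h3] at h2
      refine h2.trans ?_
      have h4 : a * Real.sqrt H ≤ c' * Real.sqrt H := mul_le_mul_of_nonneg_right hac hsq0.le
      have h5 : c' * (Real.sqrt H / 2) ≤ c' * Real.sqrt W :=
        mul_le_mul_of_nonneg_left hsqW' hc'.le
      have h6 : 0 < c' * Real.sqrt H := by positivity
      linarith

end Sq

end LangForms
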