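import Pool.Agent.Lib_MP_f5471b_j.Xi

/-!
# MP_f5471b_nt: the coordinates of the short Weierstrass form
-/

namespace LangForms

open Height NumberField WeierstrassCurve Topology Filter

namespace Sq

/-- The `x`-coordinate of the short Weierstrass form. -/
def zW {F : Type} [Field F] (W : WeierstrassCurve F) (w : Fin 2 → F) : Fin 2 → F :=
  ![12 * w 0 + W.b₂ * w 1, w 1]

/-- The addition map for `y² = x³ + a x + b`. -/
def Sm {F : Type} [Field F] (a b : F) (u : Fin 3 → F) : Fin 3 → F :=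
  ![(u 0 - a * u 2) ^ 2 - 4 * b * u 1 * u 2, 2 * u 1 * (u 0 + a * u 2) + 4 * b * u 2 ^ 2,
    u 1 ^ 2 - 4 * u 0 * u 2]

/-- The properties of the `x`-coordinate for a twist of `y² = x³ + a x + b`. -/
structure SMap {F X : Type} [Field F] [AddCommGroup X] (a b : F) (ζ : X → Fin 2 → F) : Prop where
  zero_iff : ∀ Q, ζ Q 1 = 0 ↔ Q = 0
  ne_zero : ∀ Q, ζ Q ≠ 0
  rel : ∀ P Q, ∃ c : F, c ≠ 0 ∧ Sm a b (sy (ζ P) (ζ Q)) = c • sy (ζ (P + Q)) (ζ (P - Q))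

theorem sy_zW {F : Type} [Field F] (W : WeierstrassCurve F) (w z : Fin 2 → F) :
    sy (zW W w) (zW W z) = ![144 * (w 0 * z 0) + 12 * W.b₂ * (w 0 * z 1 + w 1 * z 0) +
      W.b₂ ^ 2 * (w 1 * z 1), 12 * (w 0 * z 1 + w 1 * z 0) + 2 * W.b₂ * (w 1 * z 1),
      w 1 * z 1] := by
  ext i
  fin_cases i
  · simp only [sy, zW, Fin.zero_eta, Matrix.cons_val_zero, Matrix.cons_val_one, Matrix.cons_val]
    ring
  · simp only [sy, zW, Fin.mk_one, Matrix.cons_val_zero, Matrix.cons_val_one, Matrix.cons_val]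
    ring
  · simp only [sy, zW, Fin.reduceFinMk, Matrix.cons_val_zero, Matrix.cons_val_one,
      Matrix.cons_val]

theorem smap_W {F : Type} [Field F] [CharZero F] [DecidableEq F] (W : WeierstrassCurve F)
    [W.IsElliptic] :
    SMap (-3 * W.c₄) (-2 * W.c₆) fun Q : W.toAffine.Point => zW W Q.xRep where
  zero_iff Q := by
    rcases Q with _ | ⟨x, y, h⟩
    · rw [← Affine.Point.zero_def]
      simp [zW]
    · simp [zW, Affine.Point.zero_def]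
  ne_zero Q := by
    rcases Q with _ | ⟨x, y, h⟩
    · rw [← Affine.Point.zero_def]
      intro h0
      have := congrFun h0 0
      simp [zW] at this
    · intro h0
      have := congrFun h0 1
      simp [zW] at this
  rel P Q := by
    obtain ⟨c, hc, h⟩ := addSub_rel W P Q
    refine ⟨144 * c, mul_ne_zero (by norm_num) hc, ?_⟩
    obtain ⟨s, hs⟩ : ∃ s, s = P.xRep 0 * Q.xRep 0 := ⟨_, rfl⟩
    obtain ⟨r, hr⟩ : ∃ r, r = P.xRep 0 * Q.xRep 1 + P.xRep 1 * Q.xRep 0 := ⟨_, rfl⟩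
    obtain ⟨u, hu⟩ : ∃ u, u = P.xRep 1 * Q.xRep 1 := ⟨_, rfl⟩
    obtain ⟨s', hs'⟩ : ∃ s', s' = (P + Q).xRep 0 * (P - Q).xRep 0 := ⟨_, rfl⟩
    obtain ⟨r', hr'⟩ : ∃ r', r' = (P + Q).xRep 0 * (P - Q).xRep 1 +
      (P + Q).xRep 1 * (P - Q).xRep 0 := ⟨_, rfl⟩
    obtain ⟨u', hu'⟩ : ∃ u', u' = (P + Q).xRep 1 * (P - Q).xRep 1 := ⟨_, rfl⟩
    have h' : (fun i => (addSubMap W i).eval ![s, r, u]) = c • ![s', r', u'] := by
      rw [hs, hr, hu, hs', hr', hu']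
      exact h
    rw [AddSub.eval_addSubMap] at h'
    have e0 := congrFun h' 0
    have e1 := congrFun h' 1
    have e2 := congrFun h' 2
    simp only [Pi.smul_apply, smul_eq_mul, Matrix.cons_val_zero, Matrix.cons_val_one,
      Matrix.cons_val] at e0 e1 e2
    rw [sy_zW, sy_zW, ← hs, ← hr, ← hu, ← hs', ← hr', ← hu']
    have hb8 : W.b₈ = (W.b₂ * W.b₆ - W.b₄ ^ 2) / 4 := by
      rw [eq_div_iff (by norm_num)]
      linear_combination W.b_relation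
    rw [hb8] at e0
    ext i
    fin_cases i
    · simp only [Sm, Fin.zero_eta, Matrix.cons_val_zero, Matrix.cons_val_one, Pi.smul_apply,
        smul_eq_mul, Matrix.cons_val, WeierstrassCurve.c₄, WeierstrassCurve.c₆]
      linear_combination 144 * 144 * e0 + 144 * 12 * W.b₂ * e1 + 144 * W.b₂ ^ 2 * e2
    · simp only [Sm, Fin.mk_one, Matrix.cons_val_zero, Matrix.cons_val_one, Pi.smul_apply,
        smul_eq_mul, Matrix.cons_val, WeierstrassCurve.c₄, WeierstrassCurve.c₆]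
      linear_combination 144 * 12 * e1 + 144 * 2 * W.b₂ * e2
    · simp only [Sm, Fin.reduceFinMk, Matrix.cons_val_zero, Matrix.cons_val_one, Pi.smul_apply,
        smul_eq_mul, Matrix.cons_val]
      linear_combination 144 * e2

section

variable {F X : Type} [Field F] [AddCommGroup X] {a b : F} {ζ : X → Fin 2 → F}

theorem SMap.double (h : SMap a b ζ) (Q : X) : ∃ c : F, c ≠ 0 ∧ ζ (Q + Q) =
    c • ![(ζ Q 0 ^ 2 - a * ζ Q 1 ^ 2) ^ 2 - 8 * b * ζ Q 0 * ζ Q 1 ^ 3,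
      4 * ζ Q 1 * (ζ Q 0 ^ 3 + a * ζ Q 0 * ζ Q 1 ^ 2 + b * ζ Q 1 ^ 3)] := by
  obtain ⟨c, hc, he⟩ := h.rel Q Q
  rw [sub_self] at he
  have ha1 : ζ 0 1 = 0 := (h.zero_iff 0).2 rfl
  have ha0 : ζ 0 0 ≠ 0 := by
    intro h0
    apply h.ne_zero 0
    funext i
    fin_cases i
    · exact h0
    · exact ha1
  have e0 := congrFun he 0
  have e1 := congrFun he 1
  simp only [Sm, sy, Pi.smul_apply, smul_eq_mul, ha1, Matrix.cons_val_zero, Matrix.cons_val_one,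
    Matrix.cons_val] at e0 e1
  have hca : c * ζ 0 0 ≠ 0 := mul_ne_zero hc ha0
  refine ⟨(c * ζ 0 0)⁻¹, inv_ne_zero hca, ?_⟩
  rw [eq_inv_smul_iff₀ hca]
  funext i
  fin_cases i
  · simp only [Pi.smul_apply, smul_eq_mul, Fin.zero_eta, Matrix.cons_val_zero,
      Matrix.cons_val_one, Matrix.cons_val]
    linear_combination -e0
  · simp only [Pi.smul_apply, smul_eq_mul, Fin.mk_one, Matrix.cons_val_zero,
      Matrix.cons_val_one, Matrix.cons_val]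
    linear_combination -e1

/-- The affine coordinate. -/
def za (w : Fin 2 → F) : F := w 0 / w 1

theorem SMap.za_double (h : SMap a b ζ) (Q : X) (hQ : Q ≠ 0) (h2Q : Q + Q ≠ 0) :
    za (ζ (Q + Q)) * (4 * (za (ζ Q) ^ 3 + a * za (ζ Q) + b)) =
      (za (ζ Q) ^ 2 - a) ^ 2 - 8 * b * za (ζ Q) := by
  have hQ1 : ζ Q 1 ≠ 0 := fun h0 => hQ ((h.zero_iff Q).1 h0)
  have h2Q1 : ζ (Q + Q) 1 ≠ 0 := fun h0 => h2Q ((h.zero_iff _).1 h0)
  obtain ⟨c, hc, he⟩ := h.double Q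
  have e0 := congrFun he 0
  have e1 := congrFun he 1
  simp only [Pi.smul_apply, smul_eq_mul, Matrix.cons_val_zero, Matrix.cons_val_one] at e0 e1
  rw [e1] at h2Q1
  rw [za, e0, e1, mul_div_mul_left _ _ hc, za]
  have h3 : 4 * ζ Q 1 * (ζ Q 0 ^ 3 + a * ζ Q 0 * ζ Q 1 ^ 2 + b * ζ Q 1 ^ 3) ≠ 0 :=
    right_ne_zero_of_mul h2Q1
  have e2 : 4 * ((ζ Q 0 / ζ Q 1) ^ 3 + a * (ζ Q 0 / ζ Q 1) + b) =
      4 * ζ Q 1 * (ζ Q 0 ^ 3 + a * ζ Q 0 * ζ Q 1 ^ 2 + b * ζ Q 1 ^ 3) / ζ Q 1 ^ 4 := by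
    field_simp
  rw [e2, div_mul_div_cancel₀ h3]
  field_simp

theorem SMap.za_cubic_ne (h : SMap a b ζ) (Q : X) (hQ : Q ≠ 0) (h2Q : Q + Q ≠ 0) :
    za (ζ Q) ^ 3 + a * za (ζ Q) + b ≠ 0 := by
  have hQ1 : ζ Q 1 ≠ 0 := fun h0 => hQ ((h.zero_iff Q).1 h0)
  have h2Q1 : ζ (Q + Q) 1 ≠ 0 := fun h0 => h2Q ((h.zero_iff _).1 h0)
  obtain ⟨c, hc, he⟩ := h.double Q
  have e1 := congrFun he 1
  simp only [Pi.smul_apply, smul_eq_mul, Matrix.cons_val_zero, Matrix.cons_val_one] at e1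
  intro h0
  apply h2Q1
  rw [e1]
  have e2 : ζ Q 0 ^ 3 + a * ζ Q 0 * ζ Q 1 ^ 2 + b * ζ Q 1 ^ 3 =
      ζ Q 1 ^ 3 * (za (ζ Q) ^ 3 + a * za (ζ Q) + b) := by
    rw [za]
    field_simp
  rw [e2, h0]
  ring

theorem SMap.za_sub_ne (h : SMap a b ζ) (Q : X) (hQ : Q ≠ 0) (h2Q : Q + Q ≠ 0)
    (h3Q : Q + Q + Q ≠ 0) : za (ζ (Q + Q)) - za (ζ Q) ≠ 0 := by
  have hQ1 : ζ Q 1 ≠ 0 := fun h0 => hQ ((h.zero_iff Q).1 h0)
  have h2Q1 : ζ (Q + Q) 1 ≠ 0 := fun h0 => h2Q ((h.zero_iff _).1 h0)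
  have h3Q1 : ζ (Q + Q + Q) 1 ≠ 0 := fun h0 => h3Q ((h.zero_iff _).1 h0)
  obtain ⟨c, hc, he⟩ := h.rel (Q + Q) Q
  rw [add_sub_cancel_right] at he
  have e2 := congrFun he 2
  simp only [Sm, sy, Pi.smul_apply, smul_eq_mul, Matrix.cons_val_zero, Matrix.cons_val_one,
    Matrix.cons_val] at e2
  intro h0
  have h4 : ζ (Q + Q) 0 * ζ Q 1 - ζ (Q + Q) 1 * ζ Q 0 = 0 := by
    have h5 := sub_eq_zero.1 h0
    rw [za, za, div_eq_div_iff h2Q1 hQ1] at h5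
    linear_combination h5
  have h5 : c * (ζ (Q + Q + Q) 1 * ζ Q 1) = 0 := by
    rw [← e2]
    linear_combination (ζ (Q + Q) 0 * ζ Q 1 - ζ (Q + Q) 1 * ζ Q 0) * h4
  exact mul_ne_zero hc (mul_ne_zero h3Q1 hQ1) h5

theorem SMap.za_sum (h : SMap a b ζ) (Q : X) (hQ : Q ≠ 0) (h2Q : Q + Q ≠ 0)
    (h3Q : Q + Q + Q ≠ 0) :
    (za (ζ (Q + Q + Q)) + za (ζ Q)) * (za (ζ (Q + Q)) - za (ζ Q)) ^ 2 =
      2 * (za (ζ (Q + Q)) + za (ζ Q)) * (za (ζ (Q + Q)) * za (ζ Q) + a) + 4 * b := by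
  have hQ1 : ζ Q 1 ≠ 0 := fun h0 => hQ ((h.zero_iff Q).1 h0)
  have h2Q1 : ζ (Q + Q) 1 ≠ 0 := fun h0 => h2Q ((h.zero_iff _).1 h0)
  have h3Q1 : ζ (Q + Q + Q) 1 ≠ 0 := fun h0 => h3Q ((h.zero_iff _).1 h0)
  obtain ⟨c, hc, he⟩ := h.rel (Q + Q) Q
  rw [add_sub_cancel_right] at he
  have e1 := congrFun he 1
  have e2 := congrFun he 2
  simp only [Sm, sy, Pi.smul_apply, smul_eq_mul, Matrix.cons_val_zero, Matrix.cons_val_one,
    Matrix.cons_val] at e1 e2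
  obtain ⟨z, hz⟩ : ∃ z, z = za (ζ Q) := ⟨_, rfl⟩
  obtain ⟨y, hy⟩ : ∃ y, y = za (ζ (Q + Q)) := ⟨_, rfl⟩
  obtain ⟨x, hx⟩ : ∃ x, x = za (ζ (Q + Q + Q)) := ⟨_, rfl⟩
  have hz' : ζ Q 0 = z * ζ Q 1 := by rw [hz, za]; field_simp
  have hy' : ζ (Q + Q) 0 = y * ζ (Q + Q) 1 := by rw [hy, za]; field_simp
  have hx' : ζ (Q + Q + Q) 0 = x * ζ (Q + Q + Q) 1 := by rw [hx, za]; field_simp
  rw [hz', hy', hx'] at e1
  rw [hz', hy'] at e2
  rw [← hz, ← hy, ← hx]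
  have h4 : ζ (Q + Q) 1 ^ 2 * ζ Q 1 ^ 2 ≠ 0 := mul_ne_zero (pow_ne_zero 2 h2Q1)
    (pow_ne_zero 2 hQ1)
  apply mul_left_cancel₀ h4
  linear_combination (x + z) * e2 - e1

end

end Sq

end LangForms
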