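import Pool.Agent.Lib_MP_f5471b_s.SAbs
import Pool.Agent.Lib_MP_f5471b_s.Model

/-!
# MP_f5471b_nt: the lower bound for all elliptic curves
-/

namespace LangForms

open Height NumberField WeierstrassCurve Topology Filter

namespace Sq

theorem sq_bound (d : ℕ) : ∃ c : ℝ, 0 < c ∧
    ∀ (K : Type) [Field K] [NumberField K] [DecidableEq K], Module.finrank ℚ K ≤ d →
    ∀ (W : WeierstrassCurve K) [W.IsElliptic] (P : W.toAffine.Point),
      (∀ n : ℕ, 1 ≤ n → n • P ≠ 0) →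
      c / (Real.sqrt (1 + hJ W) * Real.log (2 + hJ W) ^ 3) ≤ nt P := by
  obtain ⟨C₃, hC₃, hcomp⟩ := logHeight₁_t_comp
  obtain ⟨c₀, H₀, hc₀, hH₀, hls⟩ := sq_abs d
  obtain ⟨A, hA⟩ : ∃ A : ℝ, A = (d + 1) * (1 + C₃) := ⟨_, rfl⟩
  have hd0 : (0 : ℝ) ≤ d := Nat.cast_nonneg _
  have hA1 : 1 ≤ A := by rw [hA]; nlinarith
  obtain ⟨B, hB⟩ : ∃ B : ℝ, B = max (max (2 * H₀) (2 * C₃)) (max A (Real.log 1728)) := ⟨_, rfl⟩
  have hB1 : 2 * H₀ ≤ B := by rw [hB]; exact (le_max_left _ _).trans (le_max_left _ _)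
  have hB2 : 2 * C₃ ≤ B := by rw [hB]; exact (le_max_right _ _).trans (le_max_left _ _)
  have hB3 : A ≤ B := by rw [hB]; exact (le_max_left _ _).trans (le_max_right _ _)
  have hB4 : Real.log 1728 ≤ B := by rw [hB]; exact (le_max_right _ _).trans (le_max_right _ _)
  obtain ⟨lam, hlam, hbdd⟩ := bdd_bound d B
  obtain ⟨c, hc⟩ : ∃ c : ℝ, c = min (lam / 8) (c₀ / (16 * (d + 1) * Real.sqrt A)) := ⟨_, rfl⟩
  have hsA : 0 < Real.sqrt A := Real.sqrt_pos.2 (by linarith)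
  have hcpos : 0 < c := by rw [hc]; exact lt_min (by positivity) (by positivity)
  have hc1 : c ≤ lam / 8 := by rw [hc]; exact min_le_left _ _
  have hc2 : c ≤ c₀ / (16 * (d + 1) * Real.sqrt A) := by rw [hc]; exact min_le_right _ _
  refine ⟨c, hcpos, ?_⟩
  intro K _ _ _ hK W _ P hP
  have hJ0 := hJ_nonneg W
  have hlog2 : 1 / 2 ≤ Real.log (2 + hJ W) := by
    have h1 := Real.log_two_gt_d9
    have h2 := Real.log_le_log (by norm_num : (0 : ℝ) < 2) (by linarith : (2 : ℝ) ≤ 2 + hJ W)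
    linarith
  have hs1 : 1 ≤ Real.sqrt (1 + hJ W) := by
    rw [Real.one_le_sqrt]; linarith
  by_cases hbig : hJ W ≤ B
  · refine le_trans ?_ (hbdd K hK W hbig P hP)
    rw [div_le_iff₀ (by positivity)]
    have h1 : (1 / 2 : ℝ) ^ 3 ≤ Real.log (2 + hJ W) ^ 3 :=
      pow_le_pow_left₀ (by norm_num) hlog2 3
    have h2 : 1 * (1 / 2 : ℝ) ^ 3 ≤ Real.sqrt (1 + hJ W) * Real.log (2 + hJ W) ^ 3 :=
      mul_le_mul hs1 h1 (by norm_num) (by linarith)
    nlinarith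
  push Not at hbig
  have hnK : (0 : ℝ) < Module.finrank ℚ K := by exact_mod_cast Module.finrank_pos
  have hK1 : (1 : ℝ) ≤ Module.finrank ℚ K := by
    exact_mod_cast Nat.succ_le_of_lt Module.finrank_pos
  have hKd : (Module.finrank ℚ K : ℝ) ≤ d := by exact_mod_cast hK
  have hj0 : W.j ≠ 0 := by
    intro h
    have : hJ W = 0 := by rw [hJ, h, logHeight₁_zero, zero_div]
    linarith
  have hj1 : W.j ≠ 1728 := by
    intro h
    have : hJ W ≤ Real.log 1728 := by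
      rw [hJ, h, div_le_iff₀ hnK, mul_comm]
      exact TCondAux.height_1728
    linarith
  obtain ⟨h4, h6, ht, ht0, hκ⟩ := t_eq W hj0 hj1
  obtain ⟨t, htd⟩ : ∃ t : K, t = W.Δ / W.c₆ ^ 2 := ⟨_, rfl⟩
  rw [← htd] at ht ht0 hκ
  have hcmp := hcomp K _ hj1
  rw [← ht] at hcmp
  have hhJ : hJ W * Module.finrank ℚ K = logHeight₁ W.j := by
    rw [hJ]
    field_simp
  rw [← hhJ] at hcmp
  obtain ⟨H, hH⟩ : ∃ H : ℝ, H = logHeight₁ t := ⟨_, rfl⟩
  obtain ⟨f, hf⟩ : ∃ f : ℝ, f = Module.finrank ℚ K := ⟨_, rfl⟩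
  obtain ⟨h, hh⟩ : ∃ h : ℝ, h = hJ W := ⟨_, rfl⟩
  rw [← hf, ← hH, ← hh] at hcmp
  rw [← hf] at hnK hK1 hKd
  rw [← hh] at hbig hJ0 hlog2 hs1 ⊢
  have hHlow : H₀ ≤ H := by
    have h2 := (abs_le.1 hcmp).1
    have h3 : 1 * (h - C₃) ≤ f * (h - C₃) := mul_le_mul_of_nonneg_right hK1 (by linarith)
    linarith
  have hHup : H ≤ A * (1 + h) := by
    have h2 := (abs_le.1 hcmp).2
    have h3 : f * (h + C₃) ≤ (d + 1) * (h + C₃) :=
      mul_le_mul_of_nonneg_right (by linarith) (by linarith)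
    have h4 : h + C₃ ≤ (1 + C₃) * (1 + h) := by nlinarith
    have h5 : ((d : ℝ) + 1) * (h + C₃) ≤ (d + 1) * ((1 + C₃) * (1 + h)) :=
      mul_le_mul_of_nonneg_left h4 (by linarith)
    rw [hA]
    linarith
  have hxm := xmap_W W h4 h6
  rw [← htd] at hxm
  have hmain := hls K hK t ht0 hκ (by rw [← hH]; exact hHlow) _ _ hxm (canX hx)
    canX_hx_nsmul (tendsto_xi W h4 h6) P hP
  rw [← hH, canX_eq_nt, ← hf] at hmain
  have hH3 : 3 ≤ H := hH₀.trans hHlow
  have hHpos : 0 < H := by linarith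
  have hlogH : 0 < Real.log H := Real.log_pos (by linarith)
  have hlogH2 : Real.log H ≤ 2 * Real.log (2 + h) := by
    have h1 : H ≤ (2 + h) * (2 + h) := by
      refine hHup.trans ?_
      have h2 : A ≤ 2 + h := by linarith
      exact mul_le_mul h2 (by linarith) (by linarith) (by linarith)
    have h2 := Real.log_le_log hHpos h1
    rw [Real.log_mul (by linarith) (by linarith)] at h2
    linarith
  have hsH : Real.sqrt H ≤ Real.sqrt A * Real.sqrt (1 + h) := by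
    rw [← Real.sqrt_mul (by linarith)]
    exact Real.sqrt_le_sqrt hHup
  have hden : Real.sqrt H * Real.log H ^ 3 ≤
      Real.sqrt A * Real.sqrt (1 + h) * (2 * Real.log (2 + h)) ^ 3 :=
    mul_le_mul hsH (pow_le_pow_left₀ hlogH.le hlogH2 3) (by positivity) (by positivity)
  have h1 : c₀ / (Real.sqrt A * Real.sqrt (1 + h) * (2 * Real.log (2 + h)) ^ 3) ≤ 2 * f * nt P :=
    (div_le_div_of_nonneg_left hc₀.le (by positivity) hden).trans hmain
  have hnt := nt_nonneg P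
  have h2 : 2 * f * nt P ≤ 2 * (d + 1) * nt P :=
    mul_le_mul_of_nonneg_right (by linarith) hnt
  have h3 : c / (Real.sqrt (1 + h) * Real.log (2 + h) ^ 3) * (2 * (d + 1)) ≤
      c₀ / (Real.sqrt A * Real.sqrt (1 + h) * (2 * Real.log (2 + h)) ^ 3) := by
    have h4 : c / (Real.sqrt (1 + h) * Real.log (2 + h) ^ 3) ≤
        c₀ / (16 * (d + 1) * Real.sqrt A) / (Real.sqrt (1 + h) * Real.log (2 + h) ^ 3) :=
      div_le_div_of_nonneg_right hc2 (by positivity)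
    refine (mul_le_mul_of_nonneg_right h4 (by positivity)).trans (le_of_eq ?_)
    field_simp
    norm_num
  have h5 : 0 < 2 * ((d : ℝ) + 1) := by positivity
  have h6 := (h3.trans h1).trans h2
  rw [mul_comm] at h6
  exact le_of_mul_le_mul_left h6 h5

end Sq

end LangForms
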